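import Pool.Agent.G3.R.HolD
import Pool.Agent.TN.Osg

/-!
# G3 R Hol: sheets over the whole space are holomorphic off `D`

Here `E = ⊤`.  `sheet_dif` (`R/HolD`): complex differentiability on complex lines.  `sheet_cont`: continuity off `D`.
`sheet_hol`: `ψ y = nv v (φ y)`, continuous, bounded near `y₀` and complex differentiable on all complex lines: `osgood_pi` (`TN/Osg`).
-/

set_option autoImplicit false

open Topology Filter Metric

namespace Pool.Agent.G3.R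

open Pool.Agent.H36.BP (EN fs wd)
open Pool.Agent.H14.PP (IsCone CurveAt Tan)
open Pool.Agent.H62.EF (MN pr)
open Pool.Agent.AD (Vd Chart Charts IsGerm)
open Pool.Agent.TG
open Pool.Agent.G3.C (Gc HP nv nd nv_pr pr_nv)
open Pool.Agent.G3.A

variable {N k : ℕ} {X : Set (EN N)} {Λ : AddSubgroup (Vd (k + 1))} {u : EN N → Vd (k + 1)} {D B Bad : Set (Vd (k + 1))} {a b : Vd (k + 1)}
  {SS : Set (Vd (k + 1) → MN N)} {J : ℕ} {α : Fin J → VForm X Λ u} {c₀ C₀ ρ δ : ℝ}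

theorem sheet_cont (hS : Shs X Λ u D a b ⊤ SS) {φ : Vd (k + 1) → MN N} (hφ : φ ∈ SS) {y : Vd (k + 1)} (hy : y ∉ D) : ContinuousAt φ y := by
  have h1 := (hS.sht φ hφ).cont y (mem_tb_top b y) hy
  have h2 : Tb b (⊤ : Submodule ℝ (Vd (k + 1))) = Set.univ := Set.eq_univ_of_forall (mem_tb_top b)
  rwa [h2, continuousWithinAt_univ] at h1

theorem sheet_hol (S : DA X Λ u D B Bad a α c₀ C₀ ρ δ) (hS : Shs X Λ u D a b ⊤ SS) {φ : Vd (k + 1) → MN N} (hφ : φ ∈ SS) {y₀ : Vd (k + 1)} (h0 : y₀ ∉ D) :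
    ∃ ψ : Vd (k + 1) → EN N, AnalyticAt ℂ ψ y₀ ∧ ∀ᶠ y in 𝓝 y₀, ψ y ∈ X ∧ φ y = pr (ψ y) ∧ u (ψ y) - y ∈ Λ := by
  have hX := S.geo.cone
  have hunit : ∀ y : Vd (k + 1), ∃ v ∈ X, ‖v‖ = 1 ∧ pr v = φ y := by
    intro y
    obtain ⟨x, hx, hxm, -⟩ := hS.fb hφ (mem_tb_top b y)
    obtain ⟨c, hc, hcX, hcs⟩ := exists_unit hX hx
    exact ⟨c • x, hcX, mem_sphere_zero_iff_norm.1 hcs, by rw [Pool.Agent.H62.EF.pr_smul x hc, hxm]⟩
  obtain ⟨v, -, hv, hprv⟩ := hunit y₀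
  obtain ⟨ε₁, hε₁, hn⟩ := nv_near (N := N) (η := 1) one_pos
  obtain ⟨ε₂, hε₂, hin⟩ := inner_near (N := N) (η := 1 / 2) (by norm_num)
  have hU : ∀ᶠ y in 𝓝 y₀, y ∉ D ∧ dist (φ y) (pr v) ≤ min ε₁ ε₂ := by
    have h00 : ∀ᶠ y in 𝓝 y₀, y ∉ D := S.geo.D_closed.isOpen_compl.mem_nhds h0
    refine h00.and ?_
    have h1 : Tendsto (fun y => dist (φ y) (pr v)) (𝓝 y₀) (𝓝 (dist (φ y₀) (pr v))) := (sheet_cont hS hφ h0).dist continuousAt_const
    rw [hprv, dist_self, ← hprv] at h1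
    exact (h1.eventually (gt_mem_nhds (lt_min hε₁ hε₂))).mono fun y hy => hy.le
  have hlift : ∀ v' : EN N, ‖v'‖ = 1 → ∀ y : Vd (k + 1), dist (φ y) (pr v') ≤ ε₂ → ∃ x ∈ X, φ y = pr x ∧ inner ℂ v' x ≠ (0 : ℂ) := by
    intro v' hv' y hy
    obtain ⟨x, hx, hxm, -⟩ := hS.fb hφ (mem_tb_top b y)
    refine ⟨x, hx, hxm.symm, ?_⟩
    rw [← hxm] at hy
    exact (hin v' hv' x (ne_zero hX hx) hy).1
  obtain ⟨R, hR, hball⟩ := Metric.eventually_nhds_iff_ball.1 hU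
  refine ⟨fun y => nv v (φ y), Pool.Agent.TN.osgood_pi (r := R) (M := 2) hR ?_ ?_, ?_⟩
  · intro y hy
    have h1 := hn v hv (φ y) ((hball y hy).2.trans (min_le_left _ _))
    have h2 := norm_sub_norm_le (nv v (φ y)) v
    rw [hv] at h2
    linarith
  · intro y hy l
    obtain ⟨v', hv'X, hv', hprv'⟩ := hunit y
    have hyD : y ∉ D := (hball y hy).1
    set e : Vd (k + 1) := Pi.single l 1 with he
    have hd := sheet_dif S hS hφ hyD hv' hprv' e
    have h1 : inner ℂ v (nv v' (φ (y + (0 : ℂ) • e))) ≠ (0 : ℂ) := by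
      rw [zero_smul, add_zero, ← hprv', nv_self hv']
      have h2 := (hball y hy).2.trans (min_le_right _ _)
      rw [← hprv'] at h2
      exact (hin v hv v' (ne_zero hX hv'X) h2).1
    have h3 : DifferentiableAt ℂ (fun t : ℂ => (inner ℂ v (nv v' (φ (y + t • e))) : ℂ)⁻¹ • nv v' (φ (y + t • e))) 0 := by
      have h4 : DifferentiableAt ℂ (fun t : ℂ => (inner ℂ v (nv v' (φ (y + t • e))) : ℂ)) 0 := (innerSL ℂ v).differentiableAt.comp (0 : ℂ) hd
      exact (h4.inv h1).smul hd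
    refine h3.congr_of_eventuallyEq ?_
    have hc : Tendsto (fun t : ℂ => y + t • e) (𝓝 0) (𝓝 y) := by
      have h5 : Continuous fun t : ℂ => y + t • e := by fun_prop
      have h6 := h5.tendsto 0
      rwa [zero_smul, add_zero] at h6
    have h7 : ∀ᶠ z in 𝓝 y, dist (φ z) (pr v') ≤ ε₂ := by
      have h8 : Tendsto (fun z => dist (φ z) (pr v')) (𝓝 y) (𝓝 (dist (φ y) (pr v'))) := (sheet_cont hS hφ hyD).dist continuousAt_const
      rw [hprv', dist_self, ← hprv'] at h8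
      exact (h8.eventually (gt_mem_nhds hε₂)).mono fun z hz => hz.le
    filter_upwards [hc.eventually (isOpen_ball.mem_nhds hy), hc.eventually h7] with t ht1 ht2
    obtain ⟨x, hx, hxm, hx1⟩ := hlift v hv _ ((hball _ ht1).2.trans (min_le_right _ _))
    have hx2 : inner ℂ v' x ≠ (0 : ℂ) := by
      rw [hxm] at ht2
      exact (hin v' hv' x (ne_zero hX hx) ht2).1
    show nv v (φ (y + t • e)) = _
    rw [hxm]
    exact nv_nv hx1 hx2
  · filter_upwards [hU] with y hy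
    obtain ⟨x, hx, hxm, hx1⟩ := hlift v hv y (hy.2.trans (min_le_right _ _))
    have h1 : nv v (φ y) ∈ X := by
      rw [hxm, nv_pr hx1]
      exact hX.smul_mem x hx _ (inv_ne_zero hx1)
    have h2 : pr (nv v (φ y)) = φ y := by
      rw [hxm]
      exact pr_nv hx1
    exact ⟨h1, h2.symm, fb_lift hX S.geo.tor (hS.fb hφ (mem_tb_top b y)) h1 h2⟩

end Pool.Agent.G3.R
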