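import Pool.Agent.G3.R.DD
import Pool.Agent.G3.C.GenA
import Pool.Agent.G3.A.DDJet

/-!
# G3 R Jet: functions with bounded divided differences are smooth

If the divided differences of `f (·, z)` of every order are locally bounded (uniformly in `z`) and `f (s, ·)` is holomorphic, then `w j s z = j! lim f (·, z) [σ]`, `σ → (s, …, s)`, exists,
uniformly in `z` locally (the divided differences of order `j` are Lipschitz functions of the nodes: `dd_succ`, `dd_perm`), so `w j` is continuous and holomorphic in `z`, and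
`∂ w j / ∂ s = w (j + 1)`: `f [σ + h] - f [σ] = h ∑ i, f [σ 0, …, σ i, σ i + h, …, σ j + h]` (telescoping sum with `dd_succ`).

Here: on a compact set the divided differences are bounded also for nodes which are not near to each other (`dd_compact`), and `dd_jet` of `A/DDJet` is applied locally; `w j` is the iterated derivative.
-/

set_option autoImplicit false

open Finset Metric Set Topology Filter

namespace Pool.Agent.G3.R

open Pool.Agent.G3.C (JetFam)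

/-- the divided differences for sets of nodes near a point -/
private theorem dd_local {g : ℝ → ℂ} {s₁ r C : ℝ} {m : ℕ} (h : ∀ σ : ℕ → ℝ, Nod m σ r → ‖dd m σ (fun s => g (s₁ + s))‖ ≤ C) {S : Finset ℝ}
    (hS : ∀ a ∈ S, |a - s₁| ≤ r) (hcard : S.card = m + 1) : ‖A.dd S g‖ ≤ C := by
  classical
  set σ : ℕ → ℝ := fun i => if hi : i < m + 1 then S.orderEmbOfFin hcard ⟨i, hi⟩ - s₁ else 0 with hσ
  have hσi : ∀ (i : ℕ) (hi : i < m + 1), σ i = S.orderEmbOfFin hcard ⟨i, hi⟩ - s₁ := fun i hi => by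
    rw [hσ]
    exact dif_pos hi
  have hnod : Nod m σ r := by
    refine ⟨fun i hi j hj hij => ?_, fun i hi => ?_⟩
    · rw [hσi i (by omega), hσi j (by omega)] at hij
      have h1 := (S.orderEmbOfFin hcard).injective (sub_left_injective hij)
      exact Fin.mk.inj_iff.1 h1
    · rw [hσi i (by omega)]
      exact hS _ (S.orderEmbOfFin_mem hcard _)
  have h1 := h σ hnod
  rw [dd_eq hnod.inj] at h1
  have h2 : ((range (m + 1)).image σ).image (fun t => t + s₁) = S := by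
    ext x
    rw [Finset.image_image, Finset.mem_image]
    constructor
    · rintro ⟨i, hi, rfl⟩
      rw [Finset.mem_range] at hi
      show σ i + s₁ ∈ S
      rw [hσi i hi, sub_add_cancel]
      exact S.orderEmbOfFin_mem hcard _
    · intro hx
      have h3 : x ∈ Set.range (S.orderEmbOfFin hcard) := by
        rw [S.range_orderEmbOfFin hcard]
        exact hx
      obtain ⟨i, rfl⟩ := h3
      refine ⟨i, Finset.mem_range.2 i.2, ?_⟩
      show σ i + s₁ = _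
      rw [hσi i i.2, sub_add_cancel]
  have h3 : A.dd S g = A.dd ((range (m + 1)).image σ) (fun t => g (s₁ + t)) := by
    conv_lhs => rw [← h2]
    rw [A.dd_image_add]
    exact A.dd_congr fun a _ => by rw [add_comm]
  rw [h3]
  exact h1

/-- near nodes in a compact set -/
private theorem dd_near {J : Set ℝ} {K : Set ℂ} (hJ : IsCompact J) (hK : IsCompact K) {f : ℝ → ℂ → ℂ} {m : ℕ}
    (hdd : ∀ s₁ ∈ J, ∀ z₁ ∈ K, ∃ r C : ℝ, 0 < r ∧ ∀ z ∈ ball z₁ r, ∀ σ : ℕ → ℝ, Nod m σ r → ‖dd m σ (fun s => f (s₁ + s) z)‖ ≤ C) :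
    ∃ δ C : ℝ, 0 < δ ∧ ∀ q ∈ J ×ˢ K, ∀ S : Finset ℝ, (∀ b ∈ S, |b - q.1| ≤ δ) → S.card = m + 1 → ‖A.dd S (fun s => f s q.2)‖ ≤ C := by
  refine (hJ.prod hK).induction_on (p := fun A' => ∃ δ C : ℝ, 0 < δ ∧ ∀ q ∈ A', ∀ S : Finset ℝ, (∀ b ∈ S, |b - q.1| ≤ δ) → S.card = m + 1 →
    ‖A.dd S (fun s => f s q.2)‖ ≤ C) ?_ ?_ ?_ ?_
  · exact ⟨1, 0, one_pos, fun q hq => absurd hq (Set.notMem_empty q)⟩
  · rintro s t hst ⟨δ, C, h1, h2⟩
    exact ⟨δ, C, h1, fun q hq => h2 q (hst hq)⟩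
  · rintro s t ⟨δ, C, h1, h2⟩ ⟨δ', C', h1', h2'⟩
    refine ⟨min δ δ', max C C', lt_min h1 h1', ?_⟩
    rintro q (hq | hq) S hS hcard
    · exact (h2 q hq S (fun b hb => (hS b hb).trans (min_le_left _ _)) hcard).trans (le_max_left _ _)
    · exact (h2' q hq S (fun b hb => (hS b hb).trans (min_le_right _ _)) hcard).trans (le_max_right _ _)
  · rintro ⟨s₁, z₁⟩ ⟨hs, hz⟩
    obtain ⟨r, C, hr, hC⟩ := hdd s₁ hs z₁ hz
    refine ⟨ball s₁ (r / 2) ×ˢ ball z₁ r, mem_nhdsWithin_of_mem_nhds (prod_mem_nhds (ball_mem_nhds _ (by linarith)) (ball_mem_nhds _ hr)), r / 2, C, by linarith, ?_⟩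
    rintro ⟨a, z⟩ ⟨ha, hz'⟩ S hS hcard
    refine dd_local (g := fun s => f s z) (hC z hz') (fun b hb => ?_) hcard
    have h1 : |b - a| ≤ r / 2 := hS b hb
    have h2 : |a - s₁| < r / 2 := ha
    have h3 := abs_sub_le b a s₁
    linarith

/-- all nodes in a compact set -/
private theorem dd_compact {J : Set ℝ} {K : Set ℂ} (hJ : IsCompact J) (hK : IsCompact K) {f : ℝ → ℂ → ℂ}
    (hdd : ∀ m : ℕ, ∀ s₁ ∈ J, ∀ z₁ ∈ K, ∃ r C : ℝ, 0 < r ∧ ∀ z ∈ ball z₁ r, ∀ σ : ℕ → ℝ, Nod m σ r → ‖dd m σ (fun s => f (s₁ + s) z)‖ ≤ C) (m : ℕ) :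
    ∃ C : ℝ, ∀ z ∈ K, ∀ S : Finset ℝ, (∀ a ∈ S, a ∈ J) → S.card = m + 1 → ‖A.dd S (fun s => f s z)‖ ≤ C := by
  classical
  induction m with
  | zero =>
    obtain ⟨δ, C, hδ, hC⟩ := dd_near hJ hK (hdd 0)
    refine ⟨C, fun z hz S hS hcard => ?_⟩
    obtain ⟨a, rfl⟩ := Finset.card_eq_one.1 hcard
    refine hC (a, z) ⟨hS a (Finset.mem_singleton_self a), hz⟩ _ (fun b hb => ?_) hcard
    rw [Finset.mem_singleton] at hb
    rw [hb]
    simpa using hδ.le
  | succ m ih =>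
    obtain ⟨C', hC'⟩ := ih
    obtain ⟨δ, C, hδ, hC⟩ := dd_near hJ hK (hdd (m + 1))
    refine ⟨max C (δ⁻¹ * (C' + C')), fun z hz S hS hcard => ?_⟩
    by_cases hfar : ∃ a ∈ S, ∃ b ∈ S, δ < |b - a|
    · obtain ⟨a, ha, b, hb, hab⟩ := hfar
      have hne : a ≠ b := by
        rintro rfl
        rw [sub_self, abs_zero] at hab
        linarith
      obtain ⟨S₀, hS₀, hbS₀, haS₀⟩ : ∃ S₀ : Finset ℝ, insert a (insert b S₀) = S ∧ b ∉ S₀ ∧ a ∉ S₀ := by
        refine ⟨(S.erase a).erase b, ?_, Finset.notMem_erase b _, fun h => Finset.notMem_erase a S (Finset.mem_of_mem_erase h)⟩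
        rw [Finset.insert_erase (Finset.mem_erase.2 ⟨hne.symm, hb⟩), Finset.insert_erase ha]
      have hcard0 : S₀.card = m := by
        rw [← hS₀, Finset.card_insert_of_notMem, Finset.card_insert_of_notMem hbS₀] at hcard
        · omega
        · rw [Finset.mem_insert, not_or]
          exact ⟨hne, haS₀⟩
      have hsub : ∀ x ∈ S₀, x ∈ J := fun x hx => hS x (by rw [← hS₀]; exact Finset.mem_insert_of_mem (Finset.mem_insert_of_mem hx))
      have h1 : ‖A.dd (insert b S₀) (fun s => f s z)‖ ≤ C' := hC' z hz _ (fun x hx => by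
        rcases Finset.mem_insert.1 hx with rfl | hx
        · exact hS x hb
        · exact hsub x hx) (by rw [Finset.card_insert_of_notMem hbS₀, hcard0])
      have h2 : ‖A.dd (insert a S₀) (fun s => f s z)‖ ≤ C' := hC' z hz _ (fun x hx => by
        rcases Finset.mem_insert.1 hx with rfl | hx
        · exact hS x ha
        · exact hsub x hx) (by rw [Finset.card_insert_of_notMem haS₀, hcard0])
      rw [← hS₀, A.dd_insert_insert hne haS₀ hbS₀, norm_smul, norm_inv, Real.norm_eq_abs]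
      refine le_trans ?_ (le_max_right _ _)
      have h3 : |b - a|⁻¹ ≤ δ⁻¹ := inv_anti₀ hδ hab.le
      have h4 : ‖A.dd (insert b S₀) (fun s => f s z) - A.dd (insert a S₀) (fun s => f s z)‖ ≤ C' + C' := (norm_sub_le _ _).trans (add_le_add h1 h2)
      exact mul_le_mul h3 h4 (norm_nonneg _) (inv_nonneg.2 hδ.le)
    · push Not at hfar
      obtain ⟨a, ha⟩ : S.Nonempty := Finset.card_pos.1 (by omega)
      exact (hC (a, z) ⟨hS a ha, hz⟩ S (fun b hb => hfar a ha b hb) hcard).trans (le_max_left _ _)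

theorem jetFam_of_dd {I : Set ℝ} {Ω : Set ℂ} (hI : IsOpen I) (hΩ : IsOpen Ω) {f : ℝ → ℂ → ℂ} (hol : ∀ s ∈ I, DifferentiableOn ℂ (f s) Ω)
    (hdd : ∀ m : ℕ, ∀ s₁ ∈ I, ∀ z₁ ∈ Ω, ∃ r C : ℝ, 0 < r ∧ ∀ z ∈ ball z₁ r, ∀ σ : ℕ → ℝ, Nod m σ r → ‖dd m σ (fun s => f (s₁ + s) z)‖ ≤ C) :
    ∃ w : ℕ → ℝ → ℂ → ℂ, (∀ s ∈ I, ∀ z ∈ Ω, w 0 s z = f s z) ∧ JetFam w I Ω := by
  set w : ℕ → ℝ → ℂ → ℂ := fun j s z => iteratedDeriv j (fun t => f t z) s with hw
  have hloc : ∀ s₀ ∈ I, ∀ z₀ ∈ Ω, ∃ (J : Set ℝ) (D : Set ℂ) (W : ℕ → ℝ → ℂ → ℂ), IsOpen J ∧ IsOpen D ∧ s₀ ∈ J ∧ z₀ ∈ D ∧ JetFam W J D ∧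
      ∀ j, ∀ s ∈ J, ∀ z ∈ D, w j s z = W j s z := by
    intro s₀ hs₀ z₀ hz₀
    obtain ⟨ρ, hρ, hρI⟩ := Metric.nhds_basis_closedBall.mem_iff.1 (hI.mem_nhds hs₀)
    obtain ⟨ρ', hρ', hρΩ⟩ := Metric.nhds_basis_closedBall.mem_iff.1 (hΩ.mem_nhds hz₀)
    have hBD : A.BD f (ball s₀ ρ) (ball z₀ ρ') := by
      refine ⟨fun s hs => (hol s (hρI (ball_subset_closedBall hs))).mono (ball_subset_closedBall.trans hρΩ), fun m => ?_⟩
      obtain ⟨C, hC⟩ := dd_compact (isCompact_closedBall s₀ ρ) (isCompact_closedBall z₀ ρ') (f := f)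
        (fun m s hs z hz => hdd m s (hρI hs) z (hρΩ hz)) m
      exact ⟨C, fun z hz S hS hcard => hC z (ball_subset_closedBall hz) S (fun a ha => ball_subset_closedBall (hS a ha)) hcard⟩
    obtain ⟨W, hW0, hW, -⟩ := A.dd_jet isOpen_ball isOpen_ball hBD
    refine ⟨ball s₀ ρ, ball z₀ ρ', W, isOpen_ball, isOpen_ball, mem_ball_self hρ, mem_ball_self hρ', hW, ?_⟩
    intro j
    induction j with
    | zero =>
      intro s _ z _
      rw [hw, hW0]
      simp only [iteratedDeriv_zero]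
    | succ j ih =>
      intro s hs z hz
      have h1 : (fun t => iteratedDeriv j (fun t => f t z) t) =ᶠ[𝓝 s] fun t => W j t z := by
        filter_upwards [isOpen_ball.mem_nhds hs] with t ht
        exact ih t ht z hz
      show iteratedDeriv (j + 1) (fun t => f t z) s = W (j + 1) s z
      rw [iteratedDeriv_succ]
      exact (h1.deriv_eq).trans (hW.der j s hs z hz).deriv
  refine ⟨w, fun s _ z _ => ?_, ⟨?_, ?_, ?_⟩⟩
  · rw [hw]
    simp only [iteratedDeriv_zero]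
  · intro j s hs z hz
    obtain ⟨J, D, W, hJ, hD, hsJ, hzD, hW, hWe⟩ := hloc s hs z hz
    rw [hWe (j + 1) s hsJ z hzD]
    refine (hW.der j s hsJ z hzD).congr_of_eventuallyEq ?_
    filter_upwards [hJ.mem_nhds hsJ] with t ht
    exact hWe j t ht z hzD
  · rintro j ⟨s, z⟩ ⟨hs, hz⟩
    obtain ⟨J, D, W, hJ, hD, hsJ, hzD, hW, hWe⟩ := hloc s hs z hz
    have hn : J ×ˢ D ∈ 𝓝 (s, z) := (hJ.prod hD).mem_nhds ⟨hsJ, hzD⟩
    have h1 : ContinuousAt (fun q : ℝ × ℂ => W j q.1 q.2) (s, z) := (hW.cont j).continuousAt hn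
    refine (h1.congr ?_).continuousWithinAt
    filter_upwards [hn] with q hq
    exact (hWe j q.1 hq.1 q.2 hq.2).symm
  · intro j s hs z hz
    obtain ⟨J, D, W, hJ, hD, hsJ, hzD, hW, hWe⟩ := hloc s hs z hz
    have h1 : DifferentiableAt ℂ (W j s) z := (hW.hol j s hsJ).differentiableAt (hD.mem_nhds hzD)
    refine (h1.congr_of_eventuallyEq ?_).differentiableWithinAt
    filter_upwards [hD.mem_nhds hzD] with x hx
    exact hWe j s hsJ x hx

end Pool.Agent.G3.R
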