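import Pool.Agent.G3.R.DD

/-!
# G3 R Comp: divided differences of a composition

`Ψ (x, ζ)` holomorphic and bounded by `M` on `ball x₀ R × ball 0 R`, `f` a function of a real variable with values in `ball x₀ (R / 4)` at the nodes, whose divided differences of the orders `≤ m`
are bounded by `C`.  Let `p = np m σ f`; if `r` is small, `p ζ ∈ ball x₀ (R / 2)` for `|ζ| < 2 r`, `Ψ (p ζ, ζ)` is holomorphic: `dd_cauchy`.  At the nodes `σ 0, …, σ m` it agrees with `Ψ (f s, s)`: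
`dd_last`, `sub_np`, and `Ψ (·, ζ)` is Lipschitz on `ball x₀ (R / 2)` with the constant `4 M / R` (Cauchy's estimate).
-/

set_option autoImplicit false

open Finset Metric Set

namespace Pool.Agent.G3.R

/-- `Ψ (·, ζ)` is Lipschitz -/
theorem lip_comp {E F : Type*} [NormedAddCommGroup E] [NormedSpace ℂ E] [NormedAddCommGroup F] [NormedSpace ℂ F] {Ψ : E → F} {x₀ : E} {R M : ℝ} (hR : 0 < R)
    (hΨ : DifferentiableOn ℂ Ψ (ball x₀ R)) (hM : ∀ x ∈ ball x₀ R, ‖Ψ x‖ ≤ M) {x y : E} (hx : x ∈ ball x₀ (R / 2)) (hy : y ∈ ball x₀ (R / 2)) :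
    ‖Ψ x - Ψ y‖ ≤ 4 * M / R * ‖x - y‖ := by
  rcases eq_or_ne x y with rfl | hxy
  · simp only [sub_self, norm_zero, mul_zero, le_refl]
  have hv : 0 < ‖x - y‖ := norm_pos_iff.mpr (sub_ne_zero.mpr hxy)
  set v := x - y with hvdef
  have hseg : ∀ t ∈ Icc (0 : ℝ) 1, y + (t : ℂ) • v ∈ ball x₀ (R / 2) := by
    intro t ht
    have h1 := (convex_ball x₀ (R / 2)).add_smul_sub_mem hy hx ht
    rwa [Complex.coe_smul]
  set ρ : ℝ := R / (4 * ‖v‖) with hρdef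
  have hρ : 0 < ρ := by positivity
  have hρv : ρ * ‖v‖ = R / 4 := by
    rw [hρdef]
    field_simp
  have hsub : ∀ t ∈ Icc (0 : ℝ) 1, ∀ s : ℂ, dist s (t : ℂ) ≤ 2 * ρ → y + s • v ∈ ball x₀ R := by
    intro t ht s hs
    have h1 := hseg t ht
    have h2 : ‖(s - (t : ℂ)) • v‖ ≤ R / 2 := by
      rw [norm_smul, ← dist_eq_norm]
      calc dist s (t : ℂ) * ‖v‖ ≤ 2 * ρ * ‖v‖ := mul_le_mul_of_nonneg_right hs hv.le
        _ = R / 2 := by linarith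
    rw [mem_ball] at h1 ⊢
    calc dist (y + s • v) x₀ ≤ dist (y + s • v) (y + (t : ℂ) • v) + dist (y + (t : ℂ) • v) x₀ := dist_triangle _ _ _
      _ < R / 2 + R / 2 := by
        rw [dist_eq_norm (y + s • v), add_sub_add_left_eq_sub, ← sub_smul]
        linarith
      _ = R := by ring
  have hder : ∀ t ∈ Icc (0 : ℝ) 1, HasDerivAt (fun s : ℝ => Ψ (y + (s : ℂ) • v)) (deriv (fun s : ℂ => Ψ (y + s • v)) (t : ℂ)) t ∧
      ‖deriv (fun s : ℂ => Ψ (y + s • v)) (t : ℂ)‖ ≤ 4 * M / R * ‖v‖ := by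
    intro t ht
    have hd : DifferentiableOn ℂ (fun s : ℂ => Ψ (y + s • v)) (ball (t : ℂ) (2 * ρ)) := by
      apply hΨ.fun_comp
      · fun_prop
      · intro s hs
        exact hsub t ht s (mem_ball.mp hs).le
    have hcl : DiffContOnCl ℂ (fun s : ℂ => Ψ (y + s • v)) (ball (t : ℂ) ρ) := hd.diffContOnCl_ball (closedBall_subset_ball (by linarith))
    have h1 := Complex.norm_deriv_le_of_forall_mem_sphere_norm_le hρ hcl (C := M) fun s hs => hM _ (hsub t ht s (by rw [mem_sphere.mp hs]; linarith))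
    have h2 : HasDerivAt (fun s : ℂ => Ψ (y + s • v)) (deriv (fun s : ℂ => Ψ (y + s • v)) (t : ℂ)) (t : ℂ) :=
      ((hd _ (mem_ball_self (by positivity))).differentiableAt (isOpen_ball.mem_nhds (mem_ball_self (by positivity)))).hasDerivAt
    refine ⟨?_, h1.trans (le_of_eq ?_)⟩
    · have h3 : HasDerivAt (fun s : ℝ => Ψ (y + (s : ℂ) • v)) (Complex.ofRealCLM 1 • deriv (fun s : ℂ => Ψ (y + s • v)) (t : ℂ)) t :=
        HasDerivAt.scomp t h2 (Complex.ofRealCLM.hasDerivAt (x := t))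
      rwa [Complex.ofRealCLM_apply, Complex.ofReal_one, one_smul] at h3
    · rw [hρdef]
      field_simp
  have h1 := norm_image_sub_le_of_norm_deriv_le_segment_01' (f := fun s : ℝ => Ψ (y + (s : ℂ) • v))
    (fun t ht => (hder t ht).1.hasDerivWithinAt) (fun t ht => (hder t ⟨ht.1, ht.2.le⟩).2)
  simpa [hvdef] using h1

theorem dd_comp (m : ℕ) {R C : ℝ} (hR : 0 < R) (hC : 0 ≤ C) : ∃ r K : ℝ, 0 < r ∧ 0 < K ∧
    ∀ (E F : Type) [NormedAddCommGroup E] [NormedSpace ℂ E] [NormedAddCommGroup F] [NormedSpace ℂ F] [CompleteSpace F] (Ψ : E × ℂ → F) (x₀ : E) (M : ℝ), 0 ≤ M →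
      DifferentiableOn ℂ Ψ (ball x₀ R ×ˢ ball (0 : ℂ) R) → (∀ p ∈ ball x₀ R ×ˢ ball (0 : ℂ) R, ‖Ψ p‖ ≤ M) →
      ∀ (σ : ℕ → ℝ) (f : ℝ → E), Nod (m + 1) σ r → (∀ i ≤ m + 1, f (σ i) ∈ ball x₀ (R / 4)) → (∀ j ≤ m, ‖dd j σ f‖ ≤ C) →
        ‖dd (m + 1) σ (fun s : ℝ => Ψ (f s, (s : ℂ)))‖ ≤ K * M * (‖dd (m + 1) σ f‖ + 1) := by
  have hr0 : 0 < min (R / 2) (min (1 / 3) (R / (12 * (m + 1) * (C + 1)))) := by positivity
  set r := min (R / 2) (min (1 / 3) (R / (12 * (m + 1) * (C + 1)))) with hrdef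
  have hr1 : r ≤ R / 2 := min_le_left _ _
  have hr2 : 3 * r ≤ 1 := by
    have := (min_le_right (R / 2) (min (1 / 3) (R / (12 * (m + 1) * (C + 1))))).trans (min_le_left _ _)
    linarith
  have hr3 : m * (3 * r * C) < R / 4 := by
    have h1 : r ≤ R / (12 * (m + 1) * (C + 1)) := (min_le_right (R / 2) (min (1 / 3) (R / (12 * (m + 1) * (C + 1))))).trans (min_le_right _ _)
    have h2 : r * (12 * (m + 1) * (C + 1)) ≤ R := by
      rwa [le_div_iff₀ (by positivity)] at h1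
    nlinarith [mul_nonneg hr0.le hC, mul_pos hr0 (by positivity : (0 : ℝ) < m + 1), mul_nonneg (mul_nonneg hr0.le hC) (Nat.cast_nonneg (α := ℝ) m)]
  refine ⟨r, 4 / R + 2 / r ^ (m + 1), hr0, by positivity, ?_⟩
  intro E F _ _ _ _ _ Ψ x₀ M hM0 hΨ hM σ f hσ hf hdd
  have hσm : Nod m σ r := hσ.mono (Nat.le_succ m) le_rfl
  have hnp : ∀ ζ ∈ ball (0 : ℂ) (2 * r), np m σ f ζ ∈ ball x₀ (R / 2) := by
    intro ζ hζ
    have h1 : ∀ i ≤ m, ‖ζ - (σ i : ℂ)‖ ≤ 3 * r := by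
      intro i hi
      have h2 : ‖ζ‖ ≤ 2 * r := by
        rw [mem_ball_zero_iff] at hζ
        exact hζ.le
      have h3 : ‖(σ i : ℂ)‖ ≤ r := by
        rw [Complex.norm_real, Real.norm_eq_abs]
        exact hσm.le i hi
      calc ‖ζ - (σ i : ℂ)‖ ≤ ‖ζ‖ + ‖(σ i : ℂ)‖ := norm_sub_le _ _
        _ ≤ 3 * r := by linarith
    have h2 : np m σ f ζ - f (σ 0) = ∑ j ∈ range m, (∏ i ∈ range (j + 1), (ζ - (σ i : ℂ))) • dd (j + 1) σ f := by
      unfold np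
      rw [Finset.sum_range_succ']
      simp only [Finset.range_zero, Finset.prod_empty, one_smul, dd_zero, add_sub_cancel_right]
    have h3 : ‖np m σ f ζ - f (σ 0)‖ ≤ m * (3 * r * C) := by
      rw [h2]
      calc ‖∑ j ∈ range m, (∏ i ∈ range (j + 1), (ζ - (σ i : ℂ))) • dd (j + 1) σ f‖ ≤ ∑ j ∈ range m, 3 * r * C := by
            refine norm_sum_le_of_le _ fun j hj => ?_
            have hjm : j + 1 ≤ m := Finset.mem_range.mp hj
            rw [norm_smul, norm_prod]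
            have h4 : ∏ i ∈ range (j + 1), ‖ζ - (σ i : ℂ)‖ ≤ ∏ i ∈ range (j + 1), (3 * r) :=
              Finset.prod_le_prod (fun i _ => norm_nonneg _) fun i hi => h1 i (by have := Finset.mem_range.mp hi; omega)
            rw [Finset.prod_const, Finset.card_range] at h4
            have h5 : (3 * r) ^ (j + 1) ≤ 3 * r := by
              calc (3 * r) ^ (j + 1) = (3 * r) ^ j * (3 * r) := pow_succ _ _
                _ ≤ 1 * (3 * r) := mul_le_mul_of_nonneg_right (pow_le_one₀ (by positivity) hr2) (by positivity)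
                _ = 3 * r := one_mul _
            exact mul_le_mul (h4.trans h5) (hdd (j + 1) hjm) (norm_nonneg _) (by positivity)
        _ = m * (3 * r * C) := by
            rw [Finset.sum_const, Finset.card_range, nsmul_eq_mul]
    have h4 := hf 0 (Nat.zero_le _)
    rw [mem_ball] at h4 ⊢
    calc dist (np m σ f ζ) x₀ ≤ dist (np m σ f ζ) (f (σ 0)) + dist (f (σ 0)) x₀ := dist_triangle _ _ _
      _ < R / 4 + R / 4 := by
        rw [dist_eq_norm (np m σ f ζ)]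
        linarith
      _ = R / 2 := by ring
  have hGd : DifferentiableOn ℂ (fun ζ : ℂ => Ψ (np m σ f ζ, ζ)) (ball 0 (2 * r)) := by
    apply hΨ.fun_comp
    · unfold np
      fun_prop
    · intro ζ hζ
      exact ⟨ball_subset_ball (by linarith) (hnp ζ hζ), ball_subset_ball (by linarith) hζ⟩
  have h1 := dd_cauchy hr0 hGd (M := M) (fun ζ hζ => hM _ ⟨ball_subset_ball (by linarith) (hnp ζ hζ), ball_subset_ball (by linarith) hζ⟩) hσ
  have h2 := dd_last (m := m) (σ := σ) (f := fun s : ℝ => Ψ (f s, (s : ℂ))) (g := fun s : ℝ => Ψ (np m σ f (s : ℂ), (s : ℂ)))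
    (fun i hi => by simp only [np_node hσm f hi])
  have h3 : ‖(∏ i ∈ range (m + 1), ((σ (m + 1) : ℂ) - (σ i : ℂ))⁻¹) •
      (Ψ (f (σ (m + 1)), (σ (m + 1) : ℂ)) - Ψ (np m σ f (σ (m + 1) : ℂ), (σ (m + 1) : ℂ)))‖ ≤ 4 * M / R * ‖dd (m + 1) σ f‖ := by
    have hs : (σ (m + 1) : ℂ) ∈ ball (0 : ℂ) (2 * r) := by
      rw [mem_ball_zero_iff, Complex.norm_real, Real.norm_eq_abs]
      exact (hσ.le (m + 1) le_rfl).trans_lt (by linarith)
    have hs' : (σ (m + 1) : ℂ) ∈ ball (0 : ℂ) R := ball_subset_ball (by linarith) hs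
    have h4 := lip_comp (Ψ := fun x : E => Ψ (x, (σ (m + 1) : ℂ))) (M := M) hR
      (hΨ.fun_comp (by fun_prop) fun x hx => ⟨hx, hs'⟩) (fun x hx => hM _ ⟨hx, hs'⟩)
      (ball_subset_ball (by linarith) (hf (m + 1) le_rfl)) (hnp _ hs)
    rw [sub_np hσ f] at h4
    rw [norm_smul]
    rw [norm_smul] at h4
    have hne : ∀ i ∈ range (m + 1), ((σ (m + 1) : ℂ) - (σ i : ℂ)) ≠ 0 := by
      intro i hi h0
      have him := Finset.mem_range.mp hi
      have h5 : σ (m + 1) = σ i := by exact_mod_cast sub_eq_zero.mp h0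
      have h6 := hσ.inj (m + 1) le_rfl i (by omega) h5
      omega
    have hP : 0 < ‖∏ i ∈ range (m + 1), ((σ (m + 1) : ℂ) - (σ i : ℂ))‖ := norm_pos_iff.mpr (Finset.prod_ne_zero_iff.mpr hne)
    rw [Finset.prod_inv_distrib, norm_inv]
    calc ‖∏ i ∈ range (m + 1), ((σ (m + 1) : ℂ) - (σ i : ℂ))‖⁻¹ * ‖Ψ (f (σ (m + 1)), (σ (m + 1) : ℂ)) - Ψ (np m σ f (σ (m + 1) : ℂ), (σ (m + 1) : ℂ))‖
        ≤ ‖∏ i ∈ range (m + 1), ((σ (m + 1) : ℂ) - (σ i : ℂ))‖⁻¹ *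
          (4 * M / R * (‖∏ i ∈ range (m + 1), ((σ (m + 1) : ℂ) - (σ i : ℂ))‖ * ‖dd (m + 1) σ f‖)) :=
          mul_le_mul_of_nonneg_left h4 (inv_nonneg.mpr hP.le)
      _ = 4 * M / R * ‖dd (m + 1) σ f‖ := by
        field_simp
  have h4 : dd (m + 1) σ (fun s : ℝ => Ψ (f s, (s : ℂ))) = dd (m + 1) σ (fun s : ℝ => Ψ (np m σ f (s : ℂ), (s : ℂ))) +
      (∏ i ∈ range (m + 1), ((σ (m + 1) : ℂ) - (σ i : ℂ))⁻¹) •
      (Ψ (f (σ (m + 1)), (σ (m + 1) : ℂ)) - Ψ (np m σ f (σ (m + 1) : ℂ), (σ (m + 1) : ℂ))) := by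
    rw [← h2]
    abel
  rw [h4]
  have h5 : 0 ≤ ‖dd (m + 1) σ f‖ := norm_nonneg _
  have h6 : 0 ≤ 4 / R * M := by positivity
  have h7 : 0 ≤ 2 / r ^ (m + 1) * M * ‖dd (m + 1) σ f‖ := by positivity
  calc ‖dd (m + 1) σ (fun s : ℝ => Ψ (np m σ f (s : ℂ), (s : ℂ))) + (∏ i ∈ range (m + 1), ((σ (m + 1) : ℂ) - (σ i : ℂ))⁻¹) •
      (Ψ (f (σ (m + 1)), (σ (m + 1) : ℂ)) - Ψ (np m σ f (σ (m + 1) : ℂ), (σ (m + 1) : ℂ)))‖ ≤ M * 2 / r ^ (m + 1) + 4 * M / R * ‖dd (m + 1) σ f‖ :=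
        (norm_add_le _ _).trans (add_le_add h1 h3)
    _ = 2 / r ^ (m + 1) * M + 4 / R * M * ‖dd (m + 1) σ f‖ := by ring
    _ ≤ (4 / R + 2 / r ^ (m + 1)) * M * (‖dd (m + 1) σ f‖ + 1) := by nlinarith

/-- the same for all orders `≤ m` -/
theorem dd_comp_le (m : ℕ) {R C : ℝ} (hR : 0 < R) (hC : 0 ≤ C) : ∃ r K : ℝ, 0 < r ∧ 0 < K ∧
    ∀ (E F : Type) [NormedAddCommGroup E] [NormedSpace ℂ E] [NormedAddCommGroup F] [NormedSpace ℂ F] [CompleteSpace F] (Ψ : E × ℂ → F) (x₀ : E) (M : ℝ), 0 ≤ M →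
      DifferentiableOn ℂ Ψ (ball x₀ R ×ˢ ball (0 : ℂ) R) → (∀ p ∈ ball x₀ R ×ˢ ball (0 : ℂ) R, ‖Ψ p‖ ≤ M) →
      ∀ (σ : ℕ → ℝ) (f : ℝ → E), Nod m σ r → (∀ i ≤ m, f (σ i) ∈ ball x₀ (R / 4)) → (∀ j ≤ m, ‖dd j σ f‖ ≤ C) →
        ∀ j ≤ m, ‖dd j σ (fun s : ℝ => Ψ (f s, (s : ℂ)))‖ ≤ K * M := by
  induction m with
  | zero =>
    refine ⟨R / 2, 1, by positivity, one_pos, ?_⟩
    intro E F _ _ _ _ _ Ψ x₀ M hM0 hΨ hM σ f hσ hf hdd j hj
    obtain rfl : j = 0 := Nat.le_zero.mp hj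
    rw [dd_zero, one_mul]
    refine hM _ ⟨ball_subset_ball (by linarith) (hf 0 le_rfl), ?_⟩
    rw [mem_ball_zero_iff, Complex.norm_real, Real.norm_eq_abs]
    exact (hσ.le 0 le_rfl).trans_lt (by linarith)
  | succ m ih =>
    obtain ⟨r₁, K₁, hr₁, hK₁, h₁⟩ := ih
    obtain ⟨r₂, K₂, hr₂, hK₂, h₂⟩ := dd_comp m hR hC
    refine ⟨min r₁ r₂, max K₁ (K₂ * (C + 1)), lt_min hr₁ hr₂, lt_max_of_lt_left hK₁, ?_⟩
    intro E F _ _ _ _ _ Ψ x₀ M hM0 hΨ hM σ f hσ hf hdd j hj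
    rcases Nat.le_succ_iff.mp hj with h | rfl
    · exact (h₁ E F Ψ x₀ M hM0 hΨ hM σ f (hσ.mono (Nat.le_succ m) (min_le_left _ _)) (fun i hi => hf i (hi.trans (Nat.le_succ m)))
        (fun i hi => hdd i (hi.trans (Nat.le_succ m))) j h).trans (mul_le_mul_of_nonneg_right (le_max_left _ _) hM0)
    · have h3 := h₂ E F Ψ x₀ M hM0 hΨ hM σ f (hσ.mono le_rfl (min_le_right _ _)) hf (fun i hi => hdd i (hi.trans (Nat.le_succ m)))
      refine h3.trans ?_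
      have h4 := hdd (m + 1) le_rfl
      calc K₂ * M * (‖dd (m + 1) σ f‖ + 1) ≤ K₂ * M * (C + 1) := mul_le_mul_of_nonneg_left (by linarith) (by positivity)
        _ = K₂ * (C + 1) * M := by ring
        _ ≤ max K₁ (K₂ * (C + 1)) * M := mul_le_mul_of_nonneg_right (le_max_right _ _) hM0

end Pool.Agent.G3.R
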