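import Pool.Agent.G3.R.SDefs
import Pool.Agent.G3.R.Comp

/-!
# G3 R Nv: the affine charts `nv v`, `nv v (pr x) = x / ⟨v, x⟩`

`nv v m = (nd v m)⁻¹ • (m v)`, `nd v (pr v) = 1`, `pr v` fixes `v` for unit vectors `v` (`nv_pr`, `nd_pr_ne` in `G3/C/EDefs`).
`dd_nv`: the change of the chart is the composition with `x ↦ x / ⟨v, x⟩`, holomorphic and bounded by `4 / κ` on `ball v' (κ / 2)`, if `κ ≤ |⟨v, v'⟩|`: `dd_comp`, `dd_comp_le`.
-/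

set_option autoImplicit false

open Topology Filter Metric

namespace Pool.Agent.G3.R

open Pool.Agent.H36.BP (EN)
open Pool.Agent.H62.EF (MN pr)
open Pool.Agent.G3.C (nv nd nv_pr)

variable {N : ℕ}

private theorem inner_self_unit {v : EN N} (hv : ‖v‖ = 1) : (inner ℂ v v : ℂ) = 1 := by
  rw [inner_self_eq_norm_sq_to_K, hv]
  norm_num

private theorem inner_eq (x y : EN N) : (inner ℂ x y : ℂ) = ∑ j, (starRingEnd ℂ) (x j) * y j := by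
  rw [PiLp.inner_apply]
  refine Finset.sum_congr rfl fun j _ => ?_
  rw [RCLike.inner_apply]
  ring

/-- the vector `m v` -/
private noncomputable def mvec (v : EN N) (m : MN N) : EN N := WithLp.toLp 2 fun i => ∑ j, m (i, j) * v j

private theorem nv_eq (v : EN N) (m : MN N) : nv v m = (inner ℂ v (mvec v m) : ℂ)⁻¹ • mvec v m := by
  unfold nv mvec
  congr 2
  rw [inner_eq]
  refine Finset.sum_congr rfl fun i _ => ?_
  rw [Finset.mul_sum]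
  exact Finset.sum_congr rfl fun j _ => by ring

private theorem norm_mvec_le (v : EN N) (m : MN N) : ‖mvec v m‖ ≤ ‖m‖ * ‖v‖ := by
  have h0 : 0 ≤ ‖m‖ * ‖v‖ := by positivity
  refine le_of_sq_le_sq ?_ h0
  rw [mul_pow, EuclideanSpace.norm_sq_eq, EuclideanSpace.norm_sq_eq, EuclideanSpace.norm_sq_eq, Fintype.sum_prod_type, Finset.sum_mul]
  refine Finset.sum_le_sum fun i _ => ?_
  have h1 : ‖mvec v m i‖ ≤ ∑ j, ‖m (i, j)‖ * ‖v j‖ := by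
    have h2 : mvec v m i = ∑ j, m (i, j) * v j := rfl
    rw [h2]
    refine (norm_sum_le Finset.univ fun j => m (i, j) * v j).trans (Finset.sum_le_sum fun j _ => ?_)
    rw [norm_mul]
  calc ‖mvec v m i‖ ^ 2 ≤ (∑ j, ‖m (i, j)‖ * ‖v j‖) ^ 2 := pow_le_pow_left₀ (norm_nonneg _) h1 2
    _ ≤ (∑ j, ‖m (i, j)‖ ^ 2) * ∑ j, ‖v j‖ ^ 2 := Finset.sum_mul_sq_le_sq_mul_sq _ _ _

private theorem mvec_sub (v : EN N) (m m' : MN N) : mvec v m - mvec v m' = mvec v (m - m') := by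
  ext i
  simp only [mvec, PiLp.sub_apply, sub_mul, Finset.sum_sub_distrib]

theorem nv_self {v : EN N} (hv : ‖v‖ = 1) : nv v (pr v) = v := by
  have h1 := inner_self_unit hv
  rw [nv_pr (by rw [h1]; exact one_ne_zero), h1, inv_one, one_smul]

private theorem mvec_pr {v : EN N} (hv : ‖v‖ = 1) : mvec v (pr v) = v := by
  ext i
  have h1 := inner_self_unit hv
  rw [inner_eq] at h1
  simp only [mvec, pr, hv]
  calc ∑ j, v i * (starRingEnd ℂ) (v j) / ((1 ^ 2 : ℝ) : ℂ) * v j = v i * ∑ j, (starRingEnd ℂ) (v j) * v j := by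
        rw [Finset.mul_sum]
        refine Finset.sum_congr rfl fun j _ => ?_
        norm_num
        ring
    _ = v i := by rw [h1, mul_one]

/-- `nv v m` is near `v` if `m` is near `pr v`, uniformly in `v` -/
theorem nv_near {η : ℝ} (hη : 0 < η) : ∃ ε : ℝ, 0 < ε ∧ ∀ v : EN N, ‖v‖ = 1 → ∀ m : MN N, dist m (pr v) ≤ ε → ‖nv v m - v‖ < η := by
  refine ⟨min (1 / 2) (η / 8), by positivity, ?_⟩
  intro v hv m hm
  have hm1 : dist m (pr v) ≤ 1 / 2 := hm.trans (min_le_left _ _)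
  have hm2 : dist m (pr v) ≤ η / 8 := hm.trans (min_le_right _ _)
  rw [dist_eq_norm] at hm1 hm2
  have h1 : ‖mvec v m - v‖ ≤ ‖m - pr v‖ := by
    have h2 := norm_mvec_le v (m - pr v)
    rw [← mvec_sub, mvec_pr hv, hv, mul_one] at h2
    exact h2
  have h3 : ‖(inner ℂ v (mvec v m) : ℂ) - 1‖ ≤ ‖m - pr v‖ := by
    have h4 : (inner ℂ v (mvec v m) : ℂ) - 1 = inner ℂ v (mvec v m - v) := by
      rw [inner_sub_right, inner_self_unit hv]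
    rw [h4]
    refine (norm_inner_le_norm _ _).trans ?_
    rw [hv, one_mul]
    exact h1
  have h5 : 1 / 2 ≤ ‖(inner ℂ v (mvec v m) : ℂ)‖ := by
    have h6 := norm_sub_norm_le (1 : ℂ) (inner ℂ v (mvec v m))
    rw [norm_one, norm_sub_rev] at h6
    linarith
  have h7 : (inner ℂ v (mvec v m) : ℂ) ≠ 0 := by
    intro h8
    rw [h8, norm_zero] at h5
    norm_num at h5
  have h9 : nv v m - v = (inner ℂ v (mvec v m) : ℂ)⁻¹ • ((mvec v m - v) - ((inner ℂ v (mvec v m) : ℂ) - 1) • v) := by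
    rw [nv_eq, sub_smul, one_smul, sub_sub_sub_cancel_right, smul_sub, inv_smul_smul₀ h7]
  rw [h9, norm_smul, norm_inv]
  have h10 : ‖(mvec v m - v) - ((inner ℂ v (mvec v m) : ℂ) - 1) • v‖ ≤ η / 8 + η / 8 := by
    refine (norm_sub_le _ _).trans (add_le_add (h1.trans hm2) ?_)
    rw [norm_smul, hv, mul_one]
    exact h3.trans hm2
  have h11 : ‖(inner ℂ v (mvec v m) : ℂ)‖⁻¹ ≤ 2 := by
    rw [inv_le_comm₀ (by linarith) (by norm_num)]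
    linarith
  calc ‖(inner ℂ v (mvec v m) : ℂ)‖⁻¹ * ‖(mvec v m - v) - ((inner ℂ v (mvec v m) : ℂ) - 1) • v‖ ≤ 2 * (η / 8 + η / 8) :=
        mul_le_mul h11 h10 (norm_nonneg _) (by norm_num)
    _ < η := by linarith

/-- the chart for `pr x` near `pr v` -/
theorem inner_near {η : ℝ} (hη : 0 < η) : ∃ ε : ℝ, 0 < ε ∧ ∀ v : EN N, ‖v‖ = 1 → ∀ x : EN N, x ≠ 0 → dist (pr x) (pr v) ≤ ε →
    inner ℂ v x ≠ (0 : ℂ) ∧ (1 - η) * ‖x‖ ≤ ‖(inner ℂ v x : ℂ)‖ ∧ ‖(inner ℂ v x : ℂ)‖ ≤ ‖x‖ := by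
  refine ⟨min 1 η, by positivity, ?_⟩
  intro v hv x hx hd
  have hv0 : v ≠ 0 := by
    rintro rfl
    rw [norm_zero] at hv
    exact zero_ne_one hv
  have hd1 : dist (pr x) (pr v) ≤ 1 := hd.trans (min_le_left _ _)
  have hd2 : dist (pr x) (pr v) ≤ η := hd.trans (min_le_right _ _)
  have hd0 : 0 ≤ dist (pr x) (pr v) := dist_nonneg
  have hx0 : 0 < ‖x‖ := norm_pos_iff.mpr hx
  have h1 := Pool.Agent.H62.EF.norm_inner_sq hv0 hx
  rw [hv, one_pow, one_mul, dist_comm] at h1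
  set t : ℝ := 1 - dist (pr x) (pr v) ^ 2 / 2 with ht
  have ht1 : t ≤ 1 := by
    have : 0 ≤ dist (pr x) (pr v) ^ 2 := by positivity
    linarith
  have ht2 : 1 / 2 ≤ t := by nlinarith
  have ht3 : 1 - η ≤ t := by nlinarith
  have h2 : t * ‖x‖ ≤ ‖(inner ℂ v x : ℂ)‖ := by
    refine le_of_sq_le_sq ?_ (norm_nonneg _)
    rw [h1]
    nlinarith [mul_nonneg (sub_nonneg.mpr ht1) (by positivity : 0 ≤ ‖x‖ ^ 2 * t)]
  have h3 : 0 < ‖(inner ℂ v x : ℂ)‖ := lt_of_lt_of_le (by positivity) h2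
  refine ⟨norm_pos_iff.mp h3, (mul_le_mul_of_nonneg_right ht3 hx0.le).trans h2, ?_⟩
  have h4 := norm_inner_le_norm (𝕜 := ℂ) v x
  rwa [hv, one_mul] at h4

/-- a unit vector near `v` -/
theorem exists_unit_near {η : ℝ} (hη : 0 < η) : ∃ ε : ℝ, 0 < ε ∧ ∀ v : EN N, ‖v‖ = 1 → ∀ x : EN N, x ≠ 0 → dist (pr x) (pr v) ≤ ε →
    ∃ c : ℂ, c ≠ 0 ∧ ‖c • x‖ = 1 ∧ ‖c • x - v‖ < η := by
  obtain ⟨ε, hε, h⟩ := inner_near (N := N) (η := η ^ 2 / 4) (by positivity)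
  refine ⟨ε, hε, ?_⟩
  intro v hv x hx hd
  obtain ⟨h1, h2, h3⟩ := h v hv x hx hd
  have hx0 : 0 < ‖x‖ := norm_pos_iff.mpr hx
  have hi0 : 0 < ‖(inner ℂ v x : ℂ)‖ := norm_pos_iff.mpr h1
  have hi1 : ((‖(inner ℂ v x : ℂ)‖ : ℝ) : ℂ) ≠ 0 := by exact_mod_cast hi0.ne'
  have hx1 : ((‖x‖ : ℝ) : ℂ) ≠ 0 := by exact_mod_cast hx0.ne'
  have hc : (starRingEnd ℂ) (inner ℂ v x) / (((‖(inner ℂ v x : ℂ)‖ : ℝ) : ℂ) * ((‖x‖ : ℝ) : ℂ)) ≠ 0 :=
    div_ne_zero (by rw [Ne, map_eq_zero]; exact h1) (mul_ne_zero hi1 hx1)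
  have hn : ‖((starRingEnd ℂ) (inner ℂ v x) / (((‖(inner ℂ v x : ℂ)‖ : ℝ) : ℂ) * ((‖x‖ : ℝ) : ℂ))) • x‖ = 1 := by
    rw [norm_smul, norm_div, norm_mul, RCLike.norm_conj, Complex.norm_real, Complex.norm_real, norm_norm, norm_norm]
    field_simp
  refine ⟨_, hc, hn, ?_⟩
  have hin : (inner ℂ v (((starRingEnd ℂ) (inner ℂ v x) / (((‖(inner ℂ v x : ℂ)‖ : ℝ) : ℂ) * ((‖x‖ : ℝ) : ℂ))) • x) : ℂ) =
      ((‖(inner ℂ v x : ℂ)‖ / ‖x‖ : ℝ) : ℂ) := by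
    rw [inner_smul_right]
    have h4 : (starRingEnd ℂ) (inner ℂ v x) * (inner ℂ v x : ℂ) = ((‖(inner ℂ v x : ℂ)‖ : ℝ) : ℂ) ^ 2 := by
      rw [mul_comm, Complex.mul_conj']
    calc (starRingEnd ℂ) (inner ℂ v x) / (((‖(inner ℂ v x : ℂ)‖ : ℝ) : ℂ) * ((‖x‖ : ℝ) : ℂ)) * (inner ℂ v x : ℂ) =
        ((starRingEnd ℂ) (inner ℂ v x) * (inner ℂ v x : ℂ)) / (((‖(inner ℂ v x : ℂ)‖ : ℝ) : ℂ) * ((‖x‖ : ℝ) : ℂ)) := by ring
      _ = ((‖(inner ℂ v x : ℂ)‖ / ‖x‖ : ℝ) : ℂ) := by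
        rw [h4]
        push_cast
        field_simp
  have h5 : ‖((starRingEnd ℂ) (inner ℂ v x) / (((‖(inner ℂ v x : ℂ)‖ : ℝ) : ℂ) * ((‖x‖ : ℝ) : ℂ))) • x - v‖ ^ 2 =
      2 - 2 * (‖(inner ℂ v x : ℂ)‖ / ‖x‖) := by
    rw [norm_sub_rev, norm_sub_sq (𝕜 := ℂ), hin, hn, hv, RCLike.re_to_complex, Complex.ofReal_re]
    ring
  have h6 : 1 - η ^ 2 / 4 ≤ ‖(inner ℂ v x : ℂ)‖ / ‖x‖ := by
    rw [le_div_iff₀ hx0]
    exact h2
  refine lt_of_pow_lt_pow_left₀ 2 hη.le ?_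
  rw [h5]
  nlinarith [sq_pos_of_pos hη]

theorem nv_nv {v v' x : EN N} (h : inner ℂ v x ≠ (0 : ℂ)) (h' : inner ℂ v' x ≠ (0 : ℂ)) :
    nv v (pr x) = (inner ℂ v (nv v' (pr x)) : ℂ)⁻¹ • nv v' (pr x) := by
  rw [nv_pr h, nv_pr h', inner_smul_right, smul_smul, mul_inv, inv_inv]
  congr 1
  field_simp

theorem nv_hol {v : EN N} {F : ℂ → EN N} {U : Set ℂ} (hF : DifferentiableOn ℂ F U) (h : ∀ z ∈ U, inner ℂ v (F z) ≠ (0 : ℂ)) :
    DifferentiableOn ℂ (fun z => nv v (pr (F z))) U := by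
  have h1 : DifferentiableOn ℂ (fun z => (inner ℂ v (F z) : ℂ)) U := (innerSL ℂ v).differentiable.comp_differentiableOn hF
  exact ((h1.inv h).smul hF).congr fun z hz => nv_pr (h z hz)

/-- the change of the affine chart -/
theorem dd_nv (m : ℕ) {κ C : ℝ} (hκ : 0 < κ) (hC : 0 ≤ C) : ∃ r K ε : ℝ, 0 < r ∧ 0 < K ∧ 0 < ε ∧ ∀ v v' : EN N, ‖v‖ = 1 → ‖v'‖ = 1 → κ ≤ ‖(inner ℂ v v' : ℂ)‖ →
    ∀ (σ : ℕ → ℝ) (f : ℝ → MN N), Nod (m + 1) σ r → (∀ i ≤ m + 1, ∃ x : EN N, x ≠ 0 ∧ f (σ i) = pr x ∧ dist (pr x) (pr v') ≤ ε) →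
      (∀ j ≤ m, ‖dd j σ fun s => nv v' (f s)‖ ≤ C) →
      (∀ j ≤ m, ‖dd j σ fun s => nv v (f s)‖ ≤ K) ∧ ‖dd (m + 1) σ fun s => nv v (f s)‖ ≤ K * (‖dd (m + 1) σ fun s => nv v' (f s)‖ + 1) := by
  have hR : 0 < κ / 2 := by positivity
  obtain ⟨ε₁, hε₁, hne⟩ := nv_near (N := N) (η := κ / 2 / 4) (by positivity)
  obtain ⟨ε₂, hε₂, hin⟩ := inner_near (N := N) (η := 1 / 2) (by norm_num)
  obtain ⟨r₁, K₁, hr₁, hK₁, h₁⟩ := dd_comp m hR hC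
  obtain ⟨r₂, K₂, hr₂, hK₂, h₂⟩ := dd_comp_le m hR hC
  refine ⟨min r₁ r₂, max (K₁ * (4 / κ)) (K₂ * (4 / κ)), min ε₁ ε₂, lt_min hr₁ hr₂, lt_max_of_lt_left (by positivity), lt_min hε₁ hε₂, ?_⟩
  intro v v' hv hv' hκv σ f hσ hf hdd
  have hM : (0 : ℝ) ≤ 4 / κ := by positivity
  have hκ1 : κ ≤ 1 := by
    have h3 := norm_inner_le_norm (𝕜 := ℂ) v v'
    rw [hv, hv', one_mul] at h3
    exact hκv.trans h3
  have hlow : ∀ x ∈ ball v' (κ / 2), κ / 2 ≤ ‖(inner ℂ v x : ℂ)‖ := by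
    intro x hx
    rw [mem_ball, dist_eq_norm] at hx
    have h3 : (inner ℂ v v' : ℂ) - inner ℂ v x = inner ℂ v (v' - x) := by rw [inner_sub_right]
    have h4 : ‖(inner ℂ v v' : ℂ) - inner ℂ v x‖ ≤ κ / 2 := by
      rw [h3]
      refine (norm_inner_le_norm _ _).trans ?_
      rw [hv, one_mul, norm_sub_rev]
      exact hx.le
    have h5 := norm_sub_norm_le (inner ℂ v v' : ℂ) (inner ℂ v x)
    linarith
  have hne0 : ∀ x ∈ ball v' (κ / 2), (inner ℂ v x : ℂ) ≠ 0 := by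
    intro x hx h3
    have h4 := hlow x hx
    rw [h3, norm_zero] at h4
    linarith
  have hΨd : DifferentiableOn ℂ (fun p : EN N × ℂ => (inner ℂ v p.1 : ℂ)⁻¹ • p.1) (ball v' (κ / 2) ×ˢ ball (0 : ℂ) (κ / 2)) := by
    have h3 : DifferentiableOn ℂ (fun p : EN N × ℂ => (inner ℂ v p.1 : ℂ)) (ball v' (κ / 2) ×ˢ ball (0 : ℂ) (κ / 2)) :=
      (innerSL ℂ v).differentiable.comp_differentiableOn differentiable_fst.differentiableOn
    exact (h3.inv fun p hp => hne0 p.1 hp.1).smul differentiable_fst.differentiableOn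
  have hΨM : ∀ p ∈ ball v' (κ / 2) ×ˢ ball (0 : ℂ) (κ / 2), ‖(fun p : EN N × ℂ => (inner ℂ v p.1 : ℂ)⁻¹ • p.1) p‖ ≤ 4 / κ := by
    intro p hp
    have h3 := hlow p.1 hp.1
    have h4 : ‖p.1‖ ≤ 2 := by
      have h5 := hp.1
      rw [mem_ball, dist_eq_norm] at h5
      have h6 : ‖p.1‖ ≤ ‖p.1 - v'‖ + ‖v'‖ := by
        have := norm_add_le (p.1 - v') v'
        rwa [sub_add_cancel] at this
      rw [hv'] at h6
      linarith
    have h5 : ‖(inner ℂ v p.1 : ℂ)‖⁻¹ ≤ 2 / κ := by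
      rw [inv_le_comm₀ (by linarith) (by positivity), inv_div]
      exact h3
    simp only [norm_smul, norm_inv]
    calc ‖(inner ℂ v p.1 : ℂ)‖⁻¹ * ‖p.1‖ ≤ 2 / κ * 2 := mul_le_mul h5 h4 (norm_nonneg _) (by positivity)
      _ = 4 / κ := by ring
  have hball : ∀ i ≤ m + 1, nv v' (f (σ i)) ∈ ball v' (κ / 2 / 4) := by
    intro i hi
    obtain ⟨x, hx, hfx, hd⟩ := hf i hi
    rw [mem_ball, dist_eq_norm, hfx]
    exact hne v' hv' (pr x) (hd.trans (min_le_left _ _))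
  have heq : ∀ i ≤ m + 1, nv v (f (σ i)) = (inner ℂ v (nv v' (f (σ i))) : ℂ)⁻¹ • nv v' (f (σ i)) := by
    intro i hi
    have hb := hball i hi
    obtain ⟨x, hx, hfx, hd⟩ := hf i hi
    obtain ⟨h3, -, -⟩ := hin v' hv' x hx (hd.trans (min_le_right _ _))
    rw [hfx] at hb ⊢
    refine nv_nv ?_ h3
    have h4 := hne0 _ (ball_subset_ball (by linarith) hb)
    rw [nv_pr h3, inner_smul_right] at h4
    exact right_ne_zero_of_mul h4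
  constructor
  · intro j hj
    have h3 := h₂ (EN N) (EN N) (fun p : EN N × ℂ => (inner ℂ v p.1 : ℂ)⁻¹ • p.1) v' (4 / κ) hM hΨd hΨM σ (fun s => nv v' (f s))
      (hσ.mono (Nat.le_succ m) (min_le_right _ _)) (fun i hi => hball i (hi.trans (Nat.le_succ m))) hdd j hj
    rw [dd_congr (g := fun s : ℝ => (inner ℂ v (nv v' (f s)) : ℂ)⁻¹ • nv v' (f s)) fun i hi => heq i (hi.trans (hj.trans (Nat.le_succ m)))]
    exact h3.trans (le_max_right _ _)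
  · have h3 := h₁ (EN N) (EN N) (fun p : EN N × ℂ => (inner ℂ v p.1 : ℂ)⁻¹ • p.1) v' (4 / κ) hM hΨd hΨM σ (fun s => nv v' (f s))
      (hσ.mono le_rfl (min_le_left _ _)) hball hdd
    rw [dd_congr (g := fun s : ℝ => (inner ℂ v (nv v' (f s)) : ℂ)⁻¹ • nv v' (f s)) fun i hi => heq i hi]
    exact h3.trans (mul_le_mul_of_nonneg_right (le_max_left _ _) (by positivity))

end Pool.Agent.G3.R
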