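import Pool.Agent.G3.R.Step
import Pool.Agent.G3.R.Jet
import Pool.Agent.G3.C.TDefs
import Pool.Agent.G3.R.Nv
import Pool.Agent.G3.A.Idn

/-!
# G3 R SmoX: the families are smooth off `D`

`y₁ = b + s₀ ν + z₀ a ∉ D`, a straight chart `χ` with `Cap` at the unit vector `v`, `pr v = φ y₁` (`exists_cap_at`; `c`, `ρ` from `Cap`), `f s z = (χ.q (nv v (φ (b + s ν + z a)))) 0` for `(s, z)` near `(s₀, z₀)`.
All divided differences of `nv v (φ (b + (s₁ + s) ν + z a))` in `s` are bounded near every `(s₁, z₁)` near `(s₀, z₀)` (`ddb`, `dd_nv`), those of `f` by `dd_comp_le` (`Ψ (x, ζ) = (χ.q x) 0`); `f s` is holomorphic (`nv_hol` with the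
lift of the curve); `jetFam_of_dd`.  `χ.q x = cons (f s z) ((y - c) / ρ) = cz b ν a c ρ (f s z) s z` by `Cap.cap` (`ms c ρ (χ.q x) = y`), `pr (χ.σ (χ.q x)) = pr x`.
-/

set_option autoImplicit false

open Topology Filter Metric

namespace Pool.Agent.G3.R

open Pool.Agent.H36.BP (EN fs wd)
open Pool.Agent.H14.PP (IsCone CurveAt Tan)
open Pool.Agent.H62.EF (MN pr)
open Pool.Agent.AD (Vd Chart Charts IsGerm)
open Pool.Agent.TG
open Pool.Agent.G3.C (Gc HP nv nd nv_pr)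
open Pool.Agent.G3.A

variable {N k : ℕ} {X : Set (EN N)} {Λ : AddSubgroup (Vd (k + 1))} {u : EN N → Vd (k + 1)} {D B Bad : Set (Vd (k + 1))} {a b w : Vd (k + 1)} {E : Submodule ℝ (Vd (k + 1))}
  {SS : Set (Vd (k + 1) → MN N)} {J : ℕ} {α : Fin J → VForm X Λ u} {c₀ C₀ ρ δ : ℝ}

private theorem sx_mem (hS : Shs X Λ u D a b E SS) {ν : Vd (k + 1)} (hν : ν ∈ E) (s : ℝ) (z : ℂ) : b + (s : ℂ) • ν + z • a ∈ Tb b E := by
  show b + (s : ℂ) • ν + z • a - b ∈ E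
  have e : b + (s : ℂ) • ν + z • a - b = s • ν + z • a := by
    rw [Complex.coe_smul]
    abel
  rw [e]
  exact E.add_mem (E.smul_mem s hν) (hS.mem z)

/-- a neighbourhood in the torus gives a box -/
private theorem sx_near (hS : Shs X Λ u D a b E SS) {ν : Vd (k + 1)} (hν : ν ∈ E) {s₁ : ℝ} {z₁ : ℂ} {P : Vd (k + 1) → Prop}
    (hP : ∀ᶠ y in 𝓝[Tb b E] (b + (s₁ : ℂ) • ν + z₁ • a), P y) : ∃ r : ℝ, 0 < r ∧ ∀ (s : ℝ) (z : ℂ), |s - s₁| < r → ‖z - z₁‖ < r → P (b + (s : ℂ) • ν + z • a) := by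
  have hc : Continuous fun q : ℝ × ℂ => b + (q.1 : ℂ) • ν + q.2 • a :=
    (continuous_const.add ((Complex.continuous_ofReal.comp continuous_fst).smul continuous_const)).add (continuous_snd.smul continuous_const)
  have ht : Tendsto (fun q : ℝ × ℂ => b + (q.1 : ℂ) • ν + q.2 • a) (𝓝 (s₁, z₁)) (𝓝[Tb b E] (b + (s₁ : ℂ) • ν + z₁ • a)) :=
    tendsto_nhdsWithin_iff.2 ⟨hc.tendsto (s₁, z₁), Eventually.of_forall fun q => sx_mem hS hν q.1 q.2⟩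
  obtain ⟨r, hr, h⟩ := Metric.eventually_nhds_iff.1 (ht.eventually hP)
  refine ⟨r, hr, fun s z hs hz => h (y := (s, z)) ?_⟩
  rw [Prod.dist_eq]
  exact max_lt (by rwa [Real.dist_eq]) (by rwa [dist_eq_norm])

private theorem sx_q {χ : Chart (k + 2) X} {v x : EN N} (h : inner ℂ v x ≠ (0 : ℂ)) (hx : x ∈ χ.U) : χ.q (nv v (pr x)) = χ.q x := by
  rw [nv_pr h, χ.q_smul x hx _ (inv_ne_zero h)]

/-- the bounds for all orders `≤ m` -/
private theorem sx_ddb (S : DA X Λ u D B Bad a α c₀ C₀ ρ δ) (hS : Shs X Λ u D a b E SS) {ν : Vd (k + 1)} (hν : ν ∈ E) {δ' : ℝ} (hδ' : 0 < δ') (m : ℕ) :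
    ∃ r C : ℝ, 0 < r ∧ 0 ≤ C ∧ ∀ j ≤ m, ∀ φ ∈ SS, ∀ y ∈ Tb b E, y ∈ Gd D δ' → ∀ v : EN N, ‖v‖ = 1 → pr v = φ y → ∀ σ : ℕ → ℝ, Nod m σ r →
      ‖dd j σ fun s : ℝ => nv v (φ (y + (s : ℂ) • ν))‖ ≤ C := by
  induction m with
  | zero =>
    obtain ⟨r, C, hr, hC, h⟩ := ddb S hS hν 0 δ' hδ'
    refine ⟨r, C, hr, hC, fun j hj φ hφ y hy hyD v hv hvy σ hσ => ?_⟩
    obtain rfl : j = 0 := Nat.le_zero.1 hj
    exact h φ hφ y hy hyD v hv hvy σ hσ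
  | succ m ih =>
    obtain ⟨r, C, hr, hC, h⟩ := ih
    obtain ⟨r', C', hr', hC', h'⟩ := ddb S hS hν (m + 1) δ' hδ'
    refine ⟨min r r', max C C', lt_min hr hr', le_max_of_le_left hC, fun j hj φ hφ y hy hyD v hv hvy σ hσ => ?_⟩
    rcases Nat.le_succ_iff.1 hj with hj | rfl
    · exact (h j hj φ hφ y hy hyD v hv hvy σ (hσ.mono (Nat.le_succ m) (min_le_left _ _))).trans (le_max_left _ _)
    · exact (h' φ hφ y hy hyD v hv hvy σ (hσ.mono le_rfl (min_le_right _ _))).trans (le_max_right _ _)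

theorem smo_sheet (S : DA X Λ u D B Bad a α c₀ C₀ ρ δ) (hS : Shs X Λ u D a b E SS) {ν : Vd (k + 1)} (hν : ν ∈ E) {φ : Vd (k + 1) → MN N} (hφ : φ ∈ SS) {s₀ : ℝ} {z₀ : ℂ}
    (h0 : b + (s₀ : ℂ) • ν + z₀ • a ∉ D) : Pool.Agent.G3.C.Smo X Λ u a ν b (fun s z => φ (b + (s : ℂ) • ν + z • a)) s₀ z₀ := by
  have G := S.geo
  have hX := G.cone
  have hsh := hS.sht φ hφ
  set y₁ := b + (s₀ : ℂ) • ν + z₀ • a with hy₁
  have hT : ∀ (s : ℝ) (z : ℂ), b + (s : ℂ) • ν + z • a ∈ Tb b E := fun s z => sx_mem hS hν s z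
  obtain ⟨δ₁, hδ₁, hy₁δ⟩ := G.exists_gd h0
  -- points of the cone over the values
  have hfib : ∀ (s : ℝ) (z : ℂ), ∃ x ∈ X, pr x = φ (b + (s : ℂ) • ν + z • a) ∧ u x - (b + (s : ℂ) • ν + z • a) ∈ Λ := by
    intro s z
    have h1 := hc_mem (hsh.line _ (hT s z)) 0
    simp only [zero_smul, add_zero] at h1
    exact h1
  have hm₀ : φ y₁ ∈ Fb X Λ u y₁ := hfib s₀ z₀
  obtain ⟨χ, ρ₁, r₁, hr₁, hcap⟩ := exists_cap_at G h0 hm₀
  obtain ⟨x₀, hx₀, hx₀m, hx₀u⟩ := hm₀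
  obtain ⟨c₁, hc₁, hc₁X, hc₁n⟩ := exists_unit hX hx₀
  set v := c₁ • x₀ with hv
  have hvn : ‖v‖ = 1 := mem_sphere_zero_iff_norm.1 hc₁n
  have hvp : pr v = φ y₁ := by rw [hv, Pool.Agent.H62.EF.pr_smul x₀ hc₁, hx₀m]
  have hvU : v ∈ χ.U := (hcap.cap y₁ (mem_closedBall_self hr₁.le) v hc₁X (smul_mem_lat G.tor hx₀ hx₀u hc₁) (by rw [hvp, dist_self]; exact hr₁.le)).1
  -- a ball around `v`
  obtain ⟨R₀, hR₀, hball⟩ : ∃ R₀ : ℝ, 0 < R₀ ∧ ∀ x ∈ ball v R₀, x ∈ χ.U ∧ ‖χ.q x‖ < ‖χ.q v‖ + 1 := by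
    have h1 : ∀ᶠ x in 𝓝 v, x ∈ χ.U ∧ ‖χ.q x‖ < ‖χ.q v‖ + 1 :=
      Filter.Eventually.and (χ.isOpen_U.mem_nhds hvU) ((χ.q_an v hvU).continuousAt.norm.eventually_lt_const (by show ‖χ.q v‖ < ‖χ.q v‖ + 1; linarith))
    obtain ⟨R₀, hR₀, h⟩ := Metric.mem_nhds_iff.1 h1
    exact ⟨R₀, hR₀, fun x hx => h hx⟩
  set R := R₀ / 2 with hR
  have hRpos : 0 < R := by positivity
  set M := ‖χ.q v‖ + 1 with hM
  have hM0 : 0 ≤ M := by positivity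
  obtain ⟨ε₂, hε₂, hin⟩ := inner_near (N := N) (η := 1 / 2) (by norm_num)
  obtain ⟨ε₃, hε₃, hnv⟩ := nv_near (N := N) (η := R / 4) (by positivity)
  obtain ⟨ε₄, hε₄, hun⟩ := exists_unit_near (N := N) (η := R) hRpos
  -- the box
  obtain ⟨r, hr, hbox⟩ : ∃ r : ℝ, 0 < r ∧ ∀ (s : ℝ) (z : ℂ), |s - s₀| < r → ‖z - z₀‖ < r →
      b + (s : ℂ) • ν + z • a ∈ closedBall y₁ r₁ ∧ b + (s : ℂ) • ν + z • a ∈ Gd D (δ₁ / 2) ∧
        dist (φ (b + (s : ℂ) • ν + z • a)) (φ y₁) ≤ min (min r₁ ε₂) ε₄ := by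
    refine sx_near hS hν (P := fun y => y ∈ closedBall y₁ r₁ ∧ y ∈ Gd D (δ₁ / 2) ∧ dist (φ y) (φ y₁) ≤ min (min r₁ ε₂) ε₄) ?_
    have h1 : ∀ᶠ y in 𝓝[Tb b E] y₁, y ∈ closedBall y₁ r₁ := mem_nhdsWithin_of_mem_nhds (closedBall_mem_nhds y₁ hr₁)
    have h2 : ∀ᶠ y in 𝓝[Tb b E] y₁, y ∈ ball y₁ (δ₁ / 2) := mem_nhdsWithin_of_mem_nhds (ball_mem_nhds y₁ (by positivity))
    have h3 : ∀ᶠ y in 𝓝[Tb b E] y₁, φ y ∈ closedBall (φ y₁) (min (min r₁ ε₂) ε₄) :=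
      (hsh.cont y₁ (hT s₀ z₀) h0).tendsto (closedBall_mem_nhds _ (lt_min (lt_min hr₁ hε₂) hε₄))
    filter_upwards [h1, h2, h3] with y h4 h5 h6
    refine ⟨h4, ?_, h6⟩
    have h7 := gd_near hy₁δ (r := δ₁ / 2) (w := y) (by rw [← dist_eq_norm]; exact (mem_ball.1 h5).le)
    have e : δ₁ - δ₁ / 2 = δ₁ / 2 := by ring
    rwa [e] at h7
  have hIoo : ∀ s ∈ Set.Ioo (s₀ - r) (s₀ + r), |s - s₀| < r := fun s hs => by
    rw [abs_lt]
    constructor <;> linarith [hs.1, hs.2]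
  have hbl : ∀ z ∈ ball z₀ r, ‖z - z₀‖ < r := fun z hz => by rwa [mem_ball, dist_eq_norm] at hz
  -- the points in the chart
  have hpt : ∀ s ∈ Set.Ioo (s₀ - r) (s₀ + r), ∀ z ∈ ball z₀ r, ∀ x ∈ X, pr x = φ (b + (s : ℂ) • ν + z • a) → u x - (b + (s : ℂ) • ν + z • a) ∈ Λ →
      x ∈ χ.U ∧ χ.q x ∈ closedBall (0 : Vd (k + 2)) 1 ∧ ms y₁ ρ₁ (χ.q x) = b + (s : ℂ) • ν + z • a ∧ inner ℂ v x ≠ (0 : ℂ) := by
    intro s hs z hz x hx hxp hxu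
    obtain ⟨h1, -, h3⟩ := hbox s z (hIoo s hs) (hbl z hz)
    have h4 := hcap.cap _ h1 x hx hxu (by rw [hxp]; exact h3.trans ((min_le_left _ _).trans (min_le_left _ _)))
    refine ⟨h4.1, h4.2.1, h4.2.2, (hin v hvn x (ne_zero hX hx) ?_).1⟩
    rw [hxp, hvp]
    exact h3.trans ((min_le_left _ _).trans (min_le_right _ _))
  set f : ℝ → ℂ → ℂ := fun s z => χ.q (nv v (φ (b + (s : ℂ) • ν + z • a))) 0 with hf
  have hfx : ∀ s ∈ Set.Ioo (s₀ - r) (s₀ + r), ∀ z ∈ ball z₀ r, ∀ x ∈ X, pr x = φ (b + (s : ℂ) • ν + z • a) → u x - (b + (s : ℂ) • ν + z • a) ∈ Λ →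
      f s z = χ.q x 0 := by
    intro s hs z hz x hx hxp hxu
    obtain ⟨h1, -, -, h2⟩ := hpt s hs z hz x hx hxp hxu
    show χ.q (nv v (φ (b + (s : ℂ) • ν + z • a))) 0 = χ.q x 0
    rw [← hxp, sx_q h2 h1]
  -- holomorphic in `z`
  have hol : ∀ s ∈ Set.Ioo (s₀ - r) (s₀ + r), DifferentiableOn ℂ (f s) (ball z₀ r) := by
    intro s hs
    have hT0 : b + (s : ℂ) • ν ∈ Tb b E := by
      have h1 := hT s 0
      rwa [zero_smul, add_zero] at h1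
    obtain ⟨F, ⟨hFd, hFX, hFu⟩, hFe⟩ := hsh.line _ hT0
    have hFp : ∀ z, pr (F z) = φ (b + (s : ℂ) • ν + z • a) := fun z => (congrFun hFe z).symm
    have h1 : ∀ z ∈ ball z₀ r, f s z = χ.q (F z) 0 := fun z hz => hfx s hs z hz (F z) (hFX z) (hFp z) (hFu z)
    refine DifferentiableOn.congr ?_ h1
    intro z hz
    have h2 : DifferentiableAt ℂ χ.q (F z) := (χ.q_an (F z) (hpt s hs z hz (F z) (hFX z) (hFp z) (hFu z)).1).differentiableAt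
    have h3 : DifferentiableAt ℂ (fun z => χ.q (F z)) z := h2.comp z (hFd z)
    exact (differentiableAt_pi.1 h3 0).differentiableWithinAt
  -- the divided differences
  have hdd : ∀ m : ℕ, ∀ s₁ ∈ Set.Ioo (s₀ - r) (s₀ + r), ∀ z₁ ∈ ball z₀ r, ∃ r C : ℝ, 0 < r ∧ ∀ z ∈ ball z₁ r, ∀ σ : ℕ → ℝ, Nod m σ r →
      ‖dd m σ (fun s => f (s₁ + s) z)‖ ≤ C := by
    intro m s₁ hs₁ z₁ hz₁
    obtain ⟨rd, C, hrd, hC, hddb⟩ := sx_ddb S hS hν (δ' := δ₁ / 2) (by positivity) m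
    obtain ⟨rc, K, hrc, hK, hcomp⟩ := dd_comp_le m hRpos hC
    obtain ⟨-, hy₂, -⟩ := hbox s₁ z₁ (hIoo s₁ hs₁) (hbl z₁ hz₁)
    have hy₂D : b + (s₁ : ℂ) • ν + z₁ • a ∉ D := gd_notMem (by positivity) hy₂
    obtain ⟨r₃, hr₃, hnear⟩ : ∃ r₃ : ℝ, 0 < r₃ ∧ ∀ (s : ℝ) (z : ℂ), |s - s₁| < r₃ → ‖z - z₁‖ < r₃ →
        dist (φ (b + (s : ℂ) • ν + z • a)) (φ (b + (s₁ : ℂ) • ν + z₁ • a)) < min ε₂ ε₃ / 2 := by
      refine sx_near hS hν (P := fun y => dist (φ y) (φ (b + (s₁ : ℂ) • ν + z₁ • a)) < min ε₂ ε₃ / 2) ?_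
      exact (hsh.cont _ (hT s₁ z₁) hy₂D).tendsto (ball_mem_nhds _ (half_pos (lt_min hε₂ hε₃)))
    obtain ⟨r₄, hr₄, hr₄I⟩ := Metric.mem_nhds_iff.1 (isOpen_Ioo.mem_nhds hs₁)
    obtain ⟨r₅, hr₅, hr₅B⟩ := Metric.mem_nhds_iff.1 (isOpen_ball.mem_nhds hz₁)
    set r' := min (min (min rd rc) (min r₃ r₄)) r₅ / 2 with hr'
    have hr'0 : 0 < r' := half_pos (lt_min (lt_min (lt_min hrd hrc) (lt_min hr₃ hr₄)) hr₅)
    have hmin := min_le_left (min (min rd rc) (min r₃ r₄)) r₅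
    have hmin5 := min_le_right (min (min rd rc) (min r₃ r₄)) r₅
    have hm1 := min_le_left (min rd rc) (min r₃ r₄)
    have hm2 := min_le_right (min rd rc) (min r₃ r₄)
    have hm3 := min_le_left rd rc
    have hm4 := min_le_right rd rc
    have hm5 := min_le_left r₃ r₄
    have hm6 := min_le_right r₃ r₄
    have hle_d : r' ≤ rd := by linarith
    have hle_c : r' ≤ rc := by linarith
    have hlt3 : r' < r₃ := by linarith
    have hlt4 : r' < r₄ := by linarith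
    have hlt5 : r' < r₅ := by linarith
    refine ⟨r', K * M, hr'0, fun z hz σ hσ => ?_⟩
    have hzn : ‖z - z₁‖ < r' := by rwa [mem_ball, dist_eq_norm] at hz
    have hzB : z ∈ ball z₀ r := hr₅B (by rw [mem_ball, dist_eq_norm]; linarith)
    set y := b + (s₁ : ℂ) • ν + z • a with hy
    obtain ⟨-, hyD, hyd⟩ := hbox s₁ z (hIoo s₁ hs₁) (hbl z hzB)
    obtain ⟨x, hx, hxp, hxu⟩ := hfib s₁ z
    obtain ⟨c, hc, hcn, hcv⟩ := hun v hvn x (ne_zero hX hx) (by rw [hxp, hvp]; exact hyd.trans (min_le_right _ _))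
    set v' := c • x with hv'
    have hv'p : pr v' = φ y := by rw [hv', Pool.Agent.H62.EF.pr_smul x hc, hxp]
    have hsub : ball v' R ⊆ ball v R₀ := by
      intro w hw
      rw [mem_ball, dist_eq_norm] at hw ⊢
      have h1 := norm_add_le (w - v') (v' - v)
      rw [sub_add_sub_cancel] at h1
      have h2 : R + R = R₀ := by rw [hR]; ring
      linarith
    -- the nodes
    have hσI : ∀ i ≤ m, s₁ + σ i ∈ Set.Ioo (s₀ - r) (s₀ + r) := fun i hi => hr₄I (by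
      rw [mem_ball, Real.dist_eq, add_sub_cancel_left]
      exact (hσ.le i hi).trans_lt hlt4)
    have hyσ : ∀ t : ℝ, y + (t : ℂ) • ν = b + ((s₁ + t : ℝ) : ℂ) • ν + z • a := by
      intro t
      rw [hy]
      push_cast
      rw [add_smul]
      abel
    have hdist : ∀ i ≤ m, dist (φ (y + (σ i : ℂ) • ν)) (pr v') ≤ min ε₂ ε₃ := by
      intro i hi
      rw [hyσ, hv'p]
      have h1 := hnear (s₁ + σ i) z (by rw [add_sub_cancel_left]; exact (hσ.le i hi).trans_lt hlt3) (by linarith)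
      have h2 := hnear s₁ z (by rw [sub_self, abs_zero]; exact hr₃) (by linarith)
      have h3 := dist_triangle_right (φ (b + ((s₁ + σ i : ℝ) : ℂ) • ν + z • a)) (φ y) (φ (b + (s₁ : ℂ) • ν + z₁ • a))
      linarith
    have hb1 : ∀ j ≤ m, ‖dd j σ fun s : ℝ => nv v' (φ (y + (s : ℂ) • ν))‖ ≤ C := fun j hj =>
      hddb j hj φ hφ y (hT s₁ z) hyD v' hcn hv'p σ (hσ.mono le_rfl hle_d)
    have hb2 : ∀ i ≤ m, (fun s : ℝ => nv v' (φ (y + (s : ℂ) • ν))) (σ i) ∈ ball v' (R / 4) := by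
      intro i hi
      rw [mem_ball, dist_eq_norm]
      exact hnv v' hcn _ ((hdist i hi).trans (min_le_right _ _))
    have hΨd : DifferentiableOn ℂ (fun p : EN N × ℂ => χ.q p.1 0) (ball v' R ×ˢ ball (0 : ℂ) R) := by
      rintro ⟨w, ζ⟩ ⟨hw, -⟩
      have h1 : DifferentiableAt ℂ χ.q w := (χ.q_an w (hball w (hsub hw)).1).differentiableAt
      have h2 : DifferentiableAt ℂ (fun p : EN N × ℂ => χ.q p.1) (w, ζ) := DifferentiableAt.comp (w, ζ) (g := χ.q) (f := Prod.fst) h1 differentiableAt_fst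
      exact (differentiableAt_pi.1 h2 0).differentiableWithinAt
    have hΨM : ∀ p ∈ ball v' R ×ˢ ball (0 : ℂ) R, ‖(fun p : EN N × ℂ => χ.q p.1 0) p‖ ≤ M := by
      rintro ⟨w, ζ⟩ ⟨hw, -⟩
      exact (norm_le_pi_norm (χ.q w) 0).trans (hball w (hsub hw)).2.le
    have h1 := hcomp (EN N) ℂ (fun p : EN N × ℂ => χ.q p.1 0) v' M hM0 hΨd hΨM σ (fun s : ℝ => nv v' (φ (y + (s : ℂ) • ν))) (hσ.mono le_rfl hle_c) hb2 hb1 m le_rfl
    have h2 : dd m σ (fun s => f (s₁ + s) z) = dd m σ (fun s : ℝ => (fun p : EN N × ℂ => χ.q p.1 0) (nv v' (φ (y + (s : ℂ) • ν)), (s : ℂ))) := by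
      refine dd_congr fun i hi => ?_
      obtain ⟨xi, hxi, hxip, hxiu⟩ := hfib (s₁ + σ i) z
      have h3 := hfx (s₁ + σ i) (hσI i hi) z hzB xi hxi hxip hxiu
      have h4 : inner ℂ v' xi ≠ (0 : ℂ) := (hin v' hcn xi (ne_zero hX hxi) (by
        have h5 := hdist i hi
        rw [hyσ, ← hxip] at h5
        exact h5.trans (min_le_left _ _))).1
      have h5 := (hpt (s₁ + σ i) (hσI i hi) z hzB xi hxi hxip hxiu).1
      show f (s₁ + σ i) z = χ.q (nv v' (φ (y + (σ i : ℂ) • ν))) 0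
      rw [h3, hyσ, ← hxip, sx_q h4 h5]
    rw [h2]
    exact h1
  obtain ⟨w, hw0, hw⟩ := jetFam_of_dd isOpen_Ioo isOpen_ball hol hdd
  -- the point of the chart
  have hcz : ∀ s ∈ Set.Ioo (s₀ - r) (s₀ + r), ∀ z ∈ ball z₀ r, ∀ x ∈ X, pr x = φ (b + (s : ℂ) • ν + z • a) → u x - (b + (s : ℂ) • ν + z • a) ∈ Λ →
      Pool.Agent.G3.C.cz b ν a y₁ ρ₁ (w 0 s z) s z = χ.q x := by
    intro s hs z hz x hx hxp hxu
    obtain ⟨-, -, h3, -⟩ := hpt s hs z hz x hx hxp hxu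
    have hρ : (ρ₁ : ℂ) ≠ 0 := by exact_mod_cast hcap.str.pos.ne'
    funext i
    refine Fin.cases ?_ (fun i => ?_) i
    · show w 0 s z = χ.q x 0
      rw [hw0 s hs z hz]
      exact hfx s hs z hz x hx hxp hxu
    · show ((ρ₁ : ℂ)⁻¹ • (b + (s : ℂ) • ν + z • a - y₁)) i = χ.q x i.succ
      rw [← h3]
      unfold ms
      rw [add_sub_cancel_left, smul_smul, inv_mul_cancel₀ hρ, one_smul]
      rfl
  refine ⟨χ, y₁, ρ₁, w, r, hr, hcap.str, hw, fun s hs z hz => ?_, fun s hs z hz => ?_⟩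
  · obtain ⟨x, hx, hxp, hxu⟩ := hfib s z
    rw [hcz s hs z hz x hx hxp hxu]
    exact closedBall_subset_ball (by norm_num) (hpt s hs z hz x hx hxp hxu).2.1
  · obtain ⟨x, hx, hxp, hxu⟩ := hfib s z
    rw [hcz s hs z hz x hx hxp hxu]
    obtain ⟨-, c, hc, hcx⟩ := χ.surj x hx (hpt s hs z hz x hx hxp hxu).1
    show φ (b + (s : ℂ) • ν + z • a) = pr (χ.σ (χ.q x))
    rw [← hxp]
    conv_lhs => rw [hcx]
    rw [Pool.Agent.H62.EF.pr_smul _ hc]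

end Pool.Agent.G3.R
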