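import Pool.Agent.G3.R.RDefs

/-!
# G3 R Max: the maximum

`mf_cont`: from `hP.cont` and the continuity of `deriv h`.
`exists_max`: the function `φ z = (r² - |z|²)² Mf z ² / (A + Lam z)` at the `Ok` points, `φ = 0` at the other points, is upper semicontinuous on `closedBall 0 r` (`closedBall 0 r ⊆ ball 0 1`) and `≥ 0`:
it is continuous at `Ok` points (at an `Ok` point with `deriv h = 0` we have `Np = 0` also near it); near a point with `Q (F z) = 0` we have `Lam → ∞` on `Ok` points and `Mf` is bounded; near a point with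
`Q (F z) ≠ 0`, `p = 0`, `deriv h ≠ 0`: `Np → ∞`; near a point with `p = 0`, `deriv h = 0`: `Mf → 0` (and `Lam ≥ 0`).  So `φ` has a maximum on the compact disc; if it is `0` take `w = 0`
(then `Mf z = 0` at all `Ok` points of the ball), otherwise the maximum point is `Ok` and in the open ball.
-/

set_option autoImplicit false

open Topology Filter Metric

namespace Pool.Agent.G3

open Pool.Agent.H36.BP (EN fs wd Sub)
open Pool.Agent.H14.PP (IsCone CurveAt Tan)
open Pool.Agent.H62.EF (MN pr)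
open Pool.Agent.AD (Vd Chart Charts)
open Pool.Agent.TG (TMap Lat Geo Gd)

variable {N k : ℕ} {X : Set (EN N)} {Λ : AddSubgroup (Vd (k + 1))} {u : EN N → Vd (k + 1)} {D : Set (Vd (k + 1))} {p : EN N → EN N → ℝ} {m d : ℕ} {C : ℝ} {Q : EN N → ℂ}

theorem mf_cont (hP : PS X Λ u D p m C) {U : Set ℂ} (hU : IsOpen U) {F : ℂ → EN N} {h : ℂ → Vd (k + 1)} (hF : Cv X Λ u U F h) (ε : ℝ) :
    ContinuousOn (Mf p m ε F h) U := by
  have h1 : ContinuousOn (fun z => ‖deriv h z‖) U := (hF.h_diff.deriv hU).continuousOn.norm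
  have h2 : ContinuousOn (fun z => pf p F z ^ (1 / (m : ℝ))) U :=
    (hP.cont U F h hU hF).rpow_const fun z _ => Or.inr (by positivity)
  exact h1.sup (continuousOn_const.mul h2)

theorem lam_nonneg (hX : IsCone X) (hQ : QD X Λ u D Q d) {F : ℂ → EN N} {h : ℂ → Vd (k + 1)} {z : ℂ} (hz : F z ∈ X) (h0 : Q (F z) ≠ 0) :
    0 ≤ Lq Q d (F z) ∧ 0 ≤ Np p m F h z ∧ 0 ≤ Lam Q d p m F h z := by
  have h1 : 0 ≤ Lq Q d (F z) := by
    unfold Lq
    have h2 : Real.log ‖Q (F z)‖ ≤ Real.log (‖F z‖ ^ d) := Real.log_le_log (norm_pos_iff.2 h0) (hQ.bound _ hz)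
    rw [Real.log_pow] at h2
    linarith
  have h3 : 0 ≤ Np p m F h z := le_max_left _ _
  refine ⟨h1, h3, ?_⟩
  unfold Lam
  positivity

private theorem Max_np (z : ℂ) (F : ℂ → EN N) (h : ℂ → Vd (k + 1)) :
    Np p m F h z = Real.posLog (‖deriv h z‖ ^ m / pf p F z) := by
  unfold Np
  rw [Real.posLog_apply, ← Real.log_inv, inv_div]

private theorem Max_cont (hX : IsCone X) (hP : PS X Λ u D p m C) (hQ : QD X Λ u D Q d) {F : ℂ → EN N} {h : ℂ → Vd (k + 1)}
    (hF : Cv X Λ u (ball 0 1) F h) {z : ℂ} (hz : z ∈ ball (0 : ℂ) 1) (h0 : Ok Q p F z) :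
    (∀ᶠ w in 𝓝 z, Ok Q p F w) ∧ ContinuousAt (Lam Q d p m F h) z := by
  have hb : ball (0 : ℂ) 1 ∈ 𝓝 z := isOpen_ball.mem_nhds hz
  have hFc : ContinuousAt F z := hF.F_diff.continuousOn.continuousAt hb
  have hQc : ContinuousAt (fun w => Q (F w)) z := ContinuousAt.comp (g := Q) hQ.diff.continuous.continuousAt hFc
  have hpc : ContinuousAt (pf p F) z := (hP.cont _ F h isOpen_ball hF).continuousAt hb
  have hdc : ContinuousAt (fun w => ‖deriv h w‖) z := (hF.h_diff.deriv isOpen_ball).continuousOn.norm.continuousAt hb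
  have hF0 : F z ≠ 0 := fun h => hX.zero_notMem (h ▸ hF.mem z hz)
  refine ⟨?_, ?_⟩
  · filter_upwards [hQc.eventually_ne h0.1, hpc.eventually (lt_mem_nhds h0.2)] with w h1 h2
    exact ⟨h1, h2⟩
  · have h1 : ContinuousAt (fun w => Np p m F h w) z := by
      have h2 : (fun w => Np p m F h w) = fun w => Real.posLog (‖deriv h w‖ ^ m / pf p F w) := funext fun w => Max_np w F h
      rw [h2]
      exact ContinuousAt.comp (g := Real.posLog) Real.continuous_posLog.continuousAt ((hdc.pow m).div hpc h0.2.ne')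
    have h3 : ContinuousAt (fun w => Lq Q d (F w)) z := by
      unfold Lq
      exact (continuousAt_const.mul (hFc.norm.log (norm_ne_zero_iff.2 hF0))).sub (hQc.norm.log (norm_ne_zero_iff.2 h0.1))
    exact h3.add (continuousAt_const.mul h1)

/-- at a point which is not `Ok` the functional tends to infinity or `Mf` to `0` -/
private theorem Max_deg (hX : IsCone X) (hP : PS X Λ u D p m C) (hQ : QD X Λ u D Q d) {F : ℂ → EN N} {h : ℂ → Vd (k + 1)}
    (hF : Cv X Λ u (ball 0 1) F h) {z : ℂ} (hz : z ∈ ball (0 : ℂ) 1) (h0 : ¬ Ok Q p F z) (h1 : ¬ (pf p F z = 0 ∧ deriv h z = 0)) (B : ℝ) :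
    ∀ᶠ w in 𝓝 z, Ok Q p F w → B < Lam Q d p m F h w := by
  have hb : ball (0 : ℂ) 1 ∈ 𝓝 z := isOpen_ball.mem_nhds hz
  have hFc : ContinuousAt F z := hF.F_diff.continuousOn.continuousAt hb
  have hQc : ContinuousAt (fun w => Q (F w)) z := ContinuousAt.comp (g := Q) hQ.diff.continuous.continuousAt hFc
  have hpc : ContinuousAt (pf p F) z := (hP.cont _ F h isOpen_ball hF).continuousAt hb
  have hdc : ContinuousAt (fun w => ‖deriv h w‖) z := (hF.h_diff.deriv isOpen_ball).continuousOn.norm.continuousAt hb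
  have hF0 : F z ≠ 0 := fun h => hX.zero_notMem (h ▸ hF.mem z hz)
  have hd1 : (1 : ℝ) ≤ d := by exact_mod_cast hQ.d_pos
  by_cases hq : Q (F z) = 0
  · have h2 : ContinuousAt (fun w => Real.exp B * ‖Q (F w)‖) z := continuousAt_const.mul hQc.norm
    have h3 : ContinuousAt (fun w => ‖F w‖ ^ d) z := hFc.norm.pow d
    have h4 : Real.exp B * ‖Q (F z)‖ < ‖F z‖ ^ d := by
      rw [hq, norm_zero, mul_zero]
      exact pow_pos (norm_pos_iff.2 hF0) d
    filter_upwards [h2.eventually_lt h3 h4, hb] with w h5 hw hok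
    have h6 : Real.log (Real.exp B * ‖Q (F w)‖) < Real.log (‖F w‖ ^ d) :=
      Real.log_lt_log (mul_pos (Real.exp_pos B) (norm_pos_iff.2 hok.1)) h5
    rw [Real.log_mul (Real.exp_pos B).ne' (norm_ne_zero_iff.2 hok.1), Real.log_exp, Real.log_pow] at h6
    have h7 := (lam_nonneg (p := p) (m := m) (h := h) hX hQ (hF.mem w hw) hok.1).2.1
    unfold Lam Lq
    have h8 : 0 ≤ (d : ℝ) * Np p m F h w := by positivity
    linarith
  · have hp0 : pf p F z = 0 := by
      by_contra hne
      exact h0 ⟨hq, lt_of_le_of_ne (hP.nonneg _ _) (Ne.symm hne)⟩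
    have hd0 : deriv h z ≠ 0 := fun hd => h1 ⟨hp0, hd⟩
    have h2 : ContinuousAt (fun w => Real.exp B * pf p F w) z := continuousAt_const.mul hpc
    have h3 : ContinuousAt (fun w => ‖deriv h w‖ ^ m) z := hdc.pow m
    have h4 : Real.exp B * pf p F z < ‖deriv h z‖ ^ m := by
      rw [hp0, mul_zero]
      exact pow_pos (norm_pos_iff.2 hd0) m
    filter_upwards [h2.eventually_lt h3 h4, hb] with w h5 hw hok
    have h6 : Real.exp B < ‖deriv h w‖ ^ m / pf p F w := by
      rw [lt_div_iff₀ hok.2]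
      exact h5
    have h7 := Real.log_lt_log (Real.exp_pos B) h6
    rw [Real.log_exp] at h7
    have h8 : B < Np p m F h w := by
      rw [Max_np, Real.posLog_apply]
      exact lt_of_lt_of_le h7 (le_max_right _ _)
    have h9 := lam_nonneg (p := p) (m := m) (h := h) hX hQ (hF.mem w hw) hok.1
    unfold Lam
    nlinarith [h9.1, h9.2.1]

theorem exists_max (hX : IsCone X) (hP : PS X Λ u D p m C) (hQ : QD X Λ u D Q d) {ε A : ℝ} (hε : 0 < ε) (hA : 0 < A) {F : ℂ → EN N} {h : ℂ → Vd (k + 1)}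
    (hF : Cv X Λ u (ball 0 1) F h) (h0 : Ok Q p F 0) {r : ℝ} (hr : 0 < r) (hr1 : r < 1) :
    ∃ w ∈ ball (0 : ℂ) r, Ok Q p F w ∧ ∀ z ∈ ball (0 : ℂ) r, Ok Q p F z →
      (r ^ 2 - ‖z‖ ^ 2) ^ 2 * Mf p m ε F h z ^ 2 * (A + Lam Q d p m F h w) ≤ (r ^ 2 - ‖w‖ ^ 2) ^ 2 * Mf p m ε F h w ^ 2 * (A + Lam Q d p m F h z) := by
  classical
  have hsub : closedBall (0 : ℂ) r ⊆ ball 0 1 := closedBall_subset_ball hr1
  have hbs : ball (0 : ℂ) r ⊆ ball 0 1 := ball_subset_closedBall.trans hsub
  set g : ℂ → ℝ := fun z => (r ^ 2 - ‖z‖ ^ 2) ^ 2 * Mf p m ε F h z ^ 2 with hg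
  set φ : ℂ → ℝ := fun z => if Ok Q p F z then g z / (A + Lam Q d p m F h z) else 0 with hφ
  have hgc : ContinuousOn g (ball 0 1) :=
    ((continuousOn_const.sub (continuous_norm.pow 2).continuousOn).pow 2).mul ((mf_cont hP isOpen_ball hF ε).pow 2)
  have hg0 : ∀ z, 0 ≤ g z := fun z => by positivity
  have hpos : ∀ z ∈ ball (0 : ℂ) 1, Ok Q p F z → 0 < A + Lam Q d p m F h z := fun z hz hok => by
    have := (lam_nonneg (p := p) (m := m) (h := h) hX hQ (hF.mem z hz) hok.1).2.2
    linarith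
  have husc : UpperSemicontinuousOn φ (closedBall (0 : ℂ) r) := by
    intro z hz y hy
    have hz1 := hsub hz
    have hb : ball (0 : ℂ) 1 ∈ 𝓝 z := isOpen_ball.mem_nhds hz1
    have hgz : ContinuousAt g z := hgc.continuousAt hb
    refine Filter.Eventually.filter_mono nhdsWithin_le_nhds ?_
    by_cases hok : Ok Q p F z
    · obtain ⟨h1, h2⟩ := Max_cont hX hP hQ hF hz1 hok
      have h3 : ContinuousAt (fun w => g w / (A + Lam Q d p m F h w)) z :=
        hgz.div (continuousAt_const.add h2) (hpos z hz1 hok).ne'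
      have h4 : g z / (A + Lam Q d p m F h z) < y := by
        simpa [hφ, hok] using hy
      filter_upwards [h1, h3.eventually (gt_mem_nhds h4)] with w h5 h6
      simpa [hφ, h5] using h6
    · have hy0 : 0 < y := by simpa [hφ, hok] using hy
      by_cases hd : pf p F z = 0 ∧ deriv h z = 0
      · have h1 : g z < y * A := by
          have h2 : Mf p m ε F h z = 0 := by
            unfold Mf
            have h3 : (0 : ℝ) ^ (1 / (m : ℝ)) = 0 := Real.zero_rpow (by
              have := hP.m_pos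
              positivity)
            rw [hd.1, hd.2, h3]
            simp
          simp only [hg, h2]
          have := mul_pos hy0 hA
          simpa using this
        filter_upwards [hgz.eventually (gt_mem_nhds h1), hb] with w h5 hw
        simp only [hφ]
        split_ifs with hokw
        · rw [div_lt_iff₀ (hpos w hw hokw)]
          have h6 := (lam_nonneg (p := p) (m := m) (h := h) hX hQ (hF.mem w hw) hokw.1).2.2
          nlinarith [mul_nonneg hy0.le h6]
        · exact hy0
      · have h1 := Max_deg hX hP hQ hF hz1 hok hd ((g z + 1) / y)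
        filter_upwards [h1, hgz.eventually (gt_mem_nhds (lt_add_one (g z))), hb] with w h5 h6 hw
        simp only [hφ]
        split_ifs with hokw
        · rw [div_lt_iff₀ (hpos w hw hokw)]
          have h7 := h5 hokw
          rw [div_lt_iff₀ hy0] at h7
          nlinarith [mul_pos hy0 hA]
        · exact hy0
  obtain ⟨w, hw, hmax⟩ := UpperSemicontinuousOn.exists_isMaxOn ⟨0, mem_closedBall_self hr.le⟩ (isCompact_closedBall (0 : ℂ) r) husc
  have hle : ∀ z ∈ closedBall (0 : ℂ) r, φ z ≤ φ w := fun z hz => hmax hz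
  have hφ0 : 0 ≤ φ w := by
    simp only [hφ]
    split_ifs with hok
    · exact div_nonneg (hg0 w) (hpos w (hsub hw) hok).le
    · exact le_rfl
  rcases hφ0.eq_or_lt with he | hlt
  · refine ⟨0, mem_ball_self hr, h0, fun z hz hok => ?_⟩
    have h1 := hle z (ball_subset_closedBall hz)
    rw [← he] at h1
    have h2 : g z / (A + Lam Q d p m F h z) ≤ 0 := by simpa [hφ, hok] using h1
    have h3 := hpos z (hbs hz) hok
    have h4 : g z ≤ 0 := by
      rw [div_le_iff₀ h3, zero_mul] at h2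
      exact h2
    have h5 : g z = 0 := le_antisymm h4 (hg0 z)
    have h6 : 0 ≤ g 0 * (A + Lam Q d p m F h z) := mul_nonneg (hg0 0) h3.le
    simp only [hg] at h5 h6
    rw [h5, zero_mul]
    exact h6
  · have hokw : Ok Q p F w := by
      by_contra hn
      simp [hφ, hn] at hlt
    have hφw : φ w = g w / (A + Lam Q d p m F h w) := by simp [hφ, hokw]
    have hpw := hpos w (hsub hw) hokw
    have hgw : 0 < g w := by
      rw [hφw] at hlt
      by_contra hn
      have : g w = 0 := le_antisymm (not_lt.1 hn) (hg0 w)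
      rw [this, zero_div] at hlt
      exact lt_irrefl _ hlt
    have hwb : w ∈ ball (0 : ℂ) r := by
      rw [mem_ball_zero_iff]
      rw [mem_closedBall_zero_iff] at hw
      refine lt_of_le_of_ne hw fun he => ?_
      simp only [hg, he] at hgw
      simp at hgw
    refine ⟨w, hwb, hokw, fun z hz hok => ?_⟩
    have h1 := hle z (ball_subset_closedBall hz)
    have hφz : φ z = g z / (A + Lam Q d p m F h z) := by simp [hφ, hok]
    rw [hφw, hφz, div_le_div_iff₀ (hpos z (hbs hz) hok) hpw] at h1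
    exact h1

end Pool.Agent.G3
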