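import Pool.Agent.G3.R.Mob
import Pool.Agent.G3.R.Max

/-!
# G3 R ExN: existence of normalised curves

Plan.  `exists_max` with `r = 1/2` gives `w`; since `0 < Mf 0` also `0 < Mf w` (take `z = 0`).  `exists_mob` (`r = 1/2`, `a = w`) gives `ψ`; `F₁ = F ∘ ψ`, `h₁ = h ∘ ψ` on `ball 0 (1/2)`,
`(r² - |z|²) Mf₁ z = (r² - |ψ z|²) Mf (ψ z)`, so the function of `exists_max` is maximal at `0` for `F₁`.  `t = Mf₁ 0 > 0`, `F' z = F₁ (z / t)`, `R = t / 2`.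
Last inequality: `R² / (A + Lam' 0) = r² Mf₁ 0 ² / (A + Lam w) = (r² - |w|²)² Mf w ² / (r² (A + Lam w)) ≥ r² Mf 0 ² / (A + Lam 0)`.
-/

set_option autoImplicit false

open Topology Filter Metric

namespace Pool.Agent.G3

open Pool.Agent.H36.BP (EN fs wd Sub)
open Pool.Agent.H14.PP (IsCone CurveAt Tan)
open Pool.Agent.H62.EF (MN pr)
open Pool.Agent.AD (Vd Chart Charts)
open Pool.Agent.TG (TMap Lat Geo Gd)

variable {N k : ℕ} {X : Set (EN N)} {Λ : AddSubgroup (Vd (k + 1))} {u : EN N → Vd (k + 1)} {D : Set (Vd (k + 1))} {p : EN N → EN N → ℝ} {m d : ℕ} {C : ℝ} {Q : EN N → ℂ}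

theorem exists_nrm (hX : IsCone X) (hP : PS X Λ u D p m C) (hQ : QD X Λ u D Q d) {ε A : ℝ} (hε : 0 < ε) (hA : 0 < A) {F : ℂ → EN N} {h : ℂ → Vd (k + 1)}
    (hF : Cv X Λ u (ball 0 1) F h) (h0 : Ok Q p F 0) (hM : 0 < Mf p m ε F h 0) :
    ∃ (R : ℝ) (F' : ℂ → EN N) (h' : ℂ → Vd (k + 1)), Nrm X Λ u Q d p m ε A R F' h' ∧
      Mf p m ε F h 0 ^ 2 * (A + Lam Q d p m F' h' 0) ≤ 4 * R ^ 2 * (A + Lam Q d p m F h 0) := by
  have hr : (0 : ℝ) < 1 / 2 := by norm_num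
  obtain ⟨w, hw, hokw, hmax⟩ := exists_max hX hP hQ (ε := ε) (A := A) hε hA hF h0 (r := 1 / 2) hr (by norm_num)
  have hw' : ‖w‖ < 1 / 2 := by simpa using hw
  obtain ⟨ψ, hψd, hψm, hψ0, hψ⟩ := exists_mob hr hw'
  have hsub : ball (0 : ℂ) (1 / 2) ⊆ ball 0 1 := ball_subset_ball (by norm_num)
  have h00 : (0 : ℂ) ∈ ball (0 : ℂ) (1 / 2) := mem_ball_self hr
  have h0m := hmax 0 h00 h0
  have hL0 := (lam_nonneg (p := p) (m := m) (h := h) hX hQ (hF.mem 0 (hsub h00)) h0.1).2.2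
  have hLw := (lam_nonneg (p := p) (m := m) (h := h) hX hQ (hF.mem w (hsub hw)) hokw.1).2.2
  have hMw0 : 0 ≤ Mf p m ε F h w := le_max_of_le_left (norm_nonneg _)
  have hMw : 0 < Mf p m ε F h w := by
    refine lt_of_le_of_ne hMw0 fun he => ?_
    rw [← he] at h0m
    have h1 : 0 < ((1 / 2 : ℝ) ^ 2 - ‖(0 : ℂ)‖ ^ 2) ^ 2 * Mf p m ε F h 0 ^ 2 * (A + Lam Q d p m F h w) := by
      rw [norm_zero]
      have h2 : 0 < A + Lam Q d p m F h w := by linarith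
      have h3 : 0 < Mf p m ε F h 0 ^ 2 := by positivity
      have h4 : (0 : ℝ) < ((1 / 2 : ℝ) ^ 2 - 0 ^ 2) ^ 2 := by norm_num
      positivity
    have h5 : ((1 / 2 : ℝ) ^ 2 - ‖w‖ ^ 2) ^ 2 * (0 : ℝ) ^ 2 * (A + Lam Q d p m F h 0) = 0 := by ring
    linarith
  obtain ⟨hd0, hd1⟩ := hψ 0 h00
  have hS : 0 < (1 / 2 : ℝ) ^ 2 - ‖w‖ ^ 2 := by nlinarith [norm_nonneg w]
  rw [hψ0, norm_zero] at hd1
  set S : ℝ := (1 / 2 : ℝ) ^ 2 - ‖w‖ ^ 2 with hSdef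
  set M : ℝ := Mf p m ε F h w with hM'
  have hd2 : ‖deriv ψ 0‖ = 4 * S := by
    have h1 : ‖deriv ψ 0‖ * ((1 / 2 : ℝ) ^ 2 - 0 ^ 2) = ‖deriv ψ 0‖ / 4 := by ring
    rw [h1] at hd1
    linarith
  set t : ℝ := 4 * S * M with ht
  have ht0 : 0 < t := by positivity
  have htc : (t : ℂ) ≠ 0 := by exact_mod_cast ht0.ne'
  have hR : 0 < t / 2 := by positivity
  -- the scaling
  have hsc : Set.MapsTo (fun z : ℂ => z / t) (ball 0 (t / 2)) (ball 0 (1 / 2)) := by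
    intro z hz
    rw [mem_ball_zero_iff] at hz ⊢
    rw [norm_div, Complex.norm_real, Real.norm_of_nonneg ht0.le, div_lt_iff₀ ht0]
    linarith
  have hφd : DifferentiableOn ℂ (fun z : ℂ => ψ (z / t)) (ball 0 (t / 2)) :=
    hψd.comp (differentiableOn_id.div_const _) hsc
  have hφm' : Set.MapsTo (fun z : ℂ => ψ (z / t)) (ball 0 (t / 2)) (ball 0 (1 / 2)) := fun z hz => hψm (hsc hz)
  have hφm : Set.MapsTo (fun z : ℂ => ψ (z / t)) (ball 0 (t / 2)) (ball 0 1) := fun z hz => hsub (hφm' hz)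
  have hφ' : ∀ z ∈ ball (0 : ℂ) (t / 2), deriv (fun z : ℂ => ψ (z / t)) z = deriv ψ (z / t) / t := by
    intro z hz
    have h1 : HasDerivAt ψ (deriv ψ (z / t)) (z / t) :=
      (hψd.differentiableAt (isOpen_ball.mem_nhds (hsc hz))).hasDerivAt
    have h2 : HasDerivAt (fun z : ℂ => z / t) (1 / (t : ℂ)) z := (hasDerivAt_id z).div_const _
    have h3 := h1.comp z h2
    have h4 := h3.deriv
    have h5 : (ψ ∘ fun z : ℂ => z / t) = fun z : ℂ => ψ (z / t) := rfl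
    rw [h5] at h4
    rw [h4]
    ring
  have hφn : ∀ z ∈ ball (0 : ℂ) (t / 2), deriv (fun z : ℂ => ψ (z / t)) z ≠ 0 := by
    intro z hz
    rw [hφ' z hz]
    exact div_ne_zero (hψ _ (hsc hz)).1 htc
  have hnorm : ∀ z ∈ ball (0 : ℂ) (t / 2), ‖deriv (fun z : ℂ => ψ (z / t)) z‖ * (1 - ‖z‖ ^ 2 / (t / 2) ^ 2) * t = 4 * ((1 / 2 : ℝ) ^ 2 - ‖ψ (z / t)‖ ^ 2) := by
    intro z hz
    rw [hφ' z hz, ← (hψ _ (hsc hz)).2, norm_div, norm_div, Complex.norm_real, Real.norm_of_nonneg ht0.le]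
    field_simp
    ring
  have hb0 : (0 : ℂ) ∈ ball (0 : ℂ) (t / 2) := mem_ball_self hR
  have hz0 : ψ ((0 : ℂ) / t) = w := by rw [zero_div, hψ0]
  have hmfc : ∀ z ∈ ball (0 : ℂ) (t / 2), Mf p m ε (fun w => F (ψ (w / t))) (fun w => h (ψ (w / t))) z =
      ‖deriv (fun z : ℂ => ψ (z / t)) z‖ * Mf p m ε F h (ψ (z / t)) := fun z hz =>
    mf_comp hP isOpen_ball isOpen_ball hF hφd hφm hz hε
  have hlamc : ∀ z ∈ ball (0 : ℂ) (t / 2), Lam Q d p m (fun w => F (ψ (w / t))) (fun w => h (ψ (w / t))) z =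
      Lam Q d p m F h (ψ (z / t)) := fun z hz =>
    lam_comp hP isOpen_ball isOpen_ball hF hφd hφm hz (hφn z hz)
  have hokc : ∀ z ∈ ball (0 : ℂ) (t / 2), (Ok Q p (fun w => F (ψ (w / t))) z ↔ Ok Q p F (ψ (z / t))) := fun z hz =>
    ok_comp hP isOpen_ball isOpen_ball hF hφd hφm hz (hφn z hz)
  refine ⟨t / 2, fun z => F (ψ (z / t)), fun z => h (ψ (z / t)), ⟨hR, hA, hF.comp hφd hφm, ?_, ?_, ?_⟩, ?_⟩
  · rw [hokc 0 hb0, hz0]
    exact hokw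
  · rw [hmfc 0 hb0, hz0, hφ' 0 hb0, norm_div, zero_div, hd2, Complex.norm_real, Real.norm_of_nonneg ht0.le, ← hM', div_mul_eq_mul_div, ← ht, div_self ht0.ne']
  · intro z hz hok
    rw [hokc z hz] at hok
    have h1 := hmax _ (hφm' hz) hok
    have h2 := hnorm z hz
    rw [hmfc z hz, hlamc z hz, hlamc 0 hb0, hz0]
    have h3 : t ^ 2 * ((‖deriv (fun z : ℂ => ψ (z / t)) z‖ * Mf p m ε F h (ψ (z / t))) ^ 2 * (1 - ‖z‖ ^ 2 / (t / 2) ^ 2) ^ 2 * (A + Lam Q d p m F h w)) =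
        16 * (((1 / 2 : ℝ) ^ 2 - ‖ψ (z / t)‖ ^ 2) ^ 2 * Mf p m ε F h (ψ (z / t)) ^ 2 * (A + Lam Q d p m F h w)) := by
      have h4 : t ^ 2 * ((‖deriv (fun z : ℂ => ψ (z / t)) z‖ * Mf p m ε F h (ψ (z / t))) ^ 2 * (1 - ‖z‖ ^ 2 / (t / 2) ^ 2) ^ 2 * (A + Lam Q d p m F h w)) =
        (‖deriv (fun z : ℂ => ψ (z / t)) z‖ * (1 - ‖z‖ ^ 2 / (t / 2) ^ 2) * t) ^ 2 * Mf p m ε F h (ψ (z / t)) ^ 2 * (A + Lam Q d p m F h w) := by ring
      rw [h4, h2]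
      ring
    have h5 : 16 * (S ^ 2 * M ^ 2 * (A + Lam Q d p m F h (ψ (z / t)))) = t ^ 2 * (A + Lam Q d p m F h (ψ (z / t))) := by
      rw [ht]
      ring
    have h6 : 0 < t ^ 2 := by positivity
    refine le_of_mul_le_mul_left ?_ h6
    rw [h3, ← h5]
    exact mul_le_mul_of_nonneg_left h1 (by norm_num)
  · rw [hlamc 0 hb0, hz0]
    rw [norm_zero] at h0m
    have h7 : 4 * (t / 2) ^ 2 * (A + Lam Q d p m F h 0) = 16 * (S ^ 2 * M ^ 2 * (A + Lam Q d p m F h 0)) := by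
      rw [ht]
      ring
    rw [h7]
    have h8 : Mf p m ε F h 0 ^ 2 * (A + Lam Q d p m F h w) = 16 * (((1 / 2 : ℝ) ^ 2 - 0 ^ 2) ^ 2 * Mf p m ε F h 0 ^ 2 * (A + Lam Q d p m F h w)) := by
      ring
    rw [h8]
    exact mul_le_mul_of_nonneg_left h0m (by norm_num)

end Pool.Agent.G3
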