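import Pool.Agent.G3.R.Seq
import Pool.Agent.G3.R.ExN

/-!
# G3 R Root: Theorem ROOT

Plan.  `ε` from `nrm_one`.  Claim: there is `C₁` with `r² Mf (w)² ≤ C₁ (1 + Lam w)` for all curves; then `‖h'‖ ≤ Mf`, `p ^ (1/m) ≤ Mf / ε` give `RootLog C` with `C = C₁ / ε²` (`(p ^ (1/m)) ^ 2 = p ^ (2/m)`).
Otherwise for every `n` there is a curve with `r² Mf (w)² > n² (1 + Lam w)` (`n ≥ 1`); composing with `z ↦ w + r z` we have `w = 0`, `r = 1` (`lam_comp`, `mf_comp`, `ok_comp`).  `exists_nrm` with `A = n + 1` gives normalised curves with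
`4 R² / (A + Lam' 0) ≥ Mf 0 ² / (n + 1 + Lam 0) ≥ Mf 0 ² / ((n + 1) (1 + Lam 0)) → ∞`; `A + Lam' 0 ≥ n + 1 → ∞` (`lam_nonneg`); `nrm_one`, `seq_false`.

`LCT.seq`: the form of `LCT` with sequences of radii (use the hyperfilter).
-/

set_option autoImplicit false

open Topology Filter Metric

namespace Pool.Agent.G3

open Pool.Agent.H36.BP (EN fs wd Sub)
open Pool.Agent.H14.PP (IsCone CurveAt Tan)
open Pool.Agent.H62.EF (MN pr)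
open Pool.Agent.AD (Vd Chart Charts)
open Pool.Agent.TG (TMap Lat Geo Gd)

variable {N k : ℕ} {X : Set (EN N)} {Λ : AddSubgroup (Vd (k + 1))} {u : EN N → Vd (k + 1)} {D : Set (Vd (k + 1))} {p : EN N → EN N → ℝ} {m d : ℕ} {C : ℝ} {Q : EN N → ℂ}

/-- one step: a curve which violates the bound gives a normalised curve -/
private theorem root_step (hX : IsCone X) (hP : PS X Λ u D p m C) (hQ : QD X Λ u D Q d) {ε : ℝ} (hε : 0 < ε) (n : ℕ)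
    (hn : ∃ (w : ℂ) (r : ℝ) (F : ℂ → EN N) (h : ℂ → Vd (k + 1)), 0 < r ∧ Cv X Λ u (ball w r) F h ∧ Ok Q p F w ∧
      ((n : ℝ) + 1) ^ 2 * (1 + Lam Q d p m F h w) < r ^ 2 * Mf p m ε F h w ^ 2) :
    ∃ (R : ℝ) (F' : ℂ → EN N) (h' : ℂ → Vd (k + 1)), Nrm X Λ u Q d p m ε ((n : ℝ) + 1) R F' h' ∧
      0 ≤ Lam Q d p m F' h' 0 ∧ ((n : ℝ) + 1) / 4 ≤ R ^ 2 / ((n : ℝ) + 1 + Lam Q d p m F' h' 0) := by
  obtain ⟨w, r, F, h, hr, hF, hok, hlt⟩ := hn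
  set φ : ℂ → ℂ := fun z => w + (r : ℂ) * z with hφ
  have hφd : DifferentiableOn ℂ φ (ball 0 1) := by
    rw [hφ]
    fun_prop
  have hφ0 : φ 0 = w := by simp [hφ]
  have hderiv : deriv φ 0 = (r : ℂ) := by
    have h1 : HasDerivAt φ ((r : ℂ) * 1) 0 := ((hasDerivAt_id (0 : ℂ)).const_mul (r : ℂ)).const_add w
    rw [mul_one] at h1
    exact h1.deriv
  have hm : Set.MapsTo φ (ball 0 1) (ball w r) := by
    intro z hz
    rw [mem_ball_zero_iff] at hz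
    rw [mem_ball, dist_eq_norm, hφ]
    show ‖w + (r : ℂ) * z - w‖ < r
    rw [add_sub_cancel_left, norm_mul, Complex.norm_real, Real.norm_eq_abs, abs_of_pos hr]
    calc r * ‖z‖ < r * 1 := by gcongr
      _ = r := mul_one r
  have h0m : (0 : ℂ) ∈ ball (0 : ℂ) 1 := mem_ball_self one_pos
  have hF1 := hF.comp hφd hm
  have hd0 : deriv φ 0 ≠ 0 := by
    rw [hderiv]
    exact_mod_cast hr.ne'
  have hok1 : Ok Q p (fun z => F (φ z)) 0 := by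
    rw [ok_comp (Q := Q) hP isOpen_ball isOpen_ball hF hφd hm h0m hd0, hφ0]
    exact hok
  have hlam1 : Lam Q d p m (fun z => F (φ z)) (fun z => h (φ z)) 0 = Lam Q d p m F h w := by
    rw [lam_comp (Q := Q) (d := d) hP isOpen_ball isOpen_ball hF hφd hm h0m hd0, hφ0]
  have hmf1 : Mf p m ε (fun z => F (φ z)) (fun z => h (φ z)) 0 = r * Mf p m ε F h w := by
    rw [mf_comp hP isOpen_ball isOpen_ball hF hφd hm h0m hε, hφ0, hderiv, Complex.norm_real, Real.norm_eq_abs, abs_of_pos hr]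
  set L := Lam Q d p m F h w with hL
  set M := Mf p m ε F h w with hM
  have hL0 : 0 ≤ L := (lam_nonneg (d := d) (p := p) (m := m) (h := h) hX hQ (hF.mem w (mem_ball_self hr)) hok.1).2.2
  have hM0 : 0 ≤ M := (norm_nonneg _).trans (le_max_left _ _)
  have hn0 : (0 : ℝ) ≤ n := Nat.cast_nonneg n
  have hMpos : 0 < M := by
    rcases hM0.lt_or_eq with h1 | h1
    · exact h1
    · rw [← h1] at hlt
      have h2 : (0 : ℝ) ≤ ((n : ℝ) + 1) ^ 2 * (1 + L) := by positivity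
      nlinarith
  have hMf0 : 0 < Mf p m ε (fun z => F (φ z)) (fun z => h (φ z)) 0 := by
    rw [hmf1]
    positivity
  obtain ⟨R, F', h', hN, hle⟩ := exists_nrm hX hP hQ hε (show (0 : ℝ) < (n : ℝ) + 1 by positivity) hF1 hok1 hMf0
  have hL' : 0 ≤ Lam Q d p m F' h' 0 := (lam_nonneg (d := d) (p := p) (m := m) (h := h') hX hQ (hN.cv.mem 0 (mem_ball_self hN.R_pos)) hN.ok.1).2.2
  refine ⟨R, F', h', hN, hL', ?_⟩
  rw [hlam1, hmf1] at hle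
  set L' := Lam Q d p m F' h' 0 with hLd
  have hB : 0 < (n : ℝ) + 1 + L' := by positivity
  rw [div_le_div_iff₀ (by norm_num) hB]
  have h3 : (n : ℝ) + 1 + L ≤ ((n : ℝ) + 1) * (1 + L) := by nlinarith
  have h4 : ((n : ℝ) + 1) ^ 2 * (1 + L) * ((n : ℝ) + 1 + L') ≤ 4 * R ^ 2 * (((n : ℝ) + 1) * (1 + L)) := by
    calc ((n : ℝ) + 1) ^ 2 * (1 + L) * ((n : ℝ) + 1 + L') ≤ (r ^ 2 * M ^ 2) * ((n : ℝ) + 1 + L') := by gcongr
      _ = (r * M) ^ 2 * ((n : ℝ) + 1 + L') := by ring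
      _ ≤ 4 * R ^ 2 * ((n : ℝ) + 1 + L) := hle
      _ ≤ 4 * R ^ 2 * (((n : ℝ) + 1) * (1 + L)) := by gcongr
  have h5 : 0 < ((n : ℝ) + 1) * (1 + L) := by positivity
  have h6 : ((n : ℝ) + 1) * ((n : ℝ) + 1 + L') * (((n : ℝ) + 1) * (1 + L)) ≤ R ^ 2 * 4 * (((n : ℝ) + 1) * (1 + L)) := by
    calc ((n : ℝ) + 1) * ((n : ℝ) + 1 + L') * (((n : ℝ) + 1) * (1 + L)) = ((n : ℝ) + 1) ^ 2 * (1 + L) * ((n : ℝ) + 1 + L') := by ring
      _ ≤ 4 * R ^ 2 * (((n : ℝ) + 1) * (1 + L)) := h4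
      _ = R ^ 2 * 4 * (((n : ℝ) + 1) * (1 + L)) := by ring
  exact le_of_mul_le_mul_right h6 h5

private theorem root_claim (hX : IsCone X) (hP : PS X Λ u D p m C) (hQ : QD X Λ u D Q d) (hL : LCT X Λ u Q d p m) {ε B₀ R₀ : ℝ} (hε : 0 < ε) (hε1 : ε ≤ 1)
    (hone : ∀ (A R : ℝ) (F : ℂ → EN N) (h : ℂ → Vd (k + 1)), Nrm X Λ u Q d p m ε A R F h → R₀ ≤ R → B₀ ≤ A + Lam Q d p m F h 0 → ‖deriv h 0‖ = 1) :
    ∃ C₁ : ℝ, 0 < C₁ ∧ ∀ (w : ℂ) (r : ℝ) (F : ℂ → EN N) (h : ℂ → Vd (k + 1)), 0 < r → Cv X Λ u (ball w r) F h → Ok Q p F w →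
      r ^ 2 * Mf p m ε F h w ^ 2 ≤ C₁ * (1 + Lam Q d p m F h w) := by
  by_contra hcon
  push Not at hcon
  have hstep : ∀ n : ℕ, ∃ (R : ℝ) (F' : ℂ → EN N) (h' : ℂ → Vd (k + 1)), Nrm X Λ u Q d p m ε ((n : ℝ) + 1) R F' h' ∧
      0 ≤ Lam Q d p m F' h' 0 ∧ ((n : ℝ) + 1) / 4 ≤ R ^ 2 / ((n : ℝ) + 1 + Lam Q d p m F' h' 0) := by
    intro n
    refine root_step hX hP hQ hε n ?_
    obtain ⟨w, r, F, h, h1, h2, h3, h4⟩ := hcon (((n : ℝ) + 1) ^ 2) (by positivity)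
    exact ⟨w, r, F, h, h1, h2, h3, h4⟩
  choose R F h hN hL0 hR using hstep
  have hn1 : Tendsto (fun n : ℕ => ((n : ℝ) + 1)) atTop atTop := tendsto_atTop_add_const_right _ _ tendsto_natCast_atTop_atTop
  have hB : Tendsto (fun n : ℕ => ((n : ℝ) + 1) + Lam Q d p m (F n) (h n) 0) atTop atTop :=
    tendsto_atTop_mono (fun n => le_add_of_nonneg_right (hL0 n)) hn1
  have hR4 : Tendsto (fun n : ℕ => R n ^ 2 / (((n : ℝ) + 1) + Lam Q d p m (F n) (h n) 0)) atTop atTop :=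
    tendsto_atTop_mono hR (hn1.atTop_div_const (by norm_num))
  refine seq_false hX hP hQ hL hε hε1 hN hB hR4 ?_
  have h5 : ∀ᶠ n in atTop, R₀ ≤ R n := by
    filter_upwards [hR4.eventually_ge_atTop (max R₀ 1), hB.eventually_ge_atTop (max R₀ 1)] with n h1 h2
    have h3 : (1 : ℝ) ≤ max R₀ 1 := le_max_right _ _
    have h4 : R₀ ≤ max R₀ 1 := le_max_left _ _
    have hpos : 0 < ((n : ℝ) + 1) + Lam Q d p m (F n) (h n) 0 := by linarith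
    rw [le_div_iff₀ hpos] at h1
    have h6 : max R₀ 1 * max R₀ 1 ≤ R n ^ 2 := (mul_le_mul_of_nonneg_left h2 (by linarith)).trans h1
    have h7 := (hN n).R_pos
    nlinarith
  filter_upwards [h5, hB.eventually_ge_atTop B₀] with n h1 h2
  exact hone _ _ _ _ (hN n) h1 h2

theorem root (hX : IsCone X) (hP : PS X Λ u D p m C) (hQ : QD X Λ u D Q d) (hL : LCT X Λ u Q d p m) : ∃ C₁ : ℝ, 0 < C₁ ∧ RootLog X Λ u Q d p m C₁ := by
  obtain ⟨ε, B₀, R₀, hε, hε1, hone⟩ := nrm_one hX hP hQ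
  obtain ⟨C₁, hC₁, hcl⟩ := root_claim hX hP hQ hL hε hε1 hone
  refine ⟨C₁ / ε ^ 2, by positivity, ?_⟩
  intro w r F h hr hF hok
  have h1 := hcl w r F h hr hF hok
  have hL0 : 0 ≤ Lam Q d p m F h w := (lam_nonneg (d := d) (p := p) (m := m) (h := h) hX hQ (hF.mem w (mem_ball_self hr)) hok.1).2.2
  have h2 : ‖deriv h w‖ ≤ Mf p m ε F h w := le_max_left _ _
  have h3 : ε * pf p F w ^ (1 / (m : ℝ)) ≤ Mf p m ε F h w := le_max_right _ _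
  have h4 : C₁ ≤ C₁ / ε ^ 2 := by
    rw [le_div_iff₀ (by positivity)]
    have : ε ^ 2 ≤ 1 := pow_le_one₀ hε.le hε1
    nlinarith
  refine ⟨?_, ?_⟩
  · calc r ^ 2 * ‖deriv h w‖ ^ 2 ≤ r ^ 2 * Mf p m ε F h w ^ 2 := by gcongr
      _ ≤ C₁ * (1 + Lam Q d p m F h w) := h1
      _ ≤ C₁ / ε ^ 2 * (1 + Lam Q d p m F h w) := by gcongr
  · have hp0 : 0 ≤ pf p F w := hok.2.le
    have h5 : pf p F w ^ (2 / (m : ℝ)) = (pf p F w ^ (1 / (m : ℝ))) ^ 2 := by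
      rw [← Real.rpow_natCast, ← Real.rpow_mul hp0]
      congr 1
      push_cast
      ring
    have h6 : 0 ≤ pf p F w ^ (1 / (m : ℝ)) := Real.rpow_nonneg hp0 _
    rw [h5, div_mul_eq_mul_div, le_div_iff₀ (by positivity)]
    calc r ^ 2 * (pf p F w ^ (1 / (m : ℝ))) ^ 2 * ε ^ 2 = r ^ 2 * (ε * pf p F w ^ (1 / (m : ℝ))) ^ 2 := by ring
      _ ≤ r ^ 2 * Mf p m ε F h w ^ 2 := by gcongr
      _ ≤ C₁ * (1 + Lam Q d p m F h w) := h1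

theorem LCT.seq (hL : LCT X Λ u Q d p m) (a : Vd (k + 1)) (R : ℕ → ℝ) (F : ℕ → ℂ → EN N) (h : ℕ → ℂ → Vd (k + 1)) (E : ℕ → ℂ → ℂ) (ha : a ≠ 0)
    (hR : Tendsto R atTop atTop) (hF : ∀ n, Cv X Λ u (ball 0 (R n)) (F n) (h n)) (h0 : ∀ n, Ok Q p (F n) 0)
    (hd : ∀ ρ ε : ℝ, 0 < ε → ∀ᶠ n in atTop, ∀ z ∈ ball (0 : ℂ) ρ, ‖deriv (h n) z - a‖ ≤ ε)
    (hE : ∀ n, DifferentiableOn ℂ (E n) (ball 0 (R n)) ∧ (∀ z ∈ ball (0 : ℂ) (R n), E n z ≠ 0) ∧ E n 0 = 1)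
    (hs : ∀ ρ ε : ℝ, 0 < ε → ∀ᶠ n in atTop, ∀ z ∈ ball (0 : ℂ) ρ, Ok Q p (F n) z →
      Lam Q d p m (F n) (h n) 0 + Real.log ‖E n z‖ - ε ≤ Lam Q d p m (F n) (h n) z) : False := by
  have hle : ((Filter.hyperfilter ℕ : Ultrafilter ℕ) : Filter ℕ) ≤ atTop := Nat.hyperfilter_le_atTop
  refine hL (Filter.hyperfilter ℕ) a F h E ha (fun r => hle ?_) (Eventually.of_forall h0) (fun ρ ε hε => hle (hd ρ ε hε)) (fun r => hle ?_)
    (fun ρ ε hε => hle (hs ρ ε hε))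
  · filter_upwards [hR.eventually_ge_atTop r] with n hn
    exact (hF n).mono (ball_subset_ball hn)
  · filter_upwards [hR.eventually_ge_atTop r] with n hn
    obtain ⟨h1, h2, h3⟩ := hE n
    exact ⟨h1.mono (ball_subset_ball hn), fun z hz => h2 z (ball_subset_ball hn hz), h3⟩

end Pool.Agent.G3
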