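import Pool.Agent.G3.CvA
import Pool.Agent.G3.Z.CDefs

/-!
# G3 R Defs: Theorem ROOT and normalised curves

`RootLog`: the statement of Theorem ROOT.  `Nrm`: a curve on the disc of radius `R` with `Mf 0 = 1` for which the function `(1 - |z|²/R²)² Mf² / (A + Lam)` is maximal at the centre.
`RT`: the curve is in the situation of all theorems of this block.
-/

set_option autoImplicit false

open Topology Filter Metric

namespace Pool.Agent.G3

open Pool.Agent.H36.BP (EN fs wd Sub)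
open Pool.Agent.H14.PP (IsCone CurveAt Tan)
open Pool.Agent.H62.EF (MN pr)
open Pool.Agent.AD (Vd Chart Charts)
open Pool.Agent.TG (TMap Lat Geo Gd)

variable {N k : ℕ}

/-- Theorem ROOT: `|h'|²` and `p ^ (2/m)` are bounded by the functional -/
def RootLog (X : Set (EN N)) (Λ : AddSubgroup (Vd (k + 1))) (u : EN N → Vd (k + 1)) (Q : EN N → ℂ) (d : ℕ) (p : EN N → EN N → ℝ) (m : ℕ) (C : ℝ) : Prop :=
  ∀ (w : ℂ) (r : ℝ) (F : ℂ → EN N) (h : ℂ → Vd (k + 1)), 0 < r → Cv X Λ u (ball w r) F h → Ok Q p F w →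
    r ^ 2 * ‖deriv h w‖ ^ 2 ≤ C * (1 + Lam Q d p m F h w) ∧ r ^ 2 * (pf p F w) ^ (2 / (m : ℝ)) ≤ C * (1 + Lam Q d p m F h w)

/-- a normalised curve -/
structure Nrm (X : Set (EN N)) (Λ : AddSubgroup (Vd (k + 1))) (u : EN N → Vd (k + 1)) (Q : EN N → ℂ) (d : ℕ) (p : EN N → EN N → ℝ) (m : ℕ) (ε A R : ℝ) (F : ℂ → EN N)
    (h : ℂ → Vd (k + 1)) : Prop where
  R_pos : 0 < R
  A_pos : 0 < A
  cv : Cv X Λ u (ball 0 R) F h
  ok : Ok Q p F 0
  one : Mf p m ε F h 0 = 1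
  le : ∀ z ∈ ball (0 : ℂ) R, Ok Q p F z → Mf p m ε F h z ^ 2 * (1 - ‖z‖ ^ 2 / R ^ 2) ^ 2 * (A + Lam Q d p m F h 0) ≤ A + Lam Q d p m F h z

end Pool.Agent.G3
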