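import Pool.Agent.G3.R.Nv
import Pool.Agent.TG.Cp

/-!
# G3 R PrmU: local primitives with uniform constants

As `PrmA`, with a uniform radius and `‖Ψ x‖ ≤ C exp (-c |y₀|²)`, for `y₀ ∈ Gd D δ`.  `UC`: a straight chart with constants `R`, `K` for the point `v` over `y₀`; `uc_base`: the straight chart at `(w, v₀)` works for all near points;
`uc_unif`: uniform constants by compactness (bounded `y₀`, ultrafilter) and translation.  Bound: `‖A p‖ ≤ sup ‖tc α χ (ms c ρ)‖` (mean value inequality from `IsPrim.der`, `IsPrim.zero`) and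
`‖tc α χ (ms c ρ) p‖ ≤ C₀ K ^ (k + 2) exp (-c₀ ‖ms c ρ p‖²)` by `Dec` and `VForm.det`, `‖ms c ρ p‖ ≥ ‖y₀‖ - K`.
-/

set_option autoImplicit false

open Topology Filter Metric

namespace Pool.Agent.G3.R

open Pool.Agent.H36.BP (EN fs wd)
open Pool.Agent.H14.PP (IsCone CurveAt Tan)
open Pool.Agent.H62.EF (MN pr)
open Pool.Agent.AD (Vd Chart Charts IsGerm)
open Pool.Agent.TG
open Pool.Agent.G3.C (Gc HP nv nd nv_pr)
open Pool.Agent.G3.A

variable {N k : ℕ} {X : Set (EN N)} {Λ : AddSubgroup (Vd (k + 1))} {u : EN N → Vd (k + 1)} {D B Bad : Set (Vd (k + 1))} {a : Vd (k + 1)}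

/-- a straight chart with uniform constants for the point `v` over `y₀` -/
structure UC (Λ : AddSubgroup (Vd (k + 1))) (u : EN N → Vd (k + 1)) (χ : Chart (k + 2) X) (c : Vd (k + 1)) (ρ : ℝ) (y₀ : Vd (k + 1)) (v : EN N)
    (R K : ℝ) : Prop where
  str : Str Λ u χ c ρ
  mem : ∀ x ∈ ball v R, x ∈ χ.U ∧ χ.q x ∈ closedBall (0 : Vd (k + 2)) 1
  cap : ∀ y ∈ ball y₀ R, ∀ x ∈ X, x ∈ ball v R → u x - y ∈ Λ → ms c ρ (χ.q x) = y
  path : ∀ y ∈ ball y₀ R, ∀ x ∈ X, x ∈ ball v R → ∃ ε : ℝ, 0 < ε ∧ Cap Λ u χ c ρ y (pr x) (3 * ε) ∧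
    ∀ x' ∈ X, x' ∈ ball v R → ∀ θ ∈ Set.Icc (0 : ℝ) 1, dist (pr (χ.σ (χ.q x + (θ : ℂ) • (χ.q x' - χ.q x)))) (pr x) ≤ ε
  bd : ∀ p ∈ closedBall (0 : Vd (k + 2)) 1, ∀ i, ‖fderiv ℂ χ.σ p (Pi.single i 1)‖ ≤ K * ‖χ.σ p‖
  rho : 1 ≤ K * ρ
  near : ∀ p ∈ closedBall (0 : Vd (k + 2)) 1, ‖ms c ρ p - y₀‖ ≤ K

theorem UC.mono {χ : Chart (k + 2) X} {c : Vd (k + 1)} {ρ : ℝ} {y₀ : Vd (k + 1)} {v : EN N} {R K R' K' : ℝ} (h : UC Λ u χ c ρ y₀ v R K)
    (hR : R' ≤ R) (hK : K ≤ K') : UC Λ u χ c ρ y₀ v R' K' where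
  str := h.str
  mem := fun x hx => h.mem x (ball_subset_ball hR hx)
  cap := fun y hy x hX hx => h.cap y (ball_subset_ball hR hy) x hX (ball_subset_ball hR hx)
  path := fun y hy x hX hx => by
    obtain ⟨ε, h1, h2, h3⟩ := h.path y (ball_subset_ball hR hy) x hX (ball_subset_ball hR hx)
    exact ⟨ε, h1, h2, fun x' hX' hx' => h3 x' hX' (ball_subset_ball hR hx')⟩
  bd := fun p hp i => (h.bd p hp i).trans (mul_le_mul_of_nonneg_right hK (norm_nonneg _))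
  rho := h.rho.trans (mul_le_mul_of_nonneg_right hK h.str.pos.le)
  near := fun p hp => (h.near p hp).trans hK

theorem UC.add {χ : Chart (k + 2) X} {c : Vd (k + 1)} {ρ : ℝ} {y₀ : Vd (k + 1)} {v : EN N} {R K : ℝ} (h : UC Λ u χ c ρ y₀ v R K)
    {l : Vd (k + 1)} (hl : l ∈ Λ) : UC Λ u χ (c + l) ρ (y₀ + l) v R K := by
  have hb : ∀ y ∈ ball (y₀ + l) R, y - l ∈ ball y₀ R := by
    intro y hy
    rw [mem_ball, dist_eq_norm] at hy ⊢
    have e : y - l - y₀ = y - (y₀ + l) := by abel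
    rwa [e]
  have hms : ∀ p, ms (c + l) ρ p = ms c ρ p + l := fun p => by
    unfold ms
    abel
  refine ⟨h.str.add hl, h.mem, fun y hy x hX hx hxy => ?_, fun y hy x hX hx => ?_, h.bd, h.rho, fun p hp => ?_⟩
  · have h1 : u x - (y - l) ∈ Λ := by
      have e : u x - (y - l) = u x - y + l := by abel
      rw [e]
      exact Λ.add_mem hxy hl
    rw [hms, h.cap _ (hb y hy) x hX hx h1]
    abel
  · obtain ⟨ε, h1, h2, h3⟩ := h.path _ (hb y hy) x hX hx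
    refine ⟨ε, h1, ?_, h3⟩
    have h4 := h2.add hl
    rwa [sub_add_cancel] at h4
  · have h1 := h.near p hp
    have e : ms (c + l) ρ p - (y₀ + l) = ms c ρ p - y₀ := by
      rw [hms]
      abel
    rwa [e]

private theorem prmu_pr_q {χ : Chart (k + 2) X} {x : EN N} (hx : x ∈ X) (hU : x ∈ χ.U) : pr (χ.σ (χ.q x)) = pr x := by
  obtain ⟨hb, c, hc, e⟩ := χ.surj x hx hU
  conv_rhs => rw [e]
  exact (Pool.Agent.H62.EF.pr_smul _ hc).symm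

/-- the straight chart at a point of a smooth fibre works for the near points -/
theorem uc_base (G : Geo X Λ u D B) {w : Vd (k + 1)} (hw : w ∉ D) {v₀ : EN N} (hv₀ : v₀ ∈ X) (hu : u v₀ - w ∈ Λ) :
    ∃ (χ : Chart (k + 2) X) (ρ R₀ K : ℝ), v₀ ∈ χ.U ∧ χ.q v₀ = 0 ∧ 0 < R₀ ∧ ∀ y₀ : Vd (k + 1), ‖y₀ - w‖ < R₀ → ∀ v : EN N, ‖v - v₀‖ < R₀ →
      UC Λ u χ w ρ y₀ v R₀ K := by
  obtain ⟨d, hd, hdis⟩ := G.lat.disc
  obtain ⟨χ, ρ, hU, hq, hm, hr⟩ := exists_str_chart G.cone G.tor (G.sub w hw v₀ hv₀ hu) (η := d / 2) (by positivity)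
  obtain ⟨r, hr0, hcap⟩ := cap_of_small G.cone G.tor hv₀ hu hm hU hq
    (fun l hl hl' => hdis l hl (by linarith)) (fun p hp => (hr p hp).2)
  -- continuity of the chart at `0`
  have hσ0 : pr (χ.σ 0) = pr v₀ := by
    rw [← prmu_pr_q hv₀ hU, hq]
  have h0 : (0 : Vd (k + 2)) ∈ ball (0 : Vd (k + 2)) 2 := mem_ball_self two_pos
  have hcont : ContinuousAt (fun p => pr (χ.σ p)) (0 : Vd (k + 2)) := by
    have h1 : ContinuousAt pr (χ.σ 0) := Pool.Agent.H62.EF.continuousAt_pr (ne_zero G.cone (χ.σ_mem 0 h0).1)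
    exact ContinuousAt.comp (f := χ.σ) h1 (χ.σ_an 0 h0).continuousAt
  obtain ⟨s₀, hs₀, hs⟩ := Metric.continuousAt_iff.1 hcont (r / 16) (by positivity)
  rw [hσ0] at hs
  set s : ℝ := min s₀ 1 with hsdef
  have hs1 : 0 < s := lt_min hs₀ one_pos
  have hss : s ≤ s₀ := min_le_left _ _
  have hs2 : s ≤ 1 := min_le_right _ _
  have hO : {x : EN N | x ∈ χ.U ∧ ‖χ.q x‖ < s ∧ dist (pr x) (pr v₀) < r / 16} ∈ 𝓝 v₀ := by
    have h1 : ∀ᶠ x in 𝓝 v₀, x ∈ χ.U := χ.isOpen_U.mem_nhds hU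
    have h2 : ∀ᶠ x in 𝓝 v₀, ‖χ.q x‖ < s := by
      have hc : ContinuousAt (fun x => ‖χ.q x‖) v₀ := (χ.q_an v₀ hU).continuousAt.norm
      have h3 : (fun x => ‖χ.q x‖) v₀ < s := by simpa [hq] using hs1
      exact hc.tendsto.eventually_lt_const h3
    have h3 : ∀ᶠ x in 𝓝 v₀, dist (pr x) (pr v₀) < r / 16 :=
      (Pool.Agent.H62.EF.continuousAt_pr (ne_zero G.cone hv₀)).eventually (ball_mem_nhds _ (by positivity))
    exact h1.and (h2.and h3)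
  obtain ⟨R₁, hR₁, hball⟩ := Metric.mem_nhds_iff.1 hO
  set R₀ : ℝ := min (R₁ / 2) (r / 4) with hR₀def
  have hR₀ : 0 < R₀ := lt_min (by positivity) (by positivity)
  have hR₀1 : R₀ ≤ R₁ / 2 := min_le_left _ _
  have hR₀2 : R₀ ≤ r / 4 := min_le_right _ _
  -- the bounds on the closed ball
  have hsub : closedBall (0 : Vd (k + 2)) 1 ⊆ ball 0 2 := closedBall_subset_ball one_lt_two
  have hbd : ∀ i : Fin (k + 2), ∃ C : ℝ, ∀ p ∈ closedBall (0 : Vd (k + 2)) 1, ‖fderiv ℂ χ.σ p (Pi.single i 1)‖ / ‖χ.σ p‖ ≤ C := by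
    intro i
    have hc1 : ContinuousOn (fun p => ‖fderiv ℂ χ.σ p (Pi.single i 1)‖ / ‖χ.σ p‖) (closedBall (0 : Vd (k + 2)) 1) := by
      refine ContinuousOn.div ?_ ?_ ?_
      · exact fun p hp => (((χ.σ_an p (hsub hp)).fderiv.continuousAt.clm_apply continuousAt_const).norm).continuousWithinAt
      · exact fun p hp => ((χ.σ_an p (hsub hp)).continuousAt.norm).continuousWithinAt
      · exact fun p hp => norm_ne_zero_iff.2 (χ.sigma_ne_zero G.cone (hsub hp))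
    obtain ⟨C, hC⟩ := (isCompact_closedBall (0 : Vd (k + 2)) 1).exists_bound_of_continuousOn hc1
    exact ⟨C, fun p hp => (le_abs_self _).trans (hC p hp)⟩
  choose C hC using hbd
  have hCs : ∀ i, C i ≤ ∑ j, |C j| := fun i => (le_abs_self _).trans (Finset.single_le_sum (f := fun j => |C j|) (fun j _ => abs_nonneg _) (Finset.mem_univ i))
  set K : ℝ := max (max (∑ j, |C j|) ρ⁻¹) (d / 2 + R₀) with hKdef
  have hK1 : ∑ j, |C j| ≤ K := (le_max_left _ _).trans (le_max_left _ _)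
  have hK2 : ρ⁻¹ ≤ K := (le_max_right _ _).trans (le_max_left _ _)
  have hK3 : d / 2 + R₀ ≤ K := le_max_right _ _
  refine ⟨χ, ρ, R₀, K, hU, hq, hR₀, fun y₀ hy₀ v hv => ?_⟩
  have hx2 : ∀ x ∈ ball v R₀, x ∈ χ.U ∧ ‖χ.q x‖ < s ∧ dist (pr x) (pr v₀) < r / 16 := by
    intro x hx
    refine hball ?_
    rw [mem_ball] at hx ⊢
    have h1 := dist_triangle x v v₀
    rw [dist_eq_norm v v₀] at h1
    linarith
  have hy2 : ∀ y ∈ ball y₀ R₀, dist y w < r / 2 := by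
    intro y hy
    rw [mem_ball] at hy
    have h1 := dist_triangle y y₀ w
    rw [dist_eq_norm y₀ w] at h1
    linarith
  refine ⟨hm, fun x hx => ?_, fun y hy x hX hx hxy => ?_, fun y hy x hX hx => ?_, fun p hp i => ?_, ?_, fun p hp => ?_⟩
  · obtain ⟨h1, h2, -⟩ := hx2 x hx
    exact ⟨h1, by rw [mem_closedBall_zero_iff]; linarith⟩
  · obtain ⟨-, -, h3⟩ := hx2 x hx
    exact (hcap.cap y (by rw [mem_closedBall]; linarith [hy2 y hy]) x hX hxy (by linarith)).2.2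
  · obtain ⟨h1, h2, h3⟩ := hx2 x hx
    refine ⟨r / 8, by positivity, ⟨hm, fun y' hy' x' hx' hxy' hd' => ?_⟩, fun x' hX' hx' θ hθ => ?_⟩
    · refine hcap.cap y' ?_ x' hx' hxy' ?_
      · rw [mem_closedBall] at hy' ⊢
        have := dist_triangle y' y w
        linarith [hy2 y hy]
      · have := dist_triangle (pr x') (pr x) (pr v₀)
        linarith
    · obtain ⟨-, h2', -⟩ := hx2 x' hx'
      have hmem : χ.q x + (θ : ℂ) • (χ.q x' - χ.q x) ∈ ball (0 : Vd (k + 2)) s := by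
        have e : χ.q x + (θ : ℂ) • (χ.q x' - χ.q x) = (1 - θ) • χ.q x + θ • χ.q x' := by
          have e1 : ∀ v : Vd (k + 2), (θ : ℂ) • v = θ • v := fun v => by
            ext i
            simp
          rw [e1, smul_sub, sub_smul, one_smul]
          abel
        rw [e]
        exact (convex_ball (0 : Vd (k + 2)) s) (by rw [mem_ball, dist_zero_right]; exact h2)
          (by rw [mem_ball, dist_zero_right]; exact h2') (by linarith [hθ.2]) hθ.1 (by ring)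
      have h6 := hs (lt_of_lt_of_le (mem_ball.1 hmem) hss)
      have h7 := dist_triangle (pr (χ.σ (χ.q x + (θ : ℂ) • (χ.q x' - χ.q x)))) (pr v₀) (pr x)
      rw [dist_comm (pr v₀)] at h7
      linarith
  · have h1 := hC i p hp
    have h2 : 0 < ‖χ.σ p‖ := norm_pos_iff.2 (χ.sigma_ne_zero G.cone (hsub hp))
    rw [div_le_iff₀ h2] at h1
    exact h1.trans (mul_le_mul_of_nonneg_right ((hCs i).trans hK1) h2.le)
  · calc (1 : ℝ) = ρ⁻¹ * ρ := (inv_mul_cancel₀ hm.pos.ne').symm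
      _ ≤ K * ρ := mul_le_mul_of_nonneg_right hK2 hm.pos.le
  · have h1 := (hr p (hsub hp)).2
    have e : ms w ρ p - y₀ = (ms w ρ p - w) - (y₀ - w) := by abel
    rw [e]
    have h2 := norm_sub_le (ms w ρ p - w) (y₀ - w)
    linarith

/-- uniform constants -/
theorem uc_unif (G : Geo X Λ u D B) {δ : ℝ} (hδ : 0 < δ) : ∃ R K : ℝ, 0 < R ∧ ∀ y₀ ∈ Gd D δ, ∀ v ∈ X, ‖v‖ = 1 → u v - y₀ ∈ Λ →
    ∃ (χ : Chart (k + 2) X) (c : Vd (k + 1)) (ρ : ℝ), UC Λ u χ c ρ y₀ v R K := by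
  obtain ⟨R₂, -, hR₂⟩ := G.lat.cpt
  have key : ∃ n : ℕ, ∀ y₀ ∈ Gd D δ, ‖y₀‖ ≤ R₂ → ∀ v ∈ X, ‖v‖ = 1 → u v - y₀ ∈ Λ →
      ∃ (χ : Chart (k + 2) X) (c : Vd (k + 1)) (ρ : ℝ), UC Λ u χ c ρ y₀ v (1 / ((n : ℝ) + 1)) n := by
    by_contra hcon
    push Not at hcon
    choose y hy hyR v hv hv1 huv hno using hcon
    have h𝒰 : ((hyperfilter ℕ : Ultrafilter ℕ) : Filter ℕ) ≤ atTop := Nat.hyperfilter_le_atTop
    have hKc : IsCompact (closedBall (0 : Vd (k + 1)) R₂ ∩ Gd D δ) := (isCompact_closedBall 0 R₂).inter_right (gd_closed D δ)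
    have hle : (((hyperfilter ℕ : Ultrafilter ℕ).map y : Ultrafilter (Vd (k + 1))) : Filter (Vd (k + 1))) ≤ 𝓟 (closedBall (0 : Vd (k + 1)) R₂ ∩ Gd D δ) := by
      rw [le_principal_iff]
      exact Filter.mem_map.2 (Filter.univ_mem' fun n => ⟨by rw [mem_closedBall, dist_zero_right]; exact hyR n, hy n⟩)
    obtain ⟨w, hw, hlim⟩ := hKc.ultrafilter_le_nhds _ hle
    have hle2 : (((hyperfilter ℕ : Ultrafilter ℕ).map v : Ultrafilter (EN N)) : Filter (EN N)) ≤ 𝓟 (X ∩ sphere (0 : EN N) 1) := by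
      rw [le_principal_iff]
      exact Filter.mem_map.2 (Filter.univ_mem' fun n => ⟨hv n, by rw [mem_sphere_zero_iff_norm]; exact hv1 n⟩)
    obtain ⟨v₀, hv₀, hlim2⟩ := (compact_unit G.cone).ultrafilter_le_nhds _ hle2
    have hyw : Tendsto y (hyperfilter ℕ : Ultrafilter ℕ) (𝓝 w) := hlim
    have hvw : Tendsto v (hyperfilter ℕ : Ultrafilter ℕ) (𝓝 v₀) := hlim2
    have huw : u v₀ - w ∈ Λ := lim_mem G.lat G.tor hv₀.1 hvw hyw (Filter.Eventually.of_forall fun n => ⟨hv n, huv n⟩)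
    obtain ⟨χ, ρ, R₀, K, -, -, hR₀, hUC⟩ := uc_base G (gd_notMem hδ hw.2) hv₀.1 huw
    have h1 : ∀ᶠ n in ((hyperfilter ℕ : Ultrafilter ℕ) : Filter ℕ), y n ∈ ball w R₀ := hyw.eventually (ball_mem_nhds w hR₀)
    have h2 : ∀ᶠ n in ((hyperfilter ℕ : Ultrafilter ℕ) : Filter ℕ), v n ∈ ball v₀ R₀ := hvw.eventually (ball_mem_nhds v₀ hR₀)
    have h3 : ∀ᶠ n : ℕ in ((hyperfilter ℕ : Ultrafilter ℕ) : Filter ℕ), 1 / ((n : ℝ) + 1) ≤ R₀ :=
      h𝒰 ((tendsto_one_div_add_atTop_nhds_zero_nat (𝕜 := ℝ)).eventually_le_const hR₀)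
    have h4 : ∀ᶠ n : ℕ in ((hyperfilter ℕ : Ultrafilter ℕ) : Filter ℕ), K ≤ (n : ℝ) :=
      h𝒰 (tendsto_natCast_atTop_atTop.eventually_ge_atTop K)
    obtain ⟨n, hn1, hn2, hn3, hn4⟩ := (h1.and (h2.and (h3.and h4))).exists
    refine hno n χ w ρ ((hUC (y n) ?_ (v n) ?_).mono hn3 hn4)
    · rwa [mem_ball, dist_eq_norm] at hn1
    · rwa [mem_ball, dist_eq_norm] at hn2
  obtain ⟨n, hn⟩ := key
  refine ⟨1 / ((n : ℝ) + 1), n, by positivity, fun y₀ hy₀ v hv hv1 huv => ?_⟩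
  obtain ⟨l, hl, hyl⟩ := hR₂ y₀
  have h1 : y₀ - l ∈ Gd D δ := by
    rw [sub_eq_add_neg]
    exact (G.gd_add δ (Λ.neg_mem hl)).2 hy₀
  have h2 : u v - (y₀ - l) ∈ Λ := by
    have e : u v - (y₀ - l) = u v - y₀ + l := by abel
    rw [e]
    exact Λ.add_mem huv hl
  obtain ⟨χ, c, ρ, h⟩ := hn (y₀ - l) h1 hyl v hv hv1 h2
  have h3 := h.add hl
  rw [sub_add_cancel] at h3
  exact ⟨χ, c + l, ρ, h3⟩

/-- the primitive in a chart -/
theorem UC.prm (G : Geo X Λ u D B) {χ : Chart (k + 2) X} {c : Vd (k + 1)} {ρ : ℝ} {y₀ : Vd (k + 1)} {v : EN N} {R K : ℝ} (h : UC Λ u χ c ρ y₀ v R K)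
    (hR : 0 < R) (hv : v ∈ X) (hv1 : ‖v‖ = 1) (huv : u v - y₀ ∈ Λ) {α : VForm X Λ u} {A : Vd (k + 2) → ℂ} (hA : IsPrim α χ (ms c ρ) A) :
    Prm α y₀ v R fun x => A (χ.q x) / (ρ : ℂ) ^ (k + 1) where
  pos := hR
  unit := hv1
  mem := hv
  lift := huv
  diff := fun x hx => by
    obtain ⟨h1, h2⟩ := h.mem x hx
    have h3 : AnalyticAt ℂ A (χ.q x) := hA.an _ (closedBall_subset_ball one_lt_two h2)
    have h4 : DifferentiableAt ℂ (fun x => A (χ.q x)) x := h3.differentiableAt.comp x (χ.q_an x h1).differentiableAt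
    simp only [div_eq_mul_inv]
    exact (h4.mul_const _).differentiableWithinAt
  jj := fun y hy x hX hx hxy x' hX' hx' hxy' => by
    obtain ⟨h1, h2⟩ := h.mem x hx
    obtain ⟨h1', h2'⟩ := h.mem x' hx'
    obtain ⟨ε, hε, hcap, hpath⟩ := h.path y hy x hX hx
    refine jj_eq G.cone G.tor G.lat ⟨ε, hε, ⟨χ, c, ρ, hcap⟩, χ, c, ρ, A, χ.q x, χ.q x', h.str, hA, closedBall_subset_ball one_lt_two h2,
      closedBall_subset_ball one_lt_two h2', h.cap y hy x hX hx hxy, h.cap y hy x' hX' hx' hxy', prmu_pr_q hX h1, prmu_pr_q hX' h1', hpath x' hX' hx', ?_⟩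
    show A (χ.q x') / _ - A (χ.q x) / _ = _
    rw [sub_div]

/-- the mean value inequality for a primitive -/
theorem prim_bd {α : VForm X Λ u} {χ : Chart (k + 2) X} {υ : Vd (k + 2) → Vd (k + 1)} {A : Vd (k + 2) → ℂ} (hA : IsPrim α χ υ A) {M : ℝ}
    (hM : ∀ p ∈ closedBall (0 : Vd (k + 2)) 1, ‖tc α χ υ p‖ ≤ M) {p : Vd (k + 2)} (hp : p ∈ closedBall (0 : Vd (k + 2)) 1) : ‖A p‖ ≤ M := by
  have hpn : ‖p‖ ≤ 1 := by rwa [mem_closedBall_zero_iff] at hp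
  have hmem : ∀ θ ∈ Set.Icc (0 : ℝ) 1, Pool.Agent.TG.pP θ p ∈ closedBall (0 : Vd (k + 2)) 1 := by
    intro θ hθ
    rw [mem_closedBall_zero_iff]
    exact (Pool.Agent.TG.pP_norm hθ.1 hθ.2 p).trans hpn
  have hM0 : 0 ≤ M := (norm_nonneg _).trans (hM p hp)
  have hd : ∀ θ ∈ Set.Icc (0 : ℝ) 1, HasDerivAt (fun θ : ℝ => A (Pool.Agent.TG.pP θ p)) (p 0 * tc α χ υ (Pool.Agent.TG.pP θ p)) θ := by
    intro θ hθ
    have h1 : HasFDerivAt A (fderiv ℂ A (Pool.Agent.TG.pP θ p)) (Pool.Agent.TG.pP θ p) :=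
      (hA.an _ (closedBall_subset_ball one_lt_two (hmem θ hθ))).differentiableAt.hasFDerivAt
    have h2 : (fun z : ℂ => p + (z - 1) • (Pi.single 0 (p 0) : Vd (k + 2))) (θ : ℂ) = Pool.Agent.TG.pP θ p := by
      funext i
      refine Fin.cases ?_ ?_ i
      · rw [Pool.Agent.TG.pP_zero]
        simp
        ring
      · intro j
        rw [Pool.Agent.TG.pP_succ]
        simp
    have h3 : HasDerivAt (fun z : ℂ => p + (z - 1) • (Pi.single 0 (p 0) : Vd (k + 2))) (Pi.single 0 (p 0)) (θ : ℂ) := by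
      have h4 := (((hasDerivAt_id (θ : ℂ)).sub_const (1 : ℂ)).smul_const (Pi.single 0 (p 0) : Vd (k + 2))).const_add p
      rw [one_smul] at h4
      exact h4
    have h4 : HasDerivAt (fun z : ℂ => A (p + (z - 1) • (Pi.single 0 (p 0) : Vd (k + 2)))) (fderiv ℂ A (Pool.Agent.TG.pP θ p) (Pi.single 0 (p 0))) (θ : ℂ) := by
      rw [← h2] at h1 ⊢
      exact h1.comp_hasDerivAt (θ : ℂ) h3
    have h5 : fderiv ℂ A (Pool.Agent.TG.pP θ p) (Pi.single 0 (p 0)) = p 0 * tc α χ υ (Pool.Agent.TG.pP θ p) := by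
      have h6 : (Pi.single 0 (p 0) : Vd (k + 2)) = p 0 • (Pi.single 0 1 : Vd (k + 2)) := by
        rw [← Pi.single_smul, smul_eq_mul, mul_one]
      rw [h6, map_smul, hA.der _ (closedBall_subset_ball one_lt_two (hmem θ hθ)), smul_eq_mul]
    rw [h5] at h4
    have h7 := h4.comp_ofReal
    refine h7.congr_of_eventuallyEq (Filter.Eventually.of_forall fun t => ?_)
    show A (Pool.Agent.TG.pP t p) = A (p + ((t : ℂ) - 1) • (Pi.single 0 (p 0) : Vd (k + 2)))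
    congr 1
    funext i
    refine Fin.cases ?_ ?_ i
    · rw [Pool.Agent.TG.pP_zero]
      simp
      ring
    · intro j
      rw [Pool.Agent.TG.pP_succ]
      simp
  have hmv := norm_image_sub_le_of_norm_deriv_le_segment_01' (f := fun θ : ℝ => A (Pool.Agent.TG.pP θ p)) (f' := fun θ => p 0 * tc α χ υ (Pool.Agent.TG.pP θ p)) (C := M)
    (fun θ hθ => (hd θ hθ).hasDerivWithinAt) (fun θ hθ => by
      have h1 := hM _ (hmem θ ⟨hθ.1, hθ.2.le⟩)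
      rw [norm_mul]
      calc ‖p 0‖ * ‖tc α χ υ (Pool.Agent.TG.pP θ p)‖ ≤ 1 * M := mul_le_mul ((norm_le_pi_norm p 0).trans hpn) h1 (norm_nonneg _) zero_le_one
        _ = M := one_mul _)
  have h1 : Pool.Agent.TG.pP 1 p = p := by
    funext i
    refine Fin.cases ?_ ?_ i
    · rw [Pool.Agent.TG.pP_zero]
      simp
    · intro j
      rw [Pool.Agent.TG.pP_succ]
  have h0 : A (Pool.Agent.TG.pP 0 p) = 0 := by
    refine hA.zero _ (closedBall_subset_ball one_lt_two (hmem 0 ⟨le_rfl, zero_le_one⟩)) ?_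
    rw [Pool.Agent.TG.pP_zero]
    simp
  simp only [h1, h0, sub_zero] at hmv
  exact hmv

/-- the bound of the coefficient -/
theorem tc_dec {α : VForm X Λ u} {c₀ C₀ : ℝ} (hα : Dec α c₀ C₀) {χ : Chart (k + 2) X} {υ : Vd (k + 2) → Vd (k + 1)} {p : Vd (k + 2)}
    (hp : p ∈ ball (0 : Vd (k + 2)) 2) (hl : u (χ.σ p) - υ p ∈ Λ) {K : ℝ} (hK : 0 < K) (hb : ∀ i, ‖fderiv ℂ χ.σ p (Pi.single i 1)‖ ≤ K * ‖χ.σ p‖) :
    ‖tc α χ υ p‖ ≤ K ^ (k + 2) * (C₀ * Real.exp (-(c₀ * ‖υ p‖ ^ 2))) := by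
  have hKC : (K : ℂ) ≠ 0 := by exact_mod_cast hK.ne'
  set t : Fin (k + 2) → EN N := fun i => fderiv ℂ χ.σ p (Pi.single i ((K : ℂ)⁻¹)) with ht
  have hts : ∀ i, t i = (K : ℂ)⁻¹ • fderiv ℂ χ.σ p (Pi.single i 1) := fun i => by
    rw [ht]
    show fderiv ℂ χ.σ p (Pi.single i ((K : ℂ)⁻¹)) = _
    rw [← map_smul]
    congr 1
    rw [← Pi.single_smul, smul_eq_mul, mul_one]
  have htan : ∀ i, Tan X (χ.σ p) (t i) := fun i => tan_sigma χ hp _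
  have h1 := hα (υ p) (χ.σ p) (χ.σ_mem p hp).1 hl t htan (fun i => by
    rw [hts, norm_smul, norm_inv, Complex.norm_real, Real.norm_of_nonneg hK.le, inv_mul_le_iff₀ hK]
    exact hb i)
  have h2 := α.det (υ p) (χ.σ p) (χ.σ_mem p hp).1 hl t htan ((K : ℂ) • (1 : Matrix (Fin (k + 2)) (Fin (k + 2)) ℂ))
  have h3 : (fun i => ∑ j, ((K : ℂ) • (1 : Matrix (Fin (k + 2)) (Fin (k + 2)) ℂ)) i j • t j) = fun i => fderiv ℂ χ.σ p (Pi.single i 1) := by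
    funext i
    rw [Finset.sum_eq_single i]
    · rw [Matrix.smul_apply, Matrix.one_apply_eq, smul_eq_mul, mul_one, hts, smul_smul, mul_inv_cancel₀ hKC, one_smul]
    · intro j _ hj
      rw [Matrix.smul_apply, Matrix.one_apply_ne hj.symm, smul_zero, zero_smul]
    · intro hi
      exact absurd (Finset.mem_univ i) hi
  rw [h3, Matrix.det_smul, Matrix.det_one, mul_one, Fintype.card_fin] at h2
  have h4 : tc α χ υ p = (K : ℂ) ^ (k + 2) * α.toFun (υ p) (χ.σ p) t := h2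
  rw [h4, norm_mul, norm_pow, Complex.norm_real, Real.norm_of_nonneg hK.le]
  exact mul_le_mul_of_nonneg_left h1 (pow_nonneg hK.le _)

theorem exists_prm_unif (G : Geo X Λ u D B) {α : VForm X Λ u} {c₀ C₀ : ℝ} (hα : Dec α c₀ C₀) (hc : 0 < c₀) (hC : 0 < C₀) {δ : ℝ} (hδ : 0 < δ) :
    ∃ R C c : ℝ, 0 < R ∧ 0 < C ∧ 0 < c ∧ ∀ y₀ ∈ Gd D δ, ∀ v ∈ X, ‖v‖ = 1 → u v - y₀ ∈ Λ → ∃ Ψ : EN N → ℂ, Prm α y₀ v R Ψ ∧
      ∀ x ∈ ball v R, ‖Ψ x‖ ≤ C * Real.exp (-(c * ‖y₀‖ ^ 2)) := by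
  obtain ⟨R, K₀, hR, hUC⟩ := uc_unif G hδ
  set K : ℝ := max K₀ 1 with hKdef
  have hK : 0 < K := lt_max_of_lt_right one_pos
  refine ⟨R, K ^ (k + 1) * (K ^ (k + 2) * (C₀ * Real.exp (c₀ * K ^ 2))), c₀ / 2, hR, by positivity, by positivity, fun y₀ hy₀ v hv hv1 huv => ?_⟩
  obtain ⟨χ, c, ρ, h'⟩ := hUC y₀ hy₀ v hv hv1 huv
  have h := h'.mono le_rfl (le_max_left K₀ 1)
  rw [← hKdef] at h
  obtain ⟨A, hA⟩ := exists_prim α χ h.str
  refine ⟨_, h.prm G hR hv hv1 huv hA, fun x hx => ?_⟩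
  obtain ⟨-, h2⟩ := h.mem x hx
  have hρ := h.str.pos
  have hM : ∀ p ∈ closedBall (0 : Vd (k + 2)) 1, ‖tc α χ (ms c ρ) p‖ ≤ K ^ (k + 2) * (C₀ * (Real.exp (c₀ * K ^ 2) * Real.exp (-(c₀ / 2 * ‖y₀‖ ^ 2)))) := by
    intro p hp
    have hpb := closedBall_subset_ball one_lt_two hp
    refine (tc_dec hα hpb (h.str.lift p hpb) hK (h.bd p hp)).trans ?_
    refine mul_le_mul_of_nonneg_left (mul_le_mul_of_nonneg_left ?_ hC.le) (pow_nonneg hK.le _)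
    rw [← Real.exp_add, Real.exp_le_exp]
    have h3 := h.near p hp
    have h4 : ‖y₀‖ ≤ ‖ms c ρ p‖ + K := by
      have e : y₀ = ms c ρ p - (ms c ρ p - y₀) := by abel
      have h5 := norm_sub_le (ms c ρ p) (ms c ρ p - y₀)
      rw [← e] at h5
      linarith
    have h6 : ‖y₀‖ ^ 2 ≤ 2 * ‖ms c ρ p‖ ^ 2 + 2 * K ^ 2 := by
      have h7 : ‖y₀‖ ^ 2 ≤ (‖ms c ρ p‖ + K) ^ 2 := pow_le_pow_left₀ (norm_nonneg _) h4 2
      nlinarith [sq_nonneg (‖ms c ρ p‖ - K)]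
    nlinarith
  have h3 := prim_bd hA hM h2
  have h4 : ‖((ρ : ℂ) ^ (k + 1))‖ = ρ ^ (k + 1) := by
    rw [norm_pow, Complex.norm_real, Real.norm_of_nonneg hρ.le]
  rw [norm_div, h4]
  have h5 : (ρ ^ (k + 1))⁻¹ ≤ K ^ (k + 1) := by
    rw [← inv_pow]
    refine pow_le_pow_left₀ (inv_nonneg.2 hρ.le) ?_ _
    rw [inv_le_iff_one_le_mul₀ hρ]
    exact h.rho
  calc ‖A (χ.q x)‖ / ρ ^ (k + 1) = (ρ ^ (k + 1))⁻¹ * ‖A (χ.q x)‖ := by rw [div_eq_mul_inv, mul_comm]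
    _ ≤ K ^ (k + 1) * (K ^ (k + 2) * (C₀ * (Real.exp (c₀ * K ^ 2) * Real.exp (-(c₀ / 2 * ‖y₀‖ ^ 2))))) :=
      mul_le_mul h5 h3 (norm_nonneg _) (pow_nonneg hK.le _)
    _ = K ^ (k + 1) * (K ^ (k + 2) * (C₀ * Real.exp (c₀ * K ^ 2))) * Real.exp (-(c₀ / 2 * ‖y₀‖ ^ 2)) := by ring

end Pool.Agent.G3.R
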