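import Pool.Agent.G3.R.ShtF
import Pool.Agent.G3.R.PrmU

/-!
# G3 R Bd: divided differences of the scalars

`kil_dd`: divided differences, divided by `Nb n → ∞`, kill holomorphic functions (`dd_cauchy` for `ζ ↦ h (y n + ζ w + e)`, with a bound of `h` near the point).
`scal_bd`: at a point `z₀` with `y₀ + z₀ a ∈ Gd D (δ / 2)` the divided differences of order `m + 1` of the scalar `Ψ (nv v (φ y))`, `Ψ` from `exists_prm_unif`, are at most `C exp (-c |x|²) Nb`, if those of the sheet are at most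
`Nb`: `dd_nv` (from a unit vector with `pr v' = φ (y + x a)` to `v`; the lower orders by `DDb` on `Gd D (δ / 4)`), then `dd_comp` with `Ψ (x, ζ) = Ψ x`; `exp (-c |y₀ + z₀ a|²) ≤ C' exp (-(c / 2) |x|²)` for
`|x - z₀| < 1` (`‖a‖ = 1`).
-/

set_option autoImplicit false

open Topology Filter Metric

namespace Pool.Agent.G3.R

open Pool.Agent.H36.BP (EN fs wd)
open Pool.Agent.H14.PP (IsCone CurveAt Tan)
open Pool.Agent.H62.EF (MN pr)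
open Pool.Agent.AD (Vd Chart Charts IsGerm)
open Pool.Agent.TG
open Pool.Agent.G3.C (Gc HP nv nd nv_pr)
open Pool.Agent.G3.A

variable {N k : ℕ} {X : Set (EN N)} {Λ : AddSubgroup (Vd (k + 1))} {u : EN N → Vd (k + 1)} {D B Bad : Set (Vd (k + 1))} {a b w : Vd (k + 1)} {E : Submodule ℝ (Vd (k + 1))}
  {SS : Set (Vd (k + 1) → MN N)} {J : ℕ} {α : Fin J → VForm X Λ u} {c₀ C₀ ρ δ : ℝ}

theorem kil_dd (w : Vd (k + 1)) {m : ℕ} {ι : Type} {l : Filter ι} {σ : ι → ℕ → ℝ} {r : ι → ℝ} (hσ : ∀ n, Nod m (σ n) (r n)) (hr : Tendsto r l (𝓝 0)) {Nb : ι → ℝ} (hN : Tendsto Nb l atTop)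
    {y : ι → Vd (k + 1)} {y₁ : Vd (k + 1)} (hy : Tendsto y l (𝓝 y₁)) {h : Vd (k + 1) → ℂ} (hh : AnalyticAt ℂ h y₁) :
    ∃ t : ℝ, 0 < t ∧ ∀ ε : ℝ, 0 < ε → ∀ᶠ n in l, ∀ e : Vd (k + 1), ‖e‖ < t → ‖(Nb n : ℂ)⁻¹ * dd m (σ n) (fun s : ℝ => h (y n + (s : ℂ) • w + e))‖ ≤ ε := by
  obtain ⟨ρ, hρ, hρa⟩ : ∃ ρ : ℝ, 0 < ρ ∧ ∀ x ∈ ball y₁ ρ, AnalyticAt ℂ h x ∧ ‖h x‖ ≤ ‖h y₁‖ + 1 := by
    have h1 := hh.eventually_analyticAt
    have h2 : ∀ᶠ x in 𝓝 y₁, ‖h x‖ < ‖h y₁‖ + 1 := hh.continuousAt.norm.eventually (gt_mem_nhds (by linarith))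
    obtain ⟨ρ, hρ, hsub⟩ := Metric.eventually_nhds_iff_ball.1 (h1.and h2)
    exact ⟨ρ, hρ, fun x hx => ⟨(hsub x hx).1, (hsub x hx).2.le⟩⟩
  set M : ℝ := ‖h y₁‖ + 1 with hM
  have hM0 : 0 < M := by positivity
  set r₀ : ℝ := ρ / (8 * (‖w‖ + 1)) with hr₀
  have hr₀pos : 0 < r₀ := by positivity
  have hr₀w : 2 * r₀ * ‖w‖ ≤ ρ / 4 := by
    rw [hr₀]
    have hw1 : 0 < ‖w‖ + 1 := by positivity
    rw [mul_div_assoc', div_mul_eq_mul_div, div_le_iff₀ (by positivity)]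
    nlinarith [norm_nonneg w]
  refine ⟨ρ / 4, by positivity, fun ε hε => ?_⟩
  have e1 : ∀ᶠ n in l, ‖y n - y₁‖ < ρ / 4 := by
    have h1 := hy.sub_const y₁
    rw [sub_self] at h1
    have h2 := h1.norm
    rw [norm_zero] at h2
    exact h2.eventually (gt_mem_nhds (by positivity))
  have e2 : ∀ᶠ n in l, r n < r₀ := hr.eventually (gt_mem_nhds hr₀pos)
  have e3 : ∀ᶠ n in l, max 1 (M * 2 / r₀ ^ m / ε) ≤ Nb n := hN.eventually_ge_atTop _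
  filter_upwards [e1, e2, e3] with n h1 h2 h3 e he
  have hmem : ∀ ζ ∈ ball (0 : ℂ) (2 * r₀), y n + ζ • w + e ∈ ball y₁ ρ := by
    intro ζ hζ
    rw [mem_ball_zero_iff] at hζ
    rw [mem_ball, dist_eq_norm]
    have h4 : y n + ζ • w + e - y₁ = (y n - y₁) + ζ • w + e := by abel
    rw [h4]
    have h5 : ‖ζ • w‖ ≤ ρ / 4 := by
      rw [norm_smul]
      exact (mul_le_mul_of_nonneg_right hζ.le (norm_nonneg w)).trans hr₀w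
    calc ‖(y n - y₁) + ζ • w + e‖ ≤ ‖y n - y₁‖ + ‖ζ • w‖ + ‖e‖ := norm_add₃_le
      _ < ρ := by linarith
  have h4 := dd_cauchy (g := fun ζ : ℂ => h (y n + ζ • w + e)) hr₀pos (M := M) (m := m) (σ := σ n)
    (fun ζ hζ => ((hρa _ (hmem ζ hζ)).1.differentiableAt.comp ζ (by fun_prop : DifferentiableAt ℂ (fun ζ : ℂ => y n + ζ • w + e) ζ)).differentiableWithinAt)
    (fun ζ hζ => (hρa _ (hmem ζ hζ)).2) ((hσ n).mono le_rfl h2.le)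
  have hN1 : (1 : ℝ) ≤ Nb n := (le_max_left _ _).trans h3
  have hN0 : 0 < Nb n := by linarith
  have hN2 : M * 2 / r₀ ^ m / ε ≤ Nb n := (le_max_right _ _).trans h3
  rw [norm_mul, norm_inv, Complex.norm_real, Real.norm_eq_abs, abs_of_pos hN0, inv_mul_le_iff₀ hN0]
  rw [div_le_iff₀ hε] at hN2
  exact h4.trans hN2

/-- a unit vector over a point of the fibre -/
private theorem exists_unit (hX : IsCone X) (hu : TMap X Λ u) {y : Vd (k + 1)} {m : MN N} (hm : m ∈ Fb X Λ u y) :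
    ∃ v ∈ X, ‖v‖ = 1 ∧ pr v = m ∧ u v - y ∈ Λ := by
  obtain ⟨x, hx, hxm, hxy⟩ := hm
  have hx0 : x ≠ 0 := fun h => hX.zero_notMem (h ▸ hx)
  have hn : ‖x‖ ≠ 0 := norm_ne_zero_iff.2 hx0
  have hc : ((‖x‖⁻¹ : ℝ) : ℂ) ≠ 0 := by
    rw [Complex.ofReal_ne_zero]
    exact inv_ne_zero hn
  refine ⟨((‖x‖⁻¹ : ℝ) : ℂ) • x, hX.smul_mem x hx _ hc, ?_, ?_, ?_⟩
  · rw [norm_smul, Complex.norm_real, norm_inv, norm_norm, inv_mul_cancel₀ hn]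
  · rw [Pool.Agent.H62.EF.pr_smul _ hc, hxm]
  · have h1 := Λ.add_mem (hu.smul x hx _ hc) hxy
    rwa [sub_add_sub_cancel] at h1

/-- the bounds of all orders at most `m` -/
private theorem ddb_all {D T : Set (Vd (k + 1))} {m : ℕ} (hm : ∀ j ≤ m, DDb D T SS w j) {δ' : ℝ} (hδ : 0 < δ') :
    ∃ r C : ℝ, 0 < r ∧ 0 ≤ C ∧ ∀ j ≤ m, ∀ φ ∈ SS, ∀ y ∈ T, y ∈ Gd D δ' → ∀ v : EN N, ‖v‖ = 1 → pr v = φ y → ∀ σ : ℕ → ℝ, Nod j σ r →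
      ‖dd j σ fun s : ℝ => nv v (φ (y + (s : ℂ) • w))‖ ≤ C := by
  induction m with
  | zero =>
    obtain ⟨r, C, hr, hC, h⟩ := hm 0 le_rfl δ' hδ
    refine ⟨r, C, hr, hC, fun j hj => ?_⟩
    obtain rfl : j = 0 := Nat.le_zero.1 hj
    exact h
  | succ m ih =>
    obtain ⟨r, C, hr, hC, h⟩ := ih fun j hj => hm j (by omega)
    obtain ⟨r', C', hr', hC', h'⟩ := hm (m + 1) le_rfl δ' hδ
    refine ⟨min r r', max C C', lt_min hr hr', le_max_of_le_left hC, fun j hj φ hφ y hy hyD v hv hv' σ hσ => ?_⟩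
    rcases Nat.lt_or_ge j (m + 1) with hlt | hge
    · exact (h j (by omega) φ hφ y hy hyD v hv hv' σ (hσ.mono le_rfl (min_le_left _ _))).trans (le_max_left _ _)
    · obtain rfl : j = m + 1 := by omega
      exact (h' φ hφ y hy hyD v hv hv' σ (hσ.mono le_rfl (min_le_right _ _))).trans (le_max_right _ _)

/-- the weight -/
private theorem exp_cmp {c R₁ Y Z : ℝ} (hc : 0 < c) (hY : 0 ≤ Y) (hZ : 0 ≤ Z) (h : Z ≤ Y + R₁) :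
    Real.exp (-(c * Y ^ 2)) ≤ Real.exp (c * R₁ ^ 2) * Real.exp (-(c / 2 * Z ^ 2)) := by
  rw [← Real.exp_add]
  refine Real.exp_le_exp.2 ?_
  have h1 : Z ^ 2 ≤ (Y + R₁) ^ 2 := pow_le_pow_left₀ hZ h 2
  have h2 : (Y + R₁) ^ 2 ≤ 2 * Y ^ 2 + 2 * R₁ ^ 2 := by nlinarith [sq_nonneg (Y - R₁)]
  nlinarith

theorem scal_bd (S : DA X Λ u D B Bad a α c₀ C₀ ρ δ) (hS : Shs X Λ u D a b E SS) (hw : w ∈ E) {m : ℕ} (hm : ∀ j ≤ m, DDb D (Tb b E) SS w j) (R₀ : ℝ) (j : Fin J) :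
    ∃ r C c : ℝ, 0 < r ∧ 0 < C ∧ 0 < c ∧ ∀ y₀ ∈ Tb b E, ‖y₀‖ ≤ R₀ → ∀ φ ∈ SS, ∀ z₀ : ℂ, y₀ + z₀ • a ∈ Gd D (δ / 2) → ∃ (Ψ : EN N → ℂ) (v : EN N) (R t : ℝ),
      Prm (α j) (y₀ + z₀ • a) v R Ψ ∧ pr v = φ (y₀ + z₀ • a) ∧ 0 < t ∧ ∀ (σ : ℕ → ℝ) (Nb : ℝ), Nod (m + 1) σ r → 1 ≤ Nb →
        ∀ y ∈ Tb b E, ‖y - y₀‖ < t → ∀ x ∈ ball z₀ t, (∀ v' : EN N, ‖v'‖ = 1 → pr v' = φ (y + x • a) → ‖dd (m + 1) σ fun s : ℝ => nv v' (φ (y + x • a + (s : ℂ) • w))‖ ≤ Nb) →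
          ‖dd (m + 1) σ fun s : ℝ => Ψ (nv v (φ (y + x • a + (s : ℂ) • w)))‖ ≤ C * Nb * Real.exp (-(c * ‖x‖ ^ 2)) := by
  have hδ : 0 < δ := S.lc.δ_pos
  have hna : ‖a‖ = 1 := S.lg.norm
  obtain ⟨R, C₁, c₁, hR, hC₁, hc₁, hprm⟩ := exists_prm_unif S.geo (S.dec j) S.c_pos S.C_pos (half_pos hδ)
  obtain ⟨ε₃, hε₃, hnear⟩ := nv_near (N := N) (η := R / 4) (by positivity)
  obtain ⟨ε₄, hε₄, hinner⟩ := inner_near (N := N) (η := 1 / 2) (by norm_num)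
  obtain ⟨r₁, C₂, hr₁, hC₂, hddb⟩ := ddb_all hm (show 0 < δ / 4 by positivity)
  obtain ⟨r₂, K₂, ε₅, hr₂, hK₂, hε₅, hnv⟩ := dd_nv (N := N) m (κ := 1 / 2) (C := C₂) (by norm_num) hC₂
  obtain ⟨r₃, K₃, hr₃, hK₃, hcomp⟩ := dd_comp m (R := R) (C := K₂) hR hK₂.le
  obtain ⟨r₄, hr₄, hun⟩ := hS.unif S.lg (half_pos hδ) (lt_min hε₃ hε₄)
  obtain ⟨r₅, hr₅, hun'⟩ := hS.unif S.lg (show 0 < δ / 4 by positivity) hε₅
  set W : ℝ := ‖w‖ + 1 with hW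
  have hW0 : 0 < W := by positivity
  set r : ℝ := min (min r₁ (min r₂ r₃)) (min (r₄ / (2 * W)) (r₅ / W)) with hr
  have hr0 : 0 < r := by positivity
  have hrr₁ : r ≤ r₁ := (min_le_left _ _).trans (min_le_left _ _)
  have hrr₂ : r ≤ r₂ := (min_le_left _ _).trans ((min_le_right _ _).trans (min_le_left _ _))
  have hrr₃ : r ≤ r₃ := (min_le_left _ _).trans ((min_le_right _ _).trans (min_le_right _ _))
  have hrr₄ : r * W ≤ r₄ / 2 := by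
    have h1 : r ≤ r₄ / (2 * W) := (min_le_right _ _).trans (min_le_left _ _)
    rw [le_div_iff₀ (by positivity)] at h1
    linarith
  have hrr₅ : r * W ≤ r₅ := by
    have h1 : r ≤ r₅ / W := (min_le_right _ _).trans (min_le_right _ _)
    rwa [le_div_iff₀ hW0] at h1
  have hswr : ∀ s : ℝ, |s| ≤ r → ‖((s : ℂ)) • w‖ ≤ r * W := by
    intro s hs
    rw [norm_smul, Complex.norm_real, Real.norm_eq_abs]
    exact mul_le_mul hs (by rw [hW]; linarith) (norm_nonneg _) hr0.le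
  set R₁ : ℝ := |R₀| + 1 with hR₁
  set CC : ℝ := K₃ * C₁ * (2 * K₂ + 1) * Real.exp (c₁ * R₁ ^ 2) with hCC
  refine ⟨r, CC, c₁ / 2, hr0, by positivity, by positivity, ?_⟩
  intro y₀ hy₀ hy₀R φ hφ z₀ hz₀
  have hy₁T : y₀ + z₀ • a ∈ Tb b E := tb_add hy₀ (hS.mem z₀)
  obtain ⟨v, hvX, hv1, hvφ, hvu⟩ := exists_unit S.geo.cone S.geo.tor (hS.fb hφ hy₁T)
  obtain ⟨Ψ, hΨ, hΨb⟩ := hprm _ hz₀ v hvX hv1 hvu
  set t : ℝ := min (1 / 2) (min (r₄ / 4) (δ / 8)) with ht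
  have ht0 : 0 < t := by positivity
  have ht1 : t ≤ 1 / 2 := min_le_left _ _
  have ht2 : t ≤ r₄ / 4 := (min_le_right _ _).trans (min_le_left _ _)
  have ht3 : t ≤ δ / 8 := (min_le_right _ _).trans (min_le_right _ _)
  refine ⟨Ψ, v, R, t, hΨ, hvφ, ht0, ?_⟩
  intro σ Nb hσ hNb y hy hyt x hx hdd
  have hxt : ‖x - z₀‖ < t := by rwa [mem_ball, dist_eq_norm] at hx
  set y' : Vd (k + 1) := y + x • a with hy'
  have hy'T : y' ∈ Tb b E := tb_add hy (hS.mem x)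
  have hdist : ‖y' - (y₀ + z₀ • a)‖ ≤ 2 * t := by
    have h1 : y' - (y₀ + z₀ • a) = (y - y₀) + (x - z₀) • a := by
      rw [hy', sub_smul]
      abel
    rw [h1]
    calc ‖(y - y₀) + (x - z₀) • a‖ ≤ ‖y - y₀‖ + ‖(x - z₀) • a‖ := norm_add_le _ _
      _ ≤ t + t := by
        rw [norm_smul, hna, mul_one]
        exact add_le_add hyt.le hxt.le
      _ = 2 * t := by ring
  have hy'D : y' ∈ Gd D (δ / 4) := by
    have h1 := gd_near hz₀ hdist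
    exact gd_mono (by linarith) h1
  -- the nodes
  have hnodT : ∀ i ≤ m + 1, y' + (σ i : ℂ) • w ∈ Tb b E := fun i _ => tb_add hy'T (smul_mem_E hw _)
  have hnod1 : ∀ i ≤ m + 1, dist (φ (y' + (σ i : ℂ) • w)) (pr v) ≤ min ε₃ ε₄ := by
    intro i hi
    rw [hvφ]
    refine hun φ hφ _ hy₁T hz₀ _ (hnodT i hi) ?_
    have h1 : y' + (σ i : ℂ) • w - (y₀ + z₀ • a) = (y' - (y₀ + z₀ • a)) + (σ i : ℂ) • w := by abel
    rw [h1]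
    have h2 := hswr (σ i) (hσ.le i hi)
    calc ‖(y' - (y₀ + z₀ • a)) + (σ i : ℂ) • w‖ ≤ ‖y' - (y₀ + z₀ • a)‖ + ‖(σ i : ℂ) • w‖ := norm_add_le _ _
      _ ≤ r₄ := by linarith
  have hnod2 : ∀ i ≤ m + 1, dist (φ (y' + (σ i : ℂ) • w)) (φ y') ≤ ε₅ := by
    intro i hi
    refine hun' φ hφ _ hy'T hy'D _ (hnodT i hi) ?_
    rw [add_sub_cancel_left]
    exact (hswr (σ i) (hσ.le i hi)).trans hrr₅
  -- the unit vector over y'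
  obtain ⟨v', hv'X, hv'1, hv'φ, -⟩ := exists_unit S.geo.cone S.geo.tor (hS.fb hφ hy'T)
  have hv'0 : v' ≠ 0 := fun h => S.geo.cone.zero_notMem (h ▸ hv'X)
  have hκ : (1 / 2 : ℝ) ≤ ‖(inner ℂ v v' : ℂ)‖ := by
    have h1 : dist (pr v') (pr v) ≤ ε₄ := by
      rw [hv'φ, hvφ]
      refine (hun φ hφ _ hy₁T hz₀ _ hy'T (by linarith)).trans (min_le_right _ _)
    have h2 := (hinner v hv1 v' hv'0 h1).2.1
    rw [hv'1] at h2
    linarith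
  -- the chart of v
  obtain ⟨h1, h2⟩ := hnv v v' hv1 hv'1 hκ σ (fun s => φ (y' + (s : ℂ) • w)) (hσ.mono le_rfl hrr₂) (fun i hi => by
    obtain ⟨x', hx'X, hx'φ, -⟩ := hS.fb hφ (hnodT i hi)
    refine ⟨x', fun h => S.geo.cone.zero_notMem (h ▸ hx'X), hx'φ.symm, ?_⟩
    rw [hx'φ, hv'φ]
    exact hnod2 i hi) (fun i hi => hddb i hi φ hφ y' hy'T hy'D v' hv'1 hv'φ σ (hσ.mono (by omega) hrr₁))
  have h3 := hdd v' hv'1 hv'φ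
  -- the composition
  have h4 := hcomp (EN N) ℂ (fun q => Ψ q.1) v (C₁ * Real.exp (-(c₁ * ‖y₀ + z₀ • a‖ ^ 2))) (by positivity)
    (hΨ.diff.comp differentiableOn_fst (fun q hq => hq.1)) (fun q hq => hΨb q.1 hq.1) σ (fun s : ℝ => nv v (φ (y' + (s : ℂ) • w)))
    (hσ.mono le_rfl hrr₃) (fun i hi => by
      rw [mem_ball, dist_eq_norm]
      exact hnear v hv1 _ ((hnod1 i hi).trans (min_le_left _ _))) h1
  refine h4.trans ?_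
  have h5 : ‖dd (m + 1) σ (fun s : ℝ => nv v (φ (y' + (s : ℂ) • w)))‖ + 1 ≤ (2 * K₂ + 1) * Nb := by
    have h6 : K₂ * (‖dd (m + 1) σ (fun s : ℝ => nv v' (φ (y' + (s : ℂ) • w)))‖ + 1) ≤ K₂ * (Nb + 1) := by gcongr
    have h7 := h2.trans h6
    nlinarith
  have h6 : Real.exp (-(c₁ * ‖y₀ + z₀ • a‖ ^ 2)) ≤ Real.exp (c₁ * R₁ ^ 2) * Real.exp (-(c₁ / 2 * ‖x‖ ^ 2)) := by
    refine exp_cmp hc₁ (norm_nonneg _) (norm_nonneg _) ?_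
    have h7 : ‖x‖ = ‖x • a‖ := by rw [norm_smul, hna, mul_one]
    have h8 : x • a = (y₀ + z₀ • a) - y₀ + (x - z₀) • a := by
      rw [sub_smul]
      abel
    rw [h7, h8]
    calc ‖(y₀ + z₀ • a) - y₀ + (x - z₀) • a‖ ≤ ‖(y₀ + z₀ • a) - y₀‖ + ‖(x - z₀) • a‖ := norm_add_le _ _
      _ ≤ (‖y₀ + z₀ • a‖ + ‖y₀‖) + 1 := by
        refine add_le_add (norm_sub_le _ _) ?_
        rw [norm_smul, hna, mul_one]
        linarith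
      _ ≤ ‖y₀ + z₀ • a‖ + R₁ := by
        have := le_abs_self R₀
        rw [hR₁]
        linarith
  calc K₃ * (C₁ * Real.exp (-(c₁ * ‖y₀ + z₀ • a‖ ^ 2))) * (‖dd (m + 1) σ (fun s : ℝ => nv v (φ (y' + (s : ℂ) • w)))‖ + 1)
      ≤ K₃ * (C₁ * (Real.exp (c₁ * R₁ ^ 2) * Real.exp (-(c₁ / 2 * ‖x‖ ^ 2)))) * ((2 * K₂ + 1) * Nb) := by gcongr
    _ = CC * Nb * Real.exp (-(c₁ / 2 * ‖x‖ ^ 2)) := by rw [hCC]; ring

end Pool.Agent.G3.R
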