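import Pool.Agent.G3.R.Nv
import Pool.Agent.TN.Osg

/-!
# G3 R Loc: the integrals from a local section in terms of a local primitive

`Prm α y₁ v R Ψ`, `S` a local section near `y₁` with `pr (S y₁) = pr v`.  If `y` is near `y₁` and `m` is a point of the fibre over `y` near `pr v`:
`JJ α y (pr (S y)) m = Ψ (nv v m) - Ψ (nv v (pr (S y)))` (`Prm.jj` for the points `nv v m`, `nv v (pr (S y))` of `X`, which are in `ball v R`: `nv_near`; they are multiples of lifts: `nv_pr`, `IsCone.smul_mem`, `TMap.smul`).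
`h y = Ψ (nv v (pr (S y)))` is analytic at `y₁` (`nv v (pr (S y)) = (inner v (S y))⁻¹ • S y`).
-/

set_option autoImplicit false

open Topology Filter Metric

namespace Pool.Agent.G3.R

open Pool.Agent.H36.BP (EN fs wd)
open Pool.Agent.H14.PP (IsCone CurveAt Tan)
open Pool.Agent.H62.EF (MN pr)
open Pool.Agent.AD (Vd Chart Charts IsGerm)
open Pool.Agent.TG
open Pool.Agent.G3.C (Gc HP nv nd nv_pr pr_nv)
open Pool.Agent.G3.A

variable {N k : ℕ} {X : Set (EN N)} {Λ : AddSubgroup (Vd (k + 1))} {u : EN N → Vd (k + 1)} {D B Bad : Set (Vd (k + 1))} {a : Vd (k + 1)}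

/-- functions of several variables which are differentiable near a point are analytic there -/
private theorem Loc_an {f : Vd (k + 1) → ℂ} {y₁ : Vd (k + 1)} (h : ∀ᶠ y in 𝓝 y₁, DifferentiableAt ℂ f y) : AnalyticAt ℂ f y₁ := by
  have h1 : ∀ᶠ y in 𝓝 y₁, ‖f y‖ < ‖f y₁‖ + 1 := h.self_of_nhds.continuousAt.norm.eventually_lt_const (lt_add_one _)
  obtain ⟨r, hr, hb⟩ := Metric.eventually_nhds_iff_ball.1 (h.and h1)
  refine Pool.Agent.TN.osgood_pi hr (M := ‖f y₁‖ + 1) (fun y hy => (hb y hy).2.le) fun y hy l => ?_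
  have h2 : DifferentiableAt ℂ (fun t : ℂ => y + t • (Pi.single l 1 : Vd (k + 1))) 0 := by fun_prop
  have h3 : DifferentiableAt ℂ f (y + (0 : ℂ) • (Pi.single l 1 : Vd (k + 1))) := by
    rw [zero_smul, add_zero]
    exact (hb y hy).1
  exact DifferentiableAt.comp (0 : ℂ) (f := fun t : ℂ => y + t • (Pi.single l 1 : Vd (k + 1))) h3 h2

theorem jj_prm (G : Geo X Λ u D B) {α : VForm X Λ u} {y₁ : Vd (k + 1)} {v : EN N} {R : ℝ} {Ψ : EN N → ℂ} (hΨ : Prm α y₁ v R Ψ) {S : Vd (k + 1) → EN N} (hS : AnalyticAt ℂ S y₁)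
    (hSX : ∀ᶠ y in 𝓝 y₁, S y ∈ X ∧ u (S y) - y ∈ Λ) (hSv : pr (S y₁) = pr v) : AnalyticAt ℂ (fun y => Ψ (nv v (pr (S y)))) y₁ ∧
      ∃ ε : ℝ, 0 < ε ∧ ∀ y ∈ ball y₁ ε, ∀ m ∈ Fb X Λ u y, dist m (pr v) < ε → nv v m ∈ ball v R ∧ JJ α y (pr (S y)) m = Ψ (nv v m) - Ψ (nv v (pr (S y))) := by
  obtain ⟨ε₁, hε₁, hnv⟩ := nv_near (N := N) hΨ.pos
  obtain ⟨ε₂, hε₂, hin⟩ := inner_near (N := N) (η := 1 / 2) (by norm_num)
  have hS0 : S y₁ ≠ 0 := ne_zero G.cone hSX.self_of_nhds.1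
  have hprS : ContinuousAt (fun y => pr (S y)) y₁ := ContinuousAt.comp (f := S) (g := pr) (Pool.Agent.H62.EF.continuousAt_pr hS0) hS.continuousAt
  have hd : ∀ᶠ y in 𝓝 y₁, dist (pr (S y)) (pr v) < min ε₁ ε₂ := by
    have h1 := hprS.tendsto.eventually (ball_mem_nhds (pr (S y₁)) (lt_min hε₁ hε₂))
    rw [hSv] at h1
    exact h1
  have hne : ∀ᶠ y in 𝓝 y₁, inner ℂ v (S y) ≠ (0 : ℂ) := by
    filter_upwards [hd, hSX] with y h1 h2
    exact (hin v hΨ.unit (S y) (ne_zero G.cone h2.1) (h1.le.trans (min_le_right _ _))).1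
  refine ⟨?_, ?_⟩
  · -- analytic
    apply Loc_an
    have hSd : ∀ᶠ y in 𝓝 y₁, DifferentiableAt ℂ S y := hS.eventually_analyticAt.mono fun y hy => hy.differentiableAt
    filter_upwards [hne.eventually_nhds, hSd, hd] with y h1 h2 h3
    have h4 : nv v (pr (S y)) ∈ ball v R := by
      rw [mem_ball, dist_eq_norm]
      exact hnv v hΨ.unit _ (h3.le.trans (min_le_left _ _))
    have h5 : DifferentiableAt ℂ (fun y => nv v (pr (S y))) y := by
      have h6 : DifferentiableAt ℂ (fun y => inner ℂ v (S y)) y := DifferentiableAt.comp y (innerSL ℂ v).differentiableAt h2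
      have h7 : DifferentiableAt ℂ (fun y => (inner ℂ v (S y))⁻¹ • S y) y := (h6.inv h1.self_of_nhds).smul h2
      refine h7.congr_of_eventuallyEq ?_
      filter_upwards [h1] with y' h8
      exact nv_pr h8
    exact DifferentiableAt.comp y (g := Ψ) (f := fun y => nv v (pr (S y))) ((hΨ.diff _ h4).differentiableAt (isOpen_ball.mem_nhds h4)) h5
  · obtain ⟨r, hr, hb⟩ := Metric.eventually_nhds_iff_ball.1 (hd.and (hne.and hSX))
    refine ⟨min (min r R) (min ε₁ ε₂), lt_min (lt_min hr hΨ.pos) (lt_min hε₁ hε₂), fun y hy m hm hmd => ?_⟩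
    have hyr : y ∈ ball y₁ r := ball_subset_ball ((min_le_left _ _).trans (min_le_left _ _)) hy
    have hyR : y ∈ ball y₁ R := ball_subset_ball ((min_le_left _ _).trans (min_le_right _ _)) hy
    have hm1 : dist m (pr v) < ε₁ := hmd.trans_le ((min_le_right _ _).trans (min_le_left _ _))
    have hm2 : dist m (pr v) < ε₂ := hmd.trans_le ((min_le_right _ _).trans (min_le_right _ _))
    obtain ⟨h1, h2, h3, h4⟩ := hb y hyr
    have hmR : nv v m ∈ ball v R := by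
      rw [mem_ball, dist_eq_norm]
      exact hnv v hΨ.unit m hm1.le
    have hSR : nv v (pr (S y)) ∈ ball v R := by
      rw [mem_ball, dist_eq_norm]
      exact hnv v hΨ.unit _ (h1.le.trans (min_le_left _ _))
    refine ⟨hmR, ?_⟩
    obtain ⟨x, hx, hxm, hux⟩ := hm
    have hxn : inner ℂ v x ≠ (0 : ℂ) := (hin v hΨ.unit x (ne_zero G.cone hx) (by rw [hxm]; exact hm2.le)).1
    have e1 : pr (nv v m) = m := by rw [← hxm, pr_nv hxn]
    have e2 : pr (nv v (pr (S y))) = pr (S y) := pr_nv h2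
    have h5 : nv v m ∈ X ∧ u (nv v m) - y ∈ Λ := by
      rw [← hxm, nv_pr hxn]
      exact ⟨G.cone.smul_mem x hx _ (inv_ne_zero hxn), smul_mem_lat G.tor hx hux (inv_ne_zero hxn)⟩
    have h6 : nv v (pr (S y)) ∈ X ∧ u (nv v (pr (S y))) - y ∈ Λ := by
      rw [nv_pr h2]
      exact ⟨G.cone.smul_mem _ h3 _ (inv_ne_zero h2), smul_mem_lat G.tor h3 h4 (inv_ne_zero h2)⟩
    have h7 := hΨ.jj y hyR _ h6.1 hSR h6.2 _ h5.1 hmR h5.2
    rwa [e1, e2] at h7

end Pool.Agent.G3.R
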