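import Pool.Agent.G3.R.Nv
import Pool.Agent.TG.Cp

/-!
# G3 R PrmA: local primitives of the forms along the fibres

A straight chart `χ` with `Cap` at the point `v` over `y₀ ∉ D` (`TG/Cp`: `exists_cap_at`, `cap_of_small`, `exists_str_chart`), `A` a primitive of the coefficient (`exists_prim`),
`Ψ x = A (χ.q x) / ρ ^ (k + 1)` on a small ball around `v`.  `JJ α y (pr x) (pr x') = Ψ x' - Ψ x`: the segment from `χ.q x` to `χ.q x'` gives `IRel α ε y (pr x) (pr x') (Ψ x' - Ψ x)`, with `3 ε` at most the size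
of the cap (moved to `pr x`, see `cp_cap_move`, `cp_rel_bdd` in `TG/Cp`); `jj_eq`.
-/

set_option autoImplicit false

open Topology Filter Metric

namespace Pool.Agent.G3.R

open Pool.Agent.H36.BP (EN fs wd)
open Pool.Agent.H14.PP (IsCone CurveAt Tan)
open Pool.Agent.H62.EF (MN pr)
open Pool.Agent.AD (Vd Chart Charts IsGerm)
open Pool.Agent.TG
open Pool.Agent.G3.C (Gc HP nv nd nv_pr)
open Pool.Agent.G3.A

variable {N k : ℕ} {X : Set (EN N)} {Λ : AddSubgroup (Vd (k + 1))} {u : EN N → Vd (k + 1)} {D B Bad : Set (Vd (k + 1))} {a : Vd (k + 1)}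

private theorem pa_pr_q {χ : Chart (k + 2) X} {x : EN N} (hx : x ∈ X) (hU : x ∈ χ.U) : pr (χ.σ (χ.q x)) = pr x := by
  obtain ⟨hb, c, hc, e⟩ := χ.surj x hx hU
  conv_rhs => rw [e]
  exact (Pool.Agent.H62.EF.pr_smul _ hc).symm

private theorem pa_cap_move {χ : Chart (k + 2) X} {c : Vd (k + 1)} {ρ : ℝ} {y₀ : Vd (k + 1)} {m₀ : MN N} {r : ℝ} (h : Cap Λ u χ c ρ y₀ m₀ r)
    {y₁ : Vd (k + 1)} {m₁ : MN N} {r₁ : ℝ} (hr : r₁ ≤ r / 2) (hz : dist y₁ y₀ ≤ r / 2) (hy : dist m₁ m₀ ≤ r / 2) : Cap Λ u χ c ρ y₁ m₁ r₁ where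
  str := h.str
  cap := fun y hy' x hx hxz hd => by
    refine h.cap y ?_ x hx hxz ?_
    · rw [mem_closedBall] at hy' ⊢
      have := dist_triangle y y₁ y₀
      linarith
    · have := dist_triangle (pr x) m₁ m₀
      linarith

private theorem pa_seg {s : ℝ} {p p' : Vd (k + 2)} (hp : ‖p‖ < s) (hp' : ‖p'‖ < s) {θ : ℝ} (hθ : θ ∈ Set.Icc (0 : ℝ) 1) :
    ‖p + (θ : ℂ) • (p' - p)‖ < s := by
  have e : p + (θ : ℂ) • (p' - p) = (1 - θ) • p + θ • p' := by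
    have e1 : ∀ v : Vd (k + 2), (θ : ℂ) • v = θ • v := fun v => by
      ext i
      simp
    rw [e1, smul_sub, sub_smul, one_smul]
    abel
  rw [← mem_ball_zero_iff, e]
  exact (convex_ball (0 : Vd (k + 2)) s) (mem_ball_zero_iff.2 hp) (mem_ball_zero_iff.2 hp') (by linarith [hθ.2]) hθ.1 (by ring)

theorem exists_prm (G : Geo X Λ u D B) {y₀ : Vd (k + 1)} (hy₀ : y₀ ∉ D) {v : EN N} (hv : v ∈ X) (hv1 : ‖v‖ = 1) (hu : u v - y₀ ∈ Λ) (α : VForm X Λ u) :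
    ∃ (R : ℝ) (Ψ : EN N → ℂ), Prm α y₀ v R Ψ := by
  obtain ⟨d, hd, hdis⟩ := G.lat.disc
  obtain ⟨χ, ρ, hU, hq, hm, hr⟩ := exists_str_chart G.cone G.tor (G.sub y₀ hy₀ v hv hu) (η := d / 2) (by positivity)
  obtain ⟨r, hr1, hcap⟩ := cap_of_small G.cone G.tor hv hu hm hU hq
    (fun l hl hl' => hdis l hl (by linarith)) (fun p hp => (hr p hp).2)
  obtain ⟨A, hA⟩ := exists_prim α χ hm
  -- continuity of the chart at `0`
  have h0 : (0 : Vd (k + 2)) ∈ ball (0 : Vd (k + 2)) 2 := mem_ball_self two_pos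
  have hσ0 : pr (χ.σ 0) = pr v := by
    have h1 := pa_pr_q hv hU
    rwa [hq] at h1
  have hcont : ContinuousAt (fun p => pr (χ.σ p)) (0 : Vd (k + 2)) := by
    have h1 : ContinuousAt pr (χ.σ 0) := Pool.Agent.H62.EF.continuousAt_pr (ne_zero G.cone (χ.σ_mem 0 h0).1)
    exact ContinuousAt.comp (f := χ.σ) h1 (χ.σ_an 0 h0).continuousAt
  obtain ⟨s₀, hs₀, hs⟩ := Metric.continuousAt_iff.1 hcont (r / 12) (by positivity)
  rw [hσ0] at hs
  have hs2 : 0 < min s₀ 2 := lt_min hs₀ two_pos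
  have hv0 : v ≠ 0 := ne_zero G.cone hv
  -- the radius
  have h1 : ∀ᶠ x in 𝓝 v, x ∈ χ.U := χ.isOpen_U.mem_nhds hU
  have h2 : ∀ᶠ x in 𝓝 v, ‖χ.q x‖ < min s₀ 2 := by
    have hc : ContinuousAt (fun x => ‖χ.q x‖) v := (χ.q_an v hU).continuousAt.norm
    have h3 : (fun x => ‖χ.q x‖) v < min s₀ 2 := by simpa [hq] using hs2
    exact hc.tendsto.eventually_lt_const h3
  have h3 : ∀ᶠ x in 𝓝 v, dist (pr x) (pr v) < r / 12 :=
    (Pool.Agent.H62.EF.continuousAt_pr hv0).eventually (Metric.ball_mem_nhds _ (by positivity))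
  obtain ⟨R₀, hR₀, hall⟩ := Metric.eventually_nhds_iff_ball.1 ((h1.and h2).and h3)
  have hin : ∀ x ∈ ball v (min R₀ (r / 2)), (x ∈ χ.U ∧ ‖χ.q x‖ < min s₀ 2) ∧ dist (pr x) (pr v) < r / 12 :=
    fun x hx => hall x (ball_subset_ball (min_le_left _ _) hx)
  refine ⟨min R₀ (r / 2), fun x => A (χ.q x) / (ρ : ℂ) ^ (k + 1), lt_min hR₀ (by positivity), hv1, hv, hu, ?_, ?_⟩
  · intro x hx
    obtain ⟨⟨hxU, hxq⟩, -⟩ := hin x hx
    have h4 : AnalyticAt ℂ (fun x => A (χ.q x)) x :=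
      AnalyticAt.fun_comp (hA.an _ (mem_ball_zero_iff.2 (hxq.trans_le (min_le_right _ _)))) (χ.q_an x hxU)
    simp only [div_eq_mul_inv]
    exact (h4.differentiableAt.mul_const _).differentiableWithinAt
  · intro y hy x hx hxb hxy x' hx' hxb' hxy'
    obtain ⟨⟨hxU, hxq⟩, hxd⟩ := hin x hxb
    obtain ⟨⟨hxU', hxq'⟩, hxd'⟩ := hin x' hxb'
    have hyr : dist y y₀ ≤ r / 2 := (lt_of_lt_of_le (mem_ball.1 hy) (min_le_right _ _)).le
    have hyc : y ∈ closedBall y₀ r := by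
      rw [mem_closedBall]
      linarith
    obtain ⟨-, -, hc1⟩ := hcap.cap y hyc x hx hxy (by linarith)
    obtain ⟨-, -, hc2⟩ := hcap.cap y hyc x' hx' hxy' (by linarith)
    have hb1 : χ.q x ∈ ball (0 : Vd (k + 2)) 2 := mem_ball_zero_iff.2 (hxq.trans_le (min_le_right _ _))
    have hb2 : χ.q x' ∈ ball (0 : Vd (k + 2)) 2 := mem_ball_zero_iff.2 (hxq'.trans_le (min_le_right _ _))
    have hrel : IRel α (r / 6) y (pr x) (pr x') ((A (χ.q x') - A (χ.q x)) / (ρ : ℂ) ^ (k + 1)) := by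
      refine ⟨χ, y₀, ρ, A, χ.q x, χ.q x', hm, hA, hb1, hb2, hc1, hc2, pa_pr_q hx hxU, pa_pr_q hx' hxU', ?_, rfl⟩
      intro θ hθ
      have h5 := pa_seg hxq hxq' hθ
      have h6 := hs (x := χ.q x + (θ : ℂ) • (χ.q x' - χ.q x)) (by
        rw [dist_zero_right]
        exact h5.trans_le (min_le_left _ _))
      have h7 := dist_triangle (pr (χ.σ (χ.q x + (θ : ℂ) • (χ.q x' - χ.q x)))) (pr v) (pr x)
      rw [dist_comm (pr v)] at h7
      linarith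
    rw [jj_eq G.cone G.tor G.lat ⟨r / 6, by positivity, ⟨χ, y₀, ρ, pa_cap_move hcap (by linarith) hyr (by linarith)⟩, hrel⟩]
    exact sub_div _ _ _

end Pool.Agent.G3.R
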