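import Pool.Agent.G3.R.DDefs
import Pool.Agent.G3.A.DD

/-!
# G3 R DD: divided differences, basic properties

`dd_succ`: the recursion.  `np_node`: the Newton polynomial interpolates.  `sub_np`: the error at the next node.
`dd_cauchy`: `g [σ 0, …, σ m] = (2 π i)⁻¹ ∮ g ζ / ∏ (ζ - σ i) dζ` over the circles of radius `ρ < 2 r` (the divided difference of `s ↦ (ζ - s)⁻¹` is `∏ (ζ - σ i)⁻¹`;
Cauchy's formula; linearity), `ρ → 2 r`.  Most statements are reduced to the ones for `Pool.Agent.G3.A.dd` (nodes in a `Finset`) by `dd_eq`.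
-/

set_option autoImplicit false

open Finset Metric Set

namespace Pool.Agent.G3.R

variable {E : Type*} [AddCommGroup E] [Module ℂ E]

theorem dd_congr {m : ℕ} {σ : ℕ → ℝ} {f g : ℝ → E} (h : ∀ i ≤ m, f (σ i) = g (σ i)) : dd m σ f = dd m σ g := by
  unfold dd
  exact Finset.sum_congr rfl fun i hi => by rw [h i (Nat.lt_succ_iff.1 (Finset.mem_range.1 hi))]

theorem dd_zero (σ : ℕ → ℝ) (f : ℝ → E) : dd 0 σ f = f (σ 0) := by
  unfold dd dw
  simp

theorem dd_add (m : ℕ) (σ : ℕ → ℝ) (f g : ℝ → E) : dd m σ (fun s => f s + g s) = dd m σ f + dd m σ g := by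
  unfold dd
  rw [← Finset.sum_add_distrib]
  exact Finset.sum_congr rfl fun i _ => by rw [smul_add]

theorem dd_sub (m : ℕ) (σ : ℕ → ℝ) (f g : ℝ → E) : dd m σ (fun s => f s - g s) = dd m σ f - dd m σ g := by
  unfold dd
  rw [← Finset.sum_sub_distrib]
  exact Finset.sum_congr rfl fun i _ => by rw [smul_sub]

theorem dd_map {E' : Type*} [AddCommGroup E'] [Module ℂ E'] (L : E →ₗ[ℂ] E') (m : ℕ) (σ : ℕ → ℝ) (f : ℝ → E) : dd m σ (fun s => L (f s)) = L (dd m σ f) := by
  unfold dd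
  rw [map_sum]
  exact Finset.sum_congr rfl fun i _ => by rw [map_smul]

/-- comparison with the divided differences for sets of nodes -/
theorem dd_eq {m : ℕ} {σ : ℕ → ℝ} (hσ : ∀ i ≤ m, ∀ j ≤ m, σ i = σ j → i = j) (f : ℝ → E) : dd m σ f = A.dd ((range (m + 1)).image σ) f := by
  have hinj : Set.InjOn σ (range (m + 1) : Finset ℕ) := by
    intro i hi j hj hij
    rw [Finset.mem_coe, Finset.mem_range] at hi hj
    exact hσ i (by omega) j (by omega) hij
  unfold dd A.dd
  rw [Finset.sum_image hinj]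
  refine Finset.sum_congr rfl fun i hi => ?_
  rw [Complex.coe_smul]
  congr 1
  unfold dw
  have h1 : ((range (m + 1)).image σ).erase (σ i) = ((range (m + 1)).erase i).image σ := by
    ext x
    simp only [Finset.mem_erase, Finset.mem_image, ne_eq]
    constructor
    · rintro ⟨h2, j, hj, rfl⟩
      exact ⟨j, ⟨fun h => h2 (by rw [h]), hj⟩, rfl⟩
    · rintro ⟨j, ⟨hji, hj⟩, rfl⟩
      exact ⟨fun h => hji (hinj hj hi h), j, hj, rfl⟩
  rw [h1, Finset.prod_image (fun a ha b hb hab => hinj (Finset.erase_subset _ _ ha) (Finset.erase_subset _ _ hb) hab), Finset.prod_inv_distrib]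

theorem Nod.card {m : ℕ} {σ : ℕ → ℝ} {r : ℝ} (hσ : Nod m σ r) : ((range (m + 1)).image σ).card = m + 1 := by
  rw [Finset.card_image_of_injOn, Finset.card_range]
  intro i hi j hj hij
  rw [Finset.mem_coe, Finset.mem_range] at hi hj
  exact hσ.inj i (by omega) j (by omega) hij

theorem Nod.tail {m : ℕ} {σ : ℕ → ℝ} {r : ℝ} (hσ : Nod (m + 1) σ r) : Nod m (fun i => σ (i + 1)) r :=
  ⟨fun i hi j hj hij => by
    have := hσ.inj (i + 1) (by omega) (j + 1) (by omega) hij
    omega, fun i hi => hσ.le (i + 1) (by omega)⟩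

theorem image_range_succ (m : ℕ) (σ : ℕ → ℝ) : (range (m + 1)).image σ = insert (σ 0) ((range m).image fun i => σ (i + 1)) := by
  rw [Finset.range_eq_Ico, ← Finset.insert_Ico_add_one_left_eq_Ico (by omega : 0 < m + 1), Finset.image_insert]
  congr 1
  ext x
  simp only [Finset.mem_image, Finset.mem_Ico, Finset.mem_range]
  constructor
  · rintro ⟨i, ⟨h1, h2⟩, rfl⟩
    exact ⟨i - 1, by omega, by congr 1; omega⟩
  · rintro ⟨i, hi, rfl⟩
    exact ⟨i + 1, by omega, rfl⟩

theorem Nod.zero_notMem {m : ℕ} {σ : ℕ → ℝ} {r : ℝ} (hσ : Nod m σ r) : σ 0 ∉ (range m).image fun i => σ (i + 1) := by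
  rw [Finset.mem_image]
  rintro ⟨i, hi, h⟩
  rw [Finset.mem_range] at hi
  have := hσ.inj (i + 1) (by omega) 0 (by omega) h
  omega

theorem Nod.last_notMem {m : ℕ} {σ : ℕ → ℝ} {r : ℝ} (hσ : Nod m σ r) : σ m ∉ (range m).image σ := by
  rw [Finset.mem_image]
  rintro ⟨i, hi, h⟩
  rw [Finset.mem_range] at hi
  have := hσ.inj i (by omega) m (by omega) h
  omega

/-- the recursion -/
theorem dd_succ {m : ℕ} {σ : ℕ → ℝ} {r : ℝ} (hσ : Nod (m + 1) σ r) (f : ℝ → E) :
    dd (m + 1) σ f = (((σ (m + 1) - σ 0)⁻¹ : ℝ) : ℂ) • (dd m (fun i => σ (i + 1)) f - dd m σ f) := by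
  rw [dd_eq hσ.inj, dd_eq hσ.tail.inj, dd_eq (hσ.mono (Nat.le_succ m) le_rfl).inj, Complex.coe_smul]
  set S₀ : Finset ℝ := (range m).image fun i => σ (i + 1) with hS₀
  have e1 : (range (m + 1)).image (fun i => σ (i + 1)) = insert (σ (m + 1)) S₀ := by
    rw [Finset.range_add_one, Finset.image_insert]
  have e2 : (range (m + 1)).image σ = insert (σ 0) S₀ := image_range_succ m σ
  have e3 : (range (m + 1 + 1)).image σ = insert (σ 0) (insert (σ (m + 1)) S₀) := by
    rw [image_range_succ (m + 1) σ, e1]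
  rw [e1, e2, e3]
  refine A.dd_insert_insert ?_ ?_ ?_ f
  · intro h
    have := hσ.inj 0 (by omega) (m + 1) (by omega) h
    omega
  · exact (hσ.mono (Nat.le_succ m) le_rfl).zero_notMem
  · exact hσ.tail.last_notMem

/-- the divided difference of the slopes -/
theorem dd_slope {m : ℕ} {σ : ℕ → ℝ} {r : ℝ} (hσ : Nod (m + 1) σ r) (f : ℝ → E) :
    dd (m + 1) σ f = dd m (fun i => σ (i + 1)) (fun t => (t - σ 0)⁻¹ • (f t - f (σ 0))) := by
  rw [dd_eq hσ.inj, dd_eq hσ.tail.inj, image_range_succ (m + 1) σ]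
  exact A.dd_slope f hσ.zero_notMem ⟨_, Finset.mem_image_of_mem _ (Finset.mem_range.2 (Nat.succ_pos m))⟩

/-- a translation of the nodes -/
theorem dd_shift (m : ℕ) (σ : ℕ → ℝ) (t : ℝ) (f : ℝ → E) : dd m (fun i => σ i + t) f = dd m σ fun s => f (s + t) := by
  unfold dd
  refine Finset.sum_congr rfl fun i _ => ?_
  congr 2
  unfold dw
  exact Finset.prod_congr rfl fun j _ => by congr 1; ring

/-- the order of the nodes does not matter -/
theorem dd_perm {m : ℕ} (σ : ℕ → ℝ) (π : Equiv.Perm ℕ) (hπ : ∀ i, π i ≤ m ↔ i ≤ m) (f : ℝ → E) : dd m (fun i => σ (π i)) f = dd m σ f := by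
  unfold dd
  refine Finset.sum_nbij' (i := fun i => π i) (j := fun i => π.symm i) ?_ ?_ ?_ ?_ ?_
  · intro i hi
    rw [Finset.mem_range] at hi ⊢
    have := (hπ i).2 (by omega)
    omega
  · intro i hi
    rw [Finset.mem_range] at hi ⊢
    have := (hπ (π.symm i)).1 (by rw [Equiv.apply_symm_apply]; omega)
    omega
  · intro i _
    exact π.symm_apply_apply i
  · intro i _
    exact π.apply_symm_apply i
  · intro i hi
    congr 2
    unfold dw
    refine Finset.prod_nbij' (i := fun j => π j) (j := fun j => π.symm j) ?_ ?_ ?_ ?_ ?_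
    · intro j hj
      rw [Finset.mem_erase, Finset.mem_range] at hj ⊢
      have := (hπ j).2 (by omega)
      exact ⟨fun h => hj.1 (π.injective h), by omega⟩
    · intro j hj
      rw [Finset.mem_erase, Finset.mem_range] at hj ⊢
      have := (hπ (π.symm j)).1 (by rw [Equiv.apply_symm_apply]; omega)
      exact ⟨fun h => hj.1 (by rw [← h, Equiv.apply_symm_apply]), by omega⟩
    · intro j _
      exact π.symm_apply_apply j
    · intro j _
      exact π.apply_symm_apply j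
    · intro j _
      rfl

/-- the Newton polynomial in terms of the slopes -/
theorem np_succ {m : ℕ} {σ : ℕ → ℝ} {r : ℝ} (hσ : Nod (m + 1) σ r) (f : ℝ → E) (ζ : ℂ) :
    np (m + 1) σ f ζ = f (σ 0) + (ζ - (σ 0 : ℂ)) • np m (fun i => σ (i + 1)) (fun t => (t - σ 0)⁻¹ • (f t - f (σ 0))) ζ := by
  unfold np
  rw [Finset.sum_range_succ', Finset.prod_range_zero, one_smul, dd_zero, add_comm, Finset.smul_sum]
  congr 1
  refine Finset.sum_congr rfl fun j hj => ?_
  rw [Finset.mem_range] at hj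
  rw [dd_slope (hσ.mono (by omega) le_rfl), smul_smul, Finset.prod_range_succ']
  congr 1
  ring

/-- the error of the Newton polynomial at the next node -/
theorem sub_np {m : ℕ} {σ : ℕ → ℝ} {r : ℝ} (hσ : Nod (m + 1) σ r) (f : ℝ → E) :
    f (σ (m + 1)) - np m σ f (σ (m + 1) : ℂ) = (∏ i ∈ range (m + 1), ((σ (m + 1) : ℂ) - (σ i : ℂ))) • dd (m + 1) σ f := by
  induction m generalizing σ f with
  | zero =>
    have hne : σ 1 - σ 0 ≠ 0 := by
      intro h
      have := hσ.inj 1 le_rfl 0 (by omega) (by linarith)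
      omega
    have h1 : np 0 σ f (σ (0 + 1) : ℂ) = f (σ 0) := by
      unfold np
      simp [dd_zero]
    rw [h1, dd_slope hσ, dd_zero, Finset.prod_range_one, ← Complex.ofReal_sub, Complex.coe_smul, smul_smul]
    simp only [zero_add]
    rw [mul_inv_cancel₀ hne, one_smul]
  | succ m ih =>
    have hne : σ (m + 2) - σ 0 ≠ 0 := by
      intro h
      have := hσ.inj (m + 2) le_rfl 0 (by omega) (by linarith)
      omega
    have h1 := ih hσ.tail (fun t => (t - σ 0)⁻¹ • (f t - f (σ 0)))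
    rw [np_succ (hσ.mono (by omega) le_rfl), dd_slope hσ, Finset.prod_range_succ', mul_comm, mul_smul, ← h1, smul_sub]
    simp only [← Complex.ofReal_sub, Complex.coe_smul]
    rw [smul_smul, mul_inv_cancel₀ hne, one_smul]
    abel

/-- the Newton polynomial interpolates -/
theorem np_node {m : ℕ} {σ : ℕ → ℝ} {r : ℝ} (hσ : Nod m σ r) (f : ℝ → E) {i : ℕ} (hi : i ≤ m) : np m σ f (σ i : ℂ) = f (σ i) := by
  have h1 : np m σ f (σ i : ℂ) = np i σ f (σ i : ℂ) := by
    unfold np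
    symm
    refine Finset.sum_subset (Finset.range_subset_range.2 (by omega)) fun j _ hj => ?_
    rw [Finset.mem_range, not_lt] at hj
    rw [Finset.prod_eq_zero (Finset.mem_range.2 (by omega : i < j)) (sub_self _), zero_smul]
  rw [h1]
  rcases i with _ | i
  · unfold np
    simp [dd_zero]
  · have h2 := sub_np (hσ.mono hi le_rfl) f
    have h3 : np (i + 1) σ f (σ (i + 1) : ℂ) = np i σ f (σ (i + 1) : ℂ) + (∏ l ∈ range (i + 1), ((σ (i + 1) : ℂ) - (σ l : ℂ))) • dd (i + 1) σ f := by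
      unfold np
      rw [Finset.sum_range_succ]
    rw [h3, ← h2]
    abel

/-- if `f = g` at the nodes `σ 0, …, σ m`, then the divided differences of order `m + 1` differ by a multiple of the difference at the last node -/
theorem dd_last {m : ℕ} {σ : ℕ → ℝ} {f g : ℝ → E} (h : ∀ i ≤ m, f (σ i) = g (σ i)) :
    dd (m + 1) σ f - dd (m + 1) σ g = (∏ i ∈ range (m + 1), ((σ (m + 1) : ℂ) - (σ i : ℂ))⁻¹) • (f (σ (m + 1)) - g (σ (m + 1))) := by
  rw [← dd_sub]
  unfold dd
  rw [Finset.sum_range_succ, Finset.sum_eq_zero (s := range (m + 1)), zero_add]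
  · congr 1
    unfold dw
    rw [Finset.range_add_one (n := m + 1), Finset.erase_insert Finset.notMem_range_self, Complex.ofReal_prod]
    exact Finset.prod_congr rfl fun i _ => by rw [Complex.ofReal_inv, Complex.ofReal_sub]
  · intro i hi
    rw [Finset.mem_range] at hi
    show _ • (f (σ i) - g (σ i)) = 0
    rw [h i (by omega), sub_self, smul_zero]

/-- the divided differences of `s ↦ (ζ - s)⁻¹` -/
theorem dd_inv {ζ : ℂ} : ∀ {m : ℕ} {σ : ℕ → ℝ} {r : ℝ}, Nod m σ r → (∀ i ≤ m, ζ ≠ (σ i : ℂ)) →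
    dd m σ (fun s : ℝ => (ζ - (s : ℂ))⁻¹) = ∏ i ∈ range (m + 1), (ζ - (σ i : ℂ))⁻¹ := by
  intro m
  induction m with
  | zero =>
    intro σ r _ _
    rw [dd_zero, Finset.prod_range_one]
  | succ m ih =>
    intro σ r hσ hζ
    have h0 : ζ - (σ 0 : ℂ) ≠ 0 := sub_ne_zero.2 (hζ 0 (by omega))
    have h1 : dd m (fun i => σ (i + 1)) (fun t : ℝ => (t - σ 0)⁻¹ • ((ζ - (t : ℂ))⁻¹ - (ζ - (σ 0 : ℂ))⁻¹)) =
        dd m (fun i => σ (i + 1)) (fun t : ℝ => (LinearMap.mulLeft ℂ (ζ - (σ 0 : ℂ))⁻¹) ((ζ - (t : ℂ))⁻¹)) := by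
      refine dd_congr fun i hi => ?_
      have h2 : ζ - (σ (i + 1) : ℂ) ≠ 0 := sub_ne_zero.2 (hζ (i + 1) (by omega))
      have h3 : (σ (i + 1) : ℂ) - (σ 0 : ℂ) ≠ 0 := by
        rw [← Complex.ofReal_sub, Complex.ofReal_ne_zero]
        intro h
        have := hσ.inj (i + 1) (by omega) 0 (by omega) (by linarith)
        omega
      rw [← Complex.coe_smul, Complex.ofReal_inv, Complex.ofReal_sub, smul_eq_mul, LinearMap.mulLeft_apply]
      field_simp
      ring
    rw [dd_slope hσ, h1, dd_map, ih hσ.tail (fun i hi => hζ (i + 1) (by omega)), LinearMap.mulLeft_apply, Finset.prod_range_succ' _ (m + 1), mul_comm]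

/-- divided differences of holomorphic functions are bounded -/
theorem dd_cauchy {F : Type*} [NormedAddCommGroup F] [NormedSpace ℂ F] [CompleteSpace F] {g : ℂ → F} {r M : ℝ} (hr : 0 < r) (hg : DifferentiableOn ℂ g (ball 0 (2 * r)))
    (hM : ∀ ζ ∈ ball (0 : ℂ) (2 * r), ‖g ζ‖ ≤ M) {m : ℕ} {σ : ℕ → ℝ} (hσ : Nod m σ r) : ‖dd m σ (fun s : ℝ => g (s : ℂ))‖ ≤ M * 2 / r ^ m := by
  have hM0 : 0 ≤ M := (norm_nonneg _).trans (hM 0 (mem_ball_self (by linarith)))
  have key : ∀ ρ : ℝ, r < ρ → ρ < 2 * r → ‖dd m σ (fun s : ℝ => g (s : ℂ))‖ ≤ ρ * (M / (ρ - r) ^ (m + 1)) := by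
    intro ρ h1 h2
    have hρ : 0 < ρ := by linarith
    have hnorm : ∀ i ≤ m, ‖(σ i : ℂ)‖ ≤ r := fun i hi => by
      rw [Complex.norm_real]
      exact hσ.le i hi
    have hball : ∀ i ≤ m, (σ i : ℂ) ∈ ball (0 : ℂ) ρ := fun i hi => by
      rw [mem_ball_zero_iff]
      exact (hnorm i hi).trans_lt h1
    have hsub : closedBall (0 : ℂ) ρ ⊆ ball 0 (2 * r) := closedBall_subset_ball h2
    have hgc : DifferentiableOn ℂ g (closedBall 0 ρ) := hg.mono hsub
    have hC : ∀ i ≤ m, ((2 * Real.pi * Complex.I : ℂ)⁻¹ • ∮ z in C(0, ρ), (z - (σ i : ℂ))⁻¹ • g z) = g (σ i : ℂ) := fun i hi =>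
      Complex.two_pi_I_inv_smul_circleIntegral_sub_inv_smul_of_differentiable_on_off_countable Set.countable_empty (hball i hi) hgc.continuousOn
        fun x hx => hgc.differentiableAt (closedBall_mem_nhds_of_mem hx.1)
    have hne : ∀ i ≤ m, ∀ z ∈ sphere (0 : ℂ) ρ, z ≠ (σ i : ℂ) := by
      rintro i hi z hz rfl
      rw [mem_sphere_zero_iff_norm] at hz
      have := hnorm i hi
      linarith
    have hint : ∀ i ∈ range (m + 1), CircleIntegrable (fun z => ((dw m σ i : ℝ) : ℂ) • ((z - (σ i : ℂ))⁻¹ • g z)) 0 ρ := by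
      intro i hi
      rw [Finset.mem_range] at hi
      refine ContinuousOn.circleIntegrable hρ.le ?_
      have hc1 : ContinuousOn (fun z : ℂ => (z - (σ i : ℂ))⁻¹) (sphere 0 ρ) :=
        (continuousOn_id.sub continuousOn_const).inv₀ fun z hz => sub_ne_zero.2 (hne i (by omega) z hz)
      exact (hc1.smul (hgc.continuousOn.mono sphere_subset_closedBall)).const_smul _
    have h3 : dd m σ (fun s : ℝ => g (s : ℂ)) = (2 * Real.pi * Complex.I : ℂ)⁻¹ • ∮ z in C(0, ρ), (∏ i ∈ range (m + 1), (z - (σ i : ℂ))⁻¹) • g z := by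
      have h4 : dd m σ (fun s : ℝ => g (s : ℂ)) = dd m σ (fun s : ℝ => (2 * Real.pi * Complex.I : ℂ)⁻¹ • ∮ z in C(0, ρ), (z - (s : ℂ))⁻¹ • g z) :=
        dd_congr fun i hi => (hC i hi).symm
      rw [h4]
      unfold dd
      have h5 : ∀ i ∈ range (m + 1), ((dw m σ i : ℝ) : ℂ) • ((2 * Real.pi * Complex.I : ℂ)⁻¹ • ∮ z in C(0, ρ), (z - (σ i : ℂ))⁻¹ • g z) =
          (2 * Real.pi * Complex.I : ℂ)⁻¹ • ∮ z in C(0, ρ), ((dw m σ i : ℝ) : ℂ) • ((z - (σ i : ℂ))⁻¹ • g z) := by
        intro i _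
        rw [circleIntegral.integral_smul, smul_comm]
      rw [Finset.sum_congr rfl h5, ← Finset.smul_sum, ← circleIntegral.integral_fun_sum hint]
      congr 1
      refine circleIntegral.integral_congr hρ.le fun z hz => ?_
      have h6 := dd_inv hσ (fun i hi => hne i hi z hz)
      unfold dd at h6
      rw [← h6, Finset.sum_smul]
      refine Finset.sum_congr rfl fun i _ => ?_
      rw [smul_assoc]
    rw [h3]
    refine circleIntegral.norm_two_pi_i_inv_smul_integral_le_of_norm_le_const hρ.le fun z hz => ?_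
    rw [norm_smul, norm_prod]
    have h7 : ∏ i ∈ range (m + 1), ‖(z - (σ i : ℂ))⁻¹‖ ≤ ∏ _i ∈ range (m + 1), (ρ - r)⁻¹ := by
      refine Finset.prod_le_prod (fun i _ => norm_nonneg _) fun i hi => ?_
      rw [Finset.mem_range] at hi
      rw [norm_inv]
      have h8 : ρ - r ≤ ‖z - (σ i : ℂ)‖ := by
        have h9 := norm_sub_norm_le z (σ i : ℂ)
        rw [mem_sphere_zero_iff_norm] at hz
        have h10 := hnorm i (by omega)
        linarith
      exact inv_anti₀ (by linarith) h8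
    rw [Finset.prod_const, Finset.card_range, inv_pow] at h7
    have h8 := hM z (hsub (sphere_subset_closedBall hz))
    have h9 : 0 < (ρ - r) ^ (m + 1) := pow_pos (by linarith) _
    calc (∏ i ∈ range (m + 1), ‖(z - (σ i : ℂ))⁻¹‖) * ‖g z‖ ≤ ((ρ - r) ^ (m + 1))⁻¹ * M := by gcongr
      _ = M / (ρ - r) ^ (m + 1) := by rw [div_eq_mul_inv, mul_comm]
  -- `ρ → 2 r`
  have hlim : Filter.Tendsto (fun ρ : ℝ => ρ * (M / (ρ - r) ^ (m + 1))) (nhdsWithin (2 * r) (Set.Iio (2 * r))) (nhds (2 * r * (M / (2 * r - r) ^ (m + 1)))) := by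
    have hne : (2 * r - r) ^ (m + 1) ≠ 0 := pow_ne_zero _ (by linarith)
    have hc : ContinuousAt (fun ρ : ℝ => ρ * (M / (ρ - r) ^ (m + 1))) (2 * r) := by
      have h1 : ContinuousAt (fun ρ : ℝ => (ρ - r) ^ (m + 1)) (2 * r) := by fun_prop
      exact continuousAt_id.mul (continuousAt_const.div h1 hne)
    exact hc.tendsto.mono_left nhdsWithin_le_nhds
  have h1 : ‖dd m σ (fun s : ℝ => g (s : ℂ))‖ ≤ 2 * r * (M / (2 * r - r) ^ (m + 1)) := by
    refine ge_of_tendsto hlim ?_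
    have h2 : ∀ᶠ ρ in nhdsWithin (2 * r) (Set.Iio (2 * r)), r < ρ := (lt_mem_nhds (by linarith)).filter_mono nhdsWithin_le_nhds
    filter_upwards [h2, self_mem_nhdsWithin] with ρ a1 a2
    exact key ρ a1 a2
  refine h1.trans (le_of_eq ?_)
  have h2 : 2 * r - r = r := by ring
  rw [h2, pow_succ]
  field_simp

end Pool.Agent.G3.R
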