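import Mathlib

/-!
# G3 R DDefs: divided differences, definitions

`dd m σ f = f [σ 0, …, σ m]`, the divided difference of order `m` of the function `f` of a real variable, for the distinct nodes `σ 0, …, σ m`.
-/

set_option autoImplicit false

open Finset

namespace Pool.Agent.G3.R

/-- the weight of the node `σ i` in the divided difference with the nodes `σ 0, …, σ m` -/
noncomputable def dw (m : ℕ) (σ : ℕ → ℝ) (i : ℕ) : ℝ := ∏ j ∈ (range (m + 1)).erase i, (σ i - σ j)⁻¹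

/-- the divided difference `f [σ 0, …, σ m]` -/
noncomputable def dd {E : Type*} [AddCommGroup E] [Module ℂ E] (m : ℕ) (σ : ℕ → ℝ) (f : ℝ → E) : E :=
  ∑ i ∈ range (m + 1), ((dw m σ i : ℝ) : ℂ) • f (σ i)

/-- distinct nodes `σ 0, …, σ m` of absolute value at most `r` -/
structure Nod (m : ℕ) (σ : ℕ → ℝ) (r : ℝ) : Prop where
  inj : ∀ i ≤ m, ∀ j ≤ m, σ i = σ j → i = j
  le : ∀ i ≤ m, |σ i| ≤ r

theorem Nod.mono {m m' : ℕ} {σ : ℕ → ℝ} {r r' : ℝ} (h : Nod m σ r) (hm : m' ≤ m) (hr : r ≤ r') : Nod m' σ r' :=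
  ⟨fun i hi j hj => h.inj i (hi.trans hm) j (hj.trans hm), fun i hi => (h.le i (hi.trans hm)).trans hr⟩

/-- the Newton polynomial of degree `m` which interpolates `f` at `σ 0, …, σ m` -/
noncomputable def np {E : Type*} [AddCommGroup E] [Module ℂ E] (m : ℕ) (σ : ℕ → ℝ) (f : ℝ → E) (ζ : ℂ) : E :=
  ∑ j ∈ range (m + 1), (∏ i ∈ range j, (ζ - (σ i : ℂ))) • dd j σ f

end Pool.Agent.G3.R
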