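import Pool.Agent.G3.Defs
import Pool.Agent.G3.C.LemmaU
import Pool.Agent.H36.BP.WdA

/-!
# G3 R DT: the derivative is bounded by the characteristic function

Plan.  Let `v` be the component of `F' 0` orthogonal to `F 0` (`v = F' 0 - (⟨F 0, F' 0⟩ / ‖F 0‖²) F 0`), `fs (F 0) (F' 0) = ‖v‖ / ‖F 0‖` (`wd`).  If `v = 0` trivial.  `g z = ⟨v, F z⟩ / ‖v‖` is holomorphic,
`g 0 = 0`, `g' 0 = ‖v‖`, `|g z| ≤ ‖F z‖`; `g z / z` (`dslope g 0`) is holomorphic with the value `‖v‖` at `0`, so `log ‖v‖ ≤ avg log |g z / z| ≤ avg log ‖F‖ - log r` (`log_norm_le_avg` of `G3/C/LemmaU` with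
the continuous majorant `log ‖F‖ - log r`).
-/

set_option autoImplicit false

open Topology Filter Metric

namespace Pool.Agent.G3

open Pool.Agent.H36.BP (EN fs wd Sub)
open Pool.Agent.H14.PP (IsCone CurveAt Tan)
open Pool.Agent.H62.EF (MN pr)
open Pool.Agent.AD (Vd Chart Charts)
open Pool.Agent.TG (TMap Lat Geo Gd)

theorem fs_le_TT {N : ℕ} {F : ℂ → EN N} {R r : ℝ} (hr : 0 < r) (hR : r < R) (hF : DifferentiableOn ℂ F (ball 0 R)) (h0 : ∀ z ∈ ball (0 : ℂ) R, F z ≠ 0) :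
    fs (F 0) (deriv F 0) ≤ Real.exp (TT F 0 r) / r := by
  have hR0 : 0 < R := hr.trans hR
  have h00 : (0 : ℂ) ∈ ball (0 : ℂ) R := mem_ball_self hR0
  have hx : F 0 ≠ 0 := h0 0 h00
  have hnx : 0 < ‖F 0‖ := norm_pos_iff.mpr hx
  set b : ℂ := inner ℂ (F 0) (deriv F 0) / ((‖F 0‖ : ℝ) : ℂ) ^ 2 with hb
  set v : EN N := deriv F 0 - b • F 0 with hv
  have hxx : (inner ℂ (F 0) (F 0) : ℂ) = ((‖F 0‖ : ℝ) : ℂ) ^ 2 := inner_self_eq_norm_sq_to_K (F 0)
  have hnxC : ((‖F 0‖ : ℝ) : ℂ) ^ 2 ≠ 0 := pow_ne_zero 2 (Complex.ofReal_ne_zero.mpr hnx.ne')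
  have hxv : (inner ℂ (F 0) v : ℂ) = 0 := by
    rw [hv, inner_sub_right, inner_smul_right, hxx, hb, div_mul_cancel₀ _ hnxC, sub_self]
  have hvx : (inner ℂ v (F 0) : ℂ) = 0 := by
    rw [← inner_conj_symm, hxv, map_zero]
  have hwd : wd (F 0) (deriv F 0) = ‖F 0‖ * ‖v‖ := by
    have h1 := Pool.Agent.H36.BP.wd_inv (F 0) v 1 b
    have h2 : (1 : ℂ) • v + b • F 0 = deriv F 0 := by rw [hv]; simp
    rw [h2, one_smul, norm_one, one_pow, one_mul] at h1
    rw [h1]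
    have h3 := Pool.Agent.H36.BP.wd_sq (F 0) v
    rw [hxv, norm_zero] at h3
    have h4 : wd (F 0) v ^ 2 = (‖F 0‖ * ‖v‖) ^ 2 := by rw [h3]; ring
    exact (pow_left_inj₀ (Pool.Agent.H36.BP.wd_nonneg _ _) (by positivity) two_ne_zero).mp h4
  have hfs : fs (F 0) (deriv F 0) = ‖v‖ / ‖F 0‖ := by
    rw [fs, hwd]
    field_simp
  rw [hfs]
  by_cases hv0 : v = 0
  · rw [hv0, norm_zero, zero_div]
    positivity
  have hnv : 0 < ‖v‖ := norm_pos_iff.mpr hv0
  set g : ℂ → ℂ := fun z => inner ℂ (((‖v‖⁻¹ : ℝ) : ℂ) • v) (F z) with hg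
  have hunit : ‖((‖v‖⁻¹ : ℝ) : ℂ) • v‖ = 1 := by
    rw [norm_smul, Complex.norm_real, Real.norm_eq_abs, abs_of_pos (inv_pos.mpr hnv), inv_mul_cancel₀ hnv.ne']
  have hgd : DifferentiableOn ℂ g (ball 0 R) := by
    have := (innerSL ℂ (((‖v‖⁻¹ : ℝ) : ℂ) • v)).differentiable.comp_differentiableOn hF
    exact this
  have hg0 : g 0 = 0 := by
    simp only [hg, inner_smul_left, hvx, mul_zero]
  have hg1 : deriv g 0 = (‖v‖ : ℂ) := by
    have hF0 : HasDerivAt F (deriv F 0) 0 := (hF.differentiableAt (isOpen_ball.mem_nhds h00)).hasDerivAt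
    have h1 : HasDerivAt g (innerSL ℂ (((‖v‖⁻¹ : ℝ) : ℂ) • v) (deriv F 0)) 0 :=
      (innerSL ℂ (((‖v‖⁻¹ : ℝ) : ℂ) • v)).hasFDerivAt.comp_hasDerivAt 0 hF0
    rw [h1.deriv, innerSL_apply_apply]
    have h2 : deriv F 0 = v + b • F 0 := by rw [hv]; simp
    rw [h2, inner_add_right, inner_smul_right, inner_smul_left, inner_smul_left, hvx, mul_zero, mul_zero, add_zero,
      inner_self_eq_norm_sq_to_K, Complex.conj_ofReal]
    have hvC : ((‖v‖ : ℝ) : ℂ) ≠ 0 := Complex.ofReal_ne_zero.mpr hnv.ne'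
    push_cast
    field_simp
    rfl
  have hgb : ∀ z, ‖g z‖ ≤ ‖F z‖ := by
    intro z
    have := norm_inner_le_norm (𝕜 := ℂ) (((‖v‖⁻¹ : ℝ) : ℂ) • v) (F z)
    rwa [hunit, one_mul] at this
  have hball : closedBall (0 : ℂ) r ⊆ ball 0 R := closedBall_subset_ball hR
  have hPd : DifferentiableOn ℂ (dslope g 0) (ball 0 R) :=
    (Complex.differentiableOn_dslope (isOpen_ball.mem_nhds h00)).mpr hgd
  have hPa : AnalyticOnNhd ℂ (dslope g 0) (closedBall 0 r) := (hPd.analyticOnNhd isOpen_ball).mono hball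
  have hP0 : dslope g 0 0 = (‖v‖ : ℂ) := by rw [dslope_same, hg1]
  have hPne : dslope g 0 0 ≠ 0 := by
    rw [hP0]
    exact Complex.ofReal_ne_zero.mpr hnv.ne'
  have hsph : sphere (0 : ℂ) r ⊆ ball 0 R := sphere_subset_closedBall.trans hball
  have hcF : ContinuousOn (fun z => Real.log ‖F z‖) (sphere 0 r) := by
    apply ContinuousOn.log ((hF.continuousOn.mono hsph).norm)
    intro z hz
    exact (norm_pos_iff.mpr (h0 z (hsph hz))).ne'
  have hcG : ContinuousOn (fun z => Real.log ‖F z‖ - Real.log r) (sphere 0 r) := hcF.sub continuousOn_const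
  have hle : ∀ z ∈ sphere (0 : ℂ) r, ‖dslope g 0 z‖ ≤ Real.exp (Real.log ‖F z‖ - Real.log r) := by
    intro z hz
    have hzr : ‖z‖ = r := by simpa using hz
    have hz0 : z ≠ 0 := by
      intro h
      rw [h, norm_zero] at hzr
      exact hr.ne hzr
    rw [dslope_of_ne _ hz0, slope_def_field, hg0, sub_zero, sub_zero, norm_div, hzr, Real.exp_sub, Real.exp_log hr,
      Real.exp_log (norm_pos_iff.mpr (h0 z (hsph hz)))]
    exact div_le_div_of_nonneg_right (hgb z) hr.le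
  have hkey := Pool.Agent.G3.C.log_norm_le_avg hr hPa hPne hcG hle
  have har : |r| = r := abs_of_pos hr
  have hci : CircleIntegrable (fun z => Real.log ‖F z‖) 0 r := by
    apply ContinuousOn.circleIntegrable hr.le hcF
  have hav : Real.circleAverage (fun z => Real.log ‖F z‖ - Real.log r) 0 r =
      Real.circleAverage (fun z => Real.log ‖F z‖) 0 r - Real.log r := by
    rw [Real.circleAverage_fun_sub hci (circleIntegrable_const _ _ _), Real.circleAverage_const]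
  rw [hav, hP0, Complex.norm_real, Real.norm_eq_abs, abs_of_pos hnv] at hkey
  have hTT : Real.log (‖v‖ / ‖F 0‖) ≤ TT F 0 r - Real.log r := by
    rw [Real.log_div hnv.ne' hnx.ne', TT]
    linarith
  calc ‖v‖ / ‖F 0‖ = Real.exp (Real.log (‖v‖ / ‖F 0‖)) := (Real.exp_log (by positivity)).symm
    _ ≤ Real.exp (TT F 0 r - Real.log r) := Real.exp_le_exp.mpr hTT
    _ = Real.exp (TT F 0 r) / r := by rw [Real.exp_sub, Real.exp_log hr]

end Pool.Agent.G3
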