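import Pool.Agent.G3.R.HolL
import Pool.Agent.G3.A.GeoC

/-!
# G3 R HolD: sheets over the whole space are complex differentiable on complex lines off `D`

`sheet_dif` (see `G3/R/Hol`).  `nv_lip`: the charts `nv v` are Lipschitz near `pr v`, uniformly in `v`.  `dq_hol`: difference quotients of holomorphic functions converge uniformly.
`dq_bd`: difference quotients of `Ψ (nv v (φ (y₀ + x a)))` are bounded by `C exp (-c |x|²)` (`exists_prm_unif`, `sheet_lip`).  `dq_lim`: `comb_lim` for three points.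
-/

set_option autoImplicit false

open Topology Filter Metric

namespace Pool.Agent.G3.R

open Pool.Agent.H36.BP (EN fs wd)
open Pool.Agent.H14.PP (IsCone CurveAt Tan)
open Pool.Agent.H62.EF (MN pr)
open Pool.Agent.AD (Vd Chart Charts IsGerm)
open Pool.Agent.TG
open Pool.Agent.G3.C (Gc HP nv nd nv_pr)
open Pool.Agent.G3.A

variable {N k : ℕ} {X : Set (EN N)} {Λ : AddSubgroup (Vd (k + 1))} {u : EN N → Vd (k + 1)} {D B Bad : Set (Vd (k + 1))} {a b : Vd (k + 1)}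
  {SS : Set (Vd (k + 1) → MN N)} {J : ℕ} {α : Fin J → VForm X Λ u} {c₀ C₀ ρ δ : ℝ}

/-! ### the charts `nv v` are Lipschitz -/

/-- the matrix `m` applied to `v` -/
private noncomputable def mv (v : EN N) (m : MN N) : EN N := WithLp.toLp 2 fun i => ∑ j, m (i, j) * v j

private theorem nv_eq (v : EN N) (m : MN N) : nv v m = (nd v m)⁻¹ • mv v m := rfl

private theorem mv_sub (v : EN N) (m m' : MN N) : mv v (m - m') = mv v m - mv v m' := by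
  ext i
  simp only [mv, PiLp.sub_apply, sub_mul, Finset.sum_sub_distrib]

private theorem mv_norm (v : EN N) (m : MN N) : ‖mv v m‖ ≤ ‖m‖ * ‖v‖ := by
  have h1 : ‖mv v m‖ ^ 2 ≤ (‖m‖ * ‖v‖) ^ 2 := by
    rw [EuclideanSpace.norm_sq_eq, mul_pow, EuclideanSpace.norm_sq_eq m, EuclideanSpace.norm_sq_eq v, Fintype.sum_prod_type, Finset.sum_mul]
    refine Finset.sum_le_sum fun i _ => ?_
    have h2 : ‖(mv v m) i‖ ≤ ∑ j, ‖m (i, j)‖ * ‖v j‖ := by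
      show ‖∑ j, m (i, j) * v j‖ ≤ _
      refine (norm_sum_le _ _).trans (le_of_eq ?_)
      exact Finset.sum_congr rfl fun j _ => norm_mul _ _
    calc ‖(mv v m) i‖ ^ 2 ≤ (∑ j, ‖m (i, j)‖ * ‖v j‖) ^ 2 := pow_le_pow_left₀ (norm_nonneg _) h2 2
      _ ≤ (∑ j, ‖m (i, j)‖ ^ 2) * ∑ j, ‖v j‖ ^ 2 := Finset.sum_mul_sq_le_sq_mul_sq _ _ _
  exact (pow_le_pow_iff_left₀ (norm_nonneg _) (by positivity) two_ne_zero).1 h1

private theorem nd_sub (v : EN N) (m m' : MN N) : nd v (m - m') = nd v m - nd v m' := by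
  simp only [nd, PiLp.sub_apply, mul_sub, sub_mul, Finset.sum_sub_distrib]

private theorem nd_eq (v : EN N) (m : MN N) : nd v m = inner ℂ v (mv v m) := by
  rw [PiLp.inner_apply]
  unfold nd mv
  refine Finset.sum_congr rfl fun i _ => ?_
  rw [RCLike.inner_apply, Finset.sum_mul]
  exact Finset.sum_congr rfl fun j _ => by ring

private theorem nd_norm (v : EN N) (m : MN N) : ‖nd v m‖ ≤ ‖v‖ * (‖m‖ * ‖v‖) := by
  rw [nd_eq]
  exact (norm_inner_le_norm _ _).trans (mul_le_mul_of_nonneg_left (mv_norm v m) (norm_nonneg _))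

private theorem nd_self {v : EN N} (hv : ‖v‖ = 1) : nd v (pr v) = 1 := by
  have hv0 : v ≠ 0 := by
    rintro rfl
    simp at hv
  have hi : inner ℂ v v = (1 : ℂ) := by
    rw [inner_self_eq_norm_sq_to_K, hv]
    simp
  have h1 : nv v (pr v) = v := nv_self hv
  have h2 : nd v (pr v) ≠ 0 := (Pool.Agent.G3.C.nd_pr_ne hv0).2 (by rw [hi]; exact one_ne_zero)
  have h3 : inner ℂ v (nv v (pr v)) = (1 : ℂ) := by rw [h1, hi]
  rw [nv_eq, inner_smul_right, ← nd_eq] at h3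
  rw [inv_mul_cancel₀ h2] at h3
  have h4 : mv v (pr v) = v := by
    ext i
    show ∑ j, pr v (i, j) * v j = v i
    have h5 : ∀ j, pr v (i, j) * v j = v i * ((starRingEnd ℂ) (v j) * v j) := by
      intro j
      simp only [pr, hv, one_pow, Complex.ofReal_one, div_one]
      ring
    rw [Finset.sum_congr rfl fun j _ => h5 j, ← Finset.mul_sum]
    have h6 : ∑ j, (starRingEnd ℂ) (v j) * v j = (1 : ℂ) := by
      rw [← hi, PiLp.inner_apply]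
      refine Finset.sum_congr rfl fun j _ => ?_
      rw [RCLike.inner_apply]
      ring
    rw [h6, mul_one]
  rw [nd_eq, h4, hi]

/-- the charts `nv v` are Lipschitz near `pr v`, uniformly in `v` -/
theorem nv_lip {v : EN N} (hv : ‖v‖ = 1) {m m' : MN N} (hm : dist m (pr v) ≤ 1 / 2) (hm' : dist m' (pr v) ≤ 1 / 2) : ‖nv v m - nv v m'‖ ≤ 10 * dist m m' := by
  have hv0 : v ≠ 0 := by
    rintro rfl
    simp at hv
  have hp : ‖pr v‖ = 1 := Pool.Agent.H62.EF.norm_pr hv0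
  have hnd : ∀ n : MN N, dist n (pr v) ≤ 1 / 2 → 1 / 2 ≤ ‖nd v n‖ := by
    intro n hn
    have h1 : ‖nd v (n - pr v)‖ ≤ 1 / 2 := by
      have h2 := nd_norm v (n - pr v)
      rw [hv, one_mul, mul_one, ← dist_eq_norm] at h2
      exact h2.trans hn
    rw [nd_sub, nd_self hv] at h1
    have h3 := norm_sub_norm_le (1 : ℂ) (1 - nd v n)
    rw [sub_sub_cancel, norm_one, norm_sub_rev] at h3
    linarith
  have h1 := hnd m hm
  have h2 := hnd m' hm'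
  have h10 : nd v m ≠ 0 := by
    intro h
    rw [h, norm_zero] at h1
    linarith
  have h20 : nd v m' ≠ 0 := by
    intro h
    rw [h, norm_zero] at h2
    linarith
  have e : nv v m - nv v m' = (nd v m)⁻¹ • mv v (m - m') + ((nd v m)⁻¹ * (nd v m')⁻¹ * nd v (m' - m)) • mv v m' := by
    rw [nv_eq, nv_eq, mv_sub, nd_sub]
    have h3 : (nd v m)⁻¹ * (nd v m')⁻¹ * (nd v m' - nd v m) = (nd v m)⁻¹ - (nd v m')⁻¹ := by
      field_simp
    rw [h3, smul_sub, sub_smul]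
    abel
  have i1 : ‖(nd v m)⁻¹‖ ≤ 2 := by
    rw [norm_inv]
    have := inv_anti₀ (by norm_num) h1
    linarith [this]
  have i2 : ‖(nd v m')⁻¹‖ ≤ 2 := by
    rw [norm_inv]
    have := inv_anti₀ (by norm_num) h2
    linarith [this]
  have i3 : ‖mv v (m - m')‖ ≤ dist m m' := by
    have := mv_norm v (m - m')
    rwa [hv, mul_one, ← dist_eq_norm] at this
  have i4 : ‖nd v (m' - m)‖ ≤ dist m m' := by
    have := nd_norm v (m' - m)
    rwa [hv, one_mul, mul_one, ← dist_eq_norm, dist_comm] at this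
  have i5 : ‖mv v m'‖ ≤ 2 := by
    have h3 := mv_norm v m'
    rw [hv, mul_one] at h3
    have h4 : ‖m'‖ ≤ ‖pr v‖ + dist m' (pr v) := by
      rw [dist_eq_norm]
      have : m' = pr v + (m' - pr v) := by abel
      conv_lhs => rw [this]
      exact norm_add_le _ _
    linarith
  have hd : 0 ≤ dist m m' := dist_nonneg
  rw [e]
  refine (norm_add_le _ _).trans ?_
  rw [norm_smul, norm_smul, norm_mul, norm_mul]
  have j1 : ‖(nd v m)⁻¹‖ * ‖mv v (m - m')‖ ≤ 2 * dist m m' := mul_le_mul i1 i3 (norm_nonneg _) (by norm_num)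
  have j2 : ‖(nd v m)⁻¹‖ * ‖(nd v m')⁻¹‖ ≤ 2 * 2 := mul_le_mul i1 i2 (norm_nonneg _) (by norm_num)
  have j3 : ‖(nd v m)⁻¹‖ * ‖(nd v m')⁻¹‖ * ‖nd v (m' - m)‖ ≤ 2 * 2 * dist m m' := mul_le_mul j2 i4 (norm_nonneg _) (by norm_num)
  have j4 : ‖(nd v m)⁻¹‖ * ‖(nd v m')⁻¹‖ * ‖nd v (m' - m)‖ * ‖mv v m'‖ ≤ 2 * 2 * dist m m' * 2 := mul_le_mul j3 i5 (norm_nonneg _) (by positivity)
  linarith

/-! ### difference quotients of holomorphic functions -/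

private theorem dq_hol {h : Vd (k + 1) → ℂ} {p : Vd (k + 1)} (hh : AnalyticAt ℂ h p) (w : Vd (k + 1)) : ∃ (τ C : ℝ) (L : Vd (k + 1) → ℂ), 0 < τ ∧ 0 ≤ C ∧
    ∀ q : Vd (k + 1), ‖q - p‖ < τ → ∀ ζ : ℂ, ‖ζ • w‖ < τ → ‖h (q + ζ • w) - h q - ζ * L q‖ ≤ C * ‖ζ • w‖ * ‖ζ • w‖ := by
  obtain ⟨K, s, hs, hK⟩ := hh.fderiv.hasStrictFDerivAt.exists_lipschitzOnWith
  obtain ⟨τ, hτ, hball⟩ := Metric.mem_nhds_iff.1 (Filter.inter_mem hs hh.eventually_analyticAt)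
  refine ⟨τ / 2, K, fun q => fderiv ℂ h q w, by positivity, K.2, fun q hq ζ hζ => ?_⟩
  have hsub : closedBall q ‖ζ • w‖ ⊆ ball p τ := by
    intro x hx
    rw [mem_closedBall] at hx
    rw [mem_ball]
    have h1 := dist_triangle x q p
    rw [dist_eq_norm q p] at h1
    linarith
  have hqs : q ∈ closedBall q ‖ζ • w‖ := mem_closedBall_self (norm_nonneg _)
  have hy : q + ζ • w ∈ closedBall q ‖ζ • w‖ := by
    rw [mem_closedBall, dist_eq_norm, add_sub_cancel_left]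
  have h1 := Convex.norm_image_sub_le_of_norm_fderiv_le' (𝕜 := ℂ) (f := h) (s := closedBall q ‖ζ • w‖) (C := K * ‖ζ • w‖) (φ := fderiv ℂ h q) (x := q) (y := q + ζ • w)
    (fun x hx => (hball (hsub hx)).2.differentiableAt) (fun x hx => by
      have h2 := hK.dist_le_mul x (hball (hsub hx)).1 q (hball (hsub hqs)).1
      rw [dist_eq_norm] at h2
      refine h2.trans (mul_le_mul_of_nonneg_left ?_ K.2)
      exact hx) (convex_closedBall _ _) hqs hy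
  rw [add_sub_cancel_left, map_smul, smul_eq_mul] at h1
  exact h1

/-! ### lifts of the values of a sheet -/

private theorem unit_lift (S : DA X Λ u D B Bad a α c₀ C₀ ρ δ) (hS : Shs X Λ u D a b ⊤ SS) {φ : Vd (k + 1) → MN N} (hφ : φ ∈ SS) (y : Vd (k + 1)) :
    ∃ v ∈ X, ‖v‖ = 1 ∧ pr v = φ y ∧ u v - y ∈ Λ := by
  obtain ⟨x, hx, hxm, hu⟩ := hS.fb hφ (y := y) (show y - b ∈ (⊤ : Submodule ℝ (Vd (k + 1))) from Submodule.mem_top)
  obtain ⟨c, hc, h1, h2⟩ := exists_unit S.geo.cone hx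
  exact ⟨c • x, h1, by rwa [mem_sphere_zero_iff_norm] at h2, by rw [Pool.Agent.H62.EF.pr_smul x hc, hxm], smul_mem_lat S.geo.tor hx hu hc⟩

private theorem lift_of (S : DA X Λ u D B Bad a α c₀ C₀ ρ δ) (hS : Shs X Λ u D a b ⊤ SS) {φ : Vd (k + 1) → MN N} (hφ : φ ∈ SS) {y : Vd (k + 1)} {v : EN N} (hv : ‖v‖ = 1)
    (hv' : pr v = φ y) : v ∈ X ∧ u v - y ∈ Λ := by
  obtain ⟨x, hx, hx1, hxm, hu⟩ := unit_lift S hS hφ y
  have hv0 : v ≠ 0 := by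
    rintro rfl
    simp at hv
  obtain ⟨c, hc, hcx⟩ := (Pool.Agent.H62.EF.pr_eq_iff hv0 (ne_zero S.geo.cone hx)).1 (hv'.trans hxm.symm)
  rw [hcx]
  exact ⟨S.geo.cone.smul_mem x hx c hc, smul_mem_lat S.geo.tor hx hu hc⟩

private theorem cont_at (hS : Shs X Λ u D a b ⊤ SS) {φ : Vd (k + 1) → MN N} (hφ : φ ∈ SS) {y₀ : Vd (k + 1)} (h0 : y₀ ∉ D) : ContinuousAt φ y₀ := by
  have hT : Tb b (⊤ : Submodule ℝ (Vd (k + 1))) = Set.univ := Set.eq_univ_of_forall fun y => show y - b ∈ (⊤ : Submodule ℝ (Vd (k + 1))) from Submodule.mem_top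
  have h1 := (hS.sht φ hφ).cont y₀ (by rw [hT]; exact Set.mem_univ _) h0
  rwa [hT, continuousWithinAt_univ] at h1

private theorem lift_nv (S : DA X Λ u D B Bad a α c₀ C₀ ρ δ) (hS : Shs X Λ u D a b ⊤ SS) {φ : Vd (k + 1) → MN N} (hφ : φ ∈ SS) {y₀ : Vd (k + 1)} (h0 : y₀ ∉ D) {v : EN N}
    (hv : ‖v‖ = 1) (hv' : pr v = φ y₀) {r' : ℝ} (hr' : 0 < r') : ∀ᶠ y in 𝓝 y₀, nv v (φ y) ∈ X ∧ nv v (φ y) ∈ ball v r' ∧ u (nv v (φ y)) - y ∈ Λ ∧
      inner ℂ v (nv v (φ y)) = (1 : ℂ) := by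
  obtain ⟨ε₁, hε₁, h1⟩ := nv_near (N := N) hr'
  obtain ⟨ε₂, hε₂, h2⟩ := inner_near (N := N) (η := 1 / 2) (by norm_num)
  have hc := cont_at hS hφ h0
  have h3 : ∀ᶠ y in 𝓝 y₀, dist (φ y) (φ y₀) < min ε₁ ε₂ := hc.eventually (ball_mem_nhds _ (lt_min hε₁ hε₂))
  filter_upwards [h3] with y hy
  rw [← hv'] at hy
  obtain ⟨x, hx, hx1, hxm, hu⟩ := unit_lift S hS hφ y
  have hi := (h2 v hv x (ne_zero S.geo.cone hx) (by rw [hxm]; exact hy.le.trans (min_le_right _ _))).1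
  have e : nv v (φ y) = (inner ℂ v x : ℂ)⁻¹ • x := by rw [← hxm, nv_pr hi]
  refine ⟨?_, ?_, ?_, ?_⟩
  · rw [e]
    exact S.geo.cone.smul_mem x hx _ (inv_ne_zero hi)
  · rw [mem_ball, dist_eq_norm]
    exact h1 v hv _ (hy.le.trans (min_le_left _ _))
  · rw [e]
    exact smul_mem_lat S.geo.tor hx hu (inv_ne_zero hi)
  · rw [e, inner_smul_right, inv_mul_cancel₀ hi]

/-! ### the bound of the difference quotients -/

private theorem dq_bd (S : DA X Λ u D B Bad a α c₀ C₀ ρ δ) (hS : Shs X Λ u D a b ⊤ SS) {φ : Vd (k + 1) → MN N} (hφ : φ ∈ SS) (j : Fin J) (w y₀ : Vd (k + 1)) {δ' : ℝ} (hδ' : 0 < δ') :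
    ∃ C c' : ℝ, 0 < c' ∧ ∀ z₀ : ℂ, y₀ + z₀ • a ∈ Gd D δ' → ∃ (Ψ : EN N → ℂ) (v : EN N) (R t : ℝ), Prm (α j) (y₀ + z₀ • a) v R Ψ ∧ pr v = φ (y₀ + z₀ • a) ∧ 0 < t ∧
      ∃ s : ℝ, 0 < s ∧ ∀ ζ : ℂ, ζ ≠ 0 → ‖ζ‖ < s → ∀ x ∈ ball z₀ t,
        ‖ζ⁻¹ * (Ψ (nv v (φ (y₀ + ζ • w + x • a))) - Ψ (nv v (φ (y₀ + x • a))))‖ ≤ C * Real.exp (-(c' * ‖x‖ ^ 2)) := by
  obtain ⟨R, M, c, hR, hM, hc, hprm⟩ := exists_prm_unif S.geo (S.dec j) S.c_pos S.C_pos hδ'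
  obtain ⟨rL, CL, hrL, hCL, hlip⟩ := sheet_lip S hS (δ' := δ' / 2) (by linarith)
  obtain ⟨ε, hε, hnear⟩ := nv_near (N := N) (η := R / 2) (by linarith)
  have ha := S.lg.norm
  -- `τ`: all points within `τ`
  set τ : ℝ := min (min (rL / 2) (δ' / 4)) (min (min ε (1 / 2) / (2 * CL)) (1 / 2)) with hτ
  have hτ0 : 0 < τ := by
    refine lt_min (lt_min (by linarith) (by linarith)) (lt_min ?_ (by norm_num))
    have : 0 < min ε (1 / 2 : ℝ) := lt_min hε (by norm_num)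
    positivity
  have τ1 : τ ≤ rL / 2 := (min_le_left _ _).trans (min_le_left _ _)
  have τ2 : τ ≤ δ' / 4 := (min_le_left _ _).trans (min_le_right _ _)
  have τ3 : τ ≤ min ε (1 / 2) / (2 * CL) := (min_le_right _ _).trans (min_le_left _ _)
  have τ4 : τ ≤ 1 / 2 := (min_le_right _ _).trans (min_le_right _ _)
  have τ5 : CL * (2 * τ) ≤ min ε (1 / 2) := by
    have h1 : 0 < 2 * CL := by linarith
    rw [le_div_iff₀ h1] at τ3
    linarith
  refine ⟨4 * M / R * (10 * (CL * ‖w‖)) * Real.exp (c * (1 + ‖y₀‖) ^ 2), c / 2, by linarith, fun z₀ hz₀ => ?_⟩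
  obtain ⟨v, hvX, hv, hvm, huv⟩ := unit_lift S hS hφ (y₀ + z₀ • a)
  obtain ⟨Ψ, hΨ, hΨb⟩ := hprm (y₀ + z₀ • a) hz₀ v hvX hv huv
  refine ⟨Ψ, v, R, τ, hΨ, hvm, hτ0, τ / (‖w‖ + 1), by positivity, fun ζ hζ0 hζ x hx => ?_⟩
  have hζw : ‖ζ • w‖ < τ := by
    rw [norm_smul]
    rw [lt_div_iff₀ (by positivity)] at hζ
    nlinarith [norm_nonneg ζ, norm_nonneg w]
  rw [mem_ball, dist_eq_norm] at hx
  have hxa : ‖(x - z₀) • a‖ < τ := by rwa [norm_smul, ha, mul_one]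
  -- the points of the fibres
  have hgd : y₀ + z₀ • a ∈ Gd D (δ' / 2) := gd_mono (by linarith) hz₀
  have hgx : y₀ + x • a ∈ Gd D (δ' / 2) := by
    have e : y₀ + x • a - (y₀ + z₀ • a) = (x - z₀) • a := by rw [sub_smul]; abel
    refine gd_mono ?_ (gd_near (r := τ) hz₀ (by rw [e]; exact hxa.le))
    linarith
  have d0 : dist (φ (y₀ + x • a)) (pr v) ≤ min ε (1 / 2) := by
    rw [hvm]
    have e : y₀ + x • a - (y₀ + z₀ • a) = (x - z₀) • a := by rw [sub_smul]; abel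
    have h1 := hlip φ hφ _ hgd (y₀ + x • a) (by rw [e]; linarith)
    rw [e] at h1
    refine h1.trans (le_trans ?_ τ5)
    exact mul_le_mul_of_nonneg_left (by linarith) hCL.le
  have d1 : dist (φ (y₀ + ζ • w + x • a)) (pr v) ≤ min ε (1 / 2) := by
    rw [hvm]
    have e : y₀ + ζ • w + x • a - (y₀ + z₀ • a) = ζ • w + (x - z₀) • a := by rw [sub_smul]; abel
    have h2 : ‖ζ • w + (x - z₀) • a‖ ≤ 2 * τ := by
      refine (norm_add_le _ _).trans ?_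
      linarith
    have h1 := hlip φ hφ _ hgd (y₀ + ζ • w + x • a) (by rw [e]; linarith)
    rw [e] at h1
    refine h1.trans (le_trans ?_ τ5)
    exact mul_le_mul_of_nonneg_left h2 hCL.le
  have d2 : dist (φ (y₀ + ζ • w + x • a)) (φ (y₀ + x • a)) ≤ CL * ‖ζ • w‖ := by
    have e : y₀ + ζ • w + x • a - (y₀ + x • a) = ζ • w := by abel
    have h1 := hlip φ hφ _ hgx (y₀ + ζ • w + x • a) (by rw [e]; linarith)
    rwa [e] at h1
  have n0 : nv v (φ (y₀ + x • a)) ∈ ball v (R / 2) := by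
    rw [mem_ball, dist_eq_norm]
    exact hnear v hv _ (d0.trans (min_le_left _ _))
  have n1 : nv v (φ (y₀ + ζ • w + x • a)) ∈ ball v (R / 2) := by
    rw [mem_ball, dist_eq_norm]
    exact hnear v hv _ (d1.trans (min_le_left _ _))
  have l1 := lip_comp hR hΨ.diff hΨb n1 n0
  have l2 := nv_lip hv (d1.trans (min_le_right _ _)) (d0.trans (min_le_right _ _))
  have hζ1 : 0 < ‖ζ‖ := norm_pos_iff.2 hζ0
  -- the weight
  have hy1 : ‖x‖ ≤ ‖y₀ + z₀ • a‖ + (1 + ‖y₀‖) := by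
    have e : x • a = (y₀ + z₀ • a) + ((x - z₀) • a - y₀) := by rw [sub_smul]; abel
    have h1 : ‖x • a‖ = ‖x‖ := by rw [norm_smul, ha, mul_one]
    rw [← h1]
    conv_lhs => rw [e]
    refine (norm_add_le _ _).trans ?_
    have h2 := norm_sub_le ((x - z₀) • a) y₀
    linarith
  have hexp : Real.exp (-(c * ‖y₀ + z₀ • a‖ ^ 2)) ≤ Real.exp (c * (1 + ‖y₀‖) ^ 2) * Real.exp (-(c / 2 * ‖x‖ ^ 2)) := by
    rw [← Real.exp_add]
    refine Real.exp_le_exp.2 ?_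
    have h1 : ‖x‖ ^ 2 ≤ 2 * ‖y₀ + z₀ • a‖ ^ 2 + 2 * (1 + ‖y₀‖) ^ 2 := by
      have h2 : ‖x‖ ^ 2 ≤ (‖y₀ + z₀ • a‖ + (1 + ‖y₀‖)) ^ 2 := pow_le_pow_left₀ (norm_nonneg _) hy1 2
      nlinarith [sq_nonneg (‖y₀ + z₀ • a‖ - (1 + ‖y₀‖))]
    nlinarith
  have hMR : 0 ≤ 4 * (M * Real.exp (-(c * ‖y₀ + z₀ • a‖ ^ 2))) / R := by positivity
  have l3 : ‖Ψ (nv v (φ (y₀ + ζ • w + x • a))) - Ψ (nv v (φ (y₀ + x • a)))‖ ≤ 4 * (M * Real.exp (-(c * ‖y₀ + z₀ • a‖ ^ 2))) / R * (10 * (CL * (‖ζ‖ * ‖w‖))) := by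
    refine l1.trans (mul_le_mul_of_nonneg_left (l2.trans ?_) hMR)
    rw [← norm_smul]
    exact mul_le_mul_of_nonneg_left d2 (by norm_num)
  rw [norm_mul, norm_inv]
  calc ‖ζ‖⁻¹ * ‖Ψ (nv v (φ (y₀ + ζ • w + x • a))) - Ψ (nv v (φ (y₀ + x • a)))‖
      ≤ ‖ζ‖⁻¹ * (4 * (M * Real.exp (-(c * ‖y₀ + z₀ • a‖ ^ 2))) / R * (10 * (CL * (‖ζ‖ * ‖w‖)))) := mul_le_mul_of_nonneg_left l3 (by positivity)
    _ = 4 * M / R * (10 * (CL * ‖w‖)) * Real.exp (-(c * ‖y₀ + z₀ • a‖ ^ 2)) := by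
      field_simp
    _ ≤ 4 * M / R * (10 * (CL * ‖w‖)) * (Real.exp (c * (1 + ‖y₀‖) ^ 2) * Real.exp (-(c / 2 * ‖x‖ ^ 2))) := by
      refine mul_le_mul_of_nonneg_left hexp ?_
      positivity
    _ = _ := by ring

/-! ### the difference quotients converge -/

private theorem dq_lim (S : DA X Λ u D B Bad a α c₀ C₀ ρ δ) (hS : Shs X Λ u D a b ⊤ SS) {φ : Vd (k + 1) → MN N} (hφ : φ ∈ SS) {y₀ : Vd (k + 1)} (h0 : y₀ ∉ D) {v : EN N}
    (hv' : pr v = φ y₀) (w : Vd (k + 1)) {j : Fin J} {R : ℝ} {Ψ : EN N → ℂ} (hΨ : Prm (α j) y₀ v R Ψ) :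
    DifferentiableAt ℂ (fun ζ : ℂ => Ψ (nv v (φ (y₀ + ζ • w)))) 0 := by
  set Q : ℂ → ℂ := fun ζ => ζ⁻¹ * (Ψ (nv v (φ (y₀ + ζ • w))) - Ψ (nv v (φ y₀))) with hQ
  have hT : ∀ y, y ∈ Tb b (⊤ : Submodule ℝ (Vd (k + 1))) := fun y => show y - b ∈ (⊤ : Submodule ℝ (Vd (k + 1))) from Submodule.mem_top
  have key : Tendsto (fun n : ℂ × ℂ => Q n.1 - Q n.2) (𝓝[≠] 0 ×ˢ 𝓝[≠] 0) (𝓝 0) := by
    rw [Filter.tendsto_iff_ultrafilter]
    intro 𝒰 h𝒰
    have t1 : Tendsto (fun n : ℂ × ℂ => n.1) 𝒰 (𝓝[≠] 0) := tendsto_fst.mono_left h𝒰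
    have t2 : Tendsto (fun n : ℂ × ℂ => n.2) 𝒰 (𝓝[≠] 0) := tendsto_snd.mono_left h𝒰
    have t1' : Tendsto (fun n : ℂ × ℂ => n.1) 𝒰 (𝓝 0) := t1.mono_right nhdsWithin_le_nhds
    have t2' : Tendsto (fun n : ℂ × ℂ => n.2) 𝒰 (𝓝 0) := t2.mono_right nhdsWithin_le_nhds
    have e1 : ∀ᶠ n : ℂ × ℂ in (𝒰 : Filter (ℂ × ℂ)), n.1 ≠ 0 := t1.eventually (eventually_mem_nhdsWithin.mono fun z hz => hz)
    have e2 : ∀ᶠ n : ℂ × ℂ in (𝒰 : Filter (ℂ × ℂ)), n.2 ≠ 0 := t2.eventually (eventually_mem_nhdsWithin.mono fun z hz => hz)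
    -- the constants of the geometry
    obtain ⟨s₀, hs₀, hgd⟩ := S.geo.exists_gd h0
    obtain ⟨ρ₀, hρ₀, hρ'⟩ := exists_lc S.lg
    obtain ⟨δ₀, hδ₀, hlc⟩ := hρ' (min ρ₀ s₀) (lt_min hρ₀ hs₀) (min_le_left _ _)
    have hlc' := hlc δ₀ hδ₀ le_rfl
    obtain ⟨C, c', hc', hbd⟩ := dq_bd S hS hφ j w y₀ (δ' := δ₀ / 2) (by linarith)
    set y : Fin 3 → ℂ × ℂ → Vd (k + 1) := ![fun _ => y₀, fun n => y₀ + n.1 • w, fun n => y₀ + n.2 • w] with hy
    set c : ℂ × ℂ → Fin 3 → ℂ := fun n => ![n.2⁻¹ - n.1⁻¹, n.1⁻¹, -n.2⁻¹] with hc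
    have ty : ∀ i, Tendsto (y i) 𝒰 (𝓝 y₀) := by
      have a1 : Tendsto (fun n : ℂ × ℂ => y₀ + n.1 • w) 𝒰 (𝓝 y₀) := by
        have := (tendsto_const_nhds (x := y₀)).add (t1'.smul_const w)
        rwa [zero_smul, add_zero] at this
      have a2 : Tendsto (fun n : ℂ × ℂ => y₀ + n.2 • w) 𝒰 (𝓝 y₀) := by
        have := (tendsto_const_nhds (x := y₀)).add (t2'.smul_const w)
        rwa [zero_smul, add_zero] at this
      intro i
      fin_cases i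
      · exact tendsto_const_nhds
      · exact a1
      · exact a2
    have hcomb := comb_lim (𝒰 := 𝒰) (α := α j) (f := fun i n z => φ (y i n + z • a)) (g := fun z => φ (y₀ + z • a)) (c := c) (C := 2 * C) (c' := c') S.geo S.lg S.cr S.good hlc' ty
      (fun i => Filter.Eventually.of_forall fun n => (hS.sht φ hφ).line _ (hT _)) ((hS.sht φ hφ).line _ (hT _))
      (fun i => hS.lm hφ (fun n => hT _) (hT _) (ty i)) ?_ hc' ?_ h0 ?_ hΨ (by simpa using hv')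
    · refine hcomb.congr' ?_
      filter_upwards [e1, e2] with n hn1 hn2
      simp only [Fin.sum_univ_three, hc, hy, Matrix.cons_val_zero, Matrix.cons_val_one, Matrix.cons_val, zero_smul, add_zero, hQ]
      ring
    · -- holomorphic functions
      intro x hx h hh
      obtain ⟨τ, C', L, hτ, hC', hest⟩ := dq_hol hh w
      refine ⟨τ, hτ, fun ε hε => ?_⟩
      have q1 : ∀ᶠ n : ℂ × ℂ in (𝒰 : Filter (ℂ × ℂ)), ‖n.1 • w‖ < τ ∧ C' * ‖w‖ * ‖n.1 • w‖ < ε / 2 := by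
        have a1 : Tendsto (fun n : ℂ × ℂ => ‖n.1 • w‖) 𝒰 (𝓝 0) := by
          have := (t1'.smul_const w).norm
          rwa [zero_smul, norm_zero] at this
        have a2 : Tendsto (fun n : ℂ × ℂ => C' * ‖w‖ * ‖n.1 • w‖) 𝒰 (𝓝 0) := by
          have := a1.const_mul (C' * ‖w‖)
          rwa [mul_zero] at this
        exact (a1.eventually (gt_mem_nhds hτ)).and (a2.eventually (gt_mem_nhds (by linarith)))
      have q2 : ∀ᶠ n : ℂ × ℂ in (𝒰 : Filter (ℂ × ℂ)), ‖n.2 • w‖ < τ ∧ C' * ‖w‖ * ‖n.2 • w‖ < ε / 2 := by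
        have a1 : Tendsto (fun n : ℂ × ℂ => ‖n.2 • w‖) 𝒰 (𝓝 0) := by
          have := (t2'.smul_const w).norm
          rwa [zero_smul, norm_zero] at this
        have a2 : Tendsto (fun n : ℂ × ℂ => C' * ‖w‖ * ‖n.2 • w‖) 𝒰 (𝓝 0) := by
          have := a1.const_mul (C' * ‖w‖)
          rwa [mul_zero] at this
        exact (a1.eventually (gt_mem_nhds hτ)).and (a2.eventually (gt_mem_nhds (by linarith)))
      filter_upwards [e1, e2, q1, q2] with n hn1 hn2 hq1 hq2 x' hx'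
      rw [mem_ball, dist_eq_norm] at hx'
      have hqx : ‖y₀ + x' • a - (y₀ + x • a)‖ < τ := by
        have e : y₀ + x' • a - (y₀ + x • a) = (x' - x) • a := by rw [sub_smul]; abel
        rw [e, norm_smul, S.lg.norm, mul_one]
        exact hx'
      have one : ∀ ζ : ℂ, ζ ≠ 0 → ‖ζ • w‖ < τ → C' * ‖w‖ * ‖ζ • w‖ < ε / 2 →
          ‖ζ⁻¹ * (h (y₀ + ζ • w + x' • a) - h (y₀ + x' • a)) - L (y₀ + x' • a)‖ ≤ ε / 2 := by
        intro ζ hζ0 hζ1 hζ2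
        have h1 := hest (y₀ + x' • a) hqx ζ hζ1
        have e : y₀ + x' • a + ζ • w = y₀ + ζ • w + x' • a := by abel
        rw [e] at h1
        have e3 : ζ⁻¹ * (h (y₀ + ζ • w + x' • a) - h (y₀ + x' • a)) - L (y₀ + x' • a) =
            ζ⁻¹ * (h (y₀ + ζ • w + x' • a) - h (y₀ + x' • a) - ζ * L (y₀ + x' • a)) := by
          field_simp
        rw [e3, norm_mul, norm_inv]
        have hζ3 : 0 < ‖ζ‖ := norm_pos_iff.2 hζ0
        calc ‖ζ‖⁻¹ * ‖h (y₀ + ζ • w + x' • a) - h (y₀ + x' • a) - ζ * L (y₀ + x' • a)‖ ≤ ‖ζ‖⁻¹ * (C' * ‖ζ • w‖ * ‖ζ • w‖) :=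
              mul_le_mul_of_nonneg_left h1 (by positivity)
          _ = C' * ‖w‖ * ‖ζ • w‖ := by
            rw [norm_smul]
            field_simp
          _ ≤ ε / 2 := hζ2.le
      have o1 := one n.1 hn1 hq1.1 hq1.2
      have o2 := one n.2 hn2 hq2.1 hq2.2
      simp only [Fin.sum_univ_three, hc, hy, Matrix.cons_val_zero, Matrix.cons_val_one, Matrix.cons_val]
      have e4 : (n.2⁻¹ - n.1⁻¹) * h (y₀ + x' • a) + n.1⁻¹ * h (y₀ + n.1 • w + x' • a) + -n.2⁻¹ * h (y₀ + n.2 • w + x' • a) =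
          (n.1⁻¹ * (h (y₀ + n.1 • w + x' • a) - h (y₀ + x' • a)) - L (y₀ + x' • a)) - (n.2⁻¹ * (h (y₀ + n.2 • w + x' • a) - h (y₀ + x' • a)) - L (y₀ + x' • a)) := by
        ring
      rw [e4]
      refine (norm_sub_le _ _).trans ?_
      linarith
    · -- the bound
      intro z₀ hz₀
      obtain ⟨Ψ₁, v₁, R₁, t, p1, p2, p3, s, hs, p4⟩ := hbd z₀ hz₀
      refine ⟨Ψ₁, v₁, R₁, t, p1, p2, p3, ?_⟩
      have s1 : ∀ᶠ n : ℂ × ℂ in (𝒰 : Filter (ℂ × ℂ)), ‖n.1‖ < s := by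
        have := t1'.norm
        rw [norm_zero] at this
        exact this.eventually (gt_mem_nhds hs)
      have s2 : ∀ᶠ n : ℂ × ℂ in (𝒰 : Filter (ℂ × ℂ)), ‖n.2‖ < s := by
        have := t2'.norm
        rw [norm_zero] at this
        exact this.eventually (gt_mem_nhds hs)
      filter_upwards [e1, e2, s1, s2] with n hn1 hn2 hs1 hs2 x hx
      have o1 := p4 n.1 hn1 hs1 x hx
      have o2 := p4 n.2 hn2 hs2 x hx
      simp only [Fin.sum_univ_three, hc, hy, Matrix.cons_val_zero, Matrix.cons_val_one, Matrix.cons_val]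
      have e4 : (n.2⁻¹ - n.1⁻¹) * Ψ₁ (nv v₁ (φ (y₀ + x • a))) + n.1⁻¹ * Ψ₁ (nv v₁ (φ (y₀ + n.1 • w + x • a))) + -n.2⁻¹ * Ψ₁ (nv v₁ (φ (y₀ + n.2 • w + x • a))) =
          n.1⁻¹ * (Ψ₁ (nv v₁ (φ (y₀ + n.1 • w + x • a))) - Ψ₁ (nv v₁ (φ (y₀ + x • a)))) - n.2⁻¹ * (Ψ₁ (nv v₁ (φ (y₀ + n.2 • w + x • a))) - Ψ₁ (nv v₁ (φ (y₀ + x • a)))) := by
        ring
      rw [e4]
      refine (norm_sub_le _ _).trans ?_
      linarith
    · intro β hβ
      have h1 := hgd β (S.lg.bad_sub hβ)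
      have h2 : min ρ₀ s₀ ≤ s₀ := min_le_right _ _
      linarith
  -- the difference quotients are a Cauchy filter
  have hcau : Cauchy (map Q (𝓝[≠] (0 : ℂ))) := by
    rw [cauchy_map_iff]
    refine ⟨inferInstance, ?_⟩
    rw [tendsto_uniformity_iff_dist_tendsto_zero]
    have h1 := key.norm
    rw [norm_zero] at h1
    refine h1.congr fun n => ?_
    rw [dist_eq_norm]
  obtain ⟨q, hq⟩ := cauchy_map_iff_exists_tendsto.1 hcau
  have hder : HasDerivAt (fun ζ : ℂ => Ψ (nv v (φ (y₀ + ζ • w)))) q 0 := by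
    rw [hasDerivAt_iff_tendsto_slope_zero]
    refine hq.congr fun ζ => ?_
    simp only [hQ, zero_add, zero_smul, add_zero, smul_eq_mul]
  exact hder.differentiableAt

theorem sheet_dif (S : DA X Λ u D B Bad a α c₀ C₀ ρ δ) (hS : Shs X Λ u D a b ⊤ SS) {φ : Vd (k + 1) → MN N} (hφ : φ ∈ SS) {y₀ : Vd (k + 1)} (h0 : y₀ ∉ D) {v : EN N} (hv : ‖v‖ = 1)
    (hv' : pr v = φ y₀) (w : Vd (k + 1)) : DifferentiableAt ℂ (fun ζ : ℂ => nv v (φ (y₀ + ζ • w))) 0 := by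
  obtain ⟨hvX, huv⟩ := lift_of S hS hφ hv hv'
  obtain ⟨j, R, Ψ, r, M, Θ, hΨ, hr, hΘ, -, r', hr', hinv⟩ := exists_prm_inv S.geo S.sep h0 hvX hv huv
  have ht := dq_lim S hS hφ h0 hv' w hΨ
  have hΨ0 : Ψ (nv v (φ (y₀ + (0 : ℂ) • w))) = Ψ v := by rw [zero_smul, add_zero, ← hv', nv_self hv]
  have hΘ' : DifferentiableAt ℂ Θ (Ψ v, y₀) := (hΘ _ (mem_ball_self hr)).differentiableAt (isOpen_ball.mem_nhds (mem_ball_self hr))
  have hpair : DifferentiableAt ℂ (fun ζ : ℂ => (Ψ (nv v (φ (y₀ + ζ • w))), y₀ + ζ • w)) 0 := ht.prodMk (by fun_prop)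
  have hcomp : DifferentiableAt ℂ (fun ζ : ℂ => Θ (Ψ (nv v (φ (y₀ + ζ • w))), y₀ + ζ • w)) 0 := by
    refine DifferentiableAt.comp (g := Θ) (f := fun ζ : ℂ => (Ψ (nv v (φ (y₀ + ζ • w))), y₀ + ζ • w)) (0 : ℂ) ?_ hpair
    show DifferentiableAt ℂ Θ (Ψ (nv v (φ (y₀ + (0 : ℂ) • w))), y₀ + (0 : ℂ) • w)
    rw [hΨ0, zero_smul, add_zero]
    exact hΘ'
  refine hcomp.congr_of_eventuallyEq ?_
  have hlin : Tendsto (fun ζ : ℂ => y₀ + ζ • w) (𝓝 0) (𝓝 y₀) := by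
    have h1 : Continuous fun ζ : ℂ => y₀ + ζ • w := by fun_prop
    have h2 := h1.tendsto 0
    rwa [zero_smul, add_zero] at h2
  filter_upwards [hlin.eventually (lift_nv S hS hφ h0 hv hv' hr'), hlin.eventually (ball_mem_nhds y₀ hr')] with ζ hζ hζ'
  obtain ⟨h1, h2, h3, h4⟩ := hζ
  exact (hinv _ hζ' _ h1 h2 h3 h4).2.symm

end Pool.Agent.G3.R
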