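import Pool.Agent.G3.R.Step

/-!
# G3 R HolL: sheets over the whole space are Lipschitz on small balls off `D`

Here `E = ⊤`.  `ddb` for `m = 1` and the real directions `e`, `i e`, `e` a basis vector.
`dist_pr_le`: `dist (pr x) (pr v) ≤ 2 ‖x / ⟨v, x⟩ - v‖`.  `step_lip`: one real direction, from `ddb` for the nodes `0, s`.  `sheet_lip`: change the coordinates one after the other, real part and imaginary part.
-/

set_option autoImplicit false

open Topology Filter Metric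

namespace Pool.Agent.G3.R

open Pool.Agent.H36.BP (EN fs wd)
open Pool.Agent.H14.PP (IsCone CurveAt Tan)
open Pool.Agent.H62.EF (MN pr)
open Pool.Agent.AD (Vd Chart Charts IsGerm)
open Pool.Agent.TG
open Pool.Agent.G3.C (Gc HP nv nd nv_pr pr_nv nd_pr_ne)
open Pool.Agent.G3.A

variable {N k : ℕ} {X : Set (EN N)} {Λ : AddSubgroup (Vd (k + 1))} {u : EN N → Vd (k + 1)} {D B Bad : Set (Vd (k + 1))} {a b : Vd (k + 1)}
  {SS : Set (Vd (k + 1) → MN N)} {J : ℕ} {α : Fin J → VForm X Λ u} {c₀ C₀ ρ δ : ℝ}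

/-- `pr x` is near `pr v` if `x / ⟨v, x⟩` is near `v` -/
theorem dist_pr_le {v x : EN N} (hv : ‖v‖ = 1) (h : inner ℂ v x ≠ (0 : ℂ)) : dist (pr x) (pr v) ≤ 2 * ‖nv v (pr x) - v‖ := by
  have hv0 : v ≠ 0 := by
    rintro rfl
    rw [norm_zero] at hv
    exact zero_ne_one hv
  set x₁ : EN N := nv v (pr x) with hx₁
  have h1 : inner ℂ v x₁ = (1 : ℂ) := by
    rw [hx₁, nv_pr h, inner_smul_right, inv_mul_cancel₀ h]
  have hx0 : x₁ ≠ 0 := by
    intro h0
    rw [h0, inner_zero_right] at h1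
    exact zero_ne_one h1
  have hp : pr x₁ = pr x := pr_nv h
  have h2 := Pool.Agent.H62.EF.norm_inner_sq hv0 hx0
  rw [h1, hv, norm_one, one_pow, one_mul, hp, dist_comm] at h2
  have h3 : ‖x₁ - v‖ ^ 2 = ‖x₁‖ ^ 2 - 1 := by
    rw [norm_sub_rev, norm_sub_sq (𝕜 := ℂ), h1, hv, RCLike.re_to_complex, Complex.one_re]
    ring
  set d : ℝ := dist (pr x) (pr v) with hd
  have hd0 : 0 ≤ d := dist_nonneg
  have he0 : 0 ≤ ‖x₁ - v‖ ^ 2 := by positivity
  have h4 : d ^ 2 ≤ (2 * ‖x₁ - v‖) ^ 2 := by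
    have h5 : 1 ≤ ‖x₁‖ ^ 2 := by linarith
    have h6 : d ^ 2 * ‖x₁‖ ^ 2 = 2 * ‖x₁ - v‖ ^ 2 := by
      rw [h3]
      nlinarith [h2]
    have h7 : d ^ 2 ≤ d ^ 2 * ‖x₁‖ ^ 2 := le_mul_of_one_le_right (by positivity) h5
    nlinarith
  exact le_of_sq_le_sq h4 (by positivity)

theorem mem_tb_top (b y : Vd (k + 1)) : y ∈ Tb b (⊤ : Submodule ℝ (Vd (k + 1))) := (Submodule.mem_top : y - b ∈ (⊤ : Submodule ℝ (Vd (k + 1))))

/-- one real direction -/
theorem step_lip (S : DA X Λ u D B Bad a α c₀ C₀ ρ δ) (hS : Shs X Λ u D a b ⊤ SS) {δ' : ℝ} (hδ' : 0 < δ') (w : Vd (k + 1)) : ∃ r C : ℝ, 0 < r ∧ 0 < C ∧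
    ∀ φ ∈ SS, ∀ y ∈ Gd D δ', ∀ s : ℝ, |s| ≤ r → dist (φ (y + (s : ℂ) • w)) (φ y) ≤ C * |s| := by
  obtain ⟨r, C, hr, hC, h⟩ := ddb S hS (w := w) Submodule.mem_top 1 δ' hδ'
  have hC1 : 0 < C + 1 := by linarith
  refine ⟨min r (1 / (2 * (C + 1))), 2 * (C + 1), lt_min hr (by positivity), by positivity, ?_⟩
  intro φ hφ y hy s hs
  rcases eq_or_ne s 0 with rfl | hs0
  · simp
  obtain ⟨x, hx, hxm, -⟩ := hS.fb hφ (mem_tb_top b y)
  obtain ⟨c, hc, -, hcs⟩ := exists_unit S.geo.cone hx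
  have hv : ‖c • x‖ = 1 := mem_sphere_zero_iff_norm.1 hcs
  have hprv : pr (c • x) = φ y := by rw [Pool.Agent.H62.EF.pr_smul x hc, hxm]
  generalize c • x = v at hv hprv
  set σ : ℕ → ℝ := fun i => if i = 0 then 0 else s with hσd
  have hσ0 : σ 0 = 0 := by simp [hσd]
  have hσ1 : σ 1 = s := by simp [hσd]
  have hσ : Nod (0 + 1) σ r := by
    refine ⟨fun i hi j hj hij => ?_, fun i hi => ?_⟩
    · interval_cases i <;> interval_cases j <;> first | rfl | (rw [hσ0, hσ1] at hij; exact absurd hij (Ne.symm hs0)) | (rw [hσ0, hσ1] at hij; exact absurd hij hs0)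
    · interval_cases i
      · rw [hσ0, abs_zero]
        exact hr.le
      · rw [hσ1]
        exact hs.trans (min_le_left _ _)
  have h1 : ‖dd (0 + 1) σ fun s : ℝ => nv v (φ (y + (s : ℂ) • w))‖ ≤ C := h φ hφ y (mem_tb_top b y) hy v hv hprv σ hσ
  have h2 : ‖nv v (φ (y + (s : ℂ) • w)) - v‖ ≤ C * |s| := by
    rw [dd_succ hσ, dd_zero, dd_zero, norm_smul] at h1
    simp only [zero_add, hσ0, hσ1, sub_zero, Complex.ofReal_zero, zero_smul, add_zero] at h1
    rw [← hprv, nv_self hv, Complex.norm_real, norm_inv, Real.norm_eq_abs, inv_mul_le_iff₀ (abs_pos.2 hs0)] at h1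
    rwa [mul_comm] at h1
  have h3 : C * |s| ≤ 1 / 2 := by
    have h4 : |s| ≤ 1 / (2 * (C + 1)) := hs.trans (min_le_right _ _)
    rw [le_div_iff₀ (by positivity)] at h4
    nlinarith [abs_nonneg s]
  obtain ⟨x', hx', hxm', -⟩ := hS.fb hφ (mem_tb_top b (y + (s : ℂ) • w))
  have hx0 : x' ≠ 0 := ne_zero S.geo.cone hx'
  have h5 : inner ℂ v x' ≠ (0 : ℂ) := by
    intro h6
    have h7 : nd v (pr x') = 0 := by
      by_contra h8
      exact (nd_pr_ne hx0).1 h8 h6
    have h9 : nv v (pr x') = 0 := by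
      have h10 : nv v (pr x') = (nd v (pr x'))⁻¹ • WithLp.toLp 2 fun i => ∑ j, pr x' (i, j) * v j := rfl
      rw [h10, h7, inv_zero, zero_smul]
    rw [← hxm', h9, zero_sub, norm_neg, hv] at h2
    linarith
  have h11 := dist_pr_le hv h5
  rw [hxm', hprv] at h11
  refine h11.trans ?_
  have h12 : 0 ≤ |s| := abs_nonneg s
  nlinarith

theorem sheet_lip (S : DA X Λ u D B Bad a α c₀ C₀ ρ δ) (hS : Shs X Λ u D a b ⊤ SS) {δ' : ℝ} (hδ' : 0 < δ') : ∃ r C : ℝ, 0 < r ∧ 0 < C ∧ ∀ φ ∈ SS, ∀ y ∈ Gd D δ', ∀ y', ‖y' - y‖ ≤ r →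
    dist (φ y') (φ y) ≤ C * ‖y' - y‖ := by
  have key : ∀ s : Finset (Fin (k + 1)), ∃ r C : ℝ, 0 < r ∧ 0 < C ∧ ∀ φ ∈ SS, ∀ y ∈ Gd D δ', ∀ h : Vd (k + 1), ‖h‖ ≤ r →
      dist (φ (y + fun i => if i ∈ s then h i else 0)) (φ y) ≤ C * ‖h‖ := by
    intro s
    induction s using Finset.induction_on with
    | empty =>
      refine ⟨1, 1, one_pos, one_pos, fun φ _ y _ h _ => ?_⟩
      have e : (y + fun i => if i ∈ (∅ : Finset (Fin (k + 1))) then h i else 0) = y := by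
        funext i
        simp
      rw [e, dist_self, one_mul]
      exact norm_nonneg _
    | insert i s his ih =>
      obtain ⟨r₀, K₀, hr₀, hK₀, h₀⟩ := ih
      obtain ⟨r₁, K₁, hr₁, hK₁, h₁⟩ := step_lip S hS (half_pos hδ') (Pi.single i 1)
      obtain ⟨r₂, K₂, hr₂, hK₂, h₂⟩ := step_lip S hS (half_pos hδ') (Pi.single i Complex.I)
      refine ⟨min (min r₀ r₁) (min r₂ (δ' / 4)), K₀ + K₁ + K₂, lt_min (lt_min hr₀ hr₁) (lt_min hr₂ (by positivity)), by positivity, ?_⟩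
      intro φ hφ y hy h hh
      have hh0 : ‖h‖ ≤ r₀ := hh.trans ((min_le_left _ _).trans (min_le_left _ _))
      have hh1 : ‖h‖ ≤ r₁ := hh.trans ((min_le_left _ _).trans (min_le_right _ _))
      have hh2 : ‖h‖ ≤ r₂ := hh.trans ((min_le_right _ _).trans (min_le_left _ _))
      have hh3 : ‖h‖ ≤ δ' / 4 := hh.trans ((min_le_right _ _).trans (min_le_right _ _))
      have a0 := h₀ φ hφ y hy h hh0
      set g : Vd (k + 1) := fun j => if j ∈ s then h j else 0 with hg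
      have hgn : ‖g‖ ≤ ‖h‖ := by
        refine (pi_norm_le_iff_of_nonneg (norm_nonneg _)).2 fun j => ?_
        rw [hg]
        dsimp only
        split_ifs
        · exact norm_le_pi_norm h j
        · rw [norm_zero]
          exact norm_nonneg _
      have hre : |(h i).re| ≤ ‖h‖ := (Complex.abs_re_le_norm _).trans (norm_le_pi_norm h i)
      have him : |(h i).im| ≤ ‖h‖ := (Complex.abs_im_le_norm _).trans (norm_le_pi_norm h i)
      have hy1 : y + g ∈ Gd D (δ' / 2) := by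
        refine gd_mono (δ₂ := δ' - ‖h‖) (by linarith) (gd_near hy ?_)
        rw [add_sub_cancel_left]
        exact hgn
      have hy2 : y + g + ((h i).re : ℂ) • (Pi.single i 1 : Vd (k + 1)) ∈ Gd D (δ' / 2) := by
        refine gd_mono (δ₂ := δ' - (‖h‖ + ‖h‖)) (by linarith) (gd_near hy ?_)
        rw [add_assoc, add_sub_cancel_left]
        refine (norm_add_le _ _).trans (add_le_add hgn ?_)
        rw [norm_smul, Complex.norm_real, Real.norm_eq_abs]
        refine (mul_le_of_le_one_right (abs_nonneg _) ?_).trans hre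
        rw [Pi.norm_single, norm_one]
      have a1 := h₁ φ hφ _ hy1 _ (hre.trans hh1)
      have a2 := h₂ φ hφ _ hy2 _ (him.trans hh2)
      have e : (y + fun j => if j ∈ insert i s then h j else 0) =
          y + g + ((h i).re : ℂ) • (Pi.single i 1 : Vd (k + 1)) + ((h i).im : ℂ) • (Pi.single i Complex.I : Vd (k + 1)) := by
        funext j
        rcases eq_or_ne j i with rfl | hji
        · simp only [Pi.add_apply, Finset.mem_insert_self, if_true, hg, his, if_false, Pi.smul_apply, Pi.single_eq_same, smul_eq_mul, mul_one, add_zero]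
          rw [add_assoc, Complex.re_add_im]
        · simp [hg, hji]
      rw [e]
      calc dist (φ (y + g + ((h i).re : ℂ) • (Pi.single i 1 : Vd (k + 1)) + ((h i).im : ℂ) • (Pi.single i Complex.I : Vd (k + 1)))) (φ y)
          ≤ dist (φ (y + g + ((h i).re : ℂ) • (Pi.single i 1 : Vd (k + 1)) + ((h i).im : ℂ) • (Pi.single i Complex.I : Vd (k + 1)))) (φ (y + g + ((h i).re : ℂ) • (Pi.single i 1 : Vd (k + 1)))) +
              dist (φ (y + g + ((h i).re : ℂ) • (Pi.single i 1 : Vd (k + 1)))) (φ (y + g)) + dist (φ (y + g)) (φ y) := dist_triangle4 _ _ _ _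
        _ ≤ K₂ * ‖h‖ + K₁ * ‖h‖ + K₀ * ‖h‖ :=
            add_le_add (add_le_add (a2.trans (mul_le_mul_of_nonneg_left him hK₂.le)) (a1.trans (mul_le_mul_of_nonneg_left hre hK₁.le))) a0
        _ = (K₀ + K₁ + K₂) * ‖h‖ := by ring
  obtain ⟨r, C, hr, hC, h⟩ := key Finset.univ
  refine ⟨r, C, hr, hC, fun φ hφ y hy y' hy' => ?_⟩
  have h1 := h φ hφ y hy (y' - y) hy'
  have e : (y + fun i => if i ∈ (Finset.univ : Finset (Fin (k + 1))) then (y' - y) i else 0) = y' := by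
    funext i
    simp
  rwa [e] at h1

end Pool.Agent.G3.R
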