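import Pool.Agent.G3.Defs

/-!
# G3 R Wir: two lemmas on circle averages

`sq_mean`: for scalar `f` holomorphic on `ball 0 R`, `f z = ∑ a_j z^j`: the average of `|f - f 0|²` is `∑_{j ≥ 1} |a_j|² r^(2j)`, of `|f'|²` is `∑_{j ≥ 1} j² |a_j|² r^(2j-2)` (Parseval); sum over the coordinates
(`‖x‖² ≤ ∑ ‖x i‖²`, `‖x i‖ ≤ ‖x‖`).  Instead of Parseval: `H56/G3/Rad.lean` (`mean_sq_le`) and the monotonicity in `ρ` of the average of `|f'|²` on the circle of radius `ρ`
(`|f'|²` has the sub-mean property; e.g. `z ↦ avg of f'(z e^{iθ}) conj(f'(r e^{iθ}))` and Cauchy-Schwarz).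
`cauchy_sub`: `g z - g 0 = circleAverage (z / (ζ - z) • g ζ)` (Cauchy's integral formula), `‖z / (ζ - z)‖ ≤ 2 ‖z‖ / ρ`.
-/

set_option autoImplicit false

open Topology Filter Metric

namespace Pool.Agent.G3

open Pool.Agent.H36.BP (EN fs wd Sub)
open Pool.Agent.H14.PP (IsCone CurveAt Tan)
open Pool.Agent.H62.EF (MN pr)
open Pool.Agent.AD (Vd Chart Charts)
open Pool.Agent.TG (TMap Lat Geo Gd)

/-- Parseval for polynomials with a sum over a range -/
private lemma wir_parseval (q : Polynomial ℂ) {n : ℕ} (hn : q.natDegree < n) :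
    Real.circleAverage (fun z => ‖q.eval z‖ ^ 2) 0 1 = ∑ i ∈ Finset.range n, ‖q.coeff i‖ ^ 2 := by
  rw [← Polynomial.sum_sq_norm_coeff_eq_circleAverage]
  refine Finset.sum_subset ?_ ?_
  · intro i hi
    rw [Finset.mem_range]
    exact (Polynomial.le_natDegree_of_mem_supp i hi).trans_lt hn
  · intro i _ hi
    rw [Polynomial.notMem_support_iff.1 hi]
    simp

/-- the inequality for polynomials -/
private lemma wir_poly (p : Polynomial ℂ) {r : ℝ} :
    Real.circleAverage (fun z => ‖p.eval z - p.eval 0‖ ^ 2) 0 r ≤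
      r ^ 2 * Real.circleAverage (fun z => ‖(Polynomial.derivative p).eval z‖ ^ 2) 0 r := by
  obtain ⟨q, hq⟩ : ∃ q : Polynomial ℂ, q = p.comp (Polynomial.C (r : ℂ) * Polynomial.X) := ⟨_, rfl⟩
  obtain ⟨n, hn⟩ : ∃ n, n = q.natDegree + 1 := ⟨_, rfl⟩
  have hqe : ∀ z, q.eval z = p.eval ((r : ℂ) * z) := by
    intro z
    rw [hq, Polynomial.eval_comp]
    simp
  have h1 : Real.circleAverage (fun z => ‖p.eval z - p.eval 0‖ ^ 2) 0 r =
      Real.circleAverage (fun z => ‖(q - Polynomial.C (q.coeff 0)).eval z‖ ^ 2) 0 1 := by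
    rw [Real.circleAverage_eq_circleAverage_zero_one]
    congr 1
    funext z
    rw [Polynomial.eval_sub, Polynomial.eval_C, Polynomial.coeff_zero_eq_eval_zero, hqe, hqe, add_zero,
      mul_zero]
  have h2 : r ^ 2 * Real.circleAverage (fun z => ‖(Polynomial.derivative p).eval z‖ ^ 2) 0 r =
      Real.circleAverage (fun z => ‖(Polynomial.derivative q).eval z‖ ^ 2) 0 1 := by
    rw [Real.circleAverage_eq_circleAverage_zero_one, ← smul_eq_mul, ← Real.circleAverage_fun_smul]
    congr 1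
    funext z
    have h3 : (Polynomial.derivative q).eval z = (r : ℂ) * (Polynomial.derivative p).eval ((r : ℂ) * z) := by
      rw [hq, Polynomial.derivative_comp]
      simp
    rw [h3, norm_mul, mul_pow, Complex.norm_real, Real.norm_eq_abs, sq_abs, add_zero, smul_eq_mul]
  rw [h1, h2]
  have hd1 : (q - Polynomial.C (q.coeff 0)).natDegree < n + 1 := by
    have := Polynomial.natDegree_sub_C (p := q) (a := q.coeff 0)
    omega
  have hd2 : (Polynomial.derivative q).natDegree < n := by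
    have := Polynomial.natDegree_derivative_le q
    omega
  rw [wir_parseval _ hd1, wir_parseval _ hd2, Finset.sum_range_succ']
  have h0 : ‖(q - Polynomial.C (q.coeff 0)).coeff 0‖ ^ 2 = 0 := by simp
  rw [h0, add_zero]
  refine Finset.sum_le_sum fun i _ => ?_
  rw [Polynomial.coeff_sub, Polynomial.coeff_C_succ, sub_zero, Polynomial.coeff_derivative]
  refine pow_le_pow_left₀ (norm_nonneg _) ?_ 2
  rw [norm_mul]
  refine le_mul_of_one_le_right (norm_nonneg _) ?_
  have h4 : ‖(i : ℂ) + 1‖ = (i : ℝ) + 1 := by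
    rw [← Nat.cast_one (R := ℂ), ← Nat.cast_add, Complex.norm_natCast]
    push_cast
    ring
  rw [h4]
  have : (0 : ℝ) ≤ i := Nat.cast_nonneg i
  linarith

/-- averages of squares converge if the functions converge uniformly on the circle -/
private lemma wir_tendsto {g : ℂ → ℂ} {G : ℕ → ℂ → ℂ} {r : ℝ} (hr : 0 < r)
    (hG : ∀ n, ContinuousOn (G n) (sphere 0 r)) (h : TendstoUniformlyOn G g atTop (sphere 0 r)) :
    Tendsto (fun n => Real.circleAverage (fun z => ‖G n z‖ ^ 2) 0 r) atTop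
      (𝓝 (Real.circleAverage (fun z => ‖g z‖ ^ 2) 0 r)) := by
  have hmem : ∀ θ : ℝ, circleMap 0 r θ ∈ sphere (0 : ℂ) r := fun θ => circleMap_mem_sphere 0 hr.le θ
  have hg : ContinuousOn g (sphere 0 r) := h.continuousOn (Eventually.of_forall hG).frequently
  obtain ⟨A, hA⟩ : ∃ A : ℝ, ∀ z ∈ sphere (0 : ℂ) r, ‖g z‖ ≤ A := by
    obtain ⟨A, hA⟩ := (isCompact_sphere (0 : ℂ) r).exists_bound_of_continuousOn hg
    exact ⟨A, hA⟩
  have hev : ∀ᶠ n in atTop, ∀ z ∈ sphere (0 : ℂ) r, ‖G n z‖ ≤ A + 1 := by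
    have h1 := Metric.tendstoUniformlyOn_iff.1 h 1 one_pos
    filter_upwards [h1] with n hn z hz
    have h2 := hn z hz
    rw [dist_eq_norm] at h2
    have h3 : ‖G n z‖ ≤ ‖g z‖ + ‖g z - G n z‖ := by
      have h4 : G n z = g z - (g z - G n z) := by ring
      calc ‖G n z‖ = ‖g z - (g z - G n z)‖ := by rw [← h4]
        _ ≤ ‖g z‖ + ‖g z - G n z‖ := norm_sub_le _ _
    have h5 := hA z hz
    linarith
  have hcm : Continuous fun θ : ℝ => circleMap (0 : ℂ) r θ := by fun_prop
  simp only [Real.circleAverage_def]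
  refine Tendsto.const_smul ?_ _
  refine intervalIntegral.tendsto_integral_filter_of_dominated_convergence (fun _ => (A + 1) ^ 2) ?_ ?_ ?_ ?_
  · refine Eventually.of_forall fun n => Continuous.aestronglyMeasurable ?_
    exact ((hG n).comp_continuous hcm hmem).norm.pow 2
  · filter_upwards [hev] with n hn
    refine Eventually.of_forall fun θ _ => ?_
    rw [Real.norm_of_nonneg (by positivity)]
    exact pow_le_pow_left₀ (norm_nonneg _) (hn _ (hmem θ)) 2
  · exact intervalIntegrable_const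
  · refine Eventually.of_forall fun θ _ => ?_
    exact ((h.tendsto_at (hmem θ)).norm).pow 2

/-- the inequality for scalar functions -/
private lemma wir_scalar {f : ℂ → ℂ} {R r : ℝ} (hr : 0 < r) (hR : r < R) (hf : DifferentiableOn ℂ f (ball 0 R)) :
    Real.circleAverage (fun z => ‖f z - f 0‖ ^ 2) 0 r ≤ r ^ 2 * Real.circleAverage (fun z => ‖deriv f z‖ ^ 2) 0 r := by
  obtain ⟨R₁, h1, h2⟩ := exists_between hR
  obtain ⟨R₂, h3, h4⟩ := exists_between h1
  have hR1 : 0 < R₁ := hr.trans h1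
  have hR2 : 0 < R₂ := hr.trans h3
  lift R₁ to NNReal using hR1.le
  lift R₂ to NNReal using hR2.le
  have hps := (hf.mono (closedBall_subset_ball h2)).hasFPowerSeriesOnBall (c := 0) (R := R₁) (by exact_mod_cast hR1)
  obtain ⟨s, hs⟩ : ∃ s : FormalMultilinearSeries ℂ ℂ ℂ, s = cauchyPowerSeries f 0 R₁ := ⟨_, rfl⟩
  rw [← hs] at hps
  obtain ⟨p, hp⟩ : ∃ p : ℕ → Polynomial ℂ, ∀ n z, (p n).eval z = s.partialSum n z := by
    refine ⟨fun n => ∑ j ∈ Finset.range n, Polynomial.C (s.coeff j) * Polynomial.X ^ j, fun n z => ?_⟩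
    rw [Polynomial.eval_finsetSum]
    unfold FormalMultilinearSeries.partialSum
    refine Finset.sum_congr rfl fun j _ => ?_
    rw [FormalMultilinearSeries.apply_eq_pow_smul_coeff, Polynomial.eval_mul, Polynomial.eval_C, Polynomial.eval_pow,
      Polynomial.eval_X, smul_eq_mul, mul_comm]
  have hun : TendstoUniformlyOn (fun n z => (p n).eval z) f atTop (ball 0 R₂) := by
    have h5 := hps.tendstoUniformlyOn (r' := R₂) (by exact_mod_cast h4)
    simp only [zero_add] at h5
    simp only [hp]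
    exact h5
  have hsub : sphere (0 : ℂ) r ⊆ ball 0 R₂ := sphere_subset_closedBall.trans (closedBall_subset_ball h3)
  have hde : TendstoLocallyUniformlyOn (deriv ∘ fun n z => (p n).eval z) (deriv f) atTop (ball 0 R₂) :=
    hun.tendstoLocallyUniformlyOn.deriv (Eventually.of_forall fun n => (p n).differentiable.differentiableOn) isOpen_ball
  have hde2 : TendstoUniformlyOn (fun n z => (Polynomial.derivative (p n)).eval z) (deriv f) atTop (sphere 0 r) := by
    have h5 := (tendstoLocallyUniformlyOn_iff_forall_isCompact isOpen_ball).1 hde _ hsub (isCompact_sphere _ _)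
    refine h5.congr (Eventually.of_forall fun n z _ => ?_)
    exact Polynomial.deriv (p n)
  have hun2 : TendstoUniformlyOn (fun n z => (p n).eval z - (p n).eval 0) (fun z => f z - f 0) atTop (sphere 0 r) := by
    have h6 : TendstoUniformlyOn (fun n (_ : ℂ) => (p n).eval 0) (fun _ => f 0) atTop (sphere 0 r) := by
      rw [Metric.tendstoUniformlyOn_iff]
      intro ε hε
      have h7 := Metric.tendstoUniformlyOn_iff.1 hun ε hε
      filter_upwards [h7] with n hn z _
      exact hn 0 (mem_ball_self hR2)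
    exact (hun.mono hsub).sub h6
  have hl1 := wir_tendsto hr (fun n => ((p n).continuous.sub continuous_const).continuousOn) hun2
  have hl2 := wir_tendsto hr (fun n => (Polynomial.derivative (p n)).continuous.continuousOn) hde2
  exact le_of_tendsto_of_tendsto' hl1 (hl2.const_mul (r ^ 2)) fun n => wir_poly (p n)

theorem sq_mean {k : ℕ} {h : ℂ → Vd (k + 1)} {R r : ℝ} (hr : 0 < r) (hR : r < R) (hh : DifferentiableOn ℂ h (ball 0 R)) :
    Real.circleAverage (fun z => ‖h z - h 0‖ ^ 2) 0 r ≤ (k + 1 : ℝ) * r ^ 2 * Real.circleAverage (fun z => ‖deriv h z‖ ^ 2) 0 r := by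
  have hsub : sphere (0 : ℂ) r ⊆ ball 0 R := sphere_subset_closedBall.trans (closedBall_subset_ball hR)
  have hci : ∀ g : ℂ → ℝ, ContinuousOn g (ball 0 R) → CircleIntegrable g 0 r := fun g hg =>
    (hg.mono hsub).circleIntegrable hr.le
  have hhi : ∀ i, DifferentiableOn ℂ (fun z => h z i) (ball 0 R) := fun i z hz =>
    differentiableWithinAt_pi.1 (hh z hz) i
  have hder : ∀ z ∈ ball (0 : ℂ) R, ∀ i, deriv (fun z => h z i) z = deriv h z i := by
    intro z hz i
    have h1 : HasDerivAt h (deriv h z) z := (hh.differentiableAt (isOpen_ball.mem_nhds hz)).hasDerivAt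
    exact (hasDerivAt_pi.1 h1 i).deriv
  have hdc : ContinuousOn (deriv h) (ball 0 R) := (hh.deriv isOpen_ball).continuousOn
  have hdi : ∀ i, ContinuousOn (deriv fun z => h z i) (ball 0 R) := fun i => ((hhi i).deriv isOpen_ball).continuousOn
  have h1 : Real.circleAverage (fun z => ‖h z - h 0‖ ^ 2) 0 r ≤ Real.circleAverage (fun z => ∑ i, ‖h z i - h 0 i‖ ^ 2) 0 r := by
    refine Real.circleAverage_mono (hci _ ((hh.continuousOn.sub continuousOn_const).norm.pow 2))
      (hci _ (continuousOn_finsetSum _ fun i _ => ((hhi i).continuousOn.sub continuousOn_const).norm.pow 2)) fun z _ => ?_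
    have h2 : ‖h z - h 0‖ ≤ Real.sqrt (∑ i, ‖h z i - h 0 i‖ ^ 2) := by
      rw [pi_norm_le_iff_of_nonneg (Real.sqrt_nonneg _)]
      intro i
      refine Real.le_sqrt_of_sq_le ?_
      exact Finset.single_le_sum (f := fun i => ‖h z i - h 0 i‖ ^ 2) (fun j _ => by positivity) (Finset.mem_univ i)
    calc ‖h z - h 0‖ ^ 2 ≤ Real.sqrt (∑ i, ‖h z i - h 0 i‖ ^ 2) ^ 2 := pow_le_pow_left₀ (norm_nonneg _) h2 2
      _ = ∑ i, ‖h z i - h 0 i‖ ^ 2 := Real.sq_sqrt (by positivity)
  have h3 : Real.circleAverage (fun z => ∑ i, ‖h z i - h 0 i‖ ^ 2) 0 r = ∑ i, Real.circleAverage (fun z => ‖h z i - h 0 i‖ ^ 2) 0 r := by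
    refine Real.circleAverage_fun_sum fun i _ => ?_
    exact hci _ (((hhi i).continuousOn.sub continuousOn_const).norm.pow 2)
  have h4 : ∀ i ∈ (Finset.univ : Finset (Fin (k + 1))), Real.circleAverage (fun z => ‖h z i - h 0 i‖ ^ 2) 0 r ≤
      r ^ 2 * Real.circleAverage (fun z => ‖deriv h z‖ ^ 2) 0 r := by
    intro i _
    refine (wir_scalar hr hR (hhi i)).trans ?_
    refine mul_le_mul_of_nonneg_left ?_ (by positivity)
    refine Real.circleAverage_mono (hci _ ((hdi i).norm.pow 2)) (hci _ (hdc.norm.pow 2)) fun z hz => ?_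
    rw [abs_of_pos hr] at hz
    rw [hder z (hsub hz) i]
    exact pow_le_pow_left₀ (norm_nonneg _) (norm_le_pi_norm _ i) 2
  have h5 := Finset.sum_le_card_nsmul _ _ _ h4
  rw [nsmul_eq_mul, Finset.card_univ, Fintype.card_fin] at h5
  push_cast at h5
  rw [h3] at h1
  linarith

theorem cauchy_sub {E : Type*} [NormedAddCommGroup E] [NormedSpace ℂ E] [CompleteSpace E] {g : ℂ → E} {R ρ : ℝ} (hρ : 0 < ρ) (hR : ρ < R)
    (hg : DifferentiableOn ℂ g (ball 0 R)) {z : ℂ} (hz : ‖z‖ ≤ ρ / 2) : ‖g z - g 0‖ ≤ 2 * ‖z‖ / ρ * Real.circleAverage (fun w => ‖g w‖) 0 ρ := by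
  have hsub : sphere (0 : ℂ) ρ ⊆ ball 0 R := sphere_subset_closedBall.trans (closedBall_subset_ball hR)
  have hmem : ∀ θ : ℝ, circleMap 0 ρ θ ∈ sphere (0 : ℂ) ρ := fun θ => circleMap_mem_sphere 0 hρ.le θ
  have hdcl : DiffContOnCl ℂ g (ball 0 |ρ|) := by
    rw [abs_of_pos hρ]
    refine (hg.mono ?_).diffContOnCl
    rw [closure_ball _ hρ.ne']
    exact closedBall_subset_ball hR
  have hzρ : z ∈ ball (0 : ℂ) |ρ| := by
    rw [abs_of_pos hρ, mem_ball_zero_iff]
    linarith
  have h1 := hdcl.circleAverage_smul_div hzρ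
  have h2 := hdcl.circleAverage
  have hne : ∀ w ∈ sphere (0 : ℂ) ρ, w - z ≠ 0 := by
    intro w hw h
    rw [mem_sphere_zero_iff_norm] at hw
    have h3 : w = z := sub_eq_zero.1 h
    rw [h3] at hw
    linarith
  have hgc : ContinuousOn g (sphere 0 ρ) := hg.continuousOn.mono hsub
  have hkc : ContinuousOn (fun w : ℂ => (w - 0) / (w - z)) (sphere 0 ρ) :=
    (continuousOn_id.sub continuousOn_const).div (continuousOn_id.sub continuousOn_const) hne
  have h3 : g z - g 0 = Real.circleAverage (fun w => (z / (w - z)) • g w) 0 ρ := by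
    have hc1 : CircleIntegrable (fun w : ℂ => ((w - 0) / (w - z)) • g w) 0 ρ := ContinuousOn.circleIntegrable hρ.le (hkc.smul hgc)
    have hc2 : CircleIntegrable (fun w : ℂ => g w) 0 ρ := hgc.circleIntegrable hρ.le
    rw [← h1, ← h2, ← Real.circleAverage_fun_sub hc1 hc2]
    refine Real.circleAverage_congr_sphere fun w hw => ?_
    rw [abs_of_pos hρ] at hw
    have h4 := hne w hw
    have h5 : (w - 0) / (w - z) = z / (w - z) + 1 := by
      field_simp
      ring
    show ((w - 0) / (w - z)) • g w - g w = (z / (w - z)) • g w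
    rw [h5, add_smul, one_smul, add_sub_cancel_right]
  have hkc2 : ContinuousOn (fun w : ℂ => (z / (w - z)) • g w) (sphere 0 ρ) :=
    (continuousOn_const.div (continuousOn_id.sub continuousOn_const) hne).smul hgc
  have h6 : ‖Real.circleAverage (fun w => (z / (w - z)) • g w) 0 ρ‖ ≤ Real.circleAverage (fun w => ‖(z / (w - z)) • g w‖) 0 ρ := by
    rw [Real.circleAverage_def, Real.circleAverage_def, norm_smul, smul_eq_mul, Real.norm_of_nonneg (by positivity)]
    refine mul_le_mul_of_nonneg_left ?_ (by positivity)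
    exact intervalIntegral.norm_integral_le_integral_norm (by positivity)
  rw [h3]
  refine h6.trans ?_
  rw [← smul_eq_mul, ← Real.circleAverage_fun_smul]
  have hc3 : ContinuousOn (fun w : ℂ => (2 * ‖z‖ / ρ) • ‖g w‖) (sphere 0 ρ) := hgc.norm.const_smul (2 * ‖z‖ / ρ)
  refine Real.circleAverage_mono (ContinuousOn.circleIntegrable hρ.le hkc2.norm)
    (ContinuousOn.circleIntegrable hρ.le hc3) fun w hw => ?_
  rw [abs_of_pos hρ, mem_sphere_zero_iff_norm] at hw
  rw [norm_smul, norm_div, smul_eq_mul]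
  refine mul_le_mul_of_nonneg_right ?_ (norm_nonneg _)
  have h7 : ρ / 2 ≤ ‖w - z‖ := by
    have h8 := norm_sub_norm_le w z
    rw [hw] at h8
    linarith
  rw [div_le_div_iff₀ (by linarith) hρ]
  have h9 := norm_nonneg z
  nlinarith

end Pool.Agent.G3
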