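import Pool.Agent.G3.R.LamI
import Pool.Agent.G3.R.Wir
import Pool.Agent.G3.R.DT

/-!
# G3 R K2: bounds for normalised curves

`nrm_mean`.  Let `B = A + Lam 0`, `T` = average of `Mf²`, `S` = average of `‖h - h 0‖²`.  At the `Ok` points of the circle (all but finitely many) `Mf² ≤ (1 - r²/R²)⁻² (A + Lam) / B ≤ (16/9) (A + Lam) / B`, so
(`lam_mean`) `T ≤ (16/9) (1 + (C₅/B) (1 + T + S))` and `S ≤ (k+1) r² T` (`sq_mean`, `‖h'‖ ≤ Mf`).  If `C₅ (k + 1) (1 + r²) / B ≤ 1/16` then `T ≤ 4` (note `16/9 * (1 + 1/16) = 17/9 < 2`).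

`nrm_one`.  If `‖h' 0‖ < 1` then `ε p (0) ^ (1/m) = 1`, so `fs (F 0) (F' 0) ≥ 1 / (ε C ^ (1/m)) ≥ 1 / (ε C)` (`hP.le_fs`), and `fs ≤ exp (TT F 0 1) ≤ exp (2 m + 4 C (k + 1))` by `fs_le_TT`, `tt_mean` with `r = 1` and
`nrm_mean`.  Choose `ε` small (before `κ`, which depends on `ε`).
-/

set_option autoImplicit false

open Topology Filter Metric

namespace Pool.Agent.G3

open Pool.Agent.H36.BP (EN fs wd Sub)
open Pool.Agent.H14.PP (IsCone CurveAt Tan)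
open Pool.Agent.H62.EF (MN pr)
open Pool.Agent.AD (Vd Chart Charts)
open Pool.Agent.TG (TMap Lat Geo Gd)

variable {N k : ℕ} {X : Set (EN N)} {Λ : AddSubgroup (Vd (k + 1))} {u : EN N → Vd (k + 1)} {D : Set (Vd (k + 1))} {p : EN N → EN N → ℝ} {m d : ℕ} {C : ℝ} {Q : EN N → ℂ}

/-- almost all points of a circle are not degenerate -/
private theorem K2_ae (hP : PS X Λ u D p m C) (hQ : QD X Λ u D Q d) {R r : ℝ} (hr : 0 < r) (hR : r < R) {F : ℂ → EN N} {h : ℂ → Vd (k + 1)}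
    (hF : Cv X Λ u (ball 0 R) F h) (h0 : Ok Q p F 0) : {w | Ok Q p F w} ∈ codiscreteWithin (sphere (0 : ℂ) |r|) := by
  have h0m : (0 : ℂ) ∈ ball (0 : ℂ) R := mem_ball_self (hr.trans hR)
  rw [mem_codiscreteWithin_iff_forall_mem_nhdsNE]
  intro z hz
  rw [abs_of_pos hr] at hz
  have hzb : z ∈ ball (0 : ℂ) R := closedBall_subset_ball hR (sphere_subset_closedBall hz)
  have h1 := hP.isol _ F h isOpen_ball hF (convex_ball 0 R).isPreconnected ⟨0, h0m, h0.2⟩ z hzb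
  have hdiff : DifferentiableOn ℂ (fun w => Q (F w)) (ball 0 R) := hQ.diff.comp_differentiableOn hF.F_diff
  have han : AnalyticOnNhd ℂ (fun w => Q (F w)) (ball 0 R) := hdiff.analyticOnNhd isOpen_ball
  have h2 : ∀ᶠ w in 𝓝[≠] z, Q (F w) ≠ 0 := by
    by_contra hcon
    have hfr : ∃ᶠ w in 𝓝[≠] z, Q (F w) = 0 := fun hev => hcon (hev.mono fun w hw => hw)
    exact h0.1 (han.eqOn_zero_of_preconnected_of_frequently_eq_zero (convex_ball (0 : ℂ) R).isPreconnected hzb hfr h0m)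
  filter_upwards [h1, h2] with w hw1 hw2
  exact Or.inl ⟨hw2, hw1⟩

/-- a bound at almost all points of the circle gives a bound of the averages -/
private theorem K2_mono {f g : ℂ → ℝ} {r : ℝ} (hr : 0 < r) (hf : CircleIntegrable f 0 r) (hg : CircleIntegrable g 0 r) {T : Set ℂ}
    (hT : T ∈ codiscreteWithin (sphere (0 : ℂ) |r|)) (hle : ∀ w ∈ sphere (0 : ℂ) r, w ∈ T → f w ≤ g w) : Real.circleAverage f 0 r ≤ Real.circleAverage g 0 r := by
  classical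
  have hEq : f =ᶠ[codiscreteWithin (sphere (0 : ℂ) |r|)] fun w => if w ∈ T then f w else g w := by
    filter_upwards [hT] with w hw
    rw [if_pos hw]
  rw [Real.circleAverage_congr_codiscreteWithin hEq hr.ne']
  refine Real.circleAverage_mono (hf.congr_codiscreteWithin hEq) hg ?_
  intro w hw
  rw [abs_of_pos hr] at hw
  split_ifs with hwT
  · exact hle w hw hwT
  · exact le_rfl

theorem nrm_mean (hX : IsCone X) (hP : PS X Λ u D p m C) (hQ : QD X Λ u D Q d) {ε : ℝ} (hε : 0 < ε) (hε1 : ε ≤ 1) : ∃ κ : ℝ, 0 < κ ∧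
    ∀ (A R : ℝ) (F : ℂ → EN N) (h : ℂ → Vd (k + 1)), Nrm X Λ u Q d p m ε A R F h → ∀ r : ℝ, 0 < r → 4 * r ^ 2 ≤ R ^ 2 → 1 + r ^ 2 ≤ κ * (A + Lam Q d p m F h 0) →
      Real.circleAverage (fun z => Mf p m ε F h z ^ 2) 0 r ≤ 4 ∧ Real.circleAverage (fun z => ‖h z - h 0‖ ^ 2) 0 r ≤ 4 * (k + 1) * r ^ 2 ∧
      Real.circleAverage (fun z => ‖deriv h z‖ ^ 2) 0 r ≤ 4 := by
  obtain ⟨C₅, hC₅, hlam⟩ := lam_mean hX hP hQ hε hε1
  refine ⟨1 / (16 * (C₅ * (k + 1))), by positivity, ?_⟩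
  intro A R F h hN r hr hrR hB
  have hR0 : 0 < R := hN.R_pos
  have hrltR : r < R := by nlinarith
  have hF := hN.cv
  have hU : IsOpen (ball (0 : ℂ) R) := isOpen_ball
  have hs : sphere (0 : ℂ) r ⊆ ball 0 R := sphere_subset_closedBall.trans (closedBall_subset_ball hrltR)
  set B : ℝ := A + Lam Q d p m F h 0 with hBdef
  set T : ℝ := Real.circleAverage (fun z => Mf p m ε F h z ^ 2) 0 r with hTdef
  set S : ℝ := Real.circleAverage (fun z => ‖h z - h 0‖ ^ 2) 0 r with hSdef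
  set T' : ℝ := Real.circleAverage (fun z => ‖deriv h z‖ ^ 2) 0 r with hT'def
  have hk : (0 : ℝ) ≤ k := Nat.cast_nonneg k
  have hB0 : 0 < B := by
    by_contra hcon
    push Not at hcon
    have h1 : 1 / (16 * (C₅ * ((k : ℝ) + 1))) * B ≤ 0 := mul_nonpos_of_nonneg_of_nonpos (by positivity) hcon
    nlinarith [sq_nonneg r]
  -- integrability
  have hMc : ContinuousOn (Mf p m ε F h) (sphere (0 : ℂ) r) := (mf_cont hP hU hF ε).mono hs
  have hMi : CircleIntegrable (fun z => Mf p m ε F h z ^ 2) 0 r := (hMc.pow 2).circleIntegrable hr.le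
  have hdc : ContinuousOn (deriv h) (sphere (0 : ℂ) r) := ((hF.h_diff.deriv hU).continuousOn).mono hs
  have hdi : CircleIntegrable (fun z => ‖deriv h z‖ ^ 2) 0 r := (hdc.norm.pow 2).circleIntegrable hr.le
  have hLi : CircleIntegrable (Lam Q d p m F h) 0 r := lam_int hX hP hQ hr hrltR hF hN.ok
  -- `T' ≤ T`
  have hT'T : T' ≤ T := by
    refine Real.circleAverage_mono hdi hMi ?_
    intro w _
    exact pow_le_pow_left₀ (norm_nonneg _) (le_max_left _ _) 2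
  have hT'0 : 0 ≤ T' := by
    have h1 : Real.circleAverage (fun _ : ℂ => (0 : ℝ)) 0 r ≤ T' := Real.circleAverage_mono (circleIntegrable_const _ 0 r) hdi fun w _ => by positivity
    rwa [Real.circleAverage_const] at h1
  have hS : S ≤ (k + 1 : ℝ) * r ^ 2 * T' := sq_mean hr hrltR hF.h_diff
  -- the bound for `T`
  have hq : 9 / 16 ≤ (1 - r ^ 2 / R ^ 2) ^ 2 := by
    have h1 : r ^ 2 / R ^ 2 ≤ 1 / 4 := by
      rw [div_le_iff₀ (by positivity)]
      linarith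
    nlinarith
  have hTle : T ≤ 16 / 9 / B * (A + Real.circleAverage (Lam Q d p m F h) 0 r) := by
    have hgi : CircleIntegrable (fun z => (16 / 9 / B) • (A + Lam Q d p m F h z)) 0 r := ((circleIntegrable_const A 0 r).add hLi).const_smul
    have h1 : T ≤ Real.circleAverage (fun z => (16 / 9 / B) • (A + Lam Q d p m F h z)) 0 r := by
      refine K2_mono hr hMi hgi (K2_ae hP hQ hr hrltR hF hN.ok) ?_
      intro w hw hok
      have h2 := hN.le w (hs hw) hok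
      have hwn : ‖w‖ = r := by simpa using hw
      rw [hwn] at h2
      rw [smul_eq_mul, div_div, div_mul_eq_mul_div, le_div_iff₀ (by positivity)]
      have h3 : 0 ≤ Mf p m ε F h w ^ 2 * B := by positivity
      have h4 : Mf p m ε F h w ^ 2 * B * (9 / 16) ≤ Mf p m ε F h w ^ 2 * B * (1 - r ^ 2 / R ^ 2) ^ 2 := mul_le_mul_of_nonneg_left hq h3
      have h5 : Mf p m ε F h w ^ 2 * (1 - r ^ 2 / R ^ 2) ^ 2 * B = Mf p m ε F h w ^ 2 * B * (1 - r ^ 2 / R ^ 2) ^ 2 := by ring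
      rw [h5] at h2
      linarith
    rw [Real.circleAverage_fun_smul, Real.circleAverage_fun_add (circleIntegrable_const A 0 r) hLi, Real.circleAverage_const, smul_eq_mul] at h1
    exact h1
  have hL := hlam R r F h hr hrltR hF hN.ok hN.one
  -- conclusion
  have hT0 : 0 ≤ T := hT'0.trans hT'T
  have hκ : C₅ * ((k : ℝ) + 1) * (1 + r ^ 2) ≤ B / 16 := by
    have h1 : C₅ * ((k : ℝ) + 1) * (1 + r ^ 2) ≤ C₅ * ((k : ℝ) + 1) * (1 / (16 * (C₅ * (k + 1))) * B) := mul_le_mul_of_nonneg_left hB (by positivity)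
    have h2 : C₅ * ((k : ℝ) + 1) * (1 / (16 * (C₅ * (k + 1))) * B) = B / 16 := by
      field_simp
    rwa [h2] at h1
  have hTS : 1 + T + S ≤ ((k : ℝ) + 1) * (1 + r ^ 2) * (1 + T) := by
    have h1 : (k + 1 : ℝ) * r ^ 2 * T' ≤ (k + 1 : ℝ) * r ^ 2 * T := mul_le_mul_of_nonneg_left hT'T (by positivity)
    nlinarith [mul_nonneg hk hT0, mul_nonneg (mul_nonneg hk (sq_nonneg r)) hT0, mul_nonneg hk (sq_nonneg r), sq_nonneg r]
  have h1 : A + Real.circleAverage (Lam Q d p m F h) 0 r ≤ B + B / 16 * (1 + T) := by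
    have h2 : C₅ * (1 + T + S) ≤ C₅ * (((k : ℝ) + 1) * (1 + r ^ 2) * (1 + T)) := mul_le_mul_of_nonneg_left hTS hC₅.le
    have h3 : C₅ * ((k : ℝ) + 1) * (1 + r ^ 2) * (1 + T) ≤ B / 16 * (1 + T) := mul_le_mul_of_nonneg_right hκ (by linarith)
    have h4 : C₅ * (((k : ℝ) + 1) * (1 + r ^ 2) * (1 + T)) = C₅ * ((k : ℝ) + 1) * (1 + r ^ 2) * (1 + T) := by ring
    rw [h4] at h2
    linarith
  have h2 : T ≤ 16 / 9 / B * (B + B / 16 * (1 + T)) := hTle.trans (mul_le_mul_of_nonneg_left h1 (by positivity))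
  have h3 : 16 / 9 / B * (B + B / 16 * (1 + T)) = 16 / 9 + 1 / 9 * (1 + T) := by
    have hBne : B ≠ 0 := hB0.ne'
    have h4 : 16 / 9 / B * (B + B / 16 * (1 + T)) = (16 / 9 + 1 / 9 * (1 + T)) * (B / B) := by ring
    rw [h4, div_self hBne, mul_one]
  rw [h3] at h2
  have hT4 : T ≤ 4 := by linarith
  refine ⟨hT4, hS.trans ?_, hT'T.trans hT4⟩
  have h4 : (k + 1 : ℝ) * r ^ 2 * T' ≤ (k + 1 : ℝ) * r ^ 2 * 4 := mul_le_mul_of_nonneg_left (hT'T.trans hT4) (by positivity)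
  linarith

theorem nrm_one (hX : IsCone X) (hP : PS X Λ u D p m C) (hQ : QD X Λ u D Q d) : ∃ ε B₀ R₀ : ℝ, 0 < ε ∧ ε ≤ 1 ∧
    ∀ (A R : ℝ) (F : ℂ → EN N) (h : ℂ → Vd (k + 1)), Nrm X Λ u Q d p m ε A R F h → R₀ ≤ R → B₀ ≤ A + Lam Q d p m F h 0 → ‖deriv h 0‖ = 1 := by
  have hC1 := hP.C_ge
  have hC0 : 0 < C := by linarith
  set K : ℝ := Real.exp (2 * m + 4 * C * (k + 1)) with hK
  have hK0 : 0 < K := Real.exp_pos _
  obtain ⟨ε, hεdef⟩ : ∃ ε : ℝ, ε = min 1 (1 / (2 * C * K)) := ⟨_, rfl⟩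
  have hε : 0 < ε := by
    rw [hεdef]
    exact lt_min one_pos (by positivity)
  have hε1 : ε ≤ 1 := by rw [hεdef]; exact min_le_left _ _
  have hε2 : ε * (2 * C * K) ≤ 1 := by
    have h1 : ε ≤ 1 / (2 * C * K) := by rw [hεdef]; exact min_le_right _ _
    rwa [le_div_iff₀ (by positivity)] at h1
  obtain ⟨κ, hκ, hmean⟩ := nrm_mean hX hP hQ hε hε1
  refine ⟨ε, 2 / κ, 2, hε, hε1, ?_⟩
  intro A R F h hN hR hB
  by_contra hcon
  have hone := hN.one
  have hd1 : ‖deriv h 0‖ ≤ 1 := by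
    rw [← hone]
    exact le_max_left _ _
  have hd : ‖deriv h 0‖ < 1 := lt_of_le_of_ne hd1 hcon
  have hF := hN.cv
  have h0m : (0 : ℂ) ∈ ball (0 : ℂ) R := mem_ball_self hN.R_pos
  have hpf : ε * pf p F 0 ^ (1 / (m : ℝ)) = 1 := by
    unfold Mf at hone
    rcases le_total ‖deriv h 0‖ (ε * pf p F 0 ^ (1 / (m : ℝ))) with h1 | h1
    · rwa [max_eq_right h1] at hone
    · rw [max_eq_left h1] at hone
      exact absurd hone hcon
  have hp0 : 0 < pf p F 0 := hN.ok.2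
  have hm : 1 ≤ m := hP.m_pos
  have hm0 : (m : ℝ) ≠ 0 := by exact_mod_cast (by omega : m ≠ 0)
  -- `fs` is large
  have hfs : 1 ≤ ε * (C * fs (F 0) (deriv F 0)) := by
    have hfs0 : 0 ≤ fs (F 0) (deriv F 0) := Pool.Agent.H36.BP.fs_nonneg _ _
    have h1 : pf p F 0 ≤ C * fs (F 0) (deriv F 0) ^ m := hP.le_fs _ (hF.mem 0 h0m) _ (hF.tan isOpen_ball h0m)
    have h2 : C * fs (F 0) (deriv F 0) ^ m ≤ (C * fs (F 0) (deriv F 0)) ^ m := by
      rw [mul_pow]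
      exact mul_le_mul_of_nonneg_right (le_self_pow₀ hC1 (by omega)) (by positivity)
    have h3 : pf p F 0 ^ (1 / (m : ℝ)) ≤ C * fs (F 0) (deriv F 0) := by
      have h4 := Real.rpow_le_rpow hp0.le (h1.trans h2) (by positivity : 0 ≤ 1 / (m : ℝ))
      rw [← Real.rpow_natCast, ← Real.rpow_mul (by positivity), mul_one_div_cancel hm0, Real.rpow_one] at h4
      exact h4
    calc (1 : ℝ) = ε * pf p F 0 ^ (1 / (m : ℝ)) := hpf.symm
      _ ≤ ε * (C * fs (F 0) (deriv F 0)) := mul_le_mul_of_nonneg_left h3 hε.le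
  -- `fs` is bounded
  obtain ⟨h1, h2, -⟩ := hmean A R F h hN 1 one_pos (by nlinarith) (by
    rw [div_le_iff₀ hκ] at hB
    linarith)
  have h1R : (1 : ℝ) < R := by linarith
  have htt := tt_mean hX hP hε hε1 one_pos h1R hF hp0 hone hd
  have hfs2 := fs_le_TT one_pos h1R hF.F_diff fun z hz h3 => hX.zero_notMem (h3 ▸ hF.mem z hz)
  rw [div_one] at hfs2
  have h4 : TT F 0 1 ≤ 2 * m + 4 * C * (k + 1) := by
    refine htt.trans ?_
    have h5 : (m / 2 : ℝ) * Real.circleAverage (fun z => Mf p m ε F h z ^ 2) 0 1 ≤ (m / 2 : ℝ) * 4 := mul_le_mul_of_nonneg_left h1 (by positivity)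
    have h6 : C * Real.circleAverage (fun z => ‖h z - h 0‖ ^ 2) 0 1 ≤ C * (4 * (k + 1) * 1 ^ 2) := mul_le_mul_of_nonneg_left h2 hC0.le
    linarith
  have h5 : fs (F 0) (deriv F 0) ≤ K := hfs2.trans (Real.exp_le_exp.mpr h4)
  have h6 : ε * (C * fs (F 0) (deriv F 0)) ≤ ε * (C * K) := by gcongr
  nlinarith

end Pool.Agent.G3
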