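import Pool.Agent.G3.R.Max
import Pool.Agent.G3.Z.Mean

/-!
# G3 R LamI: the mean of the functional

`lam_int`: `Lq ∘ F` is circle integrable (`lq_mean`, `Z/Mean`).  `Np`: at the points of the circle with `p > 0` (all but finitely many, `hP.isol`): `0 ≤ Np ≤ K - log p`, `K` a bound of
`m log (Mf / ε)` or `0` on the circle (`Np = max (m log ‖h'‖, log p) - log p`, `log p ≤ m log (Mf / ε)`), `log p` is circle integrable (`hP.jensen`), and `Np` is measurable on the circle.

`lam_mean`: pointwise (a.e.) `Np ≤ m log Mf + m log (1/ε) - log p ≤ (m/2) Mf² + m log (1/ε) - log p`; `hP.jensen` gives `- avg log p ≤ - log p (0) - TT + C avg ‖h - h 0‖²`, `lq_mean` gives the term `+ d TT`, and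
`- log p (0) ≤ Np 0` because `Mf 0 = 1` (if `‖h' 0‖ = 1` it is the definition; otherwise `ε p (0) ^ (1/m) = 1`, so `p (0) ≥ 1`).

`tt_mean`: here `p (0) = ε ^ (-m)`; `log p ≤ (m/2) Mf² - m log ε` everywhere on the circle (at zeros of `p` Lean has `log 0 = 0`), `hP.jensen`.
-/

set_option autoImplicit false

open Topology Filter Metric

namespace Pool.Agent.G3

open Pool.Agent.H36.BP (EN fs wd Sub)
open Pool.Agent.H14.PP (IsCone CurveAt Tan)
open Pool.Agent.H62.EF (MN pr)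
open Pool.Agent.AD (Vd Chart Charts)
open Pool.Agent.TG (TMap Lat Geo Gd)

variable {N k : ℕ} {X : Set (EN N)} {Λ : AddSubgroup (Vd (k + 1))} {u : EN N → Vd (k + 1)} {D : Set (Vd (k + 1))} {p : EN N → EN N → ℝ} {m d : ℕ} {C : ℝ} {Q : EN N → ℂ}

/-- the maximum of `0` and a circle integrable function -/
private theorem LamI_max {g : ℂ → ℝ} {r : ℝ} (hg : CircleIntegrable g 0 r) : CircleIntegrable (fun w => max 0 (g w)) 0 r := by
  have h1 : (fun w => max 0 (g w)) = (1 / 2 : ℝ) • (g + |g|) := by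
    funext w
    simp only [Pi.smul_apply, Pi.add_apply, Pi.abs_apply, smul_eq_mul]
    rcases le_total 0 (g w) with h | h
    · rw [max_eq_right h, abs_of_nonneg h]; ring
    · rw [max_eq_left h, abs_of_nonpos h]; ring
  rw [h1]
  exact (hg.add hg.abs).const_smul

/-- almost everywhere on the circle `p > 0` -/
private theorem LamI_ae (hP : PS X Λ u D p m C) {R r : ℝ} (hr : 0 < r) (hR : r < R) {F : ℂ → EN N} {h : ℂ → Vd (k + 1)}
    (hF : Cv X Λ u (ball 0 R) F h) (hp0 : 0 < pf p F 0) : {w | 0 < pf p F w} ∈ codiscreteWithin (sphere (0 : ℂ) |r|) := by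
  have hs : sphere (0 : ℂ) r ⊆ ball 0 R := sphere_subset_closedBall.trans (closedBall_subset_ball hR)
  rw [mem_codiscreteWithin_iff_forall_mem_nhdsNE]
  intro z hz
  rw [abs_of_pos hr] at hz
  have h1 := hP.isol _ F h isOpen_ball hF (convex_ball 0 R).isPreconnected ⟨0, mem_ball_self (hr.trans hR), hp0⟩ z (hs hz)
  filter_upwards [h1] with w hw
  exact Or.inl hw

private theorem LamI_sph (r : ℝ) : sphere (0 : ℂ) |r| ∈ codiscreteWithin (sphere (0 : ℂ) |r|) := by
  rw [mem_codiscreteWithin_iff_forall_mem_nhdsNE]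
  intro z _
  simp

/-- `Np` is circle integrable -/
private theorem LamI_np (hP : PS X Λ u D p m C) {R r : ℝ} (hr : 0 < r) (hR : r < R) {F : ℂ → EN N} {h : ℂ → Vd (k + 1)}
    (hF : Cv X Λ u (ball 0 R) F h) (hp0 : 0 < pf p F 0) : CircleIntegrable (Np p m F h) 0 r := by
  have hU : IsOpen (ball (0 : ℂ) R) := isOpen_ball
  have hcb : closedBall (0 : ℂ) r ⊆ ball 0 R := closedBall_subset_ball hR
  have hs : sphere (0 : ℂ) r ⊆ ball 0 R := sphere_subset_closedBall.trans hcb
  have hr' : |r| = r := abs_of_pos hr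
  have hm : m ≠ 0 := by
    have := hP.m_pos
    omega
  obtain ⟨hj1, -⟩ := hP.jensen _ F h hU hF 0 r hr hcb hp0
  have hdh : DifferentiableOn ℂ (deriv h) (ball 0 R) := hF.h_diff.deriv hU
  have han : AnalyticOnNhd ℂ (deriv h) (ball 0 R) := fun z hz => hdh.analyticAt (hU.mem_nhds hz)
  by_cases hz : ∀ z ∈ ball (0 : ℂ) R, deriv h z = 0
  · have hEq : (fun _ : ℂ => (0 : ℝ)) =ᶠ[codiscreteWithin (sphere (0 : ℂ) |r|)] Np p m F h := by
      filter_upwards [LamI_sph r] with w hws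
      rw [hr'] at hws
      simp [Np, hz w (hs hws), hm]
    exact (circleIntegrable_const (0 : ℝ) 0 r).congr_codiscreteWithin hEq
  · push Not at hz
    obtain ⟨z₁, hz₁, hne₁⟩ := hz
    have hi1 : CircleIntegrable (fun w => Real.log ‖deriv h w‖) 0 r := by
      apply MeromorphicOn.circleIntegrable_log_norm
      rw [hr']
      exact fun z hz => (han z (hs hz)).meromorphicAt
    set g : ℂ → ℝ := fun w => (m : ℝ) • Real.log ‖deriv h w‖ - Real.log (pf p F w) with hg
    have hig : CircleIntegrable g 0 r := (hi1.const_smul (a := (m : ℝ))).sub hj1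
    have hv : {w | deriv h w ≠ 0} ∈ codiscreteWithin (sphere (0 : ℂ) |r|) := by
      rw [mem_codiscreteWithin_iff_forall_mem_nhdsNE]
      intro z hz
      rw [hr'] at hz
      rcases (han z (hs hz)).eventually_eq_zero_or_eventually_ne_zero with h1 | h1
      · exfalso
        exact hne₁ (han.eqOn_zero_of_preconnected_of_eventuallyEq_zero (convex_ball 0 R).isPreconnected (hs hz) h1 hz₁)
      · filter_upwards [h1] with w hw
        exact Or.inl hw
    have hEq : (fun w => max 0 (g w)) =ᶠ[codiscreteWithin (sphere (0 : ℂ) |r|)] Np p m F h := by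
      filter_upwards [LamI_ae hP hr hR hF hp0, hv] with w hw hvw
      have hvw' : 0 < ‖deriv h w‖ := norm_pos_iff.2 hvw
      have h1 : Real.log (pf p F w / ‖deriv h w‖ ^ m) = Real.log (pf p F w) - m * Real.log ‖deriv h w‖ := by
        rw [Real.log_div (ne_of_gt hw) (pow_ne_zero _ hvw'.ne'), Real.log_pow]
      simp only [Np, h1, hg, smul_eq_mul, neg_sub]
    exact (LamI_max hig).congr_codiscreteWithin hEq

theorem lam_int (hX : IsCone X) (hP : PS X Λ u D p m C) (hQ : QD X Λ u D Q d) {R r : ℝ} (hr : 0 < r) (hR : r < R) {F : ℂ → EN N} {h : ℂ → Vd (k + 1)}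
    (hF : Cv X Λ u (ball 0 R) F h) (h0 : Ok Q p F 0) : CircleIntegrable (Lam Q d p m F h) 0 r := by
  have hcb : closedBall (0 : ℂ) r ⊆ ball 0 R := closedBall_subset_ball hR
  obtain ⟨hlq1, -⟩ := lq_mean isOpen_ball hX hF hQ hr hcb h0.1
  have heq : Lam Q d p m F h = fun w => Lq Q d (F w) + (d : ℝ) • Np p m F h w := by
    funext w
    simp [Lam]
  rw [heq]
  exact hlq1.add (LamI_np hP hr hR hF h0.2).const_smul

/-- the bound of `log p` by `Mf` -/
private theorem LamI_logp {ε : ℝ} (hε : 0 < ε) (hm : m ≠ 0) {F : ℂ → EN N} {h : ℂ → Vd (k + 1)} {w : ℂ} (hpw : 0 < pf p F w) :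
    0 < Mf p m ε F h w ∧ Real.log (pf p F w) ≤ m * Real.log (Mf p m ε F h w) - m * Real.log ε := by
  have hm0 : (m : ℝ) ≠ 0 := Nat.cast_ne_zero.2 hm
  have h1 : 0 < pf p F w ^ (1 / (m : ℝ)) := Real.rpow_pos_of_pos hpw _
  have h2 : ε * pf p F w ^ (1 / (m : ℝ)) ≤ Mf p m ε F h w := le_max_right _ _
  have h3 : 0 < ε * pf p F w ^ (1 / (m : ℝ)) := mul_pos hε h1
  refine ⟨h3.trans_le h2, ?_⟩
  have h4 : Real.log (ε * pf p F w ^ (1 / (m : ℝ))) ≤ Real.log (Mf p m ε F h w) := Real.log_le_log h3 h2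
  rw [Real.log_mul hε.ne' h1.ne', Real.log_rpow hpw] at h4
  have h5 := mul_le_mul_of_nonneg_left h4 (Nat.cast_nonneg m : (0 : ℝ) ≤ m)
  have h6 : (m : ℝ) * (Real.log ε + 1 / (m : ℝ) * Real.log (pf p F w)) = m * Real.log ε + Real.log (pf p F w) := by
    field_simp
  linarith

private theorem LamI_logsq {x : ℝ} (hx : 0 < x) : Real.log x ≤ x ^ 2 / 2 := by
  have h1 := Real.log_le_sub_one_of_pos (pow_pos hx 2)
  rw [Real.log_pow] at h1
  push_cast at h1
  linarith

/-- the mean of `Np` -/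
private theorem LamI_npmean (hP : PS X Λ u D p m C) {ε : ℝ} (hε : 0 < ε) (hε1 : ε ≤ 1) {R r : ℝ} (hr : 0 < r) (hR : r < R) {F : ℂ → EN N} {h : ℂ → Vd (k + 1)}
    (hF : Cv X Λ u (ball 0 R) F h) (hp0 : 0 < pf p F 0) : Real.circleAverage (Np p m F h) 0 r ≤
      (m / 2 : ℝ) * Real.circleAverage (fun z => Mf p m ε F h z ^ 2) 0 r - m * Real.log ε - Real.circleAverage (fun w => Real.log (pf p F w)) 0 r := by
  classical
  have hU : IsOpen (ball (0 : ℂ) R) := isOpen_ball
  have hcb : closedBall (0 : ℂ) r ⊆ ball 0 R := closedBall_subset_ball hR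
  have hs : sphere (0 : ℂ) r ⊆ ball 0 R := sphere_subset_closedBall.trans hcb
  have hr' : |r| = r := abs_of_pos hr
  have hm : m ≠ 0 := by
    have := hP.m_pos
    omega
  have hm0 : (0 : ℝ) ≤ m := Nat.cast_nonneg m
  have hlε : Real.log ε ≤ 0 := Real.log_nonpos hε.le hε1
  obtain ⟨hj1, -⟩ := hP.jensen _ F h hU hF 0 r hr hcb hp0
  have hNp := LamI_np hP hr hR hF hp0
  have hMi : CircleIntegrable (fun z => Mf p m ε F h z ^ 2) 0 r :=
    (((mf_cont hP hU hF ε).mono hs).pow 2).circleIntegrable hr.le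
  have hMi2 : CircleIntegrable (fun z => (m / 2 : ℝ) • Mf p m ε F h z ^ 2) 0 r := hMi.const_smul
  set b : ℂ → ℝ := fun w => ((m / 2 : ℝ) • Mf p m ε F h w ^ 2 - m * Real.log ε) - Real.log (pf p F w) with hb
  have hib1 : CircleIntegrable (fun w => (m / 2 : ℝ) • Mf p m ε F h w ^ 2 - m * Real.log ε) 0 r := hMi2.sub (circleIntegrable_const _ 0 r)
  have hib : CircleIntegrable b 0 r := hib1.sub hj1
  have hbav : Real.circleAverage b 0 r =
      (m / 2 : ℝ) * Real.circleAverage (fun z => Mf p m ε F h z ^ 2) 0 r - m * Real.log ε - Real.circleAverage (fun w => Real.log (pf p F w)) 0 r := by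
    rw [hb, Real.circleAverage_fun_sub hib1 hj1, Real.circleAverage_fun_sub hMi2 (circleIntegrable_const _ 0 r), Real.circleAverage_const,
      Real.circleAverage_fun_smul, smul_eq_mul]
  rw [← hbav]
  set g' : ℂ → ℝ := fun w => if 0 < pf p F w then Np p m F h w else b w with hg'
  have hEq' : Np p m F h =ᶠ[codiscreteWithin (sphere (0 : ℂ) |r|)] g' := by
    filter_upwards [LamI_ae hP hr hR hF hp0] with w hw
    simp only [hg']
    rw [if_pos hw]
  rw [Real.circleAverage_congr_codiscreteWithin hEq' hr.ne']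
  refine Real.circleAverage_mono (hNp.congr_codiscreteWithin hEq') hib ?_
  intro w hw
  rw [hr'] at hw
  simp only [hg']
  split_ifs with hpw
  · obtain ⟨hM, hl⟩ := LamI_logp (h := h) hε hm hpw
    have h1 : (m : ℝ) * Real.log (Mf p m ε F h w) ≤ m * (Mf p m ε F h w ^ 2 / 2) := mul_le_mul_of_nonneg_left (LamI_logsq hM) hm0
    have h2 : (m : ℝ) * Real.log ε ≤ 0 := mul_nonpos_of_nonneg_of_nonpos hm0 hlε
    unfold Np
    apply max_le
    · simp only [hb, smul_eq_mul]
      linarith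
    · by_cases hv : deriv h w = 0
      · rw [hv, norm_zero, zero_pow hm, div_zero, Real.log_zero, neg_zero]
        simp only [hb, smul_eq_mul]
        linarith
      · have hvw' : 0 < ‖deriv h w‖ := norm_pos_iff.2 hv
        rw [Real.log_div hpw.ne' (pow_ne_zero _ hvw'.ne'), Real.log_pow]
        have h3 : Real.log ‖deriv h w‖ ≤ Real.log (Mf p m ε F h w) := Real.log_le_log hvw' (le_max_left _ _)
        have h4 := mul_le_mul_of_nonneg_left h3 hm0
        simp only [hb, smul_eq_mul]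
        linarith
  · exact le_rfl

/-- the value at the centre if `‖h' 0‖ ≠ 1` -/
private theorem LamI_cen {ε : ℝ} (hε : 0 < ε) (hm : m ≠ 0) {F : ℂ → EN N} {h : ℂ → Vd (k + 1)} (hp0 : 0 < pf p F 0)
    (h1 : ε * pf p F 0 ^ (1 / (m : ℝ)) = 1) : Real.log (pf p F 0) = -(m * Real.log ε) := by
  have hm0 : (m : ℝ) ≠ 0 := Nat.cast_ne_zero.2 hm
  have h2 : 0 < pf p F 0 ^ (1 / (m : ℝ)) := Real.rpow_pos_of_pos hp0 _
  have h3 := congrArg Real.log h1
  rw [Real.log_mul hε.ne' h2.ne', Real.log_rpow hp0, Real.log_one] at h3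
  have h4 : (m : ℝ) * (Real.log ε + 1 / (m : ℝ) * Real.log (pf p F 0)) = m * Real.log ε + Real.log (pf p F 0) := by
    field_simp
  rw [h3, mul_zero] at h4
  linarith

theorem lam_mean (hX : IsCone X) (hP : PS X Λ u D p m C) (hQ : QD X Λ u D Q d) {ε : ℝ} (hε : 0 < ε) (hε1 : ε ≤ 1) : ∃ C₅ : ℝ, 0 < C₅ ∧
    ∀ (R r : ℝ) (F : ℂ → EN N) (h : ℂ → Vd (k + 1)), 0 < r → r < R → Cv X Λ u (ball 0 R) F h → Ok Q p F 0 → Mf p m ε F h 0 = 1 →
      Real.circleAverage (Lam Q d p m F h) 0 r ≤ Lam Q d p m F h 0 +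
        C₅ * (1 + Real.circleAverage (fun z => Mf p m ε F h z ^ 2) 0 r + Real.circleAverage (fun z => ‖h z - h 0‖ ^ 2) 0 r) := by
  have hm : m ≠ 0 := by
    have := hP.m_pos
    omega
  have hm0 : (0 : ℝ) ≤ m := Nat.cast_nonneg m
  have hd0 : (0 : ℝ) ≤ d := Nat.cast_nonneg d
  have hC0 : 0 ≤ C := by linarith [hP.C_ge]
  have hlε : Real.log ε ≤ 0 := Real.log_nonpos hε.le hε1
  have hme : 0 ≤ -(m * Real.log ε) := by
    have := mul_nonpos_of_nonneg_of_nonpos hm0 hlε
    linarith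
  refine ⟨d * (m / 2 + -(m * Real.log ε) + C) + 1, by positivity, ?_⟩
  intro R r F h hr hR hF hOk hM1
  have hcb : closedBall (0 : ℂ) r ⊆ ball 0 R := closedBall_subset_ball hR
  obtain ⟨hQ0, hp0⟩ := hOk
  obtain ⟨hlq1, hlq2⟩ := lq_mean isOpen_ball hX hF hQ hr hcb hQ0
  obtain ⟨hj1, hj2⟩ := hP.jensen _ F h isOpen_ball hF 0 r hr hcb hp0
  have hNp := LamI_np hP hr hR hF hp0
  have hav := LamI_npmean hP hε hε1 hr hR hF hp0
  -- the centre
  have hcen : -Real.log (pf p F 0) ≤ Np p m F h 0 := by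
    rcases max_choice ‖deriv h 0‖ (ε * pf p F 0 ^ (1 / (m : ℝ))) with h1 | h1
    · have h2 : ‖deriv h 0‖ = 1 := by
        rw [← h1]
        exact hM1
      unfold Np
      rw [h2, one_pow, div_one]
      exact le_max_right _ _
    · have h2 : ε * pf p F 0 ^ (1 / (m : ℝ)) = 1 := by
        rw [← h1]
        exact hM1
      have h3 := LamI_cen (F := F) (h := h) hε hm hp0 h2
      have h4 : 0 ≤ Np p m F h 0 := le_max_left _ _
      linarith
  have heq : Lam Q d p m F h = fun w => Lq Q d (F w) + (d : ℝ) • Np p m F h w := by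
    funext w
    simp [Lam]
  have hiN : CircleIntegrable (fun w => (d : ℝ) • Np p m F h w) 0 r := hNp.const_smul
  have hA : 0 ≤ Real.circleAverage (fun z => Mf p m ε F h z ^ 2) 0 r :=
    Real.circleAverage_nonneg_of_nonneg fun z _ => sq_nonneg _
  have hB : 0 ≤ Real.circleAverage (fun z => ‖h z - h 0‖ ^ 2) 0 r :=
    Real.circleAverage_nonneg_of_nonneg fun z _ => sq_nonneg _
  rw [heq, Real.circleAverage_fun_add hlq1 hiN, Real.circleAverage_fun_smul]
  simp only [smul_eq_mul]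
  set A := Real.circleAverage (fun z => Mf p m ε F h z ^ 2) 0 r
  set B := Real.circleAverage (fun z => ‖h z - h 0‖ ^ 2) 0 r
  have h5 : Real.circleAverage (Np p m F h) 0 r ≤ Np p m F h 0 + ((m / 2 : ℝ) * A + -(m * Real.log ε) + C * B) - TT F 0 r := by
    linarith
  have h6 := mul_le_mul_of_nonneg_left h5 hd0
  have h7 : (d : ℝ) * ((m / 2 : ℝ) * A + -(m * Real.log ε) + C * B) ≤ (d * (m / 2 + -(m * Real.log ε) + C) + 1) * (1 + A + B) := by
    have e1 : 0 ≤ (d : ℝ) * (m / 2) := by positivity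
    have e2 : 0 ≤ (d : ℝ) * -(m * Real.log ε) := mul_nonneg hd0 hme
    have e3 : 0 ≤ (d : ℝ) * C := mul_nonneg hd0 hC0
    nlinarith [mul_nonneg e1 hA, mul_nonneg e1 hB, mul_nonneg e2 hA, mul_nonneg e2 hB, mul_nonneg e3 hA, mul_nonneg e3 hB]
  nlinarith [h6, h7, hlq2]

theorem tt_mean (hX : IsCone X) (hP : PS X Λ u D p m C) {ε : ℝ} (hε : 0 < ε) (hε1 : ε ≤ 1) {R r : ℝ} (hr : 0 < r) (hR : r < R) {F : ℂ → EN N} {h : ℂ → Vd (k + 1)}
    (hF : Cv X Λ u (ball 0 R) F h) (h0 : 0 < pf p F 0) (h1 : Mf p m ε F h 0 = 1) (hh : ‖deriv h 0‖ < 1) :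
    TT F 0 r ≤ (m / 2 : ℝ) * Real.circleAverage (fun z => Mf p m ε F h z ^ 2) 0 r + C * Real.circleAverage (fun z => ‖h z - h 0‖ ^ 2) 0 r := by
  have hU : IsOpen (ball (0 : ℂ) R) := isOpen_ball
  have hcb : closedBall (0 : ℂ) r ⊆ ball 0 R := closedBall_subset_ball hR
  have hs : sphere (0 : ℂ) r ⊆ ball 0 R := sphere_subset_closedBall.trans hcb
  have hr' : |r| = r := abs_of_pos hr
  have hm : m ≠ 0 := by
    have := hP.m_pos
    omega
  have hm0 : (0 : ℝ) ≤ m := Nat.cast_nonneg m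
  have hlε : Real.log ε ≤ 0 := Real.log_nonpos hε.le hε1
  have hme := mul_nonpos_of_nonneg_of_nonpos hm0 hlε
  obtain ⟨hj1, hj2⟩ := hP.jensen _ F h hU hF 0 r hr hcb h0
  have hc : ε * pf p F 0 ^ (1 / (m : ℝ)) = 1 := by
    rcases max_choice ‖deriv h 0‖ (ε * pf p F 0 ^ (1 / (m : ℝ))) with h2 | h2
    · exfalso
      have h3 : ‖deriv h 0‖ = 1 := by
        rw [← h2]
        exact h1
      linarith
    · rw [← h2]
      exact h1
  have hlog := LamI_cen (F := F) (h := h) hε hm h0 hc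
  have hMi : CircleIntegrable (fun z => Mf p m ε F h z ^ 2) 0 r :=
    (((mf_cont hP hU hF ε).mono hs).pow 2).circleIntegrable hr.le
  have hMi2 : CircleIntegrable (fun z => (m / 2 : ℝ) • Mf p m ε F h z ^ 2) 0 r := hMi.const_smul
  have hle : Real.circleAverage (fun w => Real.log (pf p F w)) 0 r ≤
      (m / 2 : ℝ) * Real.circleAverage (fun z => Mf p m ε F h z ^ 2) 0 r - m * Real.log ε := by
    have h2 : Real.circleAverage (fun w => (m / 2 : ℝ) • Mf p m ε F h w ^ 2 - m * Real.log ε) 0 r =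
        (m / 2 : ℝ) * Real.circleAverage (fun z => Mf p m ε F h z ^ 2) 0 r - m * Real.log ε := by
      rw [Real.circleAverage_fun_sub hMi2 (circleIntegrable_const _ 0 r), Real.circleAverage_const, Real.circleAverage_fun_smul, smul_eq_mul]
    rw [← h2]
    refine Real.circleAverage_mono hj1 (hMi2.sub (circleIntegrable_const _ 0 r)) ?_
    intro w hw
    rw [hr'] at hw
    simp only [smul_eq_mul]
    by_cases hpw : 0 < pf p F w
    · obtain ⟨hM, hl⟩ := LamI_logp (h := h) hε hm hpw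
      have h3 : (m : ℝ) * Real.log (Mf p m ε F h w) ≤ m * (Mf p m ε F h w ^ 2 / 2) := mul_le_mul_of_nonneg_left (LamI_logsq hM) hm0
      linarith
    · have h3 : pf p F w = 0 := le_antisymm (not_lt.1 hpw) (hP.nonneg _ _)
      rw [h3, Real.log_zero]
      have h4 : 0 ≤ (m / 2 : ℝ) * Mf p m ε F h w ^ 2 := by positivity
      linarith
  linarith

end Pool.Agent.G3
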