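import Pool.Agent.G3.R.ShtF
import Pool.Agent.G3.A.GeoC

/-!
# G3 R Md: from the core to all good points

Let the divided differences of the orders `≤ m` be bounded (`DDb`).  If those of order `m + 1`, for nodes `σ` of size `≤ r`, are at most `Nb` (`Nb ≥ 1`) over the core, then they are at most `K Nb` over `Gd D δ'`.
PROOF.  `Md_loc`: the statement for the points `y` near a point `y₀` of `T ∩ Gd D δ'`; then compactness and translations (`Shs.red`).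
`G₀` an honest lift of `φ (y₀ + z a)`, `v₀ = G₀ 0 / ‖G₀ 0‖`.  `LC.thick` at `y₀`: `r` with `y' + z a ∈ Co D Bad δ ρ` for `‖y' - y₀‖ ≤ δ`, `|‖z‖ - r| ≤ δ`.  The zeros of `z ↦ ⟨v₀, G₀ z⟩` are isolated, so there is `r'`,
`r < r' < r + δ`, with `⟨v₀, G₀ z⟩ ≠ 0` for `‖z‖ = r'` (`Md_circle`).  `NL`: lifts `F i` on `ball 0 2` of `z ↦ φ (y + σ i w + z a)`, `i ≤ m + 1`, `‖F‖ ≤ 1`, `‖F‖ ≥ c` over `Gd D δ''`.
`V z = ∑ i, dw (m + 1) σ i • (∏ j ≠ i, ⟨v₀, F j z⟩) • F i z` is holomorphic on `ball 0 2`, and `V z = (∏ j, ⟨v₀, F j z⟩) • dd (m + 1) σ (s ↦ nv v₀ (φ (y + s w + z a)))` where all factors are `≠ 0` (`Md_alg`).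
On the circle `‖z‖ = r'` (`|⟨v₀, F i z⟩| ≥ κ ‖F i z‖`, `Md_inner`): `‖V z‖ ≤ K₁ (Nb + 1)` by `dd_nv` (from a unit vector `v'` with `pr v' = φ (y + z a)`, `Md_chg`); maximum principle; at `0` the
factors are `≥ c / 2`: the divided difference at `y` in the chart `nv v₀` is `≤ K₂ (Nb + 1)`, and `dd_nv` gives the chart `nv v`.
-/

set_option autoImplicit false

open Topology Filter Metric

namespace Pool.Agent.G3.R

open Pool.Agent.H36.BP (EN fs wd)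
open Pool.Agent.H14.PP (IsCone CurveAt Tan)
open Pool.Agent.H62.EF (MN pr pr_smul)
open Pool.Agent.AD (Vd Chart Charts IsGerm)
open Pool.Agent.TG
open Pool.Agent.G3.C (Gc HP nv nd nv_pr)
open Pool.Agent.G3.A

variable {N k : ℕ} {X : Set (EN N)} {Λ : AddSubgroup (Vd (k + 1))} {u : EN N → Vd (k + 1)} {D B Bad : Set (Vd (k + 1))} {a b w : Vd (k + 1)} {E : Submodule ℝ (Vd (k + 1))}
  {SS : Set (Vd (k + 1) → MN N)} {J : ℕ} {α : Fin J → VForm X Λ u} {c₀ C₀ ρ δ : ℝ}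

/-- a circle without zeros -/
private theorem Md_circle {g : ℂ → ℂ} (hg : Differentiable ℂ g) (h0 : g 0 ≠ 0) {r₁ r₂ : ℝ} (h12 : r₁ < r₂) :
    ∃ r : ℝ, r₁ < r ∧ r < r₂ ∧ ∀ z : ℂ, ‖z‖ = r → g z ≠ 0 := by
  have hZ : {z : ℂ | g z = 0}.Countable := by
    have hd : DiscreteTopology {z : ℂ | g z = 0} := by
      rw [discreteTopology_subtype_iff]
      intro z hz
      rw [Filter.inf_principal_eq_bot]
      rcases (hg.analyticAt z).eventually_eq_zero_or_eventually_ne_zero with h | h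
      · exfalso
        have h2 : AnalyticOnNhd ℂ g Set.univ := fun w _ => hg.analyticAt w
        have h3 := h2.eqOn_zero_of_preconnected_of_eventuallyEq_zero isPreconnected_univ (Set.mem_univ z) h
        exact h0 (h3 (Set.mem_univ 0))
      · filter_upwards [h] with w hw hw2
        exact hw hw2
    rw [← Set.countable_coe_iff]
    exact countable_of_Lindelof_of_discrete
  have h1 : ((fun z : ℂ => ‖z‖) '' {z : ℂ | g z = 0}).Countable := hZ.image _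
  have h2 : ¬ (Set.Ioo r₁ r₂).Countable := by
    intro h
    have := Cardinal.mk_Ioo_real h12
    have h4 := Cardinal.le_aleph0_iff_set_countable.2 h
    rw [this] at h4
    exact absurd h4 (not_le.2 Cardinal.aleph0_lt_continuum)
  have h3 : ∃ r ∈ Set.Ioo r₁ r₂, r ∉ (fun z : ℂ => ‖z‖) '' {z : ℂ | g z = 0} := by
    by_contra hcon
    push Not at hcon
    exact h2 (h1.mono fun r hr => hcon r hr)
  obtain ⟨r, hr, hr2⟩ := h3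
  exact ⟨r, hr.1, hr.2, fun z hz hgz => hr2 ⟨z, hgz, hz⟩⟩

/-- common denominators -/
private theorem Md_alg {m : ℕ} {σ : ℕ → ℝ} {g : ℝ → EN N} {F : ℕ → EN N} {c : ℕ → ℂ} (hc : ∀ i ≤ m, c i ≠ 0) (hg : ∀ i ≤ m, g (σ i) = (c i)⁻¹ • F i) :
    ∑ i ∈ Finset.range (m + 1), ((dw m σ i : ℝ) : ℂ) • (∏ j ∈ (Finset.range (m + 1)).erase i, c j) • F i = (∏ j ∈ Finset.range (m + 1), c j) • dd m σ g := by
  unfold dd
  rw [Finset.smul_sum]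
  refine Finset.sum_congr rfl fun i hi => ?_
  have hi' : i ≤ m := Nat.lt_succ_iff.1 (Finset.mem_range.1 hi)
  rw [hg i hi', ← Finset.mul_prod_erase _ _ hi, smul_smul, smul_smul, smul_smul]
  congr 1
  have := hc i hi'
  field_simp

/-- the inner product with a vector of a near line -/
private theorem Md_inner {κ : ℝ} (hκ : 0 < κ) : ∃ ε : ℝ, 0 < ε ∧ ∀ v₀ : EN N, ‖v₀‖ = 1 → ∀ g : EN N, g ≠ 0 → κ * ‖g‖ ≤ ‖(inner ℂ v₀ g : ℂ)‖ →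
    ∀ x : EN N, x ≠ 0 → dist (pr x) (pr g) ≤ ε → κ / 2 * ‖x‖ ≤ ‖(inner ℂ v₀ x : ℂ)‖ := by
  obtain ⟨ε, hε, h⟩ := exists_unit_near (N := N) (η := κ / 2) (by positivity)
  refine ⟨ε, hε, fun v₀ hv₀ g hg hgκ x hx hd => ?_⟩
  have hgn : 0 < ‖g‖ := norm_pos_iff.2 hg
  set v : EN N := ((‖g‖⁻¹ : ℝ) : ℂ) • g with hv
  have hcne : ((‖g‖⁻¹ : ℝ) : ℂ) ≠ 0 := by exact_mod_cast inv_ne_zero hgn.ne'
  have hv1 : ‖v‖ = 1 := by rw [hv, norm_smul, Complex.norm_real, norm_inv, norm_norm, inv_mul_cancel₀ hgn.ne']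
  have hpv : pr v = pr g := pr_smul g hcne
  obtain ⟨c, hc, hc1, hc2⟩ := h v hv1 x hx (by rw [hpv]; exact hd)
  have h1 : κ ≤ ‖(inner ℂ v₀ v : ℂ)‖ := by
    rw [hv, inner_smul_right, norm_mul, Complex.norm_real, norm_inv, norm_norm, inv_mul_eq_div, le_div_iff₀ hgn]
    exact hgκ
  have h2 : ‖(inner ℂ v₀ v - inner ℂ v₀ (c • x) : ℂ)‖ ≤ κ / 2 := by
    rw [← inner_sub_right]
    refine (norm_inner_le_norm _ _).trans ?_
    rw [hv₀, one_mul, norm_sub_rev]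
    exact hc2.le
  have h3 : κ / 2 ≤ ‖(inner ℂ v₀ (c • x) : ℂ)‖ := by
    have h4 := norm_le_norm_add_norm_sub' (inner ℂ v₀ v : ℂ) (inner ℂ v₀ (c • x))
    linarith
  rw [inner_smul_right, norm_mul] at h3
  rw [norm_smul] at hc1
  have h5 : κ / 2 * ‖x‖ ≤ ‖c‖ * ‖(inner ℂ v₀ x : ℂ)‖ * ‖x‖ := mul_le_mul_of_nonneg_right h3 (norm_nonneg x)
  calc κ / 2 * ‖x‖ ≤ ‖c‖ * ‖(inner ℂ v₀ x : ℂ)‖ * ‖x‖ := h5
    _ = (‖c‖ * ‖x‖) * ‖(inner ℂ v₀ x : ℂ)‖ := by ring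
    _ = ‖(inner ℂ v₀ x : ℂ)‖ := by rw [hc1, one_mul]

/-- the bound for the divided differences of the orders `≤ m`, with the same constants -/
private theorem Md_low {m : ℕ} (hm : ∀ j ≤ m, DDb D (Tb b E) SS w j) {δ' : ℝ} (hδ' : 0 < δ') : ∃ r C : ℝ, 0 < r ∧ 0 ≤ C ∧ ∀ j ≤ m, ∀ φ ∈ SS, ∀ y ∈ Tb b E, y ∈ Gd D δ' →
    ∀ v : EN N, ‖v‖ = 1 → pr v = φ y → ∀ σ : ℕ → ℝ, Nod j σ r → ‖dd j σ fun s : ℝ => nv v (φ (y + (s : ℂ) • w))‖ ≤ C := by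
  induction m with
  | zero =>
    obtain ⟨r, C, hr, hC, h⟩ := hm 0 le_rfl δ' hδ'
    refine ⟨r, C, hr, hC, fun j hj => ?_⟩
    obtain rfl : j = 0 := Nat.le_zero.1 hj
    exact h
  | succ m ih =>
    obtain ⟨r₁, C₁, hr₁, hC₁, h₁⟩ := ih fun j hj => hm j (hj.trans (Nat.le_succ m))
    obtain ⟨r₂, C₂, hr₂, hC₂, h₂⟩ := hm (m + 1) le_rfl δ' hδ'
    refine ⟨min r₁ r₂, max C₁ C₂, lt_min hr₁ hr₂, hC₁.trans (le_max_left _ _), fun j hj φ hφ y hy hyD v hv hpv σ hσ => ?_⟩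
    rcases Nat.le_succ_iff.1 hj with hj | hj
    · exact (h₁ j hj φ hφ y hy hyD v hv hpv σ (hσ.mono le_rfl (min_le_left _ _))).trans (le_max_left _ _)
    · subst hj
      exact (h₂ φ hφ y hy hyD v hv hpv σ (hσ.mono le_rfl (min_le_right _ _))).trans (le_max_right _ _)

/-- the change of the chart at the point `y` -/
private theorem Md_chg (S : DA X Λ u D B Bad a α c₀ C₀ ρ δ) (hS : Shs X Λ u D a b E SS) (hw : w ∈ E) {m : ℕ} (hm : ∀ j ≤ m, DDb D (Tb b E) SS w j) {δ' κ : ℝ} (hδ' : 0 < δ')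
    (hκ : 0 < κ) : ∃ r K : ℝ, 0 < r ∧ 0 < K ∧ ∀ φ ∈ SS, ∀ y ∈ Tb b E, y ∈ Gd D δ' → ∀ v' : EN N, ‖v'‖ = 1 → pr v' = φ y → ∀ v : EN N, ‖v‖ = 1 → κ ≤ ‖(inner ℂ v v' : ℂ)‖ →
      ∀ σ : ℕ → ℝ, Nod (m + 1) σ r → (∀ j ≤ m, ‖dd j σ fun s : ℝ => nv v (φ (y + (s : ℂ) • w))‖ ≤ K) ∧
        ‖dd (m + 1) σ fun s : ℝ => nv v (φ (y + (s : ℂ) • w))‖ ≤ K * (‖dd (m + 1) σ fun s : ℝ => nv v' (φ (y + (s : ℂ) • w))‖ + 1) := by
  obtain ⟨r₁, C₁, hr₁, hC₁, h₁⟩ := Md_low hm hδ'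
  obtain ⟨r₂, K, ε, hr₂, hK, hε, h₂⟩ := dd_nv (N := N) m hκ hC₁
  obtain ⟨r₃, hr₃, h₃⟩ := hS.unif S.lg hδ' hε
  have hw1 : 0 < ‖w‖ + 1 := by positivity
  refine ⟨min r₁ (min r₂ (r₃ / (‖w‖ + 1))), K, lt_min hr₁ (lt_min hr₂ (by positivity)), hK, fun φ hφ y hy hyD v' hv' hpv' v hv hvv σ hσ => ?_⟩
  have hσ1 : Nod (m + 1) σ r₁ := hσ.mono le_rfl (min_le_left _ _)
  have hσ2 : Nod (m + 1) σ r₂ := hσ.mono le_rfl ((min_le_right _ _).trans (min_le_left _ _))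
  have hσ3 : Nod (m + 1) σ (r₃ / (‖w‖ + 1)) := hσ.mono le_rfl ((min_le_right _ _).trans (min_le_right _ _))
  refine h₂ v v' hv hv' hvv σ (fun s : ℝ => φ (y + (s : ℂ) • w)) hσ2 (fun i hi => ?_) fun j hj => h₁ j hj φ hφ y hy hyD v' hv' hpv' σ (hσ1.mono (hj.trans (Nat.le_succ m)) le_rfl)
  have hyi : y + ((σ i : ℝ) : ℂ) • w ∈ Tb b E := tb_add hy (smul_mem_E hw _)
  obtain ⟨x, hxX, hpx, -⟩ := hS.fb hφ hyi
  refine ⟨x, fun h0 => S.geo.cone.zero_notMem (h0 ▸ hxX), hpx.symm, ?_⟩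
  rw [hpx, hpv']
  refine h₃ φ hφ y hy hyD _ hyi ?_
  have e : y + ((σ i : ℝ) : ℂ) • w - y = ((σ i : ℝ) : ℂ) • w := by abel
  rw [e, norm_smul, Complex.norm_real, Real.norm_eq_abs]
  have h4 := hσ3.le i hi
  rw [le_div_iff₀ hw1] at h4
  have := abs_nonneg (σ i)
  nlinarith [norm_nonneg w]

/-- the statement for the points near `y₀` -/
private theorem Md_loc (S : DA X Λ u D B Bad a α c₀ C₀ ρ δ) (hS : Shs X Λ u D a b E SS) (hw : w ∈ E) {m : ℕ} (hm : ∀ j ≤ m, DDb D (Tb b E) SS w j) {δ' : ℝ} (hδ' : 0 < δ')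
    {φ : Vd (k + 1) → MN N} (hφ : φ ∈ SS) {y₀ : Vd (k + 1)} (hy₀ : y₀ ∈ Tb b E) (hy₀D : y₀ ∈ Gd D δ') :
    ∃ ε r K : ℝ, 0 < ε ∧ 0 < r ∧ 0 < K ∧ ∀ (σ : ℕ → ℝ) (Nb : ℝ), Nod (m + 1) σ r → 1 ≤ Nb →
      (∀ φ ∈ SS, ∀ y ∈ Tb b E, y ∈ Co D Bad δ ρ → ∀ v : EN N, ‖v‖ = 1 → pr v = φ y → ‖dd (m + 1) σ fun s : ℝ => nv v (φ (y + (s : ℂ) • w))‖ ≤ Nb) →
      ∀ y ∈ Tb b E, ‖y - y₀‖ ≤ ε → ∀ v : EN N, ‖v‖ = 1 → pr v = φ y → ‖dd (m + 1) σ fun s : ℝ => nv v (φ (y + (s : ℂ) • w))‖ ≤ K * Nb := by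
  obtain ⟨rc, hrc0, hrc2, hthick⟩ := S.lc.thick y₀
  obtain ⟨G₀, ⟨hG₀d, hG₀X, -⟩, hG₀e⟩ := (hS.sht φ hφ).line y₀ hy₀
  have hG₀0 : ∀ z, G₀ z ≠ 0 := fun z h0 => S.geo.cone.zero_notMem (h0 ▸ hG₀X z)
  have hG₀n : 0 < ‖G₀ 0‖ := norm_pos_iff.2 (hG₀0 0)
  have hφG : ∀ z : ℂ, φ (y₀ + z • a) = pr (G₀ z) := fun z => congrFun hG₀e z
  set v₀ : EN N := ((‖G₀ 0‖⁻¹ : ℝ) : ℂ) • G₀ 0 with hv₀
  have hcne : ((‖G₀ 0‖⁻¹ : ℝ) : ℂ) ≠ 0 := by exact_mod_cast inv_ne_zero hG₀n.ne'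
  have hv₀1 : ‖v₀‖ = 1 := by rw [hv₀, norm_smul, Complex.norm_real, norm_inv, norm_norm, inv_mul_cancel₀ hG₀n.ne']
  have hv₀ne : v₀ ≠ 0 := norm_pos_iff.1 (by rw [hv₀1]; exact one_pos)
  have hpv₀ : pr v₀ = φ y₀ := by
    rw [hv₀, pr_smul _ hcne, ← hφG 0, zero_smul, add_zero]
  -- the circle
  have hgd : Differentiable ℂ fun z : ℂ => (inner ℂ v₀ (G₀ z) : ℂ) := (innerSL ℂ v₀).differentiable.comp hG₀d
  have hg0 : (inner ℂ v₀ (G₀ 0) : ℂ) ≠ 0 := by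
    rw [hv₀, inner_smul_left, inner_self_eq_norm_sq_to_K]
    refine mul_ne_zero ?_ ?_
    · rw [Complex.conj_ofReal]
      exact hcne
    · exact pow_ne_zero 2 (RCLike.ofReal_ne_zero.2 hG₀n.ne')
  obtain ⟨r', hr'1, hr'2, hr'0⟩ := Md_circle hgd hg0 (lt_add_of_pos_right rc S.lc.δ_pos)
  have hr'pos : 0 < r' := hrc0.trans hr'1
  have hδpos := S.lc.δ_pos
  have hr'le : r' < 1 := by
    have h1 := S.lc.ρ_le
    have h2 := S.lc.δ_le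
    linarith
  have habs : ∀ z : ℂ, ‖z‖ = r' → |‖z‖ - rc| ≤ δ := by
    intro z hz
    rw [hz, abs_of_pos (by linarith)]
    linarith
  obtain ⟨κ₀, hκ₀, hκ₀2⟩ : ∃ κ₀ : ℝ, 0 < κ₀ ∧ ∀ z ∈ sphere (0 : ℂ) r', κ₀ ≤ ‖(inner ℂ v₀ (G₀ z) : ℂ)‖ / ‖G₀ z‖ := by
    refine (isCompact_sphere (0 : ℂ) r').exists_forall_le' ?_ ?_
    · exact (hgd.continuous.norm.div₀ hG₀d.continuous.norm fun z => (norm_pos_iff.2 (hG₀0 z)).ne').continuousOn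
    · intro z hz
      rw [mem_sphere_zero_iff_norm] at hz
      exact div_pos (norm_pos_iff.2 (hr'0 z hz)) (norm_pos_iff.2 (hG₀0 z))
  -- the constants
  obtain ⟨ε₁, hε₁, hin⟩ := Md_inner (N := N) hκ₀
  obtain ⟨ε₂, hε₂, hin2⟩ := Md_inner (N := N) (κ := 1) one_pos
  obtain ⟨r₁, K₁, hr₁, hK₁, hchg⟩ := Md_chg S hS hw hm (δ' := 2 * δ) (κ := κ₀ / 2) (by positivity) (by positivity)
  obtain ⟨r₂, K₂, hr₂, hK₂, hchg2⟩ := Md_chg S hS hw hm (δ' := δ' / 2) (κ := 1 / 2) (by positivity) (by norm_num)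
  obtain ⟨r₃, K₃, ε₃, hr₃, hK₃, hε₃, hnv⟩ := dd_nv (N := N) m (κ := 1 / 2) (C := K₂) (by norm_num) hK₂.le
  obtain ⟨r₄, hr₄, hun⟩ := hS.unif S.lg (δ' := 2 * δ) (η := ε₁) (by positivity) hε₁
  obtain ⟨r₅, hr₅, hun0⟩ := hS.unif S.lg hδ' (η := min ε₂ ε₃) (lt_min hε₂ hε₃)
  obtain ⟨c, hc, hnl⟩ := S.nl (δ' / 2) (by positivity)
  obtain ⟨ε, hε, hεδ, hεδ', hε4, hε5⟩ : ∃ ε : ℝ, 0 < ε ∧ ε ≤ δ ∧ 2 * ε ≤ δ' / 2 ∧ 2 * ε ≤ r₄ ∧ 2 * ε ≤ r₅ := by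
    refine ⟨min δ (min (δ' / 4) (min (r₄ / 2) (r₅ / 2))), by positivity, min_le_left _ _, ?_, ?_, ?_⟩
    · have := (min_le_right δ (min (δ' / 4) (min (r₄ / 2) (r₅ / 2)))).trans (min_le_left _ _)
      linarith
    · have := (min_le_right δ (min (δ' / 4) (min (r₄ / 2) (r₅ / 2)))).trans ((min_le_right _ _).trans (min_le_left _ _))
      linarith
    · have := (min_le_right δ (min (δ' / 4) (min (r₄ / 2) (r₅ / 2)))).trans ((min_le_right _ _).trans (min_le_right _ _))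
      linarith
  have hw1 : 0 < ‖w‖ + 1 := by positivity
  refine ⟨ε, min (min r₁ r₂) (min r₃ (ε / (‖w‖ + 1))), K₃ * ((2 / c) ^ (m + 2) * (K₁ * 2) + 1), hε, by positivity, by positivity, fun σ Nb hσ hNb hcore y hy hyy v hv hpv => ?_⟩
  have hσ1 : Nod (m + 1) σ r₁ := hσ.mono le_rfl ((min_le_left _ _).trans (min_le_left _ _))
  have hσ2 : Nod (m + 1) σ r₂ := hσ.mono le_rfl ((min_le_left _ _).trans (min_le_right _ _))
  have hσ3 : Nod (m + 1) σ r₃ := hσ.mono le_rfl ((min_le_right _ _).trans (min_le_left _ _))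
  have hσ4 : Nod (m + 1) σ (ε / (‖w‖ + 1)) := hσ.mono le_rfl ((min_le_right _ _).trans (min_le_right _ _))
  have hσw : ∀ i ≤ m + 1, ‖((σ i : ℝ) : ℂ) • w‖ ≤ ε := by
    intro i hi
    rw [norm_smul, Complex.norm_real, Real.norm_eq_abs]
    have h4 := hσ4.le i hi
    rw [le_div_iff₀ hw1] at h4
    have := abs_nonneg (σ i)
    nlinarith [norm_nonneg w]
  have hyi : ∀ i : ℕ, y + ((σ i : ℝ) : ℂ) • w ∈ Tb b E := fun i => tb_add hy (smul_mem_E hw _)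
  have hyiz : ∀ (i : ℕ) (z : ℂ), y + ((σ i : ℝ) : ℂ) • w + z • a ∈ Tb b E := fun i z => tb_add (hyi i) (hS.mem z)
  have hnear : ∀ i ≤ m + 1, ‖y + ((σ i : ℝ) : ℂ) • w - y₀‖ ≤ 2 * ε := by
    intro i hi
    have e : y + ((σ i : ℝ) : ℂ) • w - y₀ = (y - y₀) + ((σ i : ℝ) : ℂ) • w := by abel
    rw [e]
    refine (norm_add_le _ _).trans ?_
    linarith [hσw i hi]
  choose F hFd hF1 hFc using fun i : ℕ => hnl (y + ((σ i : ℝ) : ℂ) • w) (fun z : ℂ => φ (y + ((σ i : ℝ) : ℂ) • w + z • a)) ((hS.sht φ hφ).line _ (hyi i)) 0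
  have hF0 : ∀ (i : ℕ) (z : ℂ), z ∈ ball (0 : ℂ) 2 → F i z ≠ 0 := fun i z hz h0 => S.geo.cone.zero_notMem (h0 ▸ (hF1 i z hz).1)
  set V : ℂ → EN N := fun z => ∑ i ∈ Finset.range (m + 1 + 1), ((dw (m + 1) σ i : ℝ) : ℂ) • (∏ j ∈ (Finset.range (m + 1 + 1)).erase i, (inner ℂ v₀ (F j z) : ℂ)) • F i z with hV
  have hVeq : ∀ z ∈ ball (0 : ℂ) 2, (∀ i ≤ m + 1, (inner ℂ v₀ (F i z) : ℂ) ≠ 0) →
      V z = (∏ j ∈ Finset.range (m + 1 + 1), (inner ℂ v₀ (F j z) : ℂ)) • dd (m + 1) σ fun s : ℝ => nv v₀ (φ (y + z • a + (s : ℂ) • w)) := by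
    intro z hz hne
    refine Md_alg hne fun i hi => ?_
    have e : y + z • a + ((σ i : ℝ) : ℂ) • w = y + ((σ i : ℝ) : ℂ) • w + z • a := by abel
    have h1 : φ (y + z • a + ((σ i : ℝ) : ℂ) • w) = pr (F i z) := by
      rw [e]
      exact (hF1 i z hz).2.1
    simp only [h1]
    exact nv_pr (hne i hi)
  have hVd : DifferentiableOn ℂ V (ball 0 2) := by
    have hin : ∀ j, DifferentiableOn ℂ (fun z => (inner ℂ v₀ (F j z) : ℂ)) (ball 0 2) := fun j => (innerSL ℂ v₀).differentiable.comp_differentiableOn (hFd j)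
    refine DifferentiableOn.fun_sum fun i _ => ?_
    exact ((DifferentiableOn.fun_finsetProd fun j _ => hin j).fun_smul (hFd i)).fun_const_smul _
  have hprod : ∀ z ∈ ball (0 : ℂ) 2, ‖∏ j ∈ Finset.range (m + 1 + 1), (inner ℂ v₀ (F j z) : ℂ)‖ ≤ 1 := by
    intro z hz
    rw [norm_prod]
    refine Finset.prod_le_one (fun _ _ => norm_nonneg _) fun j _ => ?_
    refine (norm_inner_le_norm _ _).trans ?_
    rw [hv₀1, one_mul]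
    exact (hF1 j z hz).2.2
  -- the circle
  have hcirc : ∀ z : ℂ, ‖z‖ = r' → ‖V z‖ ≤ K₁ * (Nb + 1) := by
    intro z hz
    have hz2 : z ∈ ball (0 : ℂ) 2 := by
      rw [mem_ball_zero_iff]
      linarith
    have hy₀z : y₀ + z • a ∈ Co D Bad δ ρ := hthick y₀ (by rw [sub_self, norm_zero]; exact hδpos.le) z (habs z hz)
    have hyz : y + z • a ∈ Co D Bad δ ρ := hthick y (hyy.trans hεδ) z (habs z hz)
    have hyzT : y + z • a ∈ Tb b E := tb_add hy (hS.mem z)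
    have hy₀zT : y₀ + z • a ∈ Tb b E := tb_add hy₀ (hS.mem z)
    have hκz : κ₀ * ‖G₀ z‖ ≤ ‖(inner ℂ v₀ (G₀ z) : ℂ)‖ := by
      have := hκ₀2 z (by rw [mem_sphere_zero_iff_norm]; exact hz)
      rwa [le_div_iff₀ (norm_pos_iff.2 (hG₀0 z))] at this
    have hne : ∀ i ≤ m + 1, (inner ℂ v₀ (F i z) : ℂ) ≠ 0 := by
      intro i hi
      have h1 : dist (pr (F i z)) (pr (G₀ z)) ≤ ε₁ := by
        rw [← hφG z, ← (hF1 i z hz2).2.1]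
        refine hun φ hφ _ hy₀zT hy₀z.1 _ (hyiz i z) ?_
        have e : y + ((σ i : ℝ) : ℂ) • w + z • a - (y₀ + z • a) = y + ((σ i : ℝ) : ℂ) • w - y₀ := by abel
        rw [e]
        exact (hnear i hi).trans hε4
      have h2 := hin v₀ hv₀1 (G₀ z) (hG₀0 z) hκz (F i z) (hF0 i z hz2) h1
      have h3 : 0 < κ₀ / 2 * ‖F i z‖ := mul_pos (by positivity) (norm_pos_iff.2 (hF0 i z hz2))
      exact norm_pos_iff.1 (h3.trans_le h2)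
    obtain ⟨v', hv'1, hpv'⟩ : ∃ v' : EN N, ‖v'‖ = 1 ∧ pr v' = φ (y + z • a) := by
      obtain ⟨x, hxX, hpx, -⟩ := hS.fb hφ hyzT
      have hx0 : x ≠ 0 := fun h0 => S.geo.cone.zero_notMem (h0 ▸ hxX)
      have hxn : 0 < ‖x‖ := norm_pos_iff.2 hx0
      refine ⟨((‖x‖⁻¹ : ℝ) : ℂ) • x, ?_, ?_⟩
      · rw [norm_smul, Complex.norm_real, norm_inv, norm_norm, inv_mul_cancel₀ hxn.ne']
      · rw [pr_smul _ (by exact_mod_cast inv_ne_zero hxn.ne'), hpx]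
    have hv'0 : v' ≠ 0 := norm_pos_iff.1 (by rw [hv'1]; exact one_pos)
    have hvv : κ₀ / 2 ≤ ‖(inner ℂ v₀ v' : ℂ)‖ := by
      have h1 : dist (pr v') (pr (G₀ z)) ≤ ε₁ := by
        rw [← hφG z, hpv']
        refine hun φ hφ _ hy₀zT hy₀z.1 _ hyzT ?_
        have e : y + z • a - (y₀ + z • a) = y - y₀ := by abel
        rw [e]
        linarith
      have h2 := hin v₀ hv₀1 (G₀ z) (hG₀0 z) hκz v' hv'0 h1
      rwa [hv'1, mul_one] at h2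
    have h1 := (hchg φ hφ (y + z • a) hyzT hyz.1 v' hv'1 hpv' v₀ hv₀1 hvv σ hσ1).2
    have h2 := hcore φ hφ (y + z • a) hyzT hyz v' hv'1 hpv'
    rw [hVeq z hz2 hne, norm_smul]
    refine (mul_le_of_le_one_left (norm_nonneg _) (hprod z hz2)).trans (h1.trans ?_)
    exact mul_le_mul_of_nonneg_left (by linarith) hK₁.le
  -- the maximum principle
  have hV0 : ‖V 0‖ ≤ K₁ * (Nb + 1) := by
    refine Complex.norm_le_of_forall_mem_frontier_norm_le (U := ball (0 : ℂ) r') isBounded_ball ?_ ?_ (subset_closure (mem_ball_self hr'pos))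
    · refine DifferentiableOn.diffContOnCl (hVd.mono ?_)
      rw [closure_ball _ hr'pos.ne']
      exact closedBall_subset_ball (by linarith)
    · intro z hz
      rw [frontier_ball _ hr'pos.ne', mem_sphere_zero_iff_norm] at hz
      exact hcirc z hz
  -- at the centre
  have h02 : (0 : ℂ) ∈ ball (0 : ℂ) 2 := mem_ball_self two_pos
  have hself : 1 * ‖v₀‖ ≤ ‖(inner ℂ v₀ v₀ : ℂ)‖ := by
    rw [inner_self_eq_norm_sq_to_K, hv₀1]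
    simp
  have hd0 : ∀ y' ∈ Tb b E, ‖y' - y₀‖ ≤ 2 * ε → dist (φ y') (pr v₀) ≤ min ε₂ ε₃ := by
    intro y' hy' hyy'
    rw [hpv₀]
    exact hun0 φ hφ y₀ hy₀ hy₀D y' hy' (hyy'.trans hε5)
  have hlow : ∀ i ≤ m + 1, c / 2 ≤ ‖(inner ℂ v₀ (F i 0) : ℂ)‖ := by
    intro i hi
    have hF00 : φ (y + ((σ i : ℝ) : ℂ) • w) = pr (F i 0) := by
      have := (hF1 i 0 h02).2.1
      simp only [zero_smul, add_zero] at this
      exact this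
    have h1 : dist (pr (F i 0)) (pr v₀) ≤ ε₂ := by
      rw [← hF00]
      exact (hd0 _ (hyi i) (hnear i hi)).trans (min_le_left _ _)
    have h2 := hin2 v₀ hv₀1 v₀ hv₀ne hself (F i 0) (hF0 i 0 h02) h1
    have h3 : c ≤ ‖F i 0‖ := by
      refine hFc i 0 (mem_closedBall_self zero_le_one) ?_
      rw [zero_smul, add_zero]
      exact gd_mono (by linarith) (gd_near hy₀D (hnear i hi))
    linarith
  have hdd0 : ‖dd (m + 1) σ fun s : ℝ => nv v₀ (φ (y + (s : ℂ) • w))‖ ≤ (2 / c) ^ (m + 2) * (K₁ * (Nb + 1)) := by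
    have h1 := hVeq 0 h02 fun i hi => norm_pos_iff.1 ((half_pos hc).trans_le (hlow i hi))
    simp only [zero_smul, add_zero] at h1
    have h2 : (c / 2) ^ (m + 2) ≤ ‖∏ j ∈ Finset.range (m + 1 + 1), (inner ℂ v₀ (F j 0) : ℂ)‖ := by
      rw [norm_prod]
      calc (c / 2) ^ (m + 2) = ∏ _j ∈ Finset.range (m + 1 + 1), c / 2 := by rw [Finset.prod_const, Finset.card_range]
        _ ≤ _ := Finset.prod_le_prod (fun _ _ => (half_pos hc).le) fun j hj => hlow j (Nat.lt_succ_iff.1 (Finset.mem_range.1 hj))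
    have h3 : (c / 2) ^ (m + 2) * ‖dd (m + 1) σ fun s : ℝ => nv v₀ (φ (y + (s : ℂ) • w))‖ ≤ K₁ * (Nb + 1) := by
      refine le_trans ?_ hV0
      rw [h1, norm_smul]
      exact mul_le_mul_of_nonneg_right h2 (norm_nonneg _)
    have h4 : (2 / c) ^ (m + 2) * (c / 2) ^ (m + 2) = 1 := by
      rw [← mul_pow]
      have : 2 / c * (c / 2) = 1 := by field_simp
      rw [this, one_pow]
    calc ‖dd (m + 1) σ fun s : ℝ => nv v₀ (φ (y + (s : ℂ) • w))‖ = (2 / c) ^ (m + 2) * ((c / 2) ^ (m + 2) * ‖dd (m + 1) σ fun s : ℝ => nv v₀ (φ (y + (s : ℂ) • w))‖) := by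
          rw [← mul_assoc, h4, one_mul]
      _ ≤ _ := mul_le_mul_of_nonneg_left h3 (by positivity)
  -- the chart `nv v`
  have hvne : v ≠ 0 := norm_pos_iff.1 (by rw [hv]; exact one_pos)
  have hvv₀ : 1 / 2 ≤ ‖(inner ℂ v₀ v : ℂ)‖ := by
    have h1 : dist (pr v) (pr v₀) ≤ ε₂ := by
      rw [hpv]
      exact (hd0 y hy (by linarith)).trans (min_le_left _ _)
    have h2 := hin2 v₀ hv₀1 v₀ hv₀ne hself v hvne h1
    rwa [hv, mul_one] at h2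
  have hyD2 : y ∈ Gd D (δ' / 2) := gd_mono (by linarith) (gd_near hy₀D hyy)
  have h1 := (hchg2 φ hφ y hy hyD2 v hv hpv v₀ hv₀1 hvv₀ σ hσ2).1
  have h2 := (hnv v v₀ hv hv₀1 (by rw [norm_inner_symm]; exact hvv₀) σ (fun s : ℝ => φ (y + (s : ℂ) • w)) hσ3 (fun i hi => ?_) h1).2
  · refine h2.trans ?_
    have h3 : (2 / c) ^ (m + 2) * (K₁ * (Nb + 1)) ≤ (2 / c) ^ (m + 2) * (K₁ * 2) * Nb := by
      have h5 : K₁ * (Nb + 1) ≤ K₁ * 2 * Nb := by nlinarith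
      calc (2 / c) ^ (m + 2) * (K₁ * (Nb + 1)) ≤ (2 / c) ^ (m + 2) * (K₁ * 2 * Nb) := mul_le_mul_of_nonneg_left h5 (by positivity)
        _ = _ := by ring
    calc K₃ * (‖dd (m + 1) σ fun s : ℝ => nv v₀ (φ (y + (s : ℂ) • w))‖ + 1) ≤ K₃ * ((2 / c) ^ (m + 2) * (K₁ * 2) * Nb + Nb) :=
          mul_le_mul_of_nonneg_left (by linarith) hK₃.le
      _ = _ := by ring
  · obtain ⟨x, hxX, hpx, -⟩ := hS.fb hφ (hyi i)
    refine ⟨x, fun h0 => S.geo.cone.zero_notMem (h0 ▸ hxX), hpx.symm, ?_⟩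
    rw [hpx]
    exact (hd0 _ (hyi i) (hnear i hi)).trans (min_le_right _ _)

theorem core_to_gd (S : DA X Λ u D B Bad a α c₀ C₀ ρ δ) (hS : Shs X Λ u D a b E SS) (hw : w ∈ E) {m : ℕ} (hm : ∀ j ≤ m, DDb D (Tb b E) SS w j) {δ' : ℝ} (hδ' : 0 < δ') :
    ∃ r K : ℝ, 0 < r ∧ 0 < K ∧ ∀ (σ : ℕ → ℝ) (Nb : ℝ), Nod (m + 1) σ r → 1 ≤ Nb →
      (∀ φ ∈ SS, ∀ y ∈ Tb b E, y ∈ Co D Bad δ ρ → ∀ v : EN N, ‖v‖ = 1 → pr v = φ y → ‖dd (m + 1) σ fun s : ℝ => nv v (φ (y + (s : ℂ) • w))‖ ≤ Nb) →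
      ∀ φ ∈ SS, ∀ y ∈ Tb b E, y ∈ Gd D δ' → ∀ v : EN N, ‖v‖ = 1 → pr v = φ y → ‖dd (m + 1) σ fun s : ℝ => nv v (φ (y + (s : ℂ) • w))‖ ≤ K * Nb := by
  obtain ⟨R, hR, hred⟩ := hS.red
  set K₀ : Set (Vd (k + 1)) := Tb b E ∩ Gd D δ' ∩ closedBall 0 R with hK₀
  have hK₀c : IsCompact K₀ := (isCompact_closedBall (0 : Vd (k + 1)) R).inter_left ((tb_closed b E).inter (gd_closed D δ'))
  have key : ∀ φ ∈ SS, ∃ r K : ℝ, 0 < r ∧ 0 < K ∧ ∀ (σ : ℕ → ℝ) (Nb : ℝ), Nod (m + 1) σ r → 1 ≤ Nb →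
      (∀ φ ∈ SS, ∀ y ∈ Tb b E, y ∈ Co D Bad δ ρ → ∀ v : EN N, ‖v‖ = 1 → pr v = φ y → ‖dd (m + 1) σ fun s : ℝ => nv v (φ (y + (s : ℂ) • w))‖ ≤ Nb) →
      ∀ y ∈ K₀, ∀ v : EN N, ‖v‖ = 1 → pr v = φ y → ‖dd (m + 1) σ fun s : ℝ => nv v (φ (y + (s : ℂ) • w))‖ ≤ K * Nb := by
    intro φ hφ
    refine hK₀c.induction_on (p := fun U => ∃ r K : ℝ, 0 < r ∧ 0 < K ∧ ∀ (σ : ℕ → ℝ) (Nb : ℝ), Nod (m + 1) σ r → 1 ≤ Nb →
      (∀ φ ∈ SS, ∀ y ∈ Tb b E, y ∈ Co D Bad δ ρ → ∀ v : EN N, ‖v‖ = 1 → pr v = φ y → ‖dd (m + 1) σ fun s : ℝ => nv v (φ (y + (s : ℂ) • w))‖ ≤ Nb) →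
      ∀ y ∈ U, ∀ v : EN N, ‖v‖ = 1 → pr v = φ y → ‖dd (m + 1) σ fun s : ℝ => nv v (φ (y + (s : ℂ) • w))‖ ≤ K * Nb) ?_ ?_ ?_ ?_
    · exact ⟨1, 1, one_pos, one_pos, fun σ Nb _ _ _ y hy => absurd hy (Set.notMem_empty y)⟩
    · rintro s t hst ⟨r, K, hr, hK, h⟩
      exact ⟨r, K, hr, hK, fun σ Nb h1 h2 h3 y hy => h σ Nb h1 h2 h3 y (hst hy)⟩
    · rintro s t ⟨r₁, K₁, hr₁, hK₁, h₁⟩ ⟨r₂, K₂, hr₂, hK₂, h₂⟩
      refine ⟨min r₁ r₂, max K₁ K₂, lt_min hr₁ hr₂, lt_max_of_lt_left hK₁, fun σ Nb hσ hNb hcore y hy v hv hpv => ?_⟩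
      rcases hy with hy | hy
      · exact (h₁ σ Nb (hσ.mono le_rfl (min_le_left _ _)) hNb hcore y hy v hv hpv).trans (mul_le_mul_of_nonneg_right (le_max_left _ _) (by linarith))
      · exact (h₂ σ Nb (hσ.mono le_rfl (min_le_right _ _)) hNb hcore y hy v hv hpv).trans (mul_le_mul_of_nonneg_right (le_max_right _ _) (by linarith))
    · intro y₀ hy₀
      obtain ⟨ε, r, K, hε, hr, hK, h⟩ := Md_loc S hS hw hm hδ' hφ hy₀.1.1 hy₀.1.2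
      refine ⟨K₀ ∩ closedBall y₀ ε, inter_mem self_mem_nhdsWithin (mem_nhdsWithin_of_mem_nhds (closedBall_mem_nhds y₀ hε)), r, K, hr, hK, fun σ Nb h1 h2 h3 y hy v hv hpv => ?_⟩
      exact h σ Nb h1 h2 h3 y hy.1.1.1 (by rw [← dist_eq_norm]; exact hy.2) v hv hpv
  have key2 : ∀ T : Set (Vd (k + 1) → MN N), T.Finite → T ⊆ SS → ∃ r K : ℝ, 0 < r ∧ 0 < K ∧ ∀ (σ : ℕ → ℝ) (Nb : ℝ), Nod (m + 1) σ r → 1 ≤ Nb →
      (∀ φ ∈ SS, ∀ y ∈ Tb b E, y ∈ Co D Bad δ ρ → ∀ v : EN N, ‖v‖ = 1 → pr v = φ y → ‖dd (m + 1) σ fun s : ℝ => nv v (φ (y + (s : ℂ) • w))‖ ≤ Nb) →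
      ∀ φ ∈ T, ∀ y ∈ K₀, ∀ v : EN N, ‖v‖ = 1 → pr v = φ y → ‖dd (m + 1) σ fun s : ℝ => nv v (φ (y + (s : ℂ) • w))‖ ≤ K * Nb := by
    intro T hT
    induction T, hT using Set.Finite.induction_on with
    | empty => exact fun _ => ⟨1, 1, one_pos, one_pos, fun σ Nb _ _ _ φ hφ => absurd hφ (Set.notMem_empty φ)⟩
    | @insert φ₀ T _ _ ih =>
      intro hT
      obtain ⟨r₁, K₁, hr₁, hK₁, h₁⟩ := ih ((Set.subset_insert _ _).trans hT)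
      obtain ⟨r₂, K₂, hr₂, hK₂, h₂⟩ := key φ₀ (hT (Set.mem_insert _ _))
      refine ⟨min r₁ r₂, max K₁ K₂, lt_min hr₁ hr₂, lt_max_of_lt_left hK₁, fun σ Nb hσ hNb hcore φ hφ y hy v hv hpv => ?_⟩
      rcases hφ with hφ | hφ
      · subst hφ
        exact (h₂ σ Nb (hσ.mono le_rfl (min_le_right _ _)) hNb hcore y hy v hv hpv).trans (mul_le_mul_of_nonneg_right (le_max_right _ _) (by linarith))
      · exact (h₁ σ Nb (hσ.mono le_rfl (min_le_left _ _)) hNb hcore φ hφ y hy v hv hpv).trans (mul_le_mul_of_nonneg_right (le_max_left _ _) (by linarith))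
  obtain ⟨r, K, hr, hK, h⟩ := key2 SS hS.fin le_rfl
  refine ⟨r, K, hr, hK, fun σ Nb hσ hNb hcore φ hφ y hy hyD v hv hpv => ?_⟩
  obtain ⟨l, hl, -, φ', hφ', y', hy'T, hy'R, hyl, hφφ⟩ := hred φ hφ y hy
  have e : (fun s : ℝ => nv v (φ (y + (s : ℂ) • w))) = fun s : ℝ => nv v (φ' (y' + (s : ℂ) • w)) := by
    funext s
    rw [hφφ _ (smul_mem_E hw s)]
  have e0 : φ y = φ' y' := by
    have := hφφ 0 E.zero_mem
    rw [add_zero, add_zero] at this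
    exact this.symm
  rw [e]
  refine h σ Nb hσ hNb hcore φ' hφ' y' ⟨⟨hy'T, ?_⟩, mem_closedBall_zero_iff.2 hy'R⟩ v hv (by rw [hpv, e0])
  rw [hyl] at hyD
  exact (gd_add' S.lg hl).1 hyD

end Pool.Agent.G3.R
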