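import Pool.Agent.G3.R.RDefs

/-!
# G3 R Mob: automorphisms of the disc and the behaviour of the functional under compositions

`exists_mob`: `ψ z = r² (z + a) / (r² + ā z)`.
`pf_comp`: `deriv (F ∘ φ) z = deriv φ z • deriv F (φ z)` and `hP.hom` (`Cv.tan`).  The other statements follow (`(‖φ'‖ ^ m * p) ^ (1/m) = ‖φ'‖ * p ^ (1/m)`).
-/

set_option autoImplicit false

open Topology Filter Metric

namespace Pool.Agent.G3

open Pool.Agent.H36.BP (EN fs wd Sub)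
open Pool.Agent.H14.PP (IsCone CurveAt Tan)
open Pool.Agent.H62.EF (MN pr)
open Pool.Agent.AD (Vd Chart Charts)
open Pool.Agent.TG (TMap Lat Geo Gd)

variable {N k : ℕ} {X : Set (EN N)} {Λ : AddSubgroup (Vd (k + 1))} {u : EN N → Vd (k + 1)} {D : Set (Vd (k + 1))} {p : EN N → EN N → ℝ} {m d : ℕ} {C : ℝ} {Q : EN N → ℂ}

theorem exists_mob {r : ℝ} (hr : 0 < r) {a : ℂ} (ha : ‖a‖ < r) : ∃ ψ : ℂ → ℂ, DifferentiableOn ℂ ψ (ball 0 r) ∧ Set.MapsTo ψ (ball 0 r) (ball 0 r) ∧ ψ 0 = a ∧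
    ∀ z ∈ ball (0 : ℂ) r, deriv ψ z ≠ 0 ∧ ‖deriv ψ z‖ * (r ^ 2 - ‖z‖ ^ 2) = r ^ 2 - ‖ψ z‖ ^ 2 := by
  set q : ℂ → ℂ := fun z => (r : ℂ) ^ 2 + (starRingEnd ℂ) a * z with hq
  have hrc : (r : ℂ) ≠ 0 := by exact_mod_cast hr.ne'
  -- the denominator is not zero
  have hlt : ∀ z ∈ ball (0 : ℂ) r, ‖(starRingEnd ℂ) a * z‖ < r ^ 2 := fun z hz => by
    rw [mem_ball_zero_iff] at hz
    rw [norm_mul, RCLike.norm_conj]
    have h1 : ‖a‖ * ‖z‖ ≤ r * ‖z‖ := mul_le_mul_of_nonneg_right ha.le (norm_nonneg z)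
    nlinarith [norm_nonneg z, norm_nonneg a]
  have hne : ∀ z ∈ ball (0 : ℂ) r, q z ≠ 0 := fun z hz h0 => by
    have h1 := hlt z hz
    have h2 : (starRingEnd ℂ) a * z = -(r : ℂ) ^ 2 := by
      simp only [hq] at h0
      linear_combination h0
    rw [h2, norm_neg, norm_pow, Complex.norm_real, Real.norm_eq_abs, sq_abs] at h1
    exact lt_irrefl _ h1
  have ha2 : 0 < r ^ 2 - ‖a‖ ^ 2 := by nlinarith [norm_nonneg a]
  -- the identity of norms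
  have hid : ∀ z : ℂ, ‖q z‖ ^ 2 - r ^ 2 * ‖z + a‖ ^ 2 = (r ^ 2 - ‖z‖ ^ 2) * (r ^ 2 - ‖a‖ ^ 2) := fun z => by
    simp only [hq, ← Complex.normSq_eq_norm_sq, Complex.normSq_apply]
    have e1 : ((r : ℂ) ^ 2).re = r ^ 2 := by
      rw [← Complex.ofReal_pow, Complex.ofReal_re]
    have e2 : ((r : ℂ) ^ 2).im = 0 := by
      rw [← Complex.ofReal_pow, Complex.ofReal_im]
    simp only [Complex.add_re, Complex.add_im, Complex.mul_re, Complex.mul_im, Complex.conj_re, Complex.conj_im, e1, e2]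
    ring
  have hder : ∀ z ∈ ball (0 : ℂ) r, HasDerivAt (fun z => (r : ℂ) ^ 2 * (z + a) / q z) ((r : ℂ) ^ 2 * ((r : ℂ) ^ 2 - (starRingEnd ℂ) a * a) / q z ^ 2) z := fun z hz => by
    have h1 : HasDerivAt (fun z : ℂ => (r : ℂ) ^ 2 * (z + a)) ((r : ℂ) ^ 2 * 1) z := ((hasDerivAt_id z).add_const a).const_mul _
    have h2 : HasDerivAt q ((starRingEnd ℂ) a * 1) z := ((hasDerivAt_id z).const_mul _).const_add _
    refine (h1.div h2 (hne z hz)).congr_deriv ?_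
    congr 1
    simp only [hq]
    ring
  have hr2 : ‖(r : ℂ) ^ 2‖ = r ^ 2 := by
    rw [norm_pow, Complex.norm_real, Real.norm_eq_abs, sq_abs]
  have hval : ∀ z : ℂ, ‖(r : ℂ) ^ 2 * (z + a) / q z‖ = r ^ 2 * ‖z + a‖ / ‖q z‖ := fun z => by
    rw [norm_div, norm_mul, hr2]
  have hdv : ∀ z : ℂ, ‖(r : ℂ) ^ 2 * ((r : ℂ) ^ 2 - (starRingEnd ℂ) a * a) / q z ^ 2‖ = r ^ 2 * (r ^ 2 - ‖a‖ ^ 2) / ‖q z‖ ^ 2 := fun z => by
    rw [norm_div, norm_mul, hr2, norm_pow]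
    congr 2
    have h1 : (r : ℂ) ^ 2 - (starRingEnd ℂ) a * a = ((r ^ 2 - ‖a‖ ^ 2 : ℝ) : ℂ) := by
      rw [mul_comm, Complex.mul_conj, Complex.normSq_eq_norm_sq]
      push_cast
      ring
    rw [h1, Complex.norm_real, Real.norm_eq_abs, abs_of_pos ha2]
  refine ⟨fun z => (r : ℂ) ^ 2 * (z + a) / q z, fun z hz => (hder z hz).differentiableAt.differentiableWithinAt, fun z hz => ?_, ?_, fun z hz => ⟨?_, ?_⟩⟩
  · have hq0 : 0 < ‖q z‖ := norm_pos_iff.2 (hne z hz)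
    have hz' := hz
    rw [mem_ball_zero_iff] at hz' ⊢
    rw [hval, div_lt_iff₀ hq0]
    have h1 := hid z
    have h2 : 0 < (r ^ 2 - ‖z‖ ^ 2) * (r ^ 2 - ‖a‖ ^ 2) := mul_pos (by nlinarith [norm_nonneg z]) ha2
    have h3 : (r * ‖z + a‖) ^ 2 < ‖q z‖ ^ 2 := by
      rw [mul_pow]
      linarith
    have h4 : r * ‖z + a‖ < ‖q z‖ := lt_of_pow_lt_pow_left₀ 2 hq0.le h3
    calc r ^ 2 * ‖z + a‖ = r * (r * ‖z + a‖) := by ring
      _ < r * ‖q z‖ := mul_lt_mul_of_pos_left h4 hr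
  · simp only [hq]
    rw [mul_zero, add_zero, zero_add, mul_comm, mul_div_assoc, div_self (pow_ne_zero 2 hrc), mul_one]
  · rw [(hder z hz).deriv, ← norm_pos_iff, hdv]
    have hq0 : 0 < ‖q z‖ := norm_pos_iff.2 (hne z hz)
    positivity
  · rw [(hder z hz).deriv, hdv]
    have hq0 : 0 < ‖q z‖ := norm_pos_iff.2 (hne z hz)
    show r ^ 2 * (r ^ 2 - ‖a‖ ^ 2) / ‖q z‖ ^ 2 * (r ^ 2 - ‖z‖ ^ 2) = r ^ 2 - ‖(r : ℂ) ^ 2 * (z + a) / q z‖ ^ 2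
    rw [hval, div_pow, div_mul_eq_mul_div, div_eq_iff (by positivity), sub_mul, div_mul_cancel₀ _ (by positivity)]
    linear_combination (-r ^ 2) * hid z

private theorem deriv_comp_aux {U V : Set ℂ} (hU : IsOpen U) (hV : IsOpen V) {E : Type} [NormedAddCommGroup E] [NormedSpace ℂ E] {F : ℂ → E} (hF : DifferentiableOn ℂ F U)
    {φ : ℂ → ℂ} (hφ : DifferentiableOn ℂ φ V) (hm : Set.MapsTo φ V U) {z : ℂ} (hz : z ∈ V) :
    deriv (fun w => F (φ w)) z = deriv φ z • deriv F (φ z) := by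
  have h1 : DifferentiableAt ℂ F (φ z) := (hF _ (hm hz)).differentiableAt (hU.mem_nhds (hm hz))
  have h2 : DifferentiableAt ℂ φ z := (hφ _ hz).differentiableAt (hV.mem_nhds hz)
  exact (h1.hasDerivAt.scomp z h2.hasDerivAt).deriv

theorem deriv_h_comp {U V : Set ℂ} (hU : IsOpen U) (hV : IsOpen V) {F : ℂ → EN N} {h : ℂ → Vd (k + 1)} (hF : Cv X Λ u U F h) {φ : ℂ → ℂ}
    (hφ : DifferentiableOn ℂ φ V) (hm : Set.MapsTo φ V U) {z : ℂ} (hz : z ∈ V) : ‖deriv (fun w => h (φ w)) z‖ = ‖deriv φ z‖ * ‖deriv h (φ z)‖ := by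
  rw [deriv_comp_aux hU hV hF.h_diff hφ hm hz, norm_smul]

theorem pf_comp (hP : PS X Λ u D p m C) {U V : Set ℂ} (hU : IsOpen U) (hV : IsOpen V) {F : ℂ → EN N} {h : ℂ → Vd (k + 1)} (hF : Cv X Λ u U F h) {φ : ℂ → ℂ}
    (hφ : DifferentiableOn ℂ φ V) (hm : Set.MapsTo φ V U) {z : ℂ} (hz : z ∈ V) : pf p (fun w => F (φ w)) z = ‖deriv φ z‖ ^ m * pf p F (φ z) := by
  unfold pf
  rw [deriv_comp_aux hU hV hF.F_diff hφ hm hz]
  exact hP.hom _ (hF.mem _ (hm hz)) _ (hF.tan hU (hm hz)) _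

theorem ok_comp (hP : PS X Λ u D p m C) {U V : Set ℂ} (hU : IsOpen U) (hV : IsOpen V) {F : ℂ → EN N} {h : ℂ → Vd (k + 1)} (hF : Cv X Λ u U F h) {φ : ℂ → ℂ}
    (hφ : DifferentiableOn ℂ φ V) (hm : Set.MapsTo φ V U) {z : ℂ} (hz : z ∈ V) (hd : deriv φ z ≠ 0) : Ok Q p (fun w => F (φ w)) z ↔ Ok Q p F (φ z) := by
  unfold Ok
  rw [pf_comp hP hU hV hF hφ hm hz]
  have h1 : 0 < ‖deriv φ z‖ ^ m := pow_pos (norm_pos_iff.2 hd) m
  exact and_congr_right fun _ => mul_pos_iff_of_pos_left h1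

theorem lam_comp (hP : PS X Λ u D p m C) {U V : Set ℂ} (hU : IsOpen U) (hV : IsOpen V) {F : ℂ → EN N} {h : ℂ → Vd (k + 1)} (hF : Cv X Λ u U F h) {φ : ℂ → ℂ}
    (hφ : DifferentiableOn ℂ φ V) (hm : Set.MapsTo φ V U) {z : ℂ} (hz : z ∈ V) (hd : deriv φ z ≠ 0) :
    Lam Q d p m (fun w => F (φ w)) (fun w => h (φ w)) z = Lam Q d p m F h (φ z) := by
  have h1 : ‖deriv φ z‖ ^ m ≠ 0 := (pow_pos (norm_pos_iff.2 hd) m).ne'
  unfold Lam Np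
  rw [pf_comp hP hU hV hF hφ hm hz, deriv_h_comp hU hV hF hφ hm hz, mul_pow, mul_div_mul_left _ _ h1]

theorem mf_comp (hP : PS X Λ u D p m C) {U V : Set ℂ} (hU : IsOpen U) (hV : IsOpen V) {F : ℂ → EN N} {h : ℂ → Vd (k + 1)} (hF : Cv X Λ u U F h) {φ : ℂ → ℂ}
    (hφ : DifferentiableOn ℂ φ V) (hm : Set.MapsTo φ V U) {z : ℂ} (hz : z ∈ V) {ε : ℝ} (hε : 0 < ε) :
    Mf p m ε (fun w => F (φ w)) (fun w => h (φ w)) z = ‖deriv φ z‖ * Mf p m ε F h (φ z) := by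
  have hm0 : m ≠ 0 := by
    have := hP.m_pos
    omega
  have h0 : 0 ≤ pf p F (φ z) := hP.nonneg _ _
  unfold Mf
  rw [pf_comp hP hU hV hF hφ hm hz, deriv_h_comp hU hV hF hφ hm hz, Real.mul_rpow (by positivity) h0, one_div,
    Real.pow_rpow_inv_natCast (norm_nonneg _) hm0, mul_max_of_nonneg _ _ (norm_nonneg _)]
  congr 1
  ring

end Pool.Agent.G3
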