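import Pool.Agent.G3.A.Defs
import Pool.Agent.G3.R.DDefs

/-!
# G3 R SDefs: sheets over a real torus, local primitives, the statement on divided differences

`Shs`: a finite set of sheets (`A.Sht`) over `Tb b E`, permuted by the translations of `Λ ∩ E` (from `CE`, `sht_finite`, `sht_add`).
`Prm α y₀ v R Ψ`: `Ψ` is a primitive of the form `α` along the fibres, on the ball of radius `R` around the unit vector `v ∈ X` over `y₀`.
`DDb m`: the divided differences of order `m` of the sheets in the direction `w` are bounded on `T ∩ Gd D δ` for every `δ > 0`; at the point `y` the sheets are considered in the affine chart `nv v`, `pr v = φ y`.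
-/

set_option autoImplicit false

open Topology Filter Metric

namespace Pool.Agent.G3.R

open Pool.Agent.H36.BP (EN fs wd)
open Pool.Agent.H14.PP (IsCone CurveAt Tan)
open Pool.Agent.H62.EF (MN pr)
open Pool.Agent.AD (Vd Chart Charts IsGerm)
open Pool.Agent.TG
open Pool.Agent.G3.C (Gc HP nv nd nv_pr)
open Pool.Agent.G3.A

variable {N k : ℕ}

/-- the sheets over the real torus `b + E` -/
structure Shs (X : Set (EN N)) (Λ : AddSubgroup (Vd (k + 1))) (u : EN N → Vd (k + 1)) (D : Set (Vd (k + 1))) (a b : Vd (k + 1)) (E : Submodule ℝ (Vd (k + 1)))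
    (SS : Set (Vd (k + 1) → MN N)) : Prop where
  mem : ∀ z : ℂ, z • a ∈ E
  cpt : ∃ R : ℝ, 0 < R ∧ ∀ v ∈ E, ∃ l ∈ Λ, l ∈ E ∧ ‖v - l‖ ≤ R
  fin : SS.Finite
  sht : ∀ φ ∈ SS, Sht X Λ u D a (Tb b E) φ
  tr : ∀ φ ∈ SS, ∀ l ∈ Λ, l ∈ E → ∃ φ' ∈ SS, ∀ y ∈ Tb b E, φ' y = φ (y + l)

/-- `Ψ` is a primitive of the form `α` along the fibres near the point `v` over `y₀` -/
structure Prm {X : Set (EN N)} {Λ : AddSubgroup (Vd (k + 1))} {u : EN N → Vd (k + 1)} (α : VForm X Λ u) (y₀ : Vd (k + 1)) (v : EN N) (R : ℝ) (Ψ : EN N → ℂ) : Prop where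
  pos : 0 < R
  unit : ‖v‖ = 1
  mem : v ∈ X
  lift : u v - y₀ ∈ Λ
  diff : DifferentiableOn ℂ Ψ (ball v R)
  jj : ∀ y ∈ ball y₀ R, ∀ x ∈ X, x ∈ ball v R → u x - y ∈ Λ → ∀ x' ∈ X, x' ∈ ball v R → u x' - y ∈ Λ → JJ α y (pr x) (pr x') = Ψ x' - Ψ x

/-- the divided differences of order `m` of the sheets are bounded on `T ∩ Gd D δ`, for every `δ > 0` -/
def DDb (D : Set (Vd (k + 1))) (T : Set (Vd (k + 1))) (SS : Set (Vd (k + 1) → MN N)) (w : Vd (k + 1)) (m : ℕ) : Prop :=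
  ∀ δ : ℝ, 0 < δ → ∃ r C : ℝ, 0 < r ∧ 0 ≤ C ∧ ∀ φ ∈ SS, ∀ y ∈ T, y ∈ Gd D δ → ∀ v : EN N, ‖v‖ = 1 → pr v = φ y → ∀ σ : ℕ → ℝ, Nod m σ r →
    ‖dd m σ fun s : ℝ => nv v (φ (y + (s : ℂ) • w))‖ ≤ C

end Pool.Agent.G3.R
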