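import Pool.Agent.G3.R.Sec
import Pool.Agent.G3.A.Idn
import Pool.Agent.G3.A.JA
import Pool.Agent.G3.A.LLim
import Pool.Agent.TG.JJ
import Pool.Agent.TG.Cp

/-!
# G3 R Scal: the integral of a form from a local section to curves which converge to a curve through the section

`p = y₀ + z₀ a ∉ Bad`, `g` an honest curve over `y₀ + ℂ a`, `S` a local section of `u` through `g` (`exists_sec`, `LG.iso`, `hgood`).  For curves `f n` over `y n + ℂ a`, `y n → y₀`, `f n → g`,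
the functions `z ↦ JJ α (y n + z a) (S (y n + z a)) (f n z)` extend to holomorphic functions `Tf n` on `ball z₀ r` (for most `n`).
* `p ∉ D`: `r` small, no hits in `closedBall z₀ r`; `Cst X Λ u D δ ε ε₀` (`exists_cst`) with `y₀ + z a ∈ Gd D (2 δ)` for `z ∈ closedBall z₀ r`; `II_curve` (A/JA; or `jj_an` in Z/JAn), `jj_eq_II`, with the lift of `f n` and
  `z ↦ S (y n + z a)`: both converge to `g` uniformly on `closedBall z₀ r` (`Lm.unif`).
* `p ∈ D`: `CRL` at `p` with `η` small: `s₀, ρ₀`; a `Cst` for the compact annulus `s₀ / 4 ≤ |z - z₀| ≤ s₀` (no hits there, `η` small); `Tf n z = J (z - z₀)` for `p' = y n + z₀ a`, `F` the lift of `S` on the line, `H` the lift of `f n`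
  (note the order of the arguments: the integral from the section to `f n`), `II = JJ` on the annulus by `jj_eq_II`.  Let `K` be compact without hits: `K ⊆ {t ≤ |z - z₀|}`; for most `n` the function `JJ ..` is holomorphic on
  `t / 2 < |z - z₀| < s₀` (a `Cst` for a smaller `δ`), and equal to `Tf n` on the annulus, so on all of it (identity theorem; annuli are preconnected: `A.isPreconnected_ann`).
-/

set_option autoImplicit false

open Topology Filter Metric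

namespace Pool.Agent.G3.R

open Pool.Agent.H36.BP (EN fs wd)
open Pool.Agent.H14.PP (IsCone CurveAt Tan)
open Pool.Agent.H62.EF (MN pr)
open Pool.Agent.AD (Vd Chart Charts IsGerm)
open Pool.Agent.TG
open Pool.Agent.G3.C (Gc HP nv nd nv_pr)
open Pool.Agent.G3.A

variable {N k : ℕ} {X : Set (EN N)} {Λ : AddSubgroup (Vd (k + 1))} {u : EN N → Vd (k + 1)} {D B Bad : Set (Vd (k + 1))} {a : Vd (k + 1)}

/-- a compact set of parameters without hits -/
private theorem sc_dist (hD : IsClosed D) {K : Set ℂ} (hK : IsCompact K) (y : Vd (k + 1)) (h : ∀ z ∈ K, y + z • a ∉ D) :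
    ∃ d : ℝ, 0 < d ∧ ∀ z ∈ K, y + z • a ∈ Gd D d := by
  have hc : IsCompact ((fun z : ℂ => y + z • a) '' K) := hK.image (by fun_prop)
  have hdis : Disjoint ((fun z : ℂ => y + z • a) '' K) D := by
    rw [Set.disjoint_left]
    rintro _ ⟨z, hz, rfl⟩
    exact h z hz
  obtain ⟨d, hd, hd2⟩ := hdis.exists_thickenings hc hD
  refine ⟨d, hd, fun z hz b hb => ?_⟩
  by_contra hlt
  push Not at hlt
  refine (Set.disjoint_left.1 hd2) (a := b) ?_ ?_
  · rw [mem_thickening_iff]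
    exact ⟨y + z • a, ⟨z, hz, rfl⟩, by rw [dist_comm, dist_eq_norm]; exact hlt⟩
  · rw [mem_thickening_iff]
    exact ⟨b, hb, by rw [dist_self]; exact hd⟩

/-- pointwise convergence along all sequences is uniform on compact sets -/
private theorem sc_unif {ι : Type*} {𝒰 : Ultrafilter ι} {f : ι → ℂ → MN N} {g : ℂ → MN N} (hg : Continuous g) {K : Set ℂ} (hK : IsCompact K)
    (h : ∀ z ∈ K, ∀ w : ι → ℂ, Tendsto w 𝒰 (𝓝 z) → Tendsto (fun n => f n (w n)) 𝒰 (𝓝 (g z))) {ε : ℝ} (hε : 0 < ε) :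
    ∀ᶠ n in (𝒰 : Filter ι), ∀ z ∈ K, dist (f n z) (g z) ≤ ε := by
  classical
  by_contra hcon
  rw [← Ultrafilter.eventually_not] at hcon
  have hcon' : ∀ᶠ n in (𝒰 : Filter ι), ∃ z ∈ K, ε < dist (f n z) (g z) := by
    filter_upwards [hcon] with n hn
    push Not at hn
    exact hn
  obtain ⟨n₀, z₀, hz₀, -⟩ := hcon'.exists
  obtain ⟨w, hw⟩ : ∃ w : ι → ℂ, ∀ n, w n ∈ K ∧ ((∃ z ∈ K, ε < dist (f n z) (g z)) → ε < dist (f n (w n)) (g (w n))) := by
    refine ⟨fun n => if hn : ∃ z ∈ K, ε < dist (f n z) (g z) then hn.choose else z₀, fun n => ?_⟩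
    by_cases hn : ∃ z ∈ K, ε < dist (f n z) (g z)
    · simp only [dif_pos hn]
      exact ⟨hn.choose_spec.1, fun _ => hn.choose_spec.2⟩
    · simp only [dif_neg hn]
      exact ⟨hz₀, fun h' => absurd h' hn⟩
  have hle : ((𝒰.map w : Ultrafilter ℂ) : Filter ℂ) ≤ 𝓟 K := by
    rw [le_principal_iff, Ultrafilter.mem_coe, Ultrafilter.mem_map]
    exact Filter.Eventually.of_forall fun n => (hw n).1
  obtain ⟨z, hzK, hz⟩ := hK.ultrafilter_le_nhds (𝒰.map w) hle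
  have hwz : Tendsto w 𝒰 (𝓝 z) := hz
  have h1 : Tendsto (fun n => f n (w n)) 𝒰 (𝓝 (g z)) := h z hzK w hwz
  have h2 : Tendsto (fun n => g (w n)) 𝒰 (𝓝 (g z)) := (hg.tendsto z).comp hwz
  have h3 : Tendsto (fun n => dist (f n (w n)) (g (w n))) 𝒰 (𝓝 0) := by
    have h4 := h1.dist h2
    rwa [dist_self] at h4
  obtain ⟨n, h5, h6⟩ := ((h3.eventually_lt_const hε).and hcon').exists
  exact absurd ((hw n).2 h6) (not_lt.2 h5.le)

/-- the points of the lines near the line through the centre -/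
private theorem sc_ball (ha : ‖a‖ = 1) {y₀ y : Vd (k + 1)} {z₀ z : ℂ} {s t : ℝ} (hz : dist z z₀ ≤ s) (hy : dist y y₀ < t - s) : y + z • a ∈ ball (y₀ + z₀ • a) t := by
  rw [mem_ball, dist_eq_norm]
  have e : y + z • a - (y₀ + z₀ • a) = (y - y₀) + (z - z₀) • a := by
    rw [sub_smul]
    abel
  rw [e]
  refine (norm_add_le _ _).trans_lt ?_
  rw [norm_smul, ha, mul_one, ← dist_eq_norm, ← dist_eq_norm]
  linarith

/-- over a compact set without hits most lines are far from `D`, and the curves are close to the section -/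
private theorem sc_K (G : Geo X Λ u D B) (ha : ‖a‖ = 1) {ι : Type*} {𝒰 : Ultrafilter ι} {y : ι → Vd (k + 1)} {y₀ : Vd (k + 1)}
    (hy : Tendsto y 𝒰 (𝓝 y₀)) {f : ι → ℂ → MN N} {g : ℂ → MN N} (hg : Continuous g) (hfg : Lm D a 𝒰 y₀ f g) {z₀ : ℂ} {S : Vd (k + 1) → EN N} {r₁ s : ℝ} (hs : s < r₁)
    (hS : ∀ y ∈ ball (y₀ + z₀ • a) r₁, AnalyticAt ℂ S y ∧ S y ∈ X ∧ u (S y) - y ∈ Λ) (hSg : ∀ z ∈ ball z₀ r₁, pr (S (y₀ + z • a)) = g z)
    {K : Set ℂ} (hK : IsCompact K) (hKs : ∀ z ∈ K, dist z z₀ ≤ s) (hKD : ∀ z ∈ K, y₀ + z • a ∉ D) :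
    ∃ δ : ℝ, 0 < δ ∧ (∀ᶠ n in (𝒰 : Filter ι), ∀ z ∈ K, y n + z • a ∈ Gd D δ) ∧
      ∀ ε : ℝ, 0 < ε → ∀ᶠ n in (𝒰 : Filter ι), ∀ z ∈ K, dist (pr (S (y n + z • a))) (f n z) ≤ ε := by
  obtain ⟨d, hd, hdK⟩ := sc_dist G.D_closed hK y₀ hKD
  refine ⟨d / 2, half_pos hd, ?_, fun ε hε => ?_⟩
  · filter_upwards [hy.eventually (ball_mem_nhds y₀ (half_pos hd))] with n hn z hz
    have h1 := gd_near (hdK z hz) (w := y n + z • a) (r := d / 2) (by
      rw [add_sub_add_right_eq_sub, ← dist_eq_norm]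
      exact (mem_ball.1 hn).le)
    exact gd_mono (by linarith) h1
  · have h0 : ∀ z ∈ K, ∀ w : ι → ℂ, Tendsto w 𝒰 (𝓝 z) → Tendsto (fun n => pr (S (y n + w n • a))) 𝒰 (𝓝 (g z)) := by
      intro z hz w hw
      have h1 : y₀ + z • a ∈ ball (y₀ + z₀ • a) r₁ := sc_ball ha (hKs z hz) (by rw [dist_self]; linarith)
      have h2 : z ∈ ball z₀ r₁ := mem_ball.2 (lt_of_le_of_lt (hKs z hz) hs)
      obtain ⟨h3, h4, -⟩ := hS _ h1
      have h5 : ContinuousAt (fun q => pr (S q)) (y₀ + z • a) :=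
        ContinuousAt.comp (g := pr) (f := S) (Pool.Agent.H62.EF.continuousAt_pr (ne_zero G.cone h4)) h3.continuousAt
      have h6 : Tendsto (fun n => y n + w n • a) 𝒰 (𝓝 (y₀ + z • a)) := hy.add (hw.smul_const a)
      have h7 := h5.tendsto.comp h6
      rwa [hSg z h2] at h7
    filter_upwards [hfg.unif hg hK hKD (half_pos hε), sc_unif (f := fun n z => pr (S (y n + z • a))) hg hK h0 (half_pos hε)] with n h1 h2 z hz
    have h3 := dist_triangle_right (pr (S (y n + z • a))) (f n z) (g z)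
    have h4 := h1 z hz
    have h5 := h2 z hz
    linarith

/-- the integral is holomorphic off the hits -/
private theorem sc_an (G : Geo X Λ u D B) (ha : ‖a‖ = 1) {ι : Type*} {𝒰 : Ultrafilter ι} {y : ι → Vd (k + 1)} {y₀ : Vd (k + 1)}
    (hy : Tendsto y 𝒰 (𝓝 y₀)) {f : ι → ℂ → MN N} (hf : ∀ᶠ n in (𝒰 : Filter ι), f n ∈ Hc X Λ u a (y n)) {g : ℂ → MN N} (hg : Continuous g) (hfg : Lm D a 𝒰 y₀ f g)
    {z₀ : ℂ} {S : Vd (k + 1) → EN N} {r₁ s : ℝ} (hs : s < r₁)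
    (hS : ∀ y ∈ ball (y₀ + z₀ • a) r₁, AnalyticAt ℂ S y ∧ S y ∈ X ∧ u (S y) - y ∈ Λ) (hSg : ∀ z ∈ ball z₀ r₁, pr (S (y₀ + z • a)) = g z) (α : VForm X Λ u)
    {K U : Set ℂ} (hK : IsCompact K) (hKs : ∀ z ∈ K, dist z z₀ ≤ s) (hKD : ∀ z ∈ K, y₀ + z • a ∉ D) (hU : IsOpen U) (hUK : U ⊆ K) :
    ∀ᶠ n in (𝒰 : Filter ι), DifferentiableOn ℂ (fun x => JJ α (y n + x • a) (pr (S (y n + x • a))) (f n x)) U := by
  obtain ⟨δ, hδ, h1, h2⟩ := sc_K G ha hy hg hfg hs hS hSg hK hKs hKD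
  obtain ⟨ε, ε₀, -, -, hc⟩ := exists_cst G hδ one_pos
  filter_upwards [hf, h1, h2 ε₀ hc.ε₀_pos, hy.eventually (ball_mem_nhds y₀ (sub_pos.2 hs))] with n hfn h3 h4 h5
  have hfm := hc_mem hfn
  obtain ⟨H, ⟨hHd, hHX, hHu⟩, hHe⟩ := hfn
  have hSn : ∀ z ∈ K, AnalyticAt ℂ S (y n + z • a) ∧ S (y n + z • a) ∈ X ∧ u (S (y n + z • a)) - (y n + z • a) ∈ Λ :=
    fun z hz => hS _ (sc_ball ha (hKs z hz) (mem_ball.1 h5))
  have hSm : ∀ z ∈ K, pr (S (y n + z • a)) ∈ Fb X Λ u (y n + z • a) := fun z hz => ⟨_, (hSn z hz).2.1, rfl, (hSn z hz).2.2⟩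
  intro x₀ hx₀
  have hx₀K := hUK hx₀
  have hla : AnalyticAt ℂ (fun x : ℂ => y n + x • a) x₀ := by fun_prop
  have hFa : AnalyticAt ℂ (fun x : ℂ => S (y n + x • a)) x₀ := AnalyticAt.comp (g := S) (f := fun x : ℂ => y n + x • a) (hSn x₀ hx₀K).1 hla
  obtain ⟨χ, c, ρ, hcap⟩ := hc.cap (y n + x₀ • a) (h3 x₀ hx₀K) (pr (S (y n + x₀ • a))) (hSm x₀ hx₀K)
  have hrel : ∀ᶠ z in 𝓝 x₀, ∃ v, IRel α ε (y n + z • a) (pr (S (y n + z • a))) (pr (H z)) v := by
    filter_upwards [hU.mem_nhds hx₀] with z hz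
    have h5 := hc.rel (y n + z • a) (h3 z (hUK hz)) (pr (S (y n + z • a))) (hSm z (hUK hz)) (f n z) (hfm z) (h4 z (hUK hz)) α
    rw [hHe] at h5
    exact h5
  have h6 := II_curve G.cone G.tor G.lat (F := fun x => S (y n + x • a)) hFa (hHd.analyticAt x₀) hla
    (by filter_upwards [hU.mem_nhds hx₀] with z hz using (hSn z (hUK hz)).2) (Eventually.of_forall fun z => ⟨hHX z, hHu z⟩) hcap (by linarith [hc.ε_pos]) hrel
  have h7 : (fun z => II α ε (y n + z • a) (pr (S (y n + z • a))) (pr (H z))) =ᶠ[𝓝 x₀] fun x => JJ α (y n + x • a) (pr (S (y n + x • a))) (f n x) := by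
    filter_upwards [hU.mem_nhds hx₀] with z hz
    have h8 := jj_eq_II G.cone G.tor G.lat (α := α) hc (h3 z (hUK hz)) (hSm z (hUK hz)) (hfm z) (h4 z (hUK hz))
    rw [h8, hHe]
  exact (h6.congr h7).differentiableAt.differentiableWithinAt

theorem exists_scal (G : Geo X Λ u D B) (hL : LG Λ D Bad a) (hCR : ∀ p ∈ D, p ∉ Bad → CRL X Λ u D a p) (hgood : ∀ p ∈ D, p ∉ Bad → p ∉ B ∧ TransAt D p a) {y₀ : Vd (k + 1)}
    {g : ℂ → MN N} (hg : g ∈ Hc X Λ u a y₀) {z₀ : ℂ} (h : y₀ + z₀ • a ∉ Bad) (α : VForm X Λ u) : ∃ (r : ℝ) (S : Vd (k + 1) → EN N), 0 < r ∧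
      (∀ y ∈ ball (y₀ + z₀ • a) r, AnalyticAt ℂ S y ∧ S y ∈ X ∧ u (S y) - y ∈ Λ) ∧ (∀ z ∈ ball z₀ r, pr (S (y₀ + z • a)) = g z) ∧
      (∀ z ∈ ball z₀ r, z ≠ z₀ → y₀ + z • a ∉ D) ∧
      ∀ {ι : Type} (𝒰 : Ultrafilter ι) (y : ι → Vd (k + 1)) (f : ι → ℂ → MN N), Tendsto y 𝒰 (𝓝 y₀) → (∀ᶠ n in (𝒰 : Filter ι), f n ∈ Hc X Λ u a (y n)) → Lm D a 𝒰 y₀ f g →
        ∃ Tf : ι → ℂ → ℂ, (∀ᶠ n in (𝒰 : Filter ι), DifferentiableOn ℂ (Tf n) (ball z₀ r)) ∧
          ∀ K : Set ℂ, IsCompact K → K ⊆ ball z₀ r → (∀ z ∈ K, y₀ + z • a ∉ D) → ∀ᶠ n in (𝒰 : Filter ι), ∀ z ∈ K, Tf n z = JJ α (y n + z • a) (pr (S (y n + z • a))) (f n z) := by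
  classical
  have ha : ‖a‖ = 1 := hL.norm
  have ha0 : a ≠ 0 := by
    rintro rfl
    rw [norm_zero] at ha
    exact zero_ne_one ha
  have hgc := hc_cont G.cone hg
  obtain ⟨r₁, S, hr₁, hS, hSg⟩ : ∃ (r : ℝ) (S : Vd (k + 1) → EN N), 0 < r ∧
      (∀ y ∈ ball (y₀ + z₀ • a) r, AnalyticAt ℂ S y ∧ S y ∈ X ∧ u (S y) - y ∈ Λ) ∧ ∀ z ∈ ball z₀ r, pr (S (y₀ + z • a)) = g z := by
    obtain ⟨F₀, ⟨hFd, hFX, hFu⟩, hFe⟩ := hg
    obtain ⟨r, S, h1, h2, h3⟩ := exists_sec G ha0 (fun hD => hgood _ hD h) (hFd.analyticAt z₀) (Eventually.of_forall fun z => ⟨hFX z, hFu z⟩)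
    exact ⟨r, S, h1, h2, fun z hz => by rw [h3 z hz, hFe]⟩
  by_cases hD : y₀ + z₀ • a ∈ D
  · -- a good hit
    set p : Vd (k + 1) := y₀ + z₀ • a with hp
    obtain ⟨η, hη, hηD⟩ : ∃ η : ℝ, 0 < η ∧ ∀ z : ℂ, z ≠ 0 → ‖z‖ ≤ η → p + z • a ∉ D := by
      have h1 := hL.iso p
      rw [eventually_nhdsWithin_iff, Metric.eventually_nhds_iff] at h1
      obtain ⟨η, hη, h2⟩ := h1
      refine ⟨η / 2, half_pos hη, fun z hz hzη => h2 ?_ hz⟩
      rw [dist_zero_right]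
      linarith
    obtain ⟨s₀, ρ₀, hs₀, hsη, hρ₀, hcr⟩ := hCR p hD h (min η (r₁ / 4)) (lt_min hη (by linarith))
    have hsη' : s₀ ≤ η := hsη.trans (min_le_left _ _)
    have hsr : s₀ ≤ r₁ / 4 := hsη.trans (min_le_right _ _)
    have hoff : ∀ x : ℂ, x ≠ z₀ → dist x z₀ ≤ s₀ → y₀ + x • a ∉ D := by
      intro x hx hxd
      have h1 := hηD (x - z₀) (sub_ne_zero.2 hx) (by rw [← dist_eq_norm]; linarith)
      have e : p + (x - z₀) • a = y₀ + x • a := by
        rw [hp, sub_smul]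
        abel
      rwa [e] at h1
    refine ⟨s₀, S, hs₀, fun y hy => hS y (ball_subset_ball (by linarith) hy), fun z hz => hSg z (ball_subset_ball (by linarith) hz),
      fun z hz hzz => hoff z hzz (mem_ball.1 hz).le, ?_⟩
    intro ι 𝒰 y f hy hf hfg
    have hs1 : s₀ < r₁ := by linarith
    have hKc : ∀ d : ℝ, IsCompact {x : ℂ | d ≤ dist x z₀ ∧ dist x z₀ ≤ s₀} := by
      intro d
      have h1 : {x : ℂ | d ≤ dist x z₀ ∧ dist x z₀ ≤ s₀} = closedBall z₀ s₀ ∩ {x : ℂ | d ≤ dist x z₀} := by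
        ext x
        simp only [Set.mem_ofPred_eq, Set.mem_inter_iff, mem_closedBall]
        exact and_comm
      rw [h1]
      exact (isCompact_closedBall z₀ s₀).inter_right (isClosed_le continuous_const (continuous_id.dist continuous_const))
    have hKs : ∀ d : ℝ, ∀ x ∈ {x : ℂ | d ≤ dist x z₀ ∧ dist x z₀ ≤ s₀}, dist x z₀ ≤ s₀ := fun d x hx => hx.2
    have hKD : ∀ d : ℝ, 0 < d → ∀ x ∈ {x : ℂ | d ≤ dist x z₀ ∧ dist x z₀ ≤ s₀}, y₀ + x • a ∉ D := by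
      intro d hd x hx
      refine hoff x ?_ hx.2
      rintro rfl
      have := hx.1
      rw [dist_self] at this
      linarith
    obtain ⟨δ₁, hδ₁, hgd, hcl⟩ := sc_K G ha hy hgc hfg hs1 hS hSg (hKc (s₀ / 4)) (hKs (s₀ / 4)) (hKD (s₀ / 4) (by linarith))
    obtain ⟨ε, ε₀, -, -, hc⟩ := exists_cst G hδ₁ one_pos
    obtain ⟨ε₁, hε₁, hε₁₀, hcr1⟩ := hcr δ₁ ε ε₀ hc
    have hpn : Tendsto (fun n => y n + z₀ • a) 𝒰 (𝓝 p) := hy.add_const _
    have hJ : ∀ᶠ n in (𝒰 : Filter ι), ∃ J' : ℂ → ℂ, DifferentiableOn ℂ J' (ball z₀ s₀) ∧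
        ∀ x : ℂ, s₀ / 4 < dist x z₀ → dist x z₀ < s₀ → J' x = JJ α (y n + x • a) (pr (S (y n + x • a))) (f n x) := by
      filter_upwards [hf, hgd, hcl ε₁ hε₁, hpn.eventually (ball_mem_nhds p hρ₀), hy.eventually (ball_mem_nhds y₀ (half_pos hr₁))] with n hfn h3 h4 h5 hyn
      have hfm := hc_mem hfn
      obtain ⟨H, ⟨hHd, hHX, hHu⟩, hHe⟩ := hfn
      have hSn : ∀ z : ℂ, dist z z₀ ≤ 2 * s₀ → AnalyticAt ℂ S (y n + z • a) ∧ S (y n + z • a) ∈ X ∧ u (S (y n + z • a)) - (y n + z • a) ∈ Λ :=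
        fun z hz => hS _ (sc_ball ha hz (by have := mem_ball.1 hyn; linarith))
      have e0 : ∀ z : ℂ, y n + z₀ • a + z • a = y n + (z₀ + z) • a := by
        intro z
        rw [add_smul]
        abel
      have hdz : ∀ z ∈ ball (0 : ℂ) (2 * s₀), dist (z₀ + z) z₀ ≤ 2 * s₀ := by
        intro z hz
        rw [dist_eq_norm, add_sub_cancel_left]
        exact (mem_ball_zero_iff.1 hz).le
      have hmem : ∀ z : ℂ, s₀ / 4 ≤ ‖z‖ → ‖z‖ ≤ s₀ → z₀ + z ∈ {x : ℂ | s₀ / 4 ≤ dist x z₀ ∧ dist x z₀ ≤ s₀} := by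
        intro z h6 h7
        simp only [Set.mem_ofPred_eq, dist_eq_norm, add_sub_cancel_left]
        exact ⟨h6, h7⟩
      obtain ⟨J', hJ', hJe⟩ := hcr1 (y n + z₀ • a) h5 (fun z h6 h7 => by rw [e0]; exact h3 _ (hmem z h6 h7)) α (fun z => S (y n + (z₀ + z) • a)) (fun z => H (z₀ + z))
        (fun z hz => by
          have h8 : AnalyticAt ℂ (fun z : ℂ => y n + (z₀ + z) • a) z := by fun_prop
          exact (AnalyticAt.comp (g := S) (f := fun z : ℂ => y n + (z₀ + z) • a) (hSn _ (hdz z hz)).1 h8).differentiableAt.differentiableWithinAt)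
        (fun z hz => by rw [e0]; exact (hSn _ (hdz z hz)).2)
        (hHd.comp (differentiable_id.const_add z₀)).differentiableOn (fun z _ => ⟨hHX _, by rw [e0]; exact hHu _⟩)
        (fun z h6 h7 => by
          have h8 := h4 _ (hmem z h6 h7)
          rw [hHe] at h8
          exact h8)
      refine ⟨fun x => J' (x - z₀), ?_, fun x h6 h7 => ?_⟩
      · refine hJ'.comp (differentiable_id.sub_const z₀).differentiableOn fun x hx => ?_
        rw [mem_ball, dist_eq_norm] at hx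
        rw [mem_ball, dist_zero_right]
        exact hx
      · have hSx := hSn x (by linarith)
        rw [dist_eq_norm] at h6 h7
        have h8 := hJe (x - z₀) h6 h7
        have h9 := hmem (x - z₀) h6.le h7.le
        rw [add_sub_cancel] at h9
        show J' (x - z₀) = _
        rw [h8, e0, jj_eq_II G.cone G.tor G.lat (α := α) hc (h3 x h9) ⟨_, hSx.2.1, rfl, hSx.2.2⟩ (hfm x) ((h4 x h9).trans hε₁₀), hHe, add_sub_cancel]
    obtain ⟨J, hJs⟩ : ∃ J : ι → ℂ → ℂ, ∀ n, (∃ J' : ℂ → ℂ, DifferentiableOn ℂ J' (ball z₀ s₀) ∧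
        ∀ x : ℂ, s₀ / 4 < dist x z₀ → dist x z₀ < s₀ → J' x = JJ α (y n + x • a) (pr (S (y n + x • a))) (f n x)) →
        DifferentiableOn ℂ (J n) (ball z₀ s₀) ∧ ∀ x : ℂ, s₀ / 4 < dist x z₀ → dist x z₀ < s₀ → J n x = JJ α (y n + x • a) (pr (S (y n + x • a))) (f n x) := by
      refine ⟨fun n => if hn : ∃ J' : ℂ → ℂ, DifferentiableOn ℂ J' (ball z₀ s₀) ∧
        ∀ x : ℂ, s₀ / 4 < dist x z₀ → dist x z₀ < s₀ → J' x = JJ α (y n + x • a) (pr (S (y n + x • a))) (f n x) then hn.choose else 0, fun n hn => ?_⟩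
      simp only [dif_pos hn]
      exact hn.choose_spec
    have hJn := hJ.mono fun n hn => hJs n hn
    refine ⟨J, hJn.mono fun n hn => hn.1, fun K hK hKb hKD' => ?_⟩
    -- the distance of `K` from the centre
    obtain ⟨d, hd, hdK⟩ : ∃ d : ℝ, 0 < d ∧ ∀ z ∈ K, d < dist z z₀ := by
      rcases K.eq_empty_or_nonempty with rfl | hne
      · exact ⟨1, one_pos, fun z hz => absurd hz (Set.notMem_empty z)⟩
      · obtain ⟨w, hw, hwm⟩ := hK.exists_isMinOn hne (f := fun z => dist z z₀) (by fun_prop)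
        have hw0 : 0 < dist w z₀ := by
          rw [dist_pos]
          rintro rfl
          exact hKD' w hw hD
        exact ⟨dist w z₀ / 2, half_pos hw0, fun z hz => by have : dist w z₀ ≤ dist z z₀ := hwm hz; linarith⟩
    have hU : IsOpen {x : ℂ | d < dist x z₀ ∧ dist x z₀ < s₀} :=
      (isOpen_lt continuous_const (continuous_id.dist continuous_const)).inter (isOpen_lt (continuous_id.dist continuous_const) continuous_const)
    filter_upwards [hJn, sc_an G ha hy hf hgc hfg hs1 hS hSg α (hKc d) (hKs d) (hKD d hd) hU (fun x hx => ⟨hx.1.le, hx.2.le⟩)] with n hn hdn x hxK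
    have hx1 : d < dist x z₀ := hdK x hxK
    have hx2 : dist x z₀ < s₀ := mem_ball.1 (hKb hxK)
    have hds : d < s₀ := hx1.trans hx2
    -- the point `q`
    set t : ℝ := (max (s₀ / 4) d + s₀) / 2 with ht
    have hm : max (s₀ / 4) d < s₀ := max_lt (by linarith) hds
    have ht1 : max (s₀ / 4) d < t := by linarith
    have ht2 : t < s₀ := by linarith
    have ht0 : 0 < t := lt_trans (lt_of_lt_of_le (by linarith) (le_max_left (s₀ / 4) d)) ht1
    have hqd : dist (z₀ + (t : ℂ)) z₀ = t := by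
      rw [dist_eq_norm, add_sub_cancel_left, Complex.norm_real, Real.norm_of_nonneg ht0.le]
    have hqU : z₀ + (t : ℂ) ∈ {x : ℂ | d < dist x z₀ ∧ dist x z₀ < s₀} := by
      rw [Set.mem_ofPred_eq, hqd]
      exact ⟨lt_of_le_of_lt (le_max_right _ _) ht1, ht2⟩
    have hsub : {x : ℂ | d < dist x z₀ ∧ dist x z₀ < s₀} ⊆ ball z₀ s₀ := fun x hx => hx.2
    have hA1 : AnalyticOnNhd ℂ (J n) {x : ℂ | d < dist x z₀ ∧ dist x z₀ < s₀} := (hn.1.mono hsub).analyticOnNhd hU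
    have hA2 := hdn.analyticOnNhd hU
    have heq : J n =ᶠ[𝓝 (z₀ + (t : ℂ))] fun x => JJ α (y n + x • a) (pr (S (y n + x • a))) (f n x) := by
      have h1 : IsOpen {x : ℂ | s₀ / 4 < dist x z₀ ∧ dist x z₀ < s₀} :=
        (isOpen_lt continuous_const (continuous_id.dist continuous_const)).inter (isOpen_lt (continuous_id.dist continuous_const) continuous_const)
      have h2 : z₀ + (t : ℂ) ∈ {x : ℂ | s₀ / 4 < dist x z₀ ∧ dist x z₀ < s₀} := by
        rw [Set.mem_ofPred_eq, hqd]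
        exact ⟨lt_of_le_of_lt (le_max_left _ _) ht1, ht2⟩
      filter_upwards [h1.mem_nhds h2] with x hx
      exact hn.2 x hx.1 hx.2
    exact hA1.eqOn_of_preconnected_of_eventuallyEq hA2 (isPreconnected_ann z₀ hd.le) hqU heq ⟨hx1, hx2⟩
  · -- not a hit
    have hop : IsOpen {x : ℂ | y₀ + x • a ∉ D} := by
      have hc : Continuous fun x : ℂ => y₀ + x • a := by fun_prop
      exact G.D_closed.isOpen_compl.preimage hc
    obtain ⟨r, hr, hrs⟩ := Metric.isOpen_iff.1 hop z₀ hD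
    have hr2 : 0 < min r r₁ / 2 := half_pos (lt_min hr hr₁)
    have hrr : min r r₁ ≤ r := min_le_left _ _
    have hrr1 : min r r₁ ≤ r₁ := min_le_right _ _
    have hK : ∀ x ∈ closedBall z₀ (min r r₁ / 2), y₀ + x • a ∉ D := fun x hx => hrs (closedBall_subset_ball (by linarith) hx)
    refine ⟨min r r₁ / 2, S, hr2, fun y hy => hS y (ball_subset_ball (by linarith) hy), fun z hz => hSg z (ball_subset_ball (by linarith) hz),
      fun z hz _ => hK z (ball_subset_closedBall hz), ?_⟩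
    intro ι 𝒰 y f hy hf hfg
    refine ⟨fun n x => JJ α (y n + x • a) (pr (S (y n + x • a))) (f n x), ?_, fun K _ _ _ => Eventually.of_forall fun n x _ => rfl⟩
    exact sc_an G ha hy hf hgc hfg (s := min r r₁ / 2) (by linarith) hS hSg α (isCompact_closedBall z₀ (min r r₁ / 2)) (fun z hz => mem_closedBall.1 hz) hK isOpen_ball
      ball_subset_closedBall

end Pool.Agent.G3.R
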