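import Pool.Agent.G3.R.K2

/-!
# G3 R Seq: sequences of normalised curves

Notation: `B n = A n + Lam (0)`.
`seq_near`: `nrm_mean` on the circle of radius `ρ n` with `ρ n ^ 2 = min (κ (B n) / 2, (R n) ^ 2 / 4)` (tends to `∞`; `1 ≤ κ (B n) / 2` for large `n`) and `cauchy_sub` for `g = deriv (h n)` (average of `‖h'‖` at most `(1 + 4) / 2`).

`seq_false`: let `𝒰` be the hyperfilter (`Filter.hyperfilter ℕ`), `a` the limit of `deriv (h n) 0` along `𝒰` (`‖·‖ = 1`, compact sphere), `i` the index with `‖deriv (h n) 0 i‖ = 1` for `𝒰`-many `n` (finitely many indices; the norm is the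
sup norm).  `x n z = deriv (h n) z i / deriv (h n) 0 i`, `E n z = exp (2 (B n) Log (x n z))`.  For every `r` and large `n`: `‖x n z - 1‖ ≤ 1/2` on `ball 0 r`, so `Log (x n)` is holomorphic, `log ‖E n z‖ = 2 (B n) log ‖x n z‖`,
and at `Ok` points (`Nrm.le`, `‖h'‖ ≤ Mf`, `‖h'‖ ≤ 2`): `Lam z - Lam 0 ≥ B n (‖h' z‖² (1 - |z|²/R²)² - 1) ≥ B n (‖x n z‖² - 1) - 8 r² (B n) / (R n)² ≥ 2 (B n) log ‖x n z‖ - ε`.  `LCT` (`Z/CDefs`) gives the contradiction.
-/

set_option autoImplicit false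

open Topology Filter Metric

namespace Pool.Agent.G3

open Pool.Agent.H36.BP (EN fs wd Sub)
open Pool.Agent.H14.PP (IsCone CurveAt Tan)
open Pool.Agent.H62.EF (MN pr)
open Pool.Agent.AD (Vd Chart Charts)
open Pool.Agent.TG (TMap Lat Geo Gd)

variable {N k : ℕ} {X : Set (EN N)} {Λ : AddSubgroup (Vd (k + 1))} {u : EN N → Vd (k + 1)} {D : Set (Vd (k + 1))} {p : EN N → EN N → ℝ} {m d : ℕ} {C : ℝ} {Q : EN N → ℂ}

theorem seq_near (hX : IsCone X) (hP : PS X Λ u D p m C) (hQ : QD X Λ u D Q d) {ε : ℝ} (hε : 0 < ε) (hε1 : ε ≤ 1) {A R : ℕ → ℝ} {F : ℕ → ℂ → EN N}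
    {h : ℕ → ℂ → Vd (k + 1)} (hN : ∀ n, Nrm X Λ u Q d p m ε (A n) (R n) (F n) (h n)) (hB : Tendsto (fun n => A n + Lam Q d p m (F n) (h n) 0) atTop atTop)
    (hR : Tendsto (fun n => R n ^ 2 / (A n + Lam Q d p m (F n) (h n) 0)) atTop atTop) (r ε' : ℝ) (hε' : 0 < ε') :
    ∀ᶠ n in atTop, r ≤ R n ∧ ∀ z ∈ ball (0 : ℂ) r, ‖deriv (h n) z - deriv (h n) 0‖ ≤ ε' := by
  obtain ⟨κ, hκ, hmean⟩ := nrm_mean hX hP hQ hε hε1
  set ρ : ℝ := 2 * |r| + 5 * |r| / ε' + 1 with hρ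
  have hr0 : 0 ≤ |r| := abs_nonneg r
  have hρ0 : 0 < ρ := by positivity
  have hρr : |r| ≤ ρ / 2 := by
    have : 0 ≤ 5 * |r| / ε' := by positivity
    linarith
  have hρε : 5 * |r| / ρ ≤ ε' := by
    rw [div_le_iff₀ hρ0]
    have h1 : ε' * (5 * |r| / ε') = 5 * |r| := by field_simp
    have h2 : 0 ≤ ε' * (2 * |r| + 1) := by positivity
    calc 5 * |r| = ε' * (5 * |r| / ε') := h1.symm
      _ ≤ ε' * ρ := by
        rw [hρ]
        nlinarith
  filter_upwards [hB.eventually_ge_atTop ((1 + ρ ^ 2) / κ), hB.eventually_ge_atTop (4 * ρ ^ 2), hR.eventually_ge_atTop 1, hB.eventually_gt_atTop 0]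
    with n h1 h2 h3 h4
  set B : ℝ := A n + Lam Q d p m (F n) (h n) 0 with hBdef
  have h5 : B ≤ R n ^ 2 := by
    rwa [le_div_iff₀ h4, one_mul] at h3
  have hRρ : 4 * ρ ^ 2 ≤ R n ^ 2 := h2.trans h5
  have hRpos := (hN n).R_pos
  have hR2 : 2 * ρ ≤ R n := by
    have h6 : (2 * ρ) ^ 2 ≤ R n ^ 2 := by
      calc (2 * ρ) ^ 2 = 4 * ρ ^ 2 := by ring
        _ ≤ _ := hRρ
    exact (pow_le_pow_iff_left₀ (by positivity) hRpos.le (by norm_num)).1 h6
  have hκB : 1 + ρ ^ 2 ≤ κ * B := by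
    rw [div_le_iff₀ hκ] at h1
    linarith
  have h6 := (hmean (A n) (R n) (F n) (h n) (hN n) ρ hρ0 hRρ hκB).2.2
  refine ⟨by linarith [le_abs_self r], fun z hz => ?_⟩
  have hz' : ‖z‖ < r := by simpa using hz
  have hzr : ‖z‖ ≤ |r| := hz'.le.trans (le_abs_self r)
  have hρR : ρ < R n := by linarith
  have hd : DifferentiableOn ℂ (deriv (h n)) (ball 0 (R n)) := (hN n).cv.h_diff.deriv isOpen_ball
  have h7 := cauchy_sub (g := deriv (h n)) hρ0 hρR hd (hzr.trans hρr)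
  have hcs : ContinuousOn (deriv (h n)) (sphere 0 ρ) := hd.continuousOn.mono (by
    intro w hw
    rw [mem_sphere_zero_iff_norm] at hw
    rw [mem_ball_zero_iff, hw]
    exact hρR)
  have hc1 : CircleIntegrable (fun w => ‖deriv (h n) w‖) 0 ρ := (hcs.norm).circleIntegrable hρ0.le
  have hc2 : CircleIntegrable (fun w => ‖deriv (h n) w‖ ^ 2) 0 ρ := ((hcs.norm).pow 2).circleIntegrable hρ0.le
  have hc3 : CircleIntegrable (fun w => (1 / 2 : ℝ) * ‖deriv (h n) w‖ ^ 2) 0 ρ := (continuousOn_const.mul ((hcs.norm).pow 2)).circleIntegrable hρ0.le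
  have hc4 : CircleIntegrable (fun w : ℂ => (1 / 2 : ℝ)) 0 ρ := (continuousOn_const).circleIntegrable hρ0.le
  have hc5 : CircleIntegrable (fun w => (1 / 2 : ℝ) + (1 / 2 : ℝ) * ‖deriv (h n) w‖ ^ 2) 0 ρ := (continuousOn_const.add (continuousOn_const.mul ((hcs.norm).pow 2))).circleIntegrable hρ0.le
  have h8 : Real.circleAverage (fun w => ‖deriv (h n) w‖) 0 ρ ≤ 5 / 2 := by
    calc Real.circleAverage (fun w => ‖deriv (h n) w‖) 0 ρ
        ≤ Real.circleAverage (fun w => (1 / 2 : ℝ) + (1 / 2 : ℝ) * ‖deriv (h n) w‖ ^ 2) 0 ρ := by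
          refine Real.circleAverage_mono hc1 hc5 fun w _ => ?_
          nlinarith [sq_nonneg (‖deriv (h n) w‖ - 1)]
      _ = 1 / 2 + 1 / 2 * Real.circleAverage (fun w => ‖deriv (h n) w‖ ^ 2) 0 ρ := by
          have e1 := Real.circleAverage_fun_add hc4 hc3
          have e2 : Real.circleAverage (fun w => (1 / 2 : ℝ) * ‖deriv (h n) w‖ ^ 2) 0 ρ = (1 / 2 : ℝ) * Real.circleAverage (fun w => ‖deriv (h n) w‖ ^ 2) 0 ρ :=
            Real.circleAverage_smul (a := (1 / 2 : ℝ)) (f := fun w => ‖deriv (h n) w‖ ^ 2)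
          have e3 : Real.circleAverage (fun _ : ℂ => (1 / 2 : ℝ)) 0 ρ = 1 / 2 := Real.circleAverage_const _ _ _
          rw [e1, e2, e3]
      _ ≤ 5 / 2 := by linarith
  calc ‖deriv (h n) z - deriv (h n) 0‖ ≤ 2 * ‖z‖ / ρ * Real.circleAverage (fun w => ‖deriv (h n) w‖) 0 ρ := h7
    _ ≤ 2 * ‖z‖ / ρ * (5 / 2) := mul_le_mul_of_nonneg_left h8 (by positivity)
    _ ≤ 2 * |r| / ρ * (5 / 2) := by gcongr
    _ = 5 * |r| / ρ := by ring
    _ ≤ ε' := hρε

private theorem seq_idx (𝒰 : Ultrafilter ℕ) {v : ℕ → Vd (k + 1)} (h1 : ∀ᶠ n in (𝒰 : Filter ℕ), ‖v n‖ = 1) :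
    ∃ i, ∀ᶠ n in (𝒰 : Filter ℕ), ‖v n i‖ = 1 := by
  by_contra hcon
  push Not at hcon
  have h2 : ∀ i, ∀ᶠ n in (𝒰 : Filter ℕ), ¬ ‖v n i‖ = 1 := by
    intro i
    have h3 := hcon i
    simpa using h3
  have h4 : ∀ᶠ n in (𝒰 : Filter ℕ), ∀ i, ¬ ‖v n i‖ = 1 := Filter.eventually_all.2 h2
  obtain ⟨n, hn, hn'⟩ := (h1.and h4).exists
  have h5 : ‖v n‖ < 1 := by
    refine (pi_norm_lt_iff one_pos).2 fun i => ?_
    have h6 : ‖v n i‖ ≤ 1 := hn ▸ norm_le_pi_norm (v n) i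
    exact lt_of_le_of_ne h6 (hn' i)
  linarith

private theorem seq_alg {B L t x M ε : ℝ} (hB : 0 < B) (ht0 : 0 ≤ t) (ht1 : t < 1) (hx : 0 < x) (hx2 : x ≤ 3 / 2) (hxM : x ≤ M)
    (h : M ^ 2 * (1 - t) ^ 2 * B ≤ B + L) (hε : 8 * (t * B) ≤ ε) : 2 * B * Real.log x - ε ≤ L := by
  have h1 : Real.log (x ^ 2) ≤ x ^ 2 - 1 := Real.log_le_sub_one_of_pos (by positivity)
  rw [Real.log_pow] at h1
  push_cast at h1
  have h2 : x ^ 2 * (1 - t) ^ 2 ≤ M ^ 2 * (1 - t) ^ 2 := by gcongr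
  have h3 : x ^ 2 * (1 - t) ^ 2 * B ≤ B + L := (mul_le_mul_of_nonneg_right h2 hB.le).trans h
  have h4 : x ^ 2 ≤ 9 / 4 := by nlinarith
  have h5 : x ^ 2 - 8 * t ≤ x ^ 2 * (1 - t) ^ 2 := by
    have : 0 ≤ x ^ 2 * t ^ 2 := by positivity
    nlinarith [mul_le_mul_of_nonneg_right h4 ht0]
  have h6 := mul_le_mul_of_nonneg_right h5 hB.le
  have h7 := mul_le_mul_of_nonneg_left h1 hB.le
  nlinarith

theorem seq_false (hX : IsCone X) (hP : PS X Λ u D p m C) (hQ : QD X Λ u D Q d) (hL : LCT X Λ u Q d p m) {ε : ℝ} (hε : 0 < ε) (hε1 : ε ≤ 1) {A R : ℕ → ℝ}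
    {F : ℕ → ℂ → EN N} {h : ℕ → ℂ → Vd (k + 1)} (hN : ∀ n, Nrm X Λ u Q d p m ε (A n) (R n) (F n) (h n))
    (hB : Tendsto (fun n => A n + Lam Q d p m (F n) (h n) 0) atTop atTop) (hR : Tendsto (fun n => R n ^ 2 / (A n + Lam Q d p m (F n) (h n) 0)) atTop atTop)
    (h1 : ∀ᶠ n in atTop, ‖deriv (h n) 0‖ = 1) : False := by
  set 𝒰 : Ultrafilter ℕ := hyperfilter ℕ with h𝒰
  have hle : (𝒰 : Filter ℕ) ≤ atTop := Nat.hyperfilter_le_atTop
  have hnear := fun (r ε' : ℝ) (hε' : 0 < ε') => (seq_near hX hP hQ hε hε1 hN hB hR r ε' hε').filter_mono hle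
  have h1' : ∀ᶠ n in (𝒰 : Filter ℕ), ‖deriv (h n) 0‖ = 1 := h1.filter_mono hle
  obtain ⟨a, ha, hlim⟩ : ∃ a ∈ sphere (0 : Vd (k + 1)) 1, Tendsto (fun n => deriv (h n) 0) (𝒰 : Filter ℕ) (𝓝 a) := by
    have h2 := (isCompact_sphere (0 : Vd (k + 1)) 1).ultrafilter_le_nhds (𝒰.map fun n => deriv (h n) 0) (by
      rw [le_principal_iff]
      show ∀ᶠ n in (𝒰 : Filter ℕ), deriv (h n) 0 ∈ sphere (0 : Vd (k + 1)) 1
      filter_upwards [h1'] with n hn
      rw [mem_sphere_zero_iff_norm]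
      exact hn)
    exact h2
  have ha1 : ‖a‖ = 1 := by simpa using ha
  obtain ⟨i, hi⟩ := seq_idx 𝒰 h1'
  have ha0 : a ≠ 0 := by
    intro h2
    rw [h2, norm_zero] at ha1
    exact zero_ne_one ha1
  set B : ℕ → ℝ := fun n => A n + Lam Q d p m (F n) (h n) 0 with hBdef
  have hx : ∀ r : ℝ, ∀ᶠ n in (𝒰 : Filter ℕ), r ≤ R n ∧ ‖deriv (h n) 0 i‖ = 1 ∧ ∀ z ∈ ball (0 : ℂ) r, ‖deriv (h n) z i / deriv (h n) 0 i - 1‖ ≤ 1 / 2 := by
    intro r
    filter_upwards [hnear r (1 / 2) (by norm_num), hi] with n hn hni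
    refine ⟨hn.1, hni, fun z hz => ?_⟩
    have h2 : deriv (h n) 0 i ≠ 0 := by
      rw [← norm_ne_zero_iff, hni]
      exact one_ne_zero
    have h3 : deriv (h n) z i / deriv (h n) 0 i - 1 = (deriv (h n) z - deriv (h n) 0) i / deriv (h n) 0 i := by
      rw [Pi.sub_apply]
      field_simp
    rw [h3, norm_div, hni, div_one]
    exact (norm_le_pi_norm _ i).trans (hn.2 z hz)
  have hslit : ∀ w : ℂ, ‖w - 1‖ ≤ 1 / 2 → w ∈ Complex.slitPlane := by
    intro w hw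
    left
    have h2 := (Complex.abs_re_le_norm (w - 1)).trans hw
    rw [Complex.sub_re, Complex.one_re, abs_le] at h2
    linarith [h2.1]
  refine hL 𝒰 a F h (fun n z => Complex.exp (2 * (B n : ℂ) * Complex.log (deriv (h n) z i / deriv (h n) 0 i))) ha0 ?_ ?_ ?_ ?_ ?_
  · intro r
    filter_upwards [hx r] with n hn
    exact (hN n).cv.mono (ball_subset_ball hn.1)
  · exact Filter.Eventually.of_forall fun n => (hN n).ok
  · intro r ε' hε'
    filter_upwards [hnear r (ε' / 2) (by positivity), Metric.tendsto_nhds.1 hlim (ε' / 2) (by positivity)] with n hn hn' z hz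
    rw [dist_eq_norm] at hn'
    have h2 : deriv (h n) z - a = (deriv (h n) z - deriv (h n) 0) + (deriv (h n) 0 - a) := by abel
    rw [h2]
    exact (norm_add_le _ _).trans (by linarith [hn.2 z hz])
  · intro r
    filter_upwards [hx r] with n hn
    have hd : DifferentiableOn ℂ (fun z => deriv (h n) z i / deriv (h n) 0 i) (ball 0 r) := by
      have h2 : DifferentiableOn ℂ (deriv (h n)) (ball 0 r) := ((hN n).cv.mono (ball_subset_ball hn.1)).h_diff.deriv isOpen_ball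
      exact (differentiableOn_pi.1 h2 i).div_const _
    refine ⟨?_, fun z _ => Complex.exp_ne_zero _, ?_⟩
    · exact ((hd.clog fun z hz => hslit _ (hn.2.2 z hz)).const_mul _).cexp
    · have h2 : deriv (h n) 0 i ≠ 0 := by
        rw [← norm_ne_zero_iff, hn.2.1]
        exact one_ne_zero
      simp [div_self h2]
  · intro r ε' hε'
    have hlarge : ∀ᶠ n in (𝒰 : Filter ℕ), 8 * r ^ 2 / ε' ≤ R n ^ 2 / B n := (hR.eventually_ge_atTop _).filter_mono hle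
    have hBpos : ∀ᶠ n in (𝒰 : Filter ℕ), 0 < B n := (hB.eventually_gt_atTop 0).filter_mono hle
    filter_upwards [hx r, hlarge, hBpos] with n hn hn2 hn3 z hz hok
    have hRpos := (hN n).R_pos
    have hzr : ‖z‖ < r := by simpa using hz
    have hzR : ‖z‖ < R n := hzr.trans_le hn.1
    set x : ℝ := ‖deriv (h n) z i / deriv (h n) 0 i‖ with hxdef
    have hx1 : ‖deriv (h n) z i / deriv (h n) 0 i - 1‖ ≤ 1 / 2 := hn.2.2 z hz
    have hxl : 1 / 2 ≤ x := by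
      have h2 := norm_sub_norm_le (1 : ℂ) (1 - deriv (h n) z i / deriv (h n) 0 i)
      rw [norm_one, norm_sub_rev (1 : ℂ), sub_sub_cancel] at h2
      linarith
    have hxu : x ≤ 3 / 2 := by
      have h2 := norm_add_le (1 : ℂ) (deriv (h n) z i / deriv (h n) 0 i - 1)
      rw [norm_one, add_sub_cancel] at h2
      linarith
    have hxM : x ≤ Mf p m ε (F n) (h n) z := by
      have h2 : x = ‖deriv (h n) z i‖ := by
        rw [hxdef, norm_div, hn.2.1, div_one]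
      rw [h2]
      exact (norm_le_pi_norm _ i).trans (le_max_left _ _)
    have hlog : Real.log ‖Complex.exp (2 * (B n : ℂ) * Complex.log (deriv (h n) z i / deriv (h n) 0 i))‖ = 2 * B n * Real.log x := by
      rw [Complex.norm_exp, Real.log_exp]
      have h2 : (2 * (B n : ℂ) * Complex.log (deriv (h n) z i / deriv (h n) 0 i)) = ((2 * B n : ℝ) : ℂ) * Complex.log (deriv (h n) z i / deriv (h n) 0 i) := by
        push_cast
        ring
      rw [h2, Complex.re_ofReal_mul, Complex.log_re]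
    rw [hlog]
    have h5 := (hN n).le z (by simpa using hzR) hok
    have ht1 : ‖z‖ ^ 2 / R n ^ 2 < 1 := by
      rw [div_lt_one (by positivity)]
      exact pow_lt_pow_left₀ hzR (norm_nonneg z) (by norm_num)
    have h6 : 8 * (‖z‖ ^ 2 / R n ^ 2 * B n) ≤ ε' := by
      rw [div_le_div_iff₀ hε' hn3] at hn2
      have h7 : ‖z‖ ^ 2 ≤ r ^ 2 := pow_le_pow_left₀ (norm_nonneg z) hzr.le 2
      have h8 : 8 * (‖z‖ ^ 2 / R n ^ 2 * B n) = 8 * ‖z‖ ^ 2 * B n / R n ^ 2 := by ring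
      rw [h8, div_le_iff₀ (by positivity)]
      calc 8 * ‖z‖ ^ 2 * B n ≤ 8 * r ^ 2 * B n := by gcongr
        _ ≤ R n ^ 2 * ε' := hn2
        _ = ε' * R n ^ 2 := by ring
    have h9 := seq_alg (L := Lam Q d p m (F n) (h n) z - Lam Q d p m (F n) (h n) 0) hn3 (by positivity) ht1 (by linarith) hxu hxM (by
      have : B n + (Lam Q d p m (F n) (h n) z - Lam Q d p m (F n) (h n) 0) = A n + Lam Q d p m (F n) (h n) z := by
        rw [hBdef]
        ring
      rw [this]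
      exact h5) h6
    linarith

end Pool.Agent.G3
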