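import Pool.Agent.G3.R.Nv
import Pool.Agent.G3.A.Idn
import Pool.Agent.G3.A.Shts

/-!
# G3 R ShtF: basic facts on a finite set of sheets

`exists_shs`: from `sht_finite`, `sht_add`.  `Shs.unif`: uniform continuity on `T ∩ Gd D δ`, `T = Tb b E` (closed: finite dimension; compactness of the bounded part, finitely many sheets, `cpt`, `tr`).
`Shs.lm`: the curves `φ (y n + z a)` converge.  `Shs.red`: translation of a point of `T` to a bounded point.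
-/

set_option autoImplicit false

open Topology Filter Metric

namespace Pool.Agent.G3.R

open Pool.Agent.H36.BP (EN fs wd)
open Pool.Agent.H14.PP (IsCone CurveAt Tan)
open Pool.Agent.H62.EF (MN pr)
open Pool.Agent.AD (Vd Chart Charts IsGerm)
open Pool.Agent.TG
open Pool.Agent.G3.C (Gc HP nv nd nv_pr)
open Pool.Agent.G3.A

variable {N k : ℕ} {X : Set (EN N)} {Λ : AddSubgroup (Vd (k + 1))} {u : EN N → Vd (k + 1)} {D B Bad : Set (Vd (k + 1))} {a b w : Vd (k + 1)} {E : Submodule ℝ (Vd (k + 1))}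
  {SS : Set (Vd (k + 1) → MN N)} {J : ℕ} {α : Fin J → VForm X Λ u} {c₀ C₀ ρ δ : ℝ}

theorem exists_shs (S : DA X Λ u D B Bad a α c₀ C₀ ρ δ) (hE : CE X Λ u a b E) : ∃ SS : Set (Vd (k + 1) → MN N), Shs X Λ u D a b E SS ∧
    ∀ ψ, Sht X Λ u D a (Tb b E) ψ → ∃ φ ∈ SS, ∀ y ∈ Tb b E, ψ y = φ y := by
  obtain ⟨SS, h1, h2, h3, -⟩ := sht_finite S hE
  refine ⟨SS, ⟨hE.mem, hE.cpt, h1, h2, fun φ hφ l hl hlE => ?_⟩, h3⟩
  obtain ⟨φ', hφ', h4⟩ := h3 _ (sht_add (h2 φ hφ) S.lg hl hlE)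
  exact ⟨φ', hφ', fun y hy => (h4 y hy).symm⟩

theorem tb_closed (b : Vd (k + 1)) (E : Submodule ℝ (Vd (k + 1))) : IsClosed (Tb b E) := by
  have h : Tb b E = (fun y : Vd (k + 1) => y - b) ⁻¹' (E : Set (Vd (k + 1))) := rfl
  rw [h]
  exact (Submodule.closed_of_finiteDimensional E).preimage (continuous_id.sub continuous_const)

theorem tb_add {y e : Vd (k + 1)} (hy : y ∈ Tb b E) (he : e ∈ E) : y + e ∈ Tb b E := by
  show y + e - b ∈ E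
  have h : y + e - b = (y - b) + e := by abel
  rw [h]
  exact E.add_mem hy he

theorem smul_mem_E (hw : w ∈ E) (s : ℝ) : (s : ℂ) • w ∈ E := by
  have h : (s : ℂ) • w = s • w := by
    ext i
    simp
  rw [h]
  exact E.smul_mem s hw

private theorem sf_sub {y e : Vd (k + 1)} (hy : y ∈ Tb b E) (he : e ∈ E) : y - e ∈ Tb b E := by
  rw [sub_eq_add_neg]
  exact tb_add hy (E.neg_mem he)

private theorem sf_gd (hL : LG Λ D Bad a) {δ' : ℝ} {y l : Vd (k + 1)} (hl : l ∈ Λ) : y + l ∈ Gd D δ' ↔ y ∈ Gd D δ' := by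
  constructor
  · intro h b hb
    have h1 := h _ (hL.D_inv b hb l hl)
    rwa [add_sub_add_right_eq_sub] at h1
  · intro h b hb
    have h1 := h _ (hL.D_inv b hb (-l) (Λ.neg_mem hl))
    have h2 : y - (b + -l) = y + l - b := by abel
    rwa [h2] at h1

private theorem sf_unif {φ : Vd (k + 1) → MN N} (hφ : Sht X Λ u D a (Tb b E) φ) {δ' η : ℝ} (hδ : 0 < δ') (hη : 0 < η) (R : ℝ) :
    ∃ r : ℝ, 0 < r ∧ ∀ y ∈ Tb b E, y ∈ Gd D δ' → ‖y - b‖ ≤ R → ∀ y' ∈ Tb b E, ‖y' - y‖ ≤ r → dist (φ y') (φ y) ≤ η := by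
  have hT := tb_closed b E
  set K : Set (Tb b E) := {y | (y : Vd (k + 1)) ∈ Gd D δ' ∧ ‖(y : Vd (k + 1)) - b‖ ≤ R} with hK
  have hKc : IsCompact K := by
    have h1 : IsCompact (Gd D δ' ∩ closedBall b R) := (isCompact_closedBall b R).inter_left (gd_closed D δ')
    have h2 : K = Subtype.val ⁻¹' (Gd D δ' ∩ closedBall b R) := by
      ext y
      simp [hK, mem_closedBall, dist_eq_norm]
    rw [h2]
    exact hT.isClosedEmbedding_subtypeVal.isCompact_preimage h1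
  have hc : ∀ y ∈ K, ContinuousAt (fun y : Tb b E => φ y) y := by
    intro y hy
    have h1 := hφ.cont y y.2 (gd_notMem hδ hy.1)
    exact continuousWithinAt_iff_continuousAt_domRestrict φ y.2 |>.1 h1
  have h3 := hKc.uniformContinuousAt_of_continuousAt (fun y : Tb b E => φ y) hc (Metric.dist_mem_uniformity hη)
  obtain ⟨r, hr, h4⟩ := Metric.mem_uniformity_dist.1 h3
  refine ⟨r / 2, half_pos hr, fun y hy hyD hyR y' hy' hd => ?_⟩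
  have h5 : dist (⟨y, hy⟩ : Tb b E) ⟨y', hy'⟩ < r := by
    rw [Subtype.dist_eq, dist_comm, dist_eq_norm]
    linarith
  have h6 := h4 h5 (show (⟨y, hy⟩ : Tb b E) ∈ K from ⟨hyD, hyR⟩)
  have h7 : dist (φ y) (φ y') < η := h6
  rw [dist_comm]
  exact h7.le

theorem Shs.unif (h : Shs X Λ u D a b E SS) (hL : LG Λ D Bad a) {δ' η : ℝ} (hδ : 0 < δ') (hη : 0 < η) :
    ∃ r : ℝ, 0 < r ∧ ∀ φ ∈ SS, ∀ y ∈ Tb b E, y ∈ Gd D δ' → ∀ y' ∈ Tb b E, ‖y' - y‖ ≤ r → dist (φ y') (φ y) ≤ η := by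
  obtain ⟨R, -, hcpt⟩ := h.cpt
  have h1 : ∀ φ ∈ SS, ∀ᶠ r in 𝓝[>] (0 : ℝ), ∀ y ∈ Tb b E, y ∈ Gd D δ' → ‖y - b‖ ≤ R → ∀ y' ∈ Tb b E, ‖y' - y‖ ≤ r → dist (φ y') (φ y) ≤ η := by
    intro φ hφ
    obtain ⟨r, hr, h2⟩ := sf_unif (h.sht φ hφ) hδ hη R
    filter_upwards [Ioc_mem_nhdsGT hr] with s hs y hy hyD hyR y' hy' hd
    exact h2 y hy hyD hyR y' hy' (hd.trans hs.2)
  obtain ⟨r, h2, hr⟩ := (((Filter.eventually_all_finite h.fin).2 h1).and self_mem_nhdsWithin).exists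
  refine ⟨r, hr, fun φ hφ y hy hyD y' hy' hd => ?_⟩
  obtain ⟨l, hl, hlE, hlR⟩ := hcpt (y - b) hy
  obtain ⟨φ', hφ', h3⟩ := h.tr φ hφ l hl hlE
  have e1 : φ' (y - l) = φ y := by rw [h3 _ (sf_sub hy hlE), sub_add_cancel]
  have e2 : φ' (y' - l) = φ y' := by rw [h3 _ (sf_sub hy' hlE), sub_add_cancel]
  rw [← e1, ← e2]
  refine h2 φ' hφ' _ (sf_sub hy hlE) ?_ ?_ _ (sf_sub hy' hlE) ?_
  · rw [sub_eq_add_neg, sf_gd hL (Λ.neg_mem hl)]
    exact hyD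
  · rw [sub_right_comm]
    exact hlR
  · rw [sub_sub_sub_cancel_right]
    exact hd

/-- `φ y` is a point of the fibre over `y` -/
theorem Shs.fb (h : Shs X Λ u D a b E SS) {φ : Vd (k + 1) → MN N} (hφ : φ ∈ SS) {y : Vd (k + 1)} (hy : y ∈ Tb b E) : φ y ∈ Fb X Λ u y := by
  have h1 := hc_mem ((h.sht φ hφ).line y hy) 0
  simpa using h1

theorem Shs.lm (h : Shs X Λ u D a b E SS) {φ : Vd (k + 1) → MN N} (hφ : φ ∈ SS) {ι : Type*} {l : Filter ι} {y : ι → Vd (k + 1)} {y₀ : Vd (k + 1)} (hyT : ∀ n, y n ∈ Tb b E)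
    (hy₀ : y₀ ∈ Tb b E) (hy : Tendsto y l (𝓝 y₀)) : Lm D a l y₀ (fun n z => φ (y n + z • a)) fun z => φ (y₀ + z • a) := by
  intro z hz w hw
  have h1 := (h.sht φ hφ).cont (y₀ + z • a) (tb_add hy₀ (h.mem z)) hz
  exact h1.tendsto.comp (tendsto_nhdsWithin_iff.2 ⟨hy.add (hw.smul_const a), Eventually.of_forall fun n => tb_add (hyT n) (h.mem (w n))⟩)

/-- translation to a bounded point -/
theorem Shs.red (h : Shs X Λ u D a b E SS) : ∃ R : ℝ, 0 < R ∧ ∀ φ ∈ SS, ∀ y ∈ Tb b E, ∃ l ∈ Λ, l ∈ E ∧ ∃ φ' ∈ SS, ∃ y' ∈ Tb b E, ‖y'‖ ≤ R ∧ y = y' + l ∧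
    ∀ e ∈ E, φ' (y' + e) = φ (y + e) := by
  obtain ⟨R, hR, hcpt⟩ := h.cpt
  refine ⟨R + ‖b‖, by positivity, fun φ hφ y hy => ?_⟩
  obtain ⟨l, hl, hlE, hlR⟩ := hcpt (y - b) hy
  obtain ⟨φ', hφ', h3⟩ := h.tr φ hφ l hl hlE
  refine ⟨l, hl, hlE, φ', hφ', y - l, sf_sub hy hlE, ?_, (sub_add_cancel y l).symm, fun e he => ?_⟩
  · have h4 : y - l = (y - b - l) + b := by abel
    rw [h4]
    exact (norm_add_le _ _).trans (by linarith)
  · rw [h3 _ (tb_add (sf_sub hy hlE) he)]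
    congr 1
    abel

/-- `Gd` and `Co` are invariant -/
theorem gd_add' (hL : LG Λ D Bad a) {δ' : ℝ} {y l : Vd (k + 1)} (hl : l ∈ Λ) : y + l ∈ Gd D δ' ↔ y ∈ Gd D δ' := by
  exact sf_gd hL hl

theorem co_add (hL : LG Λ D Bad a) {δ' ρ' : ℝ} {y l : Vd (k + 1)} (hl : l ∈ Λ) : y + l ∈ Co D Bad δ' ρ' ↔ y ∈ Co D Bad δ' ρ' := by
  have key : ∀ {y l : Vd (k + 1)}, l ∈ Λ → y ∈ Co D Bad δ' ρ' → y + l ∈ Co D Bad δ' ρ' := by
    intro y l hl hy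
    refine ⟨(sf_gd hL hl).2 hy.1, fun β hβ => ?_⟩
    have h1 := hy.2 _ (hL.bad_inv β hβ (-l) (Λ.neg_mem hl))
    have h2 : y - (β + -l) = y + l - β := by abel
    rwa [h2] at h1
  refine ⟨fun hy => ?_, key hl⟩
  have h1 := key (Λ.neg_mem hl) hy
  rwa [add_neg_cancel_right] at h1

end Pool.Agent.G3.R
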