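import Pool.Agent.G3.R.StepB
import Pool.Agent.G3.R.StepC
import Pool.Agent.G3.R.PrmI

/-!
# G3 R Step: all divided differences are bounded

`ddb_zero`: order `0` (`nv_near`, `Shs.unif`).
`ddb_step`: let `DDb j` hold for `j ≤ m` and fail for `m + 1`, at some `δ'`.  For every `n` there are nodes `σ n` of size `≤ 1 / (n + 1)`, `φ`, `y ∈ T ∩ Gd D δ'`, `v` with a divided difference `> n`.
`Nb n` = maximum of `1` and the supremum of all `‖dd (m + 1) (σ n) ..‖` over the core (finite: `Shs.unif`, `nv_near`: the values are `≤ 2`, the sum is at most `2 ∑ |dw|`).  `core_to_gd`: `n < K Nb n`, so `Nb n → ∞`.  Choose `φ n`, `y n ∈ T ∩ Co`,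
`v n` with a divided difference `≥ Nb n / 2`; translate (`Shs.red`, `co_add`); along an ultrafilter `y n → y₀`, `φ n = φ`, `v n → v₀` (unit sphere), `pr v₀ = φ y₀`; `Ψ, Θ, j` from `exists_prm_inv` at `y₀`, `v₀`.
`comb_lim` with `f i n z = φ (y n + σ n i w + z a)`, `c n i = dw (m + 1) (σ n) i / Nb n` (`kil_dd`, `scal_bd` with `core_to_gd` for `Gd D (δ / 4)`): `(Nb n)⁻¹ dd (m + 1) (σ n) (Ψ (nv v₀ (φ (y n + s w)))) → 0`.
`nv v₀ (φ y) = Θ (Ψ (nv v₀ (φ y)), y)`: `dd_comp` for `(t, ζ) ↦ Θ (t, y n + ζ w)` (the lower orders of `Ψ (nv v₀ φ)` are bounded: `dd_comp_le`), `dd_nv` to `v n`: `Nb n / 2 ≤ K (o (Nb n) + 1)`, contradiction.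
-/

set_option autoImplicit false

open Topology Filter Metric

namespace Pool.Agent.G3.R

open Pool.Agent.H36.BP (EN fs wd)
open Pool.Agent.H14.PP (IsCone CurveAt Tan)
open Pool.Agent.H62.EF (MN pr)
open Pool.Agent.AD (Vd Chart Charts IsGerm)
open Pool.Agent.TG
open Pool.Agent.G3.C (Gc HP nv nd nv_pr)
open Pool.Agent.G3.A

variable {N k : ℕ} {X : Set (EN N)} {Λ : AddSubgroup (Vd (k + 1))} {u : EN N → Vd (k + 1)} {D B Bad : Set (Vd (k + 1))} {a b w : Vd (k + 1)} {E : Submodule ℝ (Vd (k + 1))}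
  {SS : Set (Vd (k + 1) → MN N)} {J : ℕ} {α : Fin J → VForm X Λ u} {c₀ C₀ ρ δ : ℝ}

theorem ddb_zero (S : DA X Λ u D B Bad a α c₀ C₀ ρ δ) (hS : Shs X Λ u D a b E SS) (hw : w ∈ E) : DDb D (Tb b E) SS w 0 := ddb_zero' S hS hw

theorem ddb_step (S : DA X Λ u D B Bad a α c₀ C₀ ρ δ) (hS : Shs X Λ u D a b E SS) (hw : w ∈ E) {m : ℕ} (hm : ∀ j ≤ m, DDb D (Tb b E) SS w j) : DDb D (Tb b E) SS w (m + 1) := by
  by_contra hno
  obtain ⟨R, hseq⟩ := step_seq S hS hw hm hno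
  choose σ Nb φ y v hσ hNb hNb1 hcore hφ hyT hyC hyR hv hvφ hbig using hseq
  have hδ := S.lc.δ_pos
  have h𝒰 : ((hyperfilter ℕ : Ultrafilter ℕ) : Filter ℕ) ≤ atTop := by
    rw [← Nat.cofinite_eq_atTop]
    exact hyperfilter_le_cofinite
  obtain ⟨φ₀, y₀, v₀, hφ₀, hev, hyt, hy₀T, hy₀C, hvt, hv₀, hv₀φ⟩ := step_lim S hS (hyperfilter ℕ) hφ hyT hyC hyR hv hvφ
  have hy₀D : y₀ ∉ D := gd_notMem (by linarith) hy₀C.1
  have hX := S.geo.cone
  have hu := S.geo.tor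
  have hv₀0 : v₀ ≠ 0 := by
    rintro rfl
    rw [norm_zero] at hv₀
    exact zero_ne_one hv₀
  obtain ⟨hv₀X, hv₀u⟩ : v₀ ∈ X ∧ u v₀ - y₀ ∈ Λ := by
    obtain ⟨x, hx, hpx, hux⟩ := hS.fb hφ₀ hy₀T
    obtain ⟨c, hc, rfl⟩ := (Pool.Agent.H62.EF.pr_eq_iff hv₀0 (ne_zero hX hx)).1 (hv₀φ.trans hpx.symm)
    exact ⟨hX.smul_mem x hx c hc, smul_mem_lat hu hx hux hc⟩
  obtain ⟨j, R', Ψ, r, M, Θ, hΨ, hr, hΘ, hM, r', hr', hinv⟩ := exists_prm_inv S.geo S.sep hy₀D hv₀X hv₀ hv₀u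
  have h1 := step_comb S hS hw hm h𝒰 hφ₀ hσ hNb hNb1 hcore hyT hyt hy₀T hy₀C hv₀φ hΨ
  obtain ⟨K, hK, h2⟩ := step_low S hS hw hm h𝒰 hφ₀ hσ hyT hyt hy₀T (fun n => (hyC n).1) hy₀D hv (hev.mono fun n hn => by rw [hvφ n, hn]) hvt hv₀φ hΨ hr hΘ hM hr'
    fun y hy x hx hxb hux hin => (hinv y hy x hx hxb hux hin).2
  have hNbt : Tendsto Nb (hyperfilter ℕ : Ultrafilter ℕ) atTop := tendsto_atTop_mono hNb (tendsto_natCast_atTop_atTop.mono_left h𝒰)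
  have h3 := h1.norm.eventually_lt_const (show ‖(0 : ℂ)‖ < 1 / (8 * K) by rw [norm_zero]; positivity)
  have h4 := hNbt.eventually_gt_atTop (8 * K)
  obtain ⟨n, h2n, h3n, h4n, hn⟩ := (h2.and (h3.and (h4.and hev))).exists
  have hNpos : 0 < Nb n := lt_of_lt_of_le one_pos (hNb1 n)
  rw [norm_mul, norm_inv, Complex.norm_real, Real.norm_of_nonneg hNpos.le, inv_mul_lt_iff₀ hNpos] at h3n
  have h5 := hbig n
  rw [hn] at h5
  have h6 := h5.trans h2n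
  set d : ℝ := ‖dd (m + 1) (σ n) fun s : ℝ => Ψ (nv v₀ (φ₀ (y n + (s : ℂ) • w)))‖ with hd
  have h7 : K * d ≤ Nb n / 8 := by
    have h8 : K * d ≤ K * (Nb n * (1 / (8 * K))) := mul_le_mul_of_nonneg_left h3n.le hK.le
    refine h8.trans (le_of_eq ?_)
    field_simp
  have h9 : Nb n / 2 ≤ K * d + K := by linarith [h6, mul_add K d 1]
  linarith

theorem ddb (S : DA X Λ u D B Bad a α c₀ C₀ ρ δ) (hS : Shs X Λ u D a b E SS) (hw : w ∈ E) (m : ℕ) : DDb D (Tb b E) SS w m := by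
  induction m using Nat.strong_induction_on with
  | _ m ih =>
    rcases m with _ | m
    · exact ddb_zero S hS hw
    · exact ddb_step S hS hw fun j hj => ih j (by omega)

end Pool.Agent.G3.R
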