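import Pool.Agent.G3.R.Md

/-!
# G3 R StepA: order zero, and the sequences of the proof by contradiction
-/

set_option autoImplicit false

open Topology Filter Metric

namespace Pool.Agent.G3.R

open Pool.Agent.H36.BP (EN fs wd)
open Pool.Agent.H14.PP (IsCone CurveAt Tan)
open Pool.Agent.H62.EF (MN pr)
open Pool.Agent.AD (Vd Chart Charts IsGerm)
open Pool.Agent.TG
open Pool.Agent.G3.C (Gc HP nv nd nv_pr)
open Pool.Agent.G3.A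

variable {N k : ℕ} {X : Set (EN N)} {Λ : AddSubgroup (Vd (k + 1))} {u : EN N → Vd (k + 1)} {D B Bad : Set (Vd (k + 1))} {a b w : Vd (k + 1)} {E : Submodule ℝ (Vd (k + 1))}
  {SS : Set (Vd (k + 1) → MN N)} {J : ℕ} {α : Fin J → VForm X Λ u} {c₀ C₀ ρ δ : ℝ}

theorem norm_smul_w {s r : ℝ} (hr : |s| ≤ r) (w : Vd (k + 1)) : ‖(s : ℂ) • w‖ ≤ r * ‖w‖ := by
  rw [norm_smul, Complex.norm_real]
  exact mul_le_mul_of_nonneg_right hr (norm_nonneg _)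

/-- the values in the affine chart are bounded -/
theorem nv_le_two (hS : Shs X Λ u D a b E SS) (hL : LG Λ D Bad a) (hw : w ∈ E) {δ' : ℝ} (hδ' : 0 < δ') : ∃ r : ℝ, 0 < r ∧ ∀ φ ∈ SS, ∀ y ∈ Tb b E, y ∈ Gd D δ' → ∀ v : EN N, ‖v‖ = 1 →
    pr v = φ y → ∀ s : ℝ, |s| ≤ r → ‖nv v (φ (y + (s : ℂ) • w))‖ ≤ 2 := by
  obtain ⟨ε, hε, h1⟩ := nv_near (N := N) one_pos
  obtain ⟨r, hr, h2⟩ := hS.unif hL hδ' hε
  have hw1 : 0 < ‖w‖ + 1 := by positivity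
  refine ⟨r / (‖w‖ + 1), by positivity, fun φ hφ y hy hyG v hv hvφ s hs => ?_⟩
  have h3 : ‖y + (s : ℂ) • w - y‖ ≤ r := by
    rw [add_sub_cancel_left]
    refine (norm_smul_w hs w).trans ?_
    rw [div_mul_eq_mul_div, div_le_iff₀ hw1]
    nlinarith [norm_nonneg w]
  have h4 := h2 φ hφ y hy hyG (y + (s : ℂ) • w) (tb_add hy (smul_mem_E hw s)) h3
  rw [← hvφ] at h4
  have h5 := h1 v hv _ h4
  have h6 := norm_sub_norm_le (nv v (φ (y + (s : ℂ) • w))) v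
  rw [hv] at h6
  linarith

theorem ddb_zero' (S : DA X Λ u D B Bad a α c₀ C₀ ρ δ) (hS : Shs X Λ u D a b E SS) (hw : w ∈ E) : DDb D (Tb b E) SS w 0 := by
  intro δ' hδ'
  obtain ⟨r, hr, h1⟩ := nv_le_two hS S.lg hw hδ'
  refine ⟨r, 2, hr, by norm_num, fun φ hφ y hy hyG v hv hvφ σ hσ => ?_⟩
  rw [dd_zero]
  exact h1 φ hφ y hy hyG v hv hvφ (σ 0) (hσ.le 0 le_rfl)

/-- a near maximum -/
theorem near_max {A : Set ℝ} (hA : BddAbove A) : ∃ M : ℝ, 1 ≤ M ∧ (∀ x ∈ A, x ≤ M) ∧ (1 < M → ∃ x ∈ A, M / 2 ≤ x) := by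
  refine ⟨max 1 (sSup A), le_max_left _ _, fun x hx => (le_csSup hA hx).trans (le_max_right _ _), fun h => ?_⟩
  have h1 : max 1 (sSup A) = sSup A := by
    rcases max_choice 1 (sSup A) with h2 | h2
    · rw [h2] at h
      exact absurd h (lt_irrefl _)
    · exact h2
  have h3 : A.Nonempty := by
    by_contra hne
    rw [Set.not_nonempty_iff_eq_empty] at hne
    rw [h1, hne, Real.sSup_empty] at h
    linarith
  rw [h1] at h ⊢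
  obtain ⟨x, hx, hlt⟩ := exists_lt_of_lt_csSup h3 (show sSup A / 2 < sSup A by linarith)
  exact ⟨x, hx, hlt.le⟩

/-- the size of the divided difference of order `m` at `y` in the chart `nv v` -/
noncomputable def sz (w : Vd (k + 1)) (m : ℕ) (σ : ℕ → ℝ) (φ : Vd (k + 1) → MN N) (y : Vd (k + 1)) (v : EN N) : ℝ := ‖dd m σ fun s : ℝ => nv v (φ (y + (s : ℂ) • w))‖

/-- the sequences of the proof by contradiction -/
theorem step_seq (S : DA X Λ u D B Bad a α c₀ C₀ ρ δ) (hS : Shs X Λ u D a b E SS) (hw : w ∈ E) {m : ℕ} (hm : ∀ j ≤ m, DDb D (Tb b E) SS w j) (hno : ¬ DDb D (Tb b E) SS w (m + 1)) :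
    ∃ R : ℝ, ∀ n : ℕ, ∃ (σ : ℕ → ℝ) (Nb : ℝ) (φ : Vd (k + 1) → MN N) (y : Vd (k + 1)) (v : EN N), Nod (m + 1) σ (1 / ((n : ℝ) + 1)) ∧ (n : ℝ) ≤ Nb ∧ 1 ≤ Nb ∧
      (∀ ψ ∈ SS, ∀ y' ∈ Tb b E, y' ∈ Co D Bad δ ρ → ∀ v' : EN N, ‖v'‖ = 1 → pr v' = ψ y' → sz w (m + 1) σ ψ y' v' ≤ Nb) ∧ φ ∈ SS ∧ y ∈ Tb b E ∧ y ∈ Co D Bad δ ρ ∧ ‖y‖ ≤ R ∧ ‖v‖ = 1 ∧
      pr v = φ y ∧ Nb / 2 ≤ sz w (m + 1) σ φ y v := by
  unfold DDb at hno
  push Not at hno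
  obtain ⟨δ', hδ', hno⟩ := hno
  obtain ⟨r₁, K, hr₁, hK, hcg⟩ := core_to_gd S hS hw hm hδ'
  obtain ⟨r₂, hr₂, h2⟩ := nv_le_two hS S.lg hw (show 0 < 2 * δ by linarith [S.lc.δ_pos])
  obtain ⟨R, hR, hred⟩ := hS.red
  refine ⟨R, fun n => ?_⟩
  set rn : ℝ := min (1 / ((n : ℝ) + 1)) (min r₁ r₂) with hrn
  have hrn0 : 0 < rn := lt_min (by positivity) (lt_min hr₁ hr₂)
  obtain ⟨φ', hφ', y', hy', hyG', v', hv', hvφ', σ, hσ, hbig⟩ := hno rn (K * ((n : ℝ) + 2)) hrn0 (by positivity)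
  have hσ1 : Nod (m + 1) σ (1 / ((n : ℝ) + 1)) := hσ.mono le_rfl (min_le_left _ _)
  have hσ2 : Nod (m + 1) σ r₁ := hσ.mono le_rfl ((min_le_right _ _).trans (min_le_left _ _))
  have hσ3 : Nod (m + 1) σ r₂ := hσ.mono le_rfl ((min_le_right _ _).trans (min_le_right _ _))
  -- the supremum over the core
  set A : Set ℝ := {x | ∃ ψ ∈ SS, ∃ y ∈ Tb b E, y ∈ Co D Bad δ ρ ∧ ∃ v : EN N, ‖v‖ = 1 ∧ pr v = ψ y ∧ x = sz w (m + 1) σ ψ y v} with hA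
  have hbdd : BddAbove A := by
    refine ⟨∑ i ∈ Finset.range (m + 1 + 1), |dw (m + 1) σ i| * 2, ?_⟩
    rintro x ⟨ψ, hψ, y, hy, hyC, v, hv, hvψ, rfl⟩
    unfold sz dd
    refine (norm_sum_le _ _).trans (Finset.sum_le_sum fun i hi => ?_)
    rw [norm_smul, Complex.norm_real, Real.norm_eq_abs]
    refine mul_le_mul_of_nonneg_left (h2 ψ hψ y hy hyC.1 v hv hvψ (σ i) (hσ3.le i ?_)) (abs_nonneg _)
    have := Finset.mem_range.1 hi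
    omega
  obtain ⟨Nb, hNb1, hNbA, hNbx⟩ := near_max hbdd
  have hcore : ∀ ψ ∈ SS, ∀ y' ∈ Tb b E, y' ∈ Co D Bad δ ρ → ∀ v' : EN N, ‖v'‖ = 1 → pr v' = ψ y' → sz w (m + 1) σ ψ y' v' ≤ Nb :=
    fun ψ hψ y hy hyC v hv hvψ => hNbA _ ⟨ψ, hψ, y, hy, hyC, v, hv, hvψ, rfl⟩
  have h3 := hcg σ Nb hσ2 hNb1 hcore φ' hφ' y' hy' hyG' v' hv' hvφ'
  have h4 : (n : ℝ) + 2 < Nb := by
    have h5 : K * ((n : ℝ) + 2) < K * Nb := hbig.trans_le h3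
    exact lt_of_mul_lt_mul_left h5 hK.le
  have hn0 : (0 : ℝ) ≤ n := Nat.cast_nonneg n
  obtain ⟨x, ⟨φ, hφ, y, hy, hyC, v, hv, hvφ, rfl⟩, hx⟩ := hNbx (by linarith)
  obtain ⟨l, hl, hlE, φt, hφt, yt, hyt, hytR, rfl, hφe⟩ := hred φ hφ y hy
  refine ⟨σ, Nb, φt, yt, v, hσ1, by linarith, hNb1, hcore, hφt, hyt, (co_add S.lg hl).1 hyC, hytR, hv, ?_, ?_⟩
  · rw [hvφ]
    have h5 := hφe 0 E.zero_mem
    rw [add_zero, add_zero] at h5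
    exact h5.symm
  · have h6 : sz w (m + 1) σ φt yt v = sz w (m + 1) σ φ (yt + l) v := by
      unfold sz
      congr 1
      exact dd_congr fun i _ => by rw [hφe _ (smul_mem_E hw (σ i))]
    rw [h6]
    exact hx

end Pool.Agent.G3.R
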