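import Pool.Agent.G3.R.StepA
import Pool.Agent.G3.R.Bd
import Pool.Agent.G3.R.Comb

/-!
# G3 R StepB: the limit of the sequences of the proof by contradiction
-/

set_option autoImplicit false

open Topology Filter Metric

namespace Pool.Agent.G3.R

open Pool.Agent.H36.BP (EN fs wd)
open Pool.Agent.H14.PP (IsCone CurveAt Tan)
open Pool.Agent.H62.EF (MN pr)
open Pool.Agent.AD (Vd Chart Charts IsGerm)
open Pool.Agent.TG
open Pool.Agent.G3.C (Gc HP nv nd nv_pr)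
open Pool.Agent.G3.A

variable {N k : ℕ} {X : Set (EN N)} {Λ : AddSubgroup (Vd (k + 1))} {u : EN N → Vd (k + 1)} {D B Bad : Set (Vd (k + 1))} {a b w : Vd (k + 1)} {E : Submodule ℝ (Vd (k + 1))}
  {SS : Set (Vd (k + 1) → MN N)} {J : ℕ} {α : Fin J → VForm X Λ u} {c₀ C₀ ρ δ : ℝ}

theorem co_closed (D Bad : Set (Vd (k + 1))) (δ ρ : ℝ) : IsClosed (Co D Bad δ ρ) := by
  have h : Co D Bad δ ρ = Gd D (2 * δ) ∩ ⋂ β ∈ Bad, {y | ρ / 2 ≤ ‖y - β‖} := by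
    ext y
    simp [Co]
  rw [h]
  refine (gd_closed D _).inter (isClosed_biInter fun β _ => isClosed_le continuous_const (by fun_prop))

theorem step_lim (S : DA X Λ u D B Bad a α c₀ C₀ ρ δ) (hS : Shs X Λ u D a b E SS) (𝒰 : Ultrafilter ℕ) {R : ℝ} {φ : ℕ → Vd (k + 1) → MN N} {y : ℕ → Vd (k + 1)} {v : ℕ → EN N}
    (hφ : ∀ n, φ n ∈ SS) (hyT : ∀ n, y n ∈ Tb b E) (hyC : ∀ n, y n ∈ Co D Bad δ ρ) (hyR : ∀ n, ‖y n‖ ≤ R) (hv : ∀ n, ‖v n‖ = 1) (hvφ : ∀ n, pr (v n) = φ n (y n)) :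
    ∃ (φ₀ : Vd (k + 1) → MN N) (y₀ : Vd (k + 1)) (v₀ : EN N), φ₀ ∈ SS ∧ (∀ᶠ n in (𝒰 : Filter ℕ), φ n = φ₀) ∧ Tendsto y 𝒰 (𝓝 y₀) ∧ y₀ ∈ Tb b E ∧ y₀ ∈ Co D Bad δ ρ ∧
      Tendsto v 𝒰 (𝓝 v₀) ∧ ‖v₀‖ = 1 ∧ pr v₀ = φ₀ y₀ := by
  obtain ⟨φ₀, hφ₀, hev⟩ : ∃ φ₀ ∈ SS, ∀ᶠ n in (𝒰 : Filter ℕ), φ n = φ₀ := by
    have h1 : (⋃ ψ ∈ SS, {n | φ n = ψ}) ∈ 𝒰 := by
      have h2 : (⋃ ψ ∈ SS, {n | φ n = ψ}) = Set.univ := by
        ext n
        simp [hφ n]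
      rw [h2]
      exact Filter.univ_mem
    obtain ⟨ψ, hψ, h2⟩ := (Ultrafilter.finite_biUnion_mem_iff hS.fin).1 h1
    exact ⟨ψ, hψ, h2⟩
  obtain ⟨y₀, -, hy₀⟩ := (isCompact_closedBall (0 : Vd (k + 1)) R).ultrafilter_le_nhds (𝒰.map y) (by
    rw [Ultrafilter.coe_map, le_principal_iff, mem_map]
    refine univ_mem' fun n => ?_
    simpa using hyR n)
  obtain ⟨v₀, hv₀, hv₀'⟩ := (isCompact_sphere (0 : EN N) 1).ultrafilter_le_nhds (𝒰.map v) (by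
    rw [Ultrafilter.coe_map, le_principal_iff, mem_map]
    refine univ_mem' fun n => ?_
    simpa using hv n)
  have hyt : Tendsto y 𝒰 (𝓝 y₀) := hy₀
  have hvt : Tendsto v 𝒰 (𝓝 v₀) := hv₀'
  have hv₀1 : ‖v₀‖ = 1 := by simpa using hv₀
  have hv₀0 : v₀ ≠ 0 := by
    rintro rfl
    rw [norm_zero] at hv₀1
    exact zero_ne_one hv₀1
  have hy₀T : y₀ ∈ Tb b E := (tb_closed b E).mem_of_tendsto hyt (Eventually.of_forall hyT)
  have hy₀C : y₀ ∈ Co D Bad δ ρ := (co_closed D Bad δ ρ).mem_of_tendsto hyt (Eventually.of_forall hyC)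
  refine ⟨φ₀, y₀, v₀, hφ₀, hev, hyt, hy₀T, hy₀C, hvt, hv₀1, ?_⟩
  have hy₀D : y₀ ∉ D := gd_notMem (by linarith [S.lc.δ_pos]) hy₀C.1
  have h1 : Tendsto (fun n => pr (v n)) 𝒰 (𝓝 (pr v₀)) := (Pool.Agent.H62.EF.continuousAt_pr hv₀0).tendsto.comp hvt
  have h2 : Tendsto (fun n => φ₀ (y n)) 𝒰 (𝓝 (φ₀ y₀)) :=
    ((hS.sht φ₀ hφ₀).cont y₀ hy₀T hy₀D).tendsto.comp (tendsto_nhdsWithin_iff.2 ⟨hyt, Eventually.of_forall hyT⟩)
  refine tendsto_nhds_unique h1 (h2.congr' ?_)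
  filter_upwards [hev] with n hn
  rw [hvφ n, hn]

theorem step_comb (S : DA X Λ u D B Bad a α c₀ C₀ ρ δ) (hS : Shs X Λ u D a b E SS) (hw : w ∈ E) {m : ℕ} (hm : ∀ j ≤ m, DDb D (Tb b E) SS w j) {𝒰 : Ultrafilter ℕ}
    (h𝒰 : (𝒰 : Filter ℕ) ≤ atTop) {φ : Vd (k + 1) → MN N} (hφ : φ ∈ SS) {σ : ℕ → ℕ → ℝ} {Nb : ℕ → ℝ} {y : ℕ → Vd (k + 1)} (hσ : ∀ n, Nod (m + 1) (σ n) (1 / ((n : ℝ) + 1)))
    (hNb : ∀ n : ℕ, (n : ℝ) ≤ Nb n) (hNb1 : ∀ n, 1 ≤ Nb n)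
    (hcore : ∀ n, ∀ ψ ∈ SS, ∀ y' ∈ Tb b E, y' ∈ Co D Bad δ ρ → ∀ v' : EN N, ‖v'‖ = 1 → pr v' = ψ y' → sz w (m + 1) (σ n) ψ y' v' ≤ Nb n) (hyT : ∀ n, y n ∈ Tb b E)
    {y₀ : Vd (k + 1)} (hy : Tendsto y 𝒰 (𝓝 y₀)) (hy₀T : y₀ ∈ Tb b E) (hy₀C : y₀ ∈ Co D Bad δ ρ) {j : Fin J} {v₀ : EN N} (hv₀φ : pr v₀ = φ y₀) {R' : ℝ} {Ψ : EN N → ℂ}
    (hΨ : Prm (α j) y₀ v₀ R' Ψ) :
    Tendsto (fun n => (Nb n : ℂ)⁻¹ * dd (m + 1) (σ n) fun s : ℝ => Ψ (nv v₀ (φ (y n + (s : ℂ) • w)))) 𝒰 (𝓝 0) := by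
  have hδ := S.lc.δ_pos
  have hy₀D : y₀ ∉ D := gd_notMem (by linarith) hy₀C.1
  have hrn : Tendsto (fun n : ℕ => 1 / ((n : ℝ) + 1)) 𝒰 (𝓝 0) := tendsto_one_div_add_atTop_nhds_zero_nat.mono_left h𝒰
  have hσ0 : ∀ i, i ≤ m + 1 → Tendsto (fun n => σ n i) 𝒰 (𝓝 0) := fun i hi => squeeze_zero_norm (fun n => (hσ n).le i hi) hrn
  have hNbt : Tendsto Nb 𝒰 atTop := tendsto_atTop_mono hNb (tendsto_natCast_atTop_atTop.mono_left h𝒰)
  -- the curves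
  set yy : Fin (m + 2) → ℕ → Vd (k + 1) := fun i n => y n + (σ n i : ℂ) • w with hyy
  have hyyT : ∀ i n, yy i n ∈ Tb b E := fun i n => tb_add (hyT n) (smul_mem_E hw _)
  have hyyt : ∀ i, Tendsto (yy i) 𝒰 (𝓝 y₀) := by
    intro i
    have h1 : Tendsto (fun n => ((σ n i : ℝ) : ℂ) • w) 𝒰 (𝓝 (((0 : ℝ) : ℂ) • w)) :=
      ((Complex.continuous_ofReal.tendsto 0).comp (hσ0 i (by have := i.isLt; omega))).smul_const w
    rw [Complex.ofReal_zero, zero_smul] at h1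
    have h2 := hy.add h1
    rwa [add_zero] at h2
  -- the sum is the divided difference
  have hsum : ∀ (n : ℕ) (F : Vd (k + 1) → ℂ) (e : Vd (k + 1)), ∑ i : Fin (m + 2), ((dw (m + 1) (σ n) i : ℝ) : ℂ) / (Nb n : ℂ) * F (yy i n + e) =
      (Nb n : ℂ)⁻¹ * dd (m + 1) (σ n) fun s : ℝ => F (y n + (s : ℂ) • w + e) := by
    intro n F e
    unfold dd
    rw [Finset.mul_sum, Finset.sum_range]
    refine Finset.sum_congr rfl fun i _ => ?_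
    simp only [hyy, smul_eq_mul]
    ring
  obtain ⟨rs, Cs, cs, hrs, hCs, hcs, hsb⟩ := scal_bd S hS hw hm (‖y₀‖) j
  obtain ⟨rg, Kg, hrg, hKg, hcg⟩ := core_to_gd S hS hw hm (show 0 < δ / 4 by linarith)
  have hev1 : ∀ r : ℝ, 0 < r → ∀ᶠ n : ℕ in (𝒰 : Filter ℕ), 1 / ((n : ℝ) + 1) ≤ r := fun r hr => (hrn.eventually_lt_const hr).mono fun n hn => hn.le
  have key := comb_lim S.geo S.lg S.cr S.good S.lc (α := α j) (𝒰 := 𝒰) (y := yy) (y₀ := y₀) hyyt (f := fun i n z => φ (yy i n + z • a)) (g := fun z => φ (y₀ + z • a))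
    (c := fun n i => ((dw (m + 1) (σ n) i : ℝ) : ℂ) / (Nb n : ℂ)) (C := Cs * max Kg 1) (c' := cs)
    (fun i => Eventually.of_forall fun n => (hS.sht φ hφ).line _ (hyyT i n)) ((hS.sht φ hφ).line _ hy₀T)
    (fun i => hS.lm hφ (hyyT i) hy₀T (hyyt i)) ?_ hcs ?_ hy₀D hy₀C.2 hΨ (by simpa using hv₀φ)
  · refine key.congr fun n => ?_
    have h1 := hsum n (fun y => Ψ (nv v₀ (φ y))) 0
    simp only [add_zero] at h1
    simp only [zero_smul, add_zero]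
    exact h1
  · -- `hb1`
    intro x _ h hh
    have hyx : Tendsto (fun n => y n + x • a) 𝒰 (𝓝 (y₀ + x • a)) := hy.add_const _
    obtain ⟨t, ht, h1⟩ := kil_dd (m := m + 1) w hσ hrn hNbt hyx hh
    refine ⟨t, ht, fun ε hε => ?_⟩
    filter_upwards [h1 ε hε] with n hn x' hx'
    have h2 := hn ((x' - x) • a) (by rw [norm_smul, S.lg.norm, mul_one, ← dist_eq_norm]; exact hx')
    rw [hsum n h (x' • a)]
    refine le_of_eq_of_le ?_ h2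
    congr 2
    refine dd_congr fun i _ => ?_
    congr 1
    rw [sub_smul]
    abel
  · -- `hb2`
    intro z₀ hz₀
    obtain ⟨Ψ', v', R'', t, hP, hv', ht, hb⟩ := hsb y₀ hy₀T le_rfl φ hφ z₀ hz₀
    have ht' : 0 < min t (δ / 8) := lt_min ht (by linarith)
    refine ⟨Ψ', v', R'', min t (δ / 8), hP, hv', ht', ?_⟩
    have h1 : ∀ᶠ n in (𝒰 : Filter ℕ), ‖y n - y₀‖ < min t (δ / 8) := by
      have := hy.eventually (ball_mem_nhds y₀ ht')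
      filter_upwards [this] with n hn
      rwa [dist_eq_norm] at hn
    filter_upwards [h1, hev1 rs hrs, hev1 rg hrg] with n hn hn2 hn3 x hx
    rw [hsum n (fun y => Ψ' (nv v' (φ y))) (x • a)]
    have hxt : x ∈ ball z₀ t := ball_subset_ball (min_le_left _ _) hx
    have hxG : y n + x • a ∈ Gd D (δ / 4) := by
      have h2 : ‖(y n + x • a) - (y₀ + z₀ • a)‖ ≤ δ / 4 := by
        have e : (y n + x • a) - (y₀ + z₀ • a) = (y n - y₀) + (x - z₀) • a := by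
          rw [sub_smul]
          abel
        rw [e]
        refine (norm_add_le _ _).trans ?_
        rw [norm_smul, S.lg.norm, mul_one, ← dist_eq_norm x z₀]
        have h3 := (mem_ball.1 hx).trans_le (min_le_right t (δ / 8))
        have h4 := hn.trans_le (min_le_right t (δ / 8))
        linarith
      have h3 := gd_near hz₀ h2
      have e : δ / 2 - δ / 4 = δ / 4 := by ring
      rwa [e] at h3
    have hxT : y n + x • a ∈ Tb b E := tb_add (hyT n) (hS.mem x)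
    have hNK : 1 ≤ max Kg 1 * Nb n := by
      have h5 := le_max_right Kg 1
      have h6 := hNb1 n
      nlinarith
    have h7 := hb (σ n) (max Kg 1 * Nb n) ((hσ n).mono le_rfl hn2) hNK (y n) (hyT n) (hn.trans_le (min_le_left _ _)) x hxt fun v'' hv'' hvφ'' => by
      have h8 := hcg (σ n) (Nb n) ((hσ n).mono le_rfl hn3) (hNb1 n) (hcore n) φ hφ (y n + x • a) hxT hxG v'' hv'' hvφ''
      refine h8.trans (mul_le_mul_of_nonneg_right (le_max_left _ _) ?_)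
      linarith [hNb1 n]
    have hNpos : 0 < Nb n := lt_of_lt_of_le one_pos (hNb1 n)
    rw [norm_mul, norm_inv, Complex.norm_real, Real.norm_of_nonneg hNpos.le]
    have h9 : (dd (m + 1) (σ n) fun s : ℝ => Ψ' (nv v' (φ (y n + (s : ℂ) • w + x • a)))) = dd (m + 1) (σ n) fun s : ℝ => Ψ' (nv v' (φ (y n + x • a + (s : ℂ) • w))) :=
      dd_congr fun i _ => by rw [add_right_comm]
    rw [h9, inv_mul_le_iff₀ hNpos]
    refine h7.trans (le_of_eq ?_)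
    ring

end Pool.Agent.G3.R
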